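import Mathlib

set_option autoImplicit false

namespace Pool.Agent.Helper391.WheelChi

open Finset Polynomial
open scoped Classical

variable {V : Type} [DecidableEq V]

/-! ## Definitions (everything lives on a fixed vertex type `V`, graphs are looked at inside a finset `S`) -/

/-- cut-based connectivity of a finite vertex set (empty set and singletons are connected) -/
def Conn (G : SimpleGraph V) (A : Finset V) : Prop :=
  ∀ B : Finset V, B ⊆ A → B.Nonempty → (A \ B).Nonempty → ∃ x ∈ B, ∃ y ∈ A \ B, G.Adj x y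

/-- `G[S]` is 2-connected (an edge `K_2` is allowed) -/
def TwoConn (G : SimpleGraph V) (S : Finset V) : Prop :=
  2 ≤ #S ∧ ∀ F : Finset V, #F ≤ 1 → Conn G (S \ F)

/-- `G[S]` is 3-connected -/
def ThreeConn (G : SimpleGraph V) (S : Finset V) : Prop :=
  4 ≤ #S ∧ ∀ F : Finset V, #F ≤ 2 → Conn G (S \ F)

/-- identify `v` with `u` (to be used on `S.erase v`); loops and multiple edges are dropped -/
def contr (G : SimpleGraph V) (u v : V) : SimpleGraph V where
  Adj a b := a ≠ b ∧ (G.Adj a b ∨ (a = u ∧ G.Adj v b) ∨ (b = u ∧ G.Adj v a))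
  symm := ⟨fun a b h => ⟨h.1.symm, by
    rcases h.2 with h | h | h
    · exact Or.inl h.symm
    · exact Or.inr (Or.inr h)
    · exact Or.inr (Or.inl h)⟩⟩
  loopless := ⟨fun a h => h.1 rfl⟩

/-- delete the edge `uv` -/
def del (G : SimpleGraph V) (u v : V) : SimpleGraph V where
  Adj a b := G.Adj a b ∧ ¬ ((a = u ∧ b = v) ∨ (a = v ∧ b = u))
  symm := ⟨fun a b h => ⟨h.1.symm, by
    rintro (⟨h1, h2⟩ | ⟨h1, h2⟩)
    · exact h.2 (Or.inr ⟨h2, h1⟩)
    · exact h.2 (Or.inl ⟨h2, h1⟩)⟩⟩
  loopless := ⟨fun a h => G.loopless.irrefl a h.1⟩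

/-- add the edge `xy` -/
def addE (G : SimpleGraph V) (x y : V) : SimpleGraph V where
  Adj a b := a ≠ b ∧ (G.Adj a b ∨ (a = x ∧ b = y) ∨ (a = y ∧ b = x))
  symm := ⟨fun a b h => ⟨h.1.symm, by
    rcases h.2 with h | ⟨h1, h2⟩ | ⟨h1, h2⟩
    · exact Or.inl h.symm
    · exact Or.inr (Or.inr ⟨h2, h1⟩)
    · exact Or.inr (Or.inl ⟨h2, h1⟩)⟩⟩
  loopless := ⟨fun a h => h.1 rfl⟩

/-- `r`-cliques inside `S` -/
noncomputable def cl (G : SimpleGraph V) (r : ℕ) (S : Finset V) : Finset (Finset V) :=
  (S.powersetCard r).filter (fun T => G.IsClique (T : Set V))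

/-- number of edges inside `S` -/
noncomputable def ec (G : SimpleGraph V) (S : Finset V) : ℕ := #(cl G 2 S)

/-- number of triangles inside `S` -/
noncomputable def tc (G : SimpleGraph V) (S : Finset V) : ℕ := #(cl G 3 S)

/-- neighbours of `a` inside `S` -/
noncomputable def nb (G : SimpleGraph V) (S : Finset V) (a : V) : Finset V :=
  S.filter (fun x => G.Adj a x)

/-- excess of the number of edges over that of a wheel -/
noncomputable def jj (G : SimpleGraph V) (S : Finset V) : ℤ := (ec G S : ℤ) - 2 * #S + 2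

/-- `T` sees a connected piece of `S \ T` from all its vertices -/
def Thick (G : SimpleGraph V) (S T : Finset V) : Prop :=
  ∃ K ⊆ S \ T, K.Nonempty ∧ Conn G K ∧ ∀ a ∈ T, ∃ x ∈ K, G.Adj a x

/-- number of thick triangles that are rainbow for the (arbitrary) colouring `C` -/
noncomputable def th (G : SimpleGraph V) (S : Finset V) (C : V → Fin 4) : ℕ :=
  #((cl G 3 S).filter (fun T => Thick G S T ∧ Set.InjOn C (T : Set V)))

/-- a 2-separation `S = A ⊔ B ⊔ {x,y}` -/
structure TwoSep (G : SimpleGraph V) (S : Finset V) (x y : V) (A B : Finset V) : Prop where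
  hS : S = insert x (insert y (A ∪ B))
  hxy : x ≠ y
  xA : x ∉ A
  xB : x ∉ B
  yA : y ∉ A
  yB : y ∉ B
  dis : Disjoint A B
  neA : A.Nonempty
  neB : B.Nonempty
  noE : ∀ a ∈ A, ∀ b ∈ B, ¬ G.Adj a b

/-- number of proper `k`-colourings of `G[S]` -/
noncomputable def Ncol (G : SimpleGraph V) (S : Finset V) (k : ℕ) : ℕ :=
  Nat.card {c : S → Fin k // ∀ a b : S, G.Adj a b → c a ≠ c b}

/-- the wheel of the frozen statement -/
def Wh (n : ℕ) : SimpleGraph (Option (Fin n)) :=
  SimpleGraph.fromRel (fun a b : Option (Fin n) =>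
            a = none ∨ ∃ i j : Fin n, a = some i ∧ b = some j ∧
              (SimpleGraph.cycleGraph n).Adj i j)

/-- the numerical bound for rainbow thick triangles -/
def gg (b : ℤ) : ℤ :=
  if b ≤ 1 then 0 else if b ≤ 3 then 4 else if b = 4 then 8 else if b = 5 then 6
    else if b = 6 then 8 else if b = 7 then 9 else if b = 8 then 12 else b + 2

end Pool.Agent.Helper391.WheelChi
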