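import Mathlib
import Pool.Agent.Helper391.Wheel.Defs

set_option autoImplicit false

namespace Pool.Agent.Helper391.WheelChi

open Finset Polynomial
open scoped Classical

variable {V : Type} [DecidableEq V]


/-- a separation of `S` minus the edge `uv` minus one more vertex -/
private structure ESep (G : SimpleGraph V) (S : Finset V) (u v z : V) (C D : Finset V) : Prop where
  uS : u ∈ S
  vS : v ∈ S
  adj : G.Adj u v
  zS : z ∈ S
  zu : z ≠ u
  zv : z ≠ v
  neC : C.Nonempty
  neD : D.Nonempty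
  dis : ∀ x ∈ C, x ∉ D
  mem : ∀ x, (x ∈ C ∨ x ∈ D) ↔ (x ∈ S ∧ x ≠ u ∧ x ≠ v ∧ x ≠ z)
  noE : ∀ x ∈ C, ∀ y ∈ D, ¬ G.Adj x y

private theorem ESep.symm {G : SimpleGraph V} {S : Finset V} {u v z : V} {C D : Finset V}
    (h : ESep G S u v z C D) : ESep G S u v z D C where
  uS := h.uS
  vS := h.vS
  adj := h.adj
  zS := h.zS
  zu := h.zu
  zv := h.zv
  neC := h.neD
  neD := h.neC
  dis := fun x hx hx' => h.dis x hx' hx
  mem := fun x => by rw [or_comm]; exact h.mem x
  noE := fun x hx y hy hxy => h.noE y hy x hx hxy.symm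

/-- Step 1 -/
private theorem esep_of_not (G : SimpleGraph V) (S : Finset V) (h : ThreeConn G S) (h5 : 5 ≤ #S)
    (u v : V) (hu : u ∈ S) (hv : v ∈ S) (huv : G.Adj u v)
    (hn : ¬ ThreeConn (contr G u v) (S.erase v)) : ∃ z C D, ESep G S u v z C D := by
  have hne : u ≠ v := huv.ne
  have hcard : 4 ≤ #(S.erase v) := by
    rw [Finset.card_erase_of_mem hv]
    omega
  unfold ThreeConn at hn
  push Not at hn
  obtain ⟨F, hF, hnc⟩ := hn hcard
  unfold Conn at hnc
  push Not at hnc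
  obtain ⟨B, hBsub, hBne, hBc, hnoE⟩ := hnc
  have hBmem : ∀ x ∈ B, x ∈ S ∧ x ≠ v ∧ x ∉ F := by
    intro x hx
    have := hBsub hx
    rw [mem_sdiff, mem_erase] at this
    exact ⟨this.1.2, this.1.1, this.2⟩
  set B' := (S.erase v \ F) \ B with hB'
  have hB'mem : ∀ x, x ∈ B' ↔ (x ∈ S ∧ x ≠ v ∧ x ∉ F ∧ x ∉ B) := by
    intro x
    rw [hB', mem_sdiff, mem_sdiff, mem_erase]
    tauto
  have hnoG : ∀ x ∈ B, ∀ y ∈ B', ¬ G.Adj x y := by
    intro x hx y hy hxy
    exact hnoE x hx y hy ⟨hxy.ne, Or.inl hxy⟩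
  by_cases huF : u ∈ F
  · by_cases hz : ∃ z ∈ F, z ≠ u ∧ z ≠ v ∧ z ∈ S
    · obtain ⟨z, hzF, hzu, hzv, hzS⟩ := hz
      have hFeq : F = {u, z} := by
        symm
        apply Finset.eq_of_subset_of_card_le
        · intro x hx
          rw [mem_insert, mem_singleton] at hx
          rcases hx with rfl | rfl
          · exact huF
          · exact hzF
        · rw [Finset.card_pair hzu.symm]
          exact hF
      have hFmem : ∀ x, x ∉ F ↔ (x ≠ u ∧ x ≠ z) := by
        intro x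
        rw [hFeq, mem_insert, mem_singleton]
        tauto
      refine ⟨z, B, B', ⟨hu, hv, huv, hzS, hzu, hzv, hBne, hBc, ?_, ?_, hnoG⟩⟩
      · intro x hx hx'
        rw [hB'mem] at hx'
        exact hx'.2.2.2 hx
      · intro x
        rw [hB'mem, hFmem]
        constructor
        · rintro (hx | hx)
          · obtain ⟨a1, a2, a3⟩ := hBmem x hx
            rw [hFmem] at a3
            exact ⟨a1, a3.1, a2, a3.2⟩
          · exact ⟨hx.1, hx.2.2.1.1, hx.2.1, hx.2.2.1.2⟩
        · rintro ⟨a1, a2, a3, a4⟩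
          by_cases hx : x ∈ B
          · exact Or.inl hx
          · exact Or.inr ⟨a1, a3, ⟨a2, a4⟩, hx⟩
    · exfalso
      push Not at hz
      have hc := h.2 {u, v} (Finset.card_le_two)
      obtain ⟨x, hx, y, hy, hxy⟩ := hc B (by
        intro x hx
        obtain ⟨a1, a2, a3⟩ := hBmem x hx
        rw [mem_sdiff, mem_insert, mem_singleton]
        refine ⟨a1, ?_⟩
        rintro (rfl | rfl)
        · exact a3 huF
        · exact a2 rfl) hBne (by
        obtain ⟨x, hx⟩ := hBc
        rw [hB'mem] at hx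
        refine ⟨x, ?_⟩
        rw [mem_sdiff, mem_sdiff, mem_insert, mem_singleton]
        refine ⟨⟨hx.1, ?_⟩, hx.2.2.2⟩
        rintro (rfl | rfl)
        · exact hx.2.2.1 huF
        · exact hx.2.1 rfl)
      refine hnoG x hx y ?_ hxy
      rw [mem_sdiff, mem_sdiff, mem_insert, mem_singleton] at hy
      rw [hB'mem]
      push Not at hy
      refine ⟨hy.1.1, hy.1.2.2, ?_, hy.2⟩
      intro hyF
      exact hz y hyF hy.1.2.1 hy.1.2.2 hy.1.1
  · exfalso
    have hcard' : #(F.erase v) ≤ 2 := le_trans (Finset.card_erase_le) hF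
    have hc := h.2 (F.erase v) hcard'
    by_cases huB : u ∈ B
    · obtain ⟨x, hx, y, hy, hxy⟩ := hc (insert v B) (by
        intro x hx
        rw [mem_insert] at hx
        rw [mem_sdiff, mem_erase]
        rcases hx with rfl | hx
        · exact ⟨hv, fun h => h.1 rfl⟩
        · obtain ⟨a1, a2, a3⟩ := hBmem x hx
          exact ⟨a1, fun h => a3 h.2⟩) ⟨v, mem_insert_self _ _⟩ (by
        obtain ⟨x, hx⟩ := hBc
        rw [hB'mem] at hx
        refine ⟨x, ?_⟩
        rw [mem_sdiff, mem_sdiff, mem_erase, mem_insert]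
        refine ⟨⟨hx.1, fun h => hx.2.2.1 h.2⟩, ?_⟩
        rintro (rfl | h)
        · exact hx.2.1 rfl
        · exact hx.2.2.2 h)
      have hyB' : y ∈ B' := by
        rw [mem_sdiff, mem_sdiff, mem_erase, mem_insert] at hy
        push Not at hy
        rw [hB'mem]
        exact ⟨hy.1.1, hy.2.1, hy.1.2 hy.2.1, hy.2.2⟩
      rw [mem_insert] at hx
      rcases hx with rfl | hx
      · refine hnoE u huB y hyB' ⟨?_, Or.inr (Or.inl ⟨rfl, hxy⟩)⟩
        rintro rfl
        rw [hB'mem] at hyB'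
        exact hyB'.2.2.2 huB
      · exact hnoG x hx y hyB' hxy
    · have huB' : u ∈ B' := by
        rw [hB'mem]
        exact ⟨hu, hne, huF, huB⟩
      obtain ⟨x, hx, y, hy, hxy⟩ := hc B (by
        intro x hx
        rw [mem_sdiff, mem_erase]
        obtain ⟨a1, a2, a3⟩ := hBmem x hx
        exact ⟨a1, fun h => a3 h.2⟩) hBne (by
        refine ⟨u, ?_⟩
        rw [mem_sdiff, mem_sdiff, mem_erase]
        exact ⟨⟨hu, fun h => huF h.2⟩, huB⟩)
      rw [mem_sdiff, mem_sdiff, mem_erase] at hy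
      by_cases hyv : y = v
      · subst hyv
        refine hnoE x hx u huB' ⟨?_, Or.inr (Or.inr ⟨rfl, hxy.symm⟩)⟩
        rintro rfl
        exact huB hx
      · refine hnoG x hx y ?_ hxy
        rw [hB'mem]
        refine ⟨hy.1.1, hyv, ?_, hy.2⟩
        intro hyF
        exact hy.1.2 ⟨hyv, hyF⟩

/-- the key claim of step 4 -/
private theorem side_claim (G : SimpleGraph V) (S : Finset V) (h : ThreeConn G S)
    {u v z w z' : V} {C D P Q : Finset V} (hs : ESep G S u v z C D) (hs' : ESep G S z w z' P Q)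
    (hw : w ∈ D)
    (hu : u ≠ z' → u ∈ P) (hv : v ≠ z' → v ∈ P) : ∀ x, (x ∈ C ∨ x = u ∨ x = v) → x ≠ z' → x ∈ P := by
  by_contra hcon
  push Not at hcon
  obtain ⟨x0, hx0, hx0z, hx0P⟩ := hcon
  -- every element of the form above is in P or Q
  have hPQ : ∀ x, (x ∈ C ∨ x = u ∨ x = v) → x ≠ z' → x ∈ P ∨ x ∈ Q := by
    intro x hx hxz
    rw [hs'.mem]
    rcases hx with hx | rfl | rfl
    · have h1 := (hs.mem x).mp (Or.inl hx)
      refine ⟨h1.1, h1.2.2.2, ?_, hxz⟩
      rintro rfl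
      exact hs.dis _ hx hw
    · refine ⟨hs.uS, hs.zu.symm, ?_, hxz⟩
      rintro rfl
      exact ((hs.mem _).mp (Or.inr hw)).2.1 rfl
    · refine ⟨hs.vS, hs.zv.symm, ?_, hxz⟩
      rintro rfl
      exact ((hs.mem _).mp (Or.inr hw)).2.2.1 rfl
  set Y := C.filter (fun x => x ∈ Q) with hY
  have hx0Y : x0 ∈ Y := by
    have h1 := (hPQ x0 hx0 hx0z).resolve_left hx0P
    rw [hY, mem_filter]
    refine ⟨?_, h1⟩
    rcases hx0 with hx | rfl | rfl
    · exact hx
    · exact absurd (hu hx0z) hx0P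
    · exact absurd (hv hx0z) hx0P
  have huv : u ≠ v := hs.adj.ne
  have hc := h.2 {z, z'} (Finset.card_le_two)
  obtain ⟨x, hx, y, hy, hxy⟩ := hc Y (by
    intro x hx
    rw [hY, mem_filter] at hx
    have h1 := (hs.mem x).mp (Or.inl hx.1)
    have h2 := (hs'.mem x).mp (Or.inr hx.2)
    rw [mem_sdiff, mem_insert, mem_singleton]
    refine ⟨h1.1, ?_⟩
    rintro (h3 | h3)
    · exact h1.2.2.2 h3
    · exact h2.2.2.2 h3) ⟨x0, hx0Y⟩ (by
    have huC : u ∉ C := fun hc => ((hs.mem u).mp (Or.inl hc)).2.1 rfl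
    have hvC : v ∉ C := fun hc => ((hs.mem v).mp (Or.inl hc)).2.2.1 rfl
    by_cases huz : u = z'
    · refine ⟨v, ?_⟩
      rw [mem_sdiff, mem_sdiff, mem_insert, mem_singleton, hY, mem_filter]
      refine ⟨⟨hs.vS, ?_⟩, fun h3 => hvC h3.1⟩
      rintro (h3 | h3)
      · exact hs.zv h3.symm
      · exact huv (huz.trans h3.symm)
    · refine ⟨u, ?_⟩
      rw [mem_sdiff, mem_sdiff, mem_insert, mem_singleton, hY, mem_filter]
      refine ⟨⟨hs.uS, ?_⟩, fun h3 => huC h3.1⟩
      rintro (h3 | h3)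
      · exact hs.zu h3.symm
      · exact huz h3)
  rw [hY, mem_filter] at hx
  rw [mem_sdiff, mem_sdiff, mem_insert, mem_singleton, hY, mem_filter] at hy
  push Not at hy
  obtain ⟨⟨hyS, hyz, hyz'⟩, hyY⟩ := hy
  have hyX : y ∈ C ∨ y = u ∨ y = v := by
    by_cases hyu : y = u
    · exact Or.inr (Or.inl hyu)
    by_cases hyv : y = v
    · exact Or.inr (Or.inr hyv)
    left
    have h1 := (hs.mem y).mpr ⟨hyS, hyu, hyv, hyz⟩
    rcases h1 with h1 | h1
    · exact h1
    · exact absurd hxy (hs.noE x hx.1 y h1)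
  have hyP : y ∈ P := by
    rcases hPQ y hyX hyz' with h1 | h1
    · exact h1
    · exfalso
      rcases hyX with h2 | rfl | rfl
      · exact hyY h2 h1
      · exact hs'.dis _ (hu hyz') h1
      · exact hs'.dis _ (hv hyz') h1
  exact hs'.noE y hyP x hx.2 hxy.symm

private theorem descend (G : SimpleGraph V) (S : Finset V) (h : ThreeConn G S)
    {u v z w z' : V} {C D P Q : Finset V} (hs : ESep G S u v z C D) (hs' : ESep G S z w z' P Q)
    (hw : w ∈ D)
    (hu : u ≠ z' → u ∈ P) (hv : v ≠ z' → v ∈ P) : #Q < #D := by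
  have hcl := side_claim G S h hs hs' hw hu hv
  apply Finset.card_lt_card
  rw [Finset.ssubset_iff_of_subset]
  · refine ⟨w, hw, ?_⟩
    intro hwQ
    exact ((hs'.mem w).mp (Or.inr hwQ)).2.2.1 rfl
  · intro y hy
    have h1 := (hs'.mem y).mp (Or.inr hy)
    by_contra hyD
    have hyX : y ∈ C ∨ y = u ∨ y = v := by
      by_cases hyu : y = u
      · exact Or.inr (Or.inl hyu)
      by_cases hyv : y = v
      · exact Or.inr (Or.inr hyv)
      left
      exact ((hs.mem y).mpr ⟨h1.1, hyu, hyv, h1.2.1⟩).resolve_right hyD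
    exact hs'.dis y (hcl y hyX h1.2.2.2) hy

private theorem no_esep (G : SimpleGraph V) (S : Finset V) (h : ThreeConn G S)
    (hstar : ∀ u ∈ S, ∀ v ∈ S, G.Adj u v → ∃ z C D, ESep G S u v z C D) (n : ℕ) :
    ∀ (u v z : V) (C D : Finset V), ESep G S u v z C D → #D = n → False := by
  induction n using Nat.strong_induction_on with
  | _ n ih =>
    intro u v z C D hs hn
    have hc := h.2 {u, v} (Finset.card_le_two)
    have hDmem : ∀ x ∈ D, x ∈ S ∧ x ≠ u ∧ x ≠ v ∧ x ≠ z := fun x hx => (hs.mem x).mp (Or.inr hx)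
    obtain ⟨w, hw, y, hy, hwy⟩ := hc D (by
      intro x hx
      have h1 := hDmem x hx
      rw [mem_sdiff, mem_insert, mem_singleton]
      refine ⟨h1.1, ?_⟩
      rintro (h3 | h3)
      · exact h1.2.1 h3
      · exact h1.2.2.1 h3) hs.neD (by
      refine ⟨z, ?_⟩
      rw [mem_sdiff, mem_sdiff, mem_insert, mem_singleton]
      refine ⟨⟨hs.zS, ?_⟩, fun h3 => (hDmem z h3).2.2.2 rfl⟩
      rintro (h3 | h3)
      · exact hs.zu h3
      · exact hs.zv h3)
    have hyz : y = z := by
      rw [mem_sdiff, mem_sdiff, mem_insert, mem_singleton] at hy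
      push Not at hy
      by_contra hyz
      have h1 := (hs.mem y).mpr ⟨hy.1.1, hy.1.2.1, hy.1.2.2, hyz⟩
      rcases h1 with h1 | h1
      · exact hs.noE y h1 w hw hwy.symm
      · exact hy.2 h1
    subst hyz
    obtain ⟨z', C', D', hs'⟩ := hstar y hs.zS w (hDmem w hw).1 hwy.symm
    have huv : u ≠ v := hs.adj.ne
    -- u or v in C' or D'
    have huPQ : u ≠ z' → u ∈ C' ∨ u ∈ D' := by
      intro huz
      rw [hs'.mem]
      refine ⟨hs.uS, hs.zu.symm, ?_, huz⟩
      rintro rfl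
      exact (hDmem _ hw).2.1 rfl
    have hvPQ : v ≠ z' → v ∈ C' ∨ v ∈ D' := by
      intro hvz
      rw [hs'.mem]
      refine ⟨hs.vS, hs.zv.symm, ?_, hvz⟩
      rintro rfl
      exact (hDmem _ hw).2.2.1 rfl
    have hside : ((u ≠ z' → u ∈ C') ∧ (v ≠ z' → v ∈ C')) ∨
        ((u ≠ z' → u ∈ D') ∧ (v ≠ z' → v ∈ D')) := by
      by_cases huz : u = z'
      · have hvz : v ≠ z' := fun h3 => huv (huz.trans h3.symm)
        rcases hvPQ hvz with h1 | h1
        · exact Or.inl ⟨fun h3 => absurd huz h3, fun _ => h1⟩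
        · exact Or.inr ⟨fun h3 => absurd huz h3, fun _ => h1⟩
      · rcases huPQ huz with h1 | h1
        · left
          refine ⟨fun _ => h1, fun hvz => ?_⟩
          rcases hvPQ hvz with h2 | h2
          · exact h2
          · exact absurd hs.adj (hs'.noE u h1 v h2)
        · right
          refine ⟨fun _ => h1, fun hvz => ?_⟩
          rcases hvPQ hvz with h2 | h2
          · exact absurd hs.adj.symm (hs'.noE v h2 u h1)
          · exact h2
    rcases hside with ⟨h1, h2⟩ | ⟨h1, h2⟩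
    · have hlt := descend G S h hs hs' hw h1 h2
      exact ih (#D') (by omega) y w z' C' D' hs' rfl
    · have hlt := descend G S h hs hs'.symm hw h1 h2
      exact ih (#C') (by omega) y w z' D' C' hs'.symm rfl

theorem exists_contractible (G : SimpleGraph V) (S : Finset V) (h : ThreeConn G S)
    (h5 : 5 ≤ #S) :
    ∃ u ∈ S, ∃ v ∈ S, G.Adj u v ∧ ThreeConn (contr G u v) (S.erase v) := by
  by_contra hcon
  push Not at hcon
  have hstar : ∀ u ∈ S, ∀ v ∈ S, G.Adj u v → ∃ z C D, ESep G S u v z C D :=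
    fun u hu v hv huv => esep_of_not G S h h5 u v hu hv huv (hcon u hu v hv huv)
  have hne : S.Nonempty := Finset.card_pos.mp (by omega)
  obtain ⟨a, ha⟩ := hne
  have hc := h.2 ∅ (by simp)
  rw [Finset.sdiff_empty] at hc
  obtain ⟨x, hx, y, hy, hxy⟩ := hc {a} (Finset.singleton_subset_iff.mpr ha)
    (Finset.singleton_nonempty a) (by
      rw [← Finset.card_pos, Finset.card_sdiff_of_subset (Finset.singleton_subset_iff.mpr ha),
        Finset.card_singleton]
      omega)
  rw [mem_singleton] at hx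
  subst hx
  obtain ⟨z, C, D, hs⟩ := hstar x ha y (mem_sdiff.mp hy).1 hxy
  exact no_esep G S h hstar _ x y z C D hs rfl


end Pool.Agent.Helper391.WheelChi
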