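import Mathlib
import Pool.Agent.Helper391.Wheel.Defs

set_option autoImplicit false

namespace Pool.Agent.Helper391.WheelChi

open Finset Polynomial
open scoped Classical

variable {V : Type} [DecidableEq V]


/-- number of proper colourings of `G[S]` which agree with `d` on `X` -/
private noncomputable def NcolX (G : SimpleGraph V) (S X : Finset V) (k : ℕ) (d : V → Fin k) : ℕ :=
  Nat.card {c : S → Fin k // (∀ a b : S, G.Adj a b → c a ≠ c b) ∧ ∀ v : S, (v : V) ∈ X → c v = d v}

private theorem NcolX_mul (G : SimpleGraph V) (S S1 S2 X : Finset V) (k : ℕ) (d : V → Fin k)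
    (h1 : S1 ⊆ S) (h2 : S2 ⊆ S) (hc : ∀ v ∈ S, v ∈ S1 ∨ v ∈ S2)
    (hX : ∀ v, v ∈ S1 → v ∈ S2 → v ∈ X)
    (hE : ∀ a ∈ S, ∀ b ∈ S, G.Adj a b → (a ∈ S1 ∧ b ∈ S1) ∨ (a ∈ S2 ∧ b ∈ S2)) :
    NcolX G S X k d = NcolX G S1 X k d * NcolX G S2 X k d := by
  unfold NcolX
  rw [← Nat.card_prod]
  refine Nat.card_congr ?_
  refine
    { toFun := fun c => (⟨fun v => c.1 ⟨v, h1 v.2⟩, ?_, ?_⟩, ⟨fun v => c.1 ⟨v, h2 v.2⟩, ?_, ?_⟩)
      invFun := fun p => ⟨fun v => if h : (v : V) ∈ S1 then p.1.1 ⟨v, h⟩ else
        p.2.1 ⟨v, (hc v v.2).resolve_left h⟩, ?_, ?_⟩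
      left_inv := ?_
      right_inv := ?_ }
  · intro a b hab
    exact c.2.1 ⟨a, h1 a.2⟩ ⟨b, h1 b.2⟩ hab
  · intro v hv
    exact c.2.2 ⟨v, h1 v.2⟩ hv
  · intro a b hab
    exact c.2.1 ⟨a, h2 a.2⟩ ⟨b, h2 b.2⟩ hab
  · intro v hv
    exact c.2.2 ⟨v, h2 v.2⟩ hv
  · have key : ∀ v : S, ∀ h : (v : V) ∈ S2, (if h : (v : V) ∈ S1 then p.1.1 ⟨v, h⟩ else
        p.2.1 ⟨v, (hc v v.2).resolve_left h⟩) = p.2.1 ⟨v, h⟩ := by
      intro v h
      by_cases h' : (v : V) ∈ S1
      · rw [dif_pos h']
        have hx := hX v h' h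
        rw [p.1.2.2 ⟨v, h'⟩ hx, p.2.2.2 ⟨v, h⟩ hx]
      · rw [dif_neg h']
    intro a b hab
    rcases hE a a.2 b b.2 hab with ⟨ha, hb⟩ | ⟨ha, hb⟩
    · simp only [dif_pos ha, dif_pos hb]
      exact p.1.2.1 ⟨a, ha⟩ ⟨b, hb⟩ hab
    · simp only
      rw [key a ha, key b hb]
      exact p.2.2.1 ⟨a, ha⟩ ⟨b, hb⟩ hab
  · intro v hv
    by_cases h' : (v : V) ∈ S1
    · simp only [dif_pos h']
      exact p.1.2.2 ⟨v, h'⟩ hv
    · simp only [dif_neg h']
      exact p.2.2.2 ⟨v, _⟩ hv
  · intro c
    apply Subtype.ext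
    funext v
    by_cases h' : (v : V) ∈ S1
    · simp only [dif_pos h']
    · simp only [dif_neg h']
  · intro p
    apply Prod.ext
    · apply Subtype.ext
      funext v
      have h' : (v : V) ∈ S1 := v.2
      simp only [dif_pos h']
    · apply Subtype.ext
      funext v
      have h : (v : V) ∈ S2 := v.2
      by_cases h' : (v : V) ∈ S1
      · simp only [dif_pos h']
        have hx := hX v h' h
        rw [p.1.2.2 ⟨v, h'⟩ hx, p.2.2.2 v hx]
      · simp only [dif_neg h']

private theorem NcolX_perm (G : SimpleGraph V) (S X : Finset V) (k : ℕ) (d : V → Fin k)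
    (σ : Equiv.Perm (Fin k)) :
    NcolX G S X k (fun v => σ (d v)) = NcolX G S X k d := by
  unfold NcolX
  symm
  refine Nat.card_congr ?_
  refine
    { toFun := fun c => ⟨fun v => σ (c.1 v), ?_, ?_⟩
      invFun := fun c => ⟨fun v => σ.symm (c.1 v), ?_, ?_⟩
      left_inv := ?_
      right_inv := ?_ }
  · intro a b hab h
    exact c.2.1 a b hab (σ.injective h)
  · intro v hv
    simp only
    rw [c.2.2 v hv]
  · intro a b hab h
    exact c.2.1 a b hab (σ.symm.injective h)
  · intro v hv
    simp only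
    rw [c.2.2 v hv, Equiv.symm_apply_apply]
  · intro c
    apply Subtype.ext
    funext v
    simp
  · intro c
    apply Subtype.ext
    funext v
    simp

private theorem NcolX_congr (G : SimpleGraph V) (S X : Finset V) (k : ℕ) (d d' : V → Fin k)
    (h : ∀ v ∈ X, d v = d' v) : NcolX G S X k d = NcolX G S X k d' := by
  unfold NcolX
  refine Nat.card_congr (Equiv.subtypeEquivRight ?_)
  intro c
  refine and_congr_right (fun _ => ?_)
  constructor
  · intro h1 v hv
    rw [h1 v hv, h v hv]
  · intro h1 v hv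
    rw [h1 v hv, h v hv]

private theorem Ncol_eq_NcolX_empty (G : SimpleGraph V) (S : Finset V) (k : ℕ) (d : V → Fin k) :
    Ncol G S k = NcolX G S ∅ k d := by
  unfold Ncol NcolX
  refine Nat.card_congr (Equiv.subtypeEquivRight ?_)
  intro c
  simp

private theorem Ncol_zero (G : SimpleGraph V) (S : Finset V) (hS : S.Nonempty) : Ncol G S 0 = 0 := by
  unfold Ncol
  obtain ⟨v, hv⟩ := hS
  haveI : IsEmpty {c : S → Fin 0 // ∀ a b : S, G.Adj a b → c a ≠ c b} :=
    ⟨fun c => (c.1 ⟨v, hv⟩).elim0⟩
  exact Nat.card_of_isEmpty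

private theorem Ncol_empty (G : SimpleGraph V) (k : ℕ) : Ncol G ∅ k = 1 := by
  unfold Ncol
  haveI : Unique {c : ((∅ : Finset V) : Type) → Fin k // ∀ a b : (∅ : Finset V), G.Adj a b → c a ≠ c b} :=
    { default := ⟨fun v => absurd v.2 (Finset.notMem_empty _), fun a => absurd a.2 (Finset.notMem_empty _)⟩
      uniq := fun c => by
        apply Subtype.ext
        funext v
        exact absurd v.2 (Finset.notMem_empty _) }
  exact Nat.card_unique

private theorem Ncol_sum1 (G : SimpleGraph V) (S : Finset V) (x : V) (hx : x ∈ S) (k : ℕ) :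
    Ncol G S k = ∑ α : Fin k, NcolX G S {x} k (fun _ => α) := by
  unfold Ncol NcolX
  rw [← Nat.card_sigma]
  refine Nat.card_congr ?_
  refine (Equiv.sigmaFiberEquiv (fun c : {c : S → Fin k // ∀ a b : S, G.Adj a b → c a ≠ c b} =>
    c.1 ⟨x, hx⟩)).symm.trans ?_
  refine Equiv.sigmaCongrRight (fun α => ?_)
  refine
    { toFun := fun c => ⟨c.1.1, c.1.2, ?_⟩
      invFun := fun c => ⟨⟨c.1, c.2.1⟩, ?_⟩
      left_inv := ?_
      right_inv := ?_ }
  · intro v hv
    have : v = ⟨x, hx⟩ := Subtype.ext (Finset.mem_singleton.1 hv)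
    rw [this]
    exact c.2
  · exact c.2.2 ⟨x, hx⟩ (Finset.mem_singleton_self x)
  · intro c
    rfl
  · intro c
    rfl

private theorem Ncol_sum2 (G : SimpleGraph V) (S : Finset V) (x y : V) (hxy : x ≠ y) (hx : x ∈ S) (hy : y ∈ S) (k : ℕ) :
    Ncol G S k = ∑ p : Fin k × Fin k, NcolX G S {x, y} k (fun v => if v = x then p.1 else p.2) := by
  unfold Ncol NcolX
  rw [← Nat.card_sigma]
  refine Nat.card_congr ?_
  refine (Equiv.sigmaFiberEquiv (fun c : {c : S → Fin k // ∀ a b : S, G.Adj a b → c a ≠ c b} =>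
    (c.1 ⟨x, hx⟩, c.1 ⟨y, hy⟩))).symm.trans ?_
  refine Equiv.sigmaCongrRight (fun p => ?_)
  refine
    { toFun := fun c => ⟨c.1.1, c.1.2, ?_⟩
      invFun := fun c => ⟨⟨c.1, c.2.1⟩, ?_⟩
      left_inv := ?_
      right_inv := ?_ }
  · intro v hv
    have hc := c.2
    rcases Finset.mem_insert.1 hv with h | h
    · have : v = ⟨x, hx⟩ := Subtype.ext h
      rw [this]
      simp only [if_true]
      exact congrArg Prod.fst hc
    · have : v = ⟨y, hy⟩ := Subtype.ext (Finset.mem_singleton.1 h)
      rw [this]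
      simp only [if_neg hxy.symm]
      exact congrArg Prod.snd hc
  · have e1 := c.2.2 ⟨x, hx⟩ (by simp)
    have e2 := c.2.2 ⟨y, hy⟩ (by simp)
    simp only [if_true] at e1
    simp only [if_neg hxy.symm] at e2
    exact Prod.ext e1 e2
  · intro c
    rfl
  · intro c
    rfl

private theorem Ncol_one (G : SimpleGraph V) (S : Finset V) (x : V) (hx : x ∈ S) (k : ℕ) (α : Fin k) :
    Ncol G S k = k * NcolX G S {x} k (fun _ => α) := by
  rw [Ncol_sum1 G S x hx k]
  have : ∀ β : Fin k, NcolX G S {x} k (fun _ => β) = NcolX G S {x} k (fun _ => α) := by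
    intro β
    have h := NcolX_perm G S {x} k (fun _ => α) (Equiv.swap α β)
    rw [← h]
    simp
  rw [Finset.sum_congr rfl (fun β _ => this β)]
  simp

private theorem Ncol_two (G : SimpleGraph V) (S : Finset V) (x y : V) (hxy : G.Adj x y) (hx : x ∈ S) (hy : y ∈ S)
    (k : ℕ) (α β : Fin k) (hαβ : α ≠ β) :
    Ncol G S k = k * (k - 1) * NcolX G S {x, y} k (fun v => if v = x then α else β) := by
  have hne : x ≠ y := hxy.ne
  rw [Ncol_sum2 G S x y hne hx hy k]
  have h0 : ∀ p : Fin k × Fin k, p.1 = p.2 →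
      NcolX G S {x, y} k (fun v => if v = x then p.1 else p.2) = 0 := by
    intro p hp
    unfold NcolX
    haveI : IsEmpty {c : S → Fin k // (∀ a b : S, G.Adj a b → c a ≠ c b) ∧
        ∀ v : S, (v : V) ∈ ({x, y} : Finset V) → c v = (fun v => if v = x then p.1 else p.2) (v : V)} := by
      refine ⟨fun c => ?_⟩
      have e1 := c.2.2 ⟨x, hx⟩ (by simp)
      have e2 := c.2.2 ⟨y, hy⟩ (by simp)
      simp only [if_true] at e1
      simp only [if_neg hne.symm] at e2
      refine c.2.1 ⟨x, hx⟩ ⟨y, hy⟩ hxy ?_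
      rw [e1, e2, hp]
    exact Nat.card_of_isEmpty
  have h1 : ∀ p : Fin k × Fin k, p.1 ≠ p.2 →
      NcolX G S {x, y} k (fun v => if v = x then p.1 else p.2) =
      NcolX G S {x, y} k (fun v => if v = x then α else β) := by
    intro p hp
    obtain ⟨γ, δ⟩ := p
    simp only at hp ⊢
    -- permutation sending α to γ and β to δ
    obtain ⟨σ, hσ1, hσ2⟩ : ∃ σ : Equiv.Perm (Fin k), σ α = γ ∧ σ β = δ := by
      refine ⟨(Equiv.swap α γ).trans (Equiv.swap (Equiv.swap α γ β) δ), ?_, ?_⟩
      · simp only [Equiv.trans_apply, Equiv.swap_apply_left]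
        refine Equiv.swap_apply_of_ne_of_ne ?_ hp
        intro h
        have h2 : Equiv.swap α γ α = Equiv.swap α γ β := by rw [Equiv.swap_apply_left]; exact h
        exact hαβ ((Equiv.swap α γ).injective h2)
      · simp
    have h := NcolX_perm G S {x, y} k (fun v => if v = x then α else β) σ
    rw [← h]
    congr 1
    funext v
    by_cases hv : v = x
    · simp [hv, hσ1]
    · simp [hv, hσ2]
  rw [← Finset.sum_filter_add_sum_filter_not Finset.univ (fun p : Fin k × Fin k => p.1 = p.2)]
  rw [Finset.sum_eq_zero (fun p hp => h0 p (Finset.mem_filter.1 hp).2), zero_add,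
    Finset.sum_congr rfl (fun p hp => h1 p (Finset.mem_filter.1 hp).2), Finset.sum_const, smul_eq_mul]
  congr 1
  have hc : #(Finset.univ.filter (fun p : Fin k × Fin k => p.1 = p.2)) +
      #(Finset.univ.filter (fun p : Fin k × Fin k => ¬ p.1 = p.2)) = #(Finset.univ : Finset (Fin k × Fin k)) :=
    Finset.card_filter_add_card_filter_not _
  have hd : #(Finset.univ.filter (fun p : Fin k × Fin k => p.1 = p.2)) = k := by
    have : Finset.univ.filter (fun p : Fin k × Fin k => p.1 = p.2) =
        Finset.univ.image (fun i : Fin k => (i, i)) := by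
      ext p
      simp only [Finset.mem_filter, Finset.mem_univ, true_and, Finset.mem_image]
      constructor
      · intro h
        exact ⟨p.1, Prod.ext rfl h⟩
      · rintro ⟨i, rfl⟩
        rfl
    rw [this, Finset.card_image_of_injective _ (fun a b h => (Prod.ext_iff.1 h).1), Finset.card_univ,
      Fintype.card_fin]
  have hu : #(Finset.univ : Finset (Fin k × Fin k)) = k * k := by
    rw [Finset.card_univ, Fintype.card_prod, Fintype.card_fin]
  rw [hd, hu] at hc
  have : k * (k - 1) = k * k - k := by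
    rw [Nat.mul_sub, mul_one]
  rw [this]
  have hcc : #(Finset.univ.filter (fun p : Fin k × Fin k => ¬ p.1 = p.2)) = k * k - k := by omega
  convert hcc

theorem Ncol_glue0 (G : SimpleGraph V) (A B : Finset V) (dis : Disjoint A B)
    (noE : ∀ a ∈ A, ∀ b ∈ B, ¬ G.Adj a b) (k : ℕ) :
    Ncol G (A ∪ B) k = Ncol G A k * Ncol G B k := by
  rcases Nat.eq_zero_or_pos k with hk | hk
  · subst hk
    rcases A.eq_empty_or_nonempty with hA | hA
    · subst hA
      rw [Finset.empty_union, Ncol_empty, one_mul]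
    · rw [Ncol_zero G A hA, zero_mul]
      exact Ncol_zero G _ (hA.mono Finset.subset_union_left)
  · set d : V → Fin k := fun _ => ⟨0, hk⟩
    rw [Ncol_eq_NcolX_empty G (A ∪ B) k d, Ncol_eq_NcolX_empty G A k d, Ncol_eq_NcolX_empty G B k d]
    refine NcolX_mul G (A ∪ B) A B ∅ k d Finset.subset_union_left Finset.subset_union_right
      (fun v hv => Finset.mem_union.1 hv) ?_ ?_
    · intro v h1 h2
      exact absurd h2 (Finset.disjoint_left.1 dis h1)
    · intro a ha b hb hab
      rcases Finset.mem_union.1 ha with ha | ha <;> rcases Finset.mem_union.1 hb with hb | hb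
      · exact Or.inl ⟨ha, hb⟩
      · exact absurd hab (noE a ha b hb)
      · exact absurd hab.symm (noE b hb a ha)
      · exact Or.inr ⟨ha, hb⟩

theorem Ncol_glue1 (G : SimpleGraph V) (x : V) (A B : Finset V)
    (xA : x ∉ A) (xB : x ∉ B) (dis : Disjoint A B)
    (noE : ∀ a ∈ A, ∀ b ∈ B, ¬ G.Adj a b) (k : ℕ) :
    Ncol G (insert x (A ∪ B)) k * k = Ncol G (insert x A) k * Ncol G (insert x B) k := by
  rcases Nat.eq_zero_or_pos k with hk | hk
  · subst hk
    rw [Ncol_zero G (insert x A) (Finset.insert_nonempty x A), mul_zero, zero_mul]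
  · have h1 := Ncol_one G (insert x (A ∪ B)) x (Finset.mem_insert_self _ _) k ⟨0, hk⟩
    have h2 := Ncol_one G (insert x A) x (Finset.mem_insert_self _ _) k ⟨0, hk⟩
    have h3 := Ncol_one G (insert x B) x (Finset.mem_insert_self _ _) k ⟨0, hk⟩
    have hm := NcolX_mul G (insert x (A ∪ B)) (insert x A) (insert x B) {x} k (fun _ => ⟨0, hk⟩)
      (Finset.insert_subset_insert _ Finset.subset_union_left)
      (Finset.insert_subset_insert _ Finset.subset_union_right) ?_ ?_ ?_
    · rw [h1, h2, h3, hm]
      ring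
    · intro v hv
      rcases Finset.mem_insert.1 hv with h | h
      · left; rw [h]; exact Finset.mem_insert_self _ _
      · rcases Finset.mem_union.1 h with h | h
        · exact Or.inl (Finset.mem_insert_of_mem h)
        · exact Or.inr (Finset.mem_insert_of_mem h)
    · intro v h1 h2
      rcases Finset.mem_insert.1 h1 with h | h
      · rw [h]; exact Finset.mem_singleton_self _
      · rcases Finset.mem_insert.1 h2 with h' | h'
        · rw [h']; exact Finset.mem_singleton_self _
        · exact absurd h' (Finset.disjoint_left.1 dis h)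
    · intro a ha b hb hab
      simp only [Finset.mem_insert, Finset.mem_union] at ha hb ⊢
      have e1 := noE a
      have e2 := noE b
      have hs := hab.symm
      by_contra hcon
      rcases ha with ha | ha | ha <;> rcases hb with hb | hb | hb
      · exact hcon (Or.inl ⟨Or.inl ha, Or.inl hb⟩)
      · exact hcon (Or.inl ⟨Or.inl ha, Or.inr hb⟩)
      · exact hcon (Or.inr ⟨Or.inl ha, Or.inr hb⟩)
      · exact hcon (Or.inl ⟨Or.inr ha, Or.inl hb⟩)
      · exact hcon (Or.inl ⟨Or.inr ha, Or.inr hb⟩)
      · exact e1 ha b hb hab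
      · exact hcon (Or.inr ⟨Or.inr ha, Or.inl hb⟩)
      · exact e2 hb a ha hs
      · exact hcon (Or.inr ⟨Or.inr ha, Or.inr hb⟩)

theorem Ncol_glue2 (G : SimpleGraph V) (x y : V) (A B : Finset V) (hxy : G.Adj x y)
    (xA : x ∉ A) (xB : x ∉ B) (yA : y ∉ A) (yB : y ∉ B) (dis : Disjoint A B)
    (noE : ∀ a ∈ A, ∀ b ∈ B, ¬ G.Adj a b) (k : ℕ) :
    Ncol G (insert x (insert y (A ∪ B))) k * (k * (k - 1)) =
      Ncol G (insert x (insert y A)) k * Ncol G (insert x (insert y B)) k := by
  rcases Nat.lt_or_ge k 2 with hk | hk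
  · have hz : ∀ C : Finset V, Ncol G (insert x (insert y C)) k = 0 := by
      intro C
      unfold Ncol
      haveI : IsEmpty {c : ((insert x (insert y C) : Finset V) : Type) → Fin k //
          ∀ a b : ((insert x (insert y C) : Finset V) : Type), G.Adj a b → c a ≠ c b} := by
        refine ⟨fun c => ?_⟩
        haveI : Subsingleton (Fin k) := by
          rw [Fin.subsingleton_iff_le_one]; omega
        exact c.2 ⟨x, by simp⟩ ⟨y, by simp⟩ hxy (Subsingleton.elim _ _)
      exact Nat.card_of_isEmpty
    rw [hz, hz, zero_mul, zero_mul]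
  · have hne : (⟨0, by omega⟩ : Fin k) ≠ ⟨1, by omega⟩ := by
      intro h
      have := Fin.mk.inj h
      omega
    have h1 := Ncol_two G (insert x (insert y (A ∪ B))) x y hxy (by simp) (by simp) k _ _ hne
    have h2 := Ncol_two G (insert x (insert y A)) x y hxy (by simp) (by simp) k _ _ hne
    have h3 := Ncol_two G (insert x (insert y B)) x y hxy (by simp) (by simp) k _ _ hne
    have hm := NcolX_mul G (insert x (insert y (A ∪ B))) (insert x (insert y A)) (insert x (insert y B))
      {x, y} k (fun v => if v = x then ⟨0, by omega⟩ else ⟨1, by omega⟩)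
      (Finset.insert_subset_insert _ (Finset.insert_subset_insert _ Finset.subset_union_left))
      (Finset.insert_subset_insert _ (Finset.insert_subset_insert _ Finset.subset_union_right)) ?_ ?_ ?_
    · rw [h1, h2, h3, hm]
      ring
    · intro v hv
      simp only [Finset.mem_insert, Finset.mem_union] at hv ⊢
      tauto
    · intro v h1 h2
      simp only [Finset.mem_insert, Finset.mem_singleton] at h1 h2 ⊢
      have hdv : v ∈ A → v ∉ B := fun h => Finset.disjoint_left.1 dis h
      rcases h1 with h | h | h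
      · exact Or.inl h
      · exact Or.inr h
      · rcases h2 with h' | h' | h'
        · exact Or.inl h'
        · exact Or.inr h'
        · exact absurd h' (hdv h)
    · intro a ha b hb hab
      simp only [Finset.mem_insert, Finset.mem_union] at ha hb ⊢
      have e1 : a ∈ A → b ∈ B → False := fun h h' => noE a h b h' hab
      have e2 : b ∈ A → a ∈ B → False := fun h h' => noE b h a h' hab.symm
      by_cases haA : a ∈ A
      · left
        refine ⟨Or.inr (Or.inr haA), ?_⟩
        rcases hb with hb | hb | hb | hb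
        · exact Or.inl hb
        · exact Or.inr (Or.inl hb)
        · exact Or.inr (Or.inr hb)
        · exact (e1 haA hb).elim
      · by_cases hbA : b ∈ A
        · left
          refine ⟨?_, Or.inr (Or.inr hbA)⟩
          rcases ha with ha | ha | ha | ha
          · exact Or.inl ha
          · exact Or.inr (Or.inl ha)
          · exact Or.inr (Or.inr ha)
          · exact (e2 hbA ha).elim
        · right
          constructor
          · rcases ha with ha | ha | ha | ha
            · exact Or.inl ha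
            · exact Or.inr (Or.inl ha)
            · exact absurd ha haA
            · exact Or.inr (Or.inr ha)
          · rcases hb with hb | hb | hb | hb
            · exact Or.inl hb
            · exact Or.inr (Or.inl hb)
            · exact absurd hb hbA
            · exact Or.inr (Or.inr hb)


end Pool.Agent.Helper391.WheelChi
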