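import Mathlib
import Pool.Agent.Helper391.Wheel.Defs

set_option autoImplicit false

namespace Pool.Agent.Helper391.WheelChi

open Finset Polynomial
open scoped Classical

variable {V : Type} [DecidableEq V]


section CycleCount

variable {C : Type} [Fintype C]

/-- consecutive values are different -/
private def Pth (m : ℕ) (f : Fin (m + 1) → C) : Prop := ∀ i : Fin m, f i.castSucc ≠ f i.succ

/-- number of proper sequences from `a` to `b` -/
private noncomputable def NN (m : ℕ) (a b : C) : ℤ :=
  ∑ f : Fin (m + 1) → C, if (f 0 = a ∧ f (Fin.last m) = b ∧ Pth m f) then 1 else 0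

private theorem NN_zero (a b : C) : NN 0 a b = if a = b then 1 else 0 := by
  unfold NN
  rw [← (Equiv.funUnique (Fin 1) C).symm.sum_comp]
  have h : ∀ x : C, (((Equiv.funUnique (Fin 1) C).symm x) 0 = a ∧
      ((Equiv.funUnique (Fin 1) C).symm x) (Fin.last 0) = b ∧
      Pth 0 ((Equiv.funUnique (Fin 1) C).symm x)) ↔ (x = a ∧ a = b) := by
    intro x
    constructor
    · rintro ⟨h1, h2, -⟩
      have h1' : x = a := h1
      have h2' : x = b := h2
      exact ⟨h1', h1' ▸ h2'⟩
    · rintro ⟨rfl, rfl⟩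
      exact ⟨rfl, rfl, fun i => i.elim0⟩
  simp only [h]
  by_cases hab : a = b
  · simp [hab]
  · simp [hab]

private theorem pth_cons (m : ℕ) (x : C) (g : Fin (m + 1) → C) :
    Pth (m + 1) (Fin.cons x g : Fin (m + 2) → C) ↔ x ≠ g 0 ∧ Pth m g := by
  unfold Pth
  rw [Fin.forall_fin_succ]
  rfl

private theorem NN_succ (m : ℕ) (a b : C) : NN (m + 1) a b = ∑ c : C, if a = c then 0 else NN m c b := by
  unfold NN
  rw [← (Fin.consEquiv (fun _ : Fin (m + 2) => C)).sum_comp, Fintype.sum_prod_type]
  have h : ∀ (x : C) (g : Fin (m + 1) → C),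
      (((Fin.consEquiv (fun _ : Fin (m + 2) => C)) (x, g) 0 = a ∧
        (Fin.consEquiv (fun _ : Fin (m + 2) => C)) (x, g) (Fin.last (m + 1)) = b ∧
        Pth (m + 1) ((Fin.consEquiv (fun _ : Fin (m + 2) => C)) (x, g))) ↔
        (x = a ∧ (a ≠ g 0 ∧ g (Fin.last m) = b ∧ Pth m g))) := by
    intro x g
    have e1 : (Fin.consEquiv (fun _ : Fin (m + 2) => C)) (x, g) = (Fin.cons x g : Fin (m + 2) → C) :=
      rfl
    rw [e1, pth_cons]
    have e2 : (Fin.cons x g : Fin (m + 2) → C) 0 = x := rfl
    have e3 : (Fin.cons x g : Fin (m + 2) → C) (Fin.last (m + 1)) = g (Fin.last m) := rfl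
    rw [e2, e3]
    constructor
    · rintro ⟨rfl, h2, h3, h4⟩
      exact ⟨rfl, h3, h2, h4⟩
    · rintro ⟨rfl, h3, h2, h4⟩
      exact ⟨rfl, h2, h3, h4⟩
  simp only [h]
  rw [Finset.sum_eq_single a]
  · have h2 : ∀ c : C, (if a = c then (0 : ℤ) else
        ∑ f : Fin (m + 1) → C, if (f 0 = c ∧ f (Fin.last m) = b ∧ Pth m f) then 1 else 0) =
        ∑ f : Fin (m + 1) → C, if (f 0 = c ∧ (a ≠ f 0 ∧ f (Fin.last m) = b ∧ Pth m f)) then 1 else 0 := by
      intro c
      split_ifs with hc
      · subst hc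
        symm
        apply Finset.sum_eq_zero
        intro f _
        rw [if_neg]
        rintro ⟨h1, h2, -⟩
        exact h2 h1.symm
      · refine Finset.sum_congr rfl fun f _ => ?_
        congr 1
        apply propext
        constructor
        · rintro ⟨h1, h2⟩
          exact ⟨h1, by rw [h1]; exact hc, h2⟩
        · rintro ⟨h1, -, h2⟩
          exact ⟨h1, h2⟩
    simp only [h2]
    rw [Finset.sum_comm]
    refine Finset.sum_congr rfl fun f _ => ?_
    rw [Finset.sum_eq_single (f 0)]
    · simp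
    · intro c _ hc
      rw [if_neg]
      rintro ⟨h1, -⟩
      exact hc h1.symm
    · simp
  · intro x _ hx
    apply Finset.sum_eq_zero
    intro g _
    rw [if_neg]
    rintro ⟨h1, -⟩
    exact hx h1
  · simp

private theorem NN_formula (m : ℕ) (a b : C) : (Fintype.card C : ℤ) * NN m a b =
    ((Fintype.card C : ℤ) - 1) ^ m +
      (-1) ^ m * ((if a = b then (Fintype.card C : ℤ) else 0) - 1) := by
  induction m generalizing a with
  | zero =>
    rw [NN_zero]
    split_ifs <;> simp
  | succ m ih =>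
    rw [NN_succ, Finset.mul_sum]
    have h1 : ∀ c : C, (Fintype.card C : ℤ) * (if a = c then 0 else NN m c b) =
        (((Fintype.card C : ℤ) - 1) ^ m +
          (-1) ^ m * ((if c = b then (Fintype.card C : ℤ) else 0) - 1)) -
        (if a = c then (((Fintype.card C : ℤ) - 1) ^ m +
          (-1) ^ m * ((if c = b then (Fintype.card C : ℤ) else 0) - 1)) else 0) := by
      intro c
      split_ifs with h1 h2
      · simp
      · simp
      · rw [ih c, if_pos (by assumption)]; simp
      · rw [ih c, if_neg (by assumption)]; simp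
    rw [Finset.sum_congr rfl fun c _ => h1 c, Finset.sum_sub_distrib, Finset.sum_ite_eq,
      if_pos (Finset.mem_univ a), Finset.sum_add_distrib, ← Finset.mul_sum, Finset.sum_sub_distrib,
      Finset.sum_ite_eq', if_pos (Finset.mem_univ b)]
    simp only [Finset.sum_const, Finset.card_univ, nsmul_eq_mul, mul_one]
    rw [pow_succ, pow_succ]
    ring

private theorem cyc_iff (m : ℕ) (h : Fin (m + 2) → C) :
    (∀ i j : Fin (m + 2), (SimpleGraph.cycleGraph (m + 2)).Adj i j → h i ≠ h j) ↔
      Pth (m + 1) h ∧ h (Fin.last (m + 1)) ≠ h 0 := by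
  constructor
  · intro H
    refine ⟨fun i => H _ _ ?_, H _ _ ?_⟩
    · rw [SimpleGraph.cycleGraph_adj]
      right
      rw [sub_eq_iff_eq_add', Fin.coeSucc_eq_succ]
    · rw [SimpleGraph.cycleGraph_adj]
      right
      rw [sub_eq_iff_eq_add', Fin.last_add_one]
  · rintro ⟨H1, H2⟩
    have H : ∀ i : Fin (m + 2), h i ≠ h (i + 1) := by
      rw [Fin.forall_fin_succ']
      refine ⟨fun i => ?_, ?_⟩
      · rw [Fin.coeSucc_eq_succ]; exact H1 i
      · rw [Fin.last_add_one]; exact H2
    intro i j hij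
    rw [SimpleGraph.cycleGraph_adj] at hij
    rcases hij with hij | hij
    · rw [sub_eq_iff_eq_add'] at hij
      rw [hij]
      exact (H j).symm
    · rw [sub_eq_iff_eq_add'] at hij
      rw [hij]
      exact H i

private theorem cycle_count (m : ℕ) :
    (Nat.card {h : Fin (m + 2) → C //
      ∀ i j : Fin (m + 2), (SimpleGraph.cycleGraph (m + 2)).Adj i j → h i ≠ h j} : ℤ) =
      ((Fintype.card C : ℤ) - 1) ^ (m + 2) + (-1) ^ (m + 2) * ((Fintype.card C : ℤ) - 1) := by
  have h1 : (Nat.card {h : Fin (m + 2) → C //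
      ∀ i j : Fin (m + 2), (SimpleGraph.cycleGraph (m + 2)).Adj i j → h i ≠ h j} : ℤ) =
      ∑ a : C, NN (m + 2) a a := by
    rw [Nat.card_eq_fintype_card, Fintype.card_subtype, Finset.card_filter]
    push_cast
    simp only [NN_succ (m + 1)]
    have h2 : ∀ a c : C, (if a = c then (0 : ℤ) else NN (m + 1) c a) =
        ∑ f : Fin (m + 2) → C, if (f 0 = c ∧ f (Fin.last (m + 1)) = a ∧
          (a ≠ c ∧ Pth (m + 1) f)) then 1 else 0 := by
      intro a c
      unfold NN
      split_ifs with hc
      · symm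
        apply Finset.sum_eq_zero
        intro f _
        rw [if_neg]
        rintro ⟨-, -, h3, -⟩
        exact h3 hc
      · refine Finset.sum_congr rfl fun f _ => ?_
        congr 1
        apply propext
        constructor
        · rintro ⟨h1, h2, h3⟩
          exact ⟨h1, h2, hc, h3⟩
        · rintro ⟨h1, h2, -, h3⟩
          exact ⟨h1, h2, h3⟩
    simp only [h2]
    have h3 : ∀ a : C, ∑ c : C, ∑ f : Fin (m + 2) → C, (if (f 0 = c ∧ f (Fin.last (m + 1)) = a ∧
          (a ≠ c ∧ Pth (m + 1) f)) then (1 : ℤ) else 0) =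
          ∑ f : Fin (m + 2) → C, if (f (Fin.last (m + 1)) = a ∧
          (a ≠ f 0 ∧ Pth (m + 1) f)) then (1 : ℤ) else 0 := by
      intro a
      rw [Finset.sum_comm]
      refine Finset.sum_congr rfl fun f _ => ?_
      rw [Finset.sum_eq_single (f 0)]
      · simp
      · intro c _ hc
        rw [if_neg]
        rintro ⟨h1, -⟩
        exact hc h1.symm
      · simp
    simp only [h3]
    rw [Finset.sum_comm]
    refine Finset.sum_congr rfl fun f _ => ?_
    rw [Finset.sum_eq_single (f (Fin.last (m + 1)))]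
    · congr 1
      apply propext
      rw [cyc_iff]
      constructor
      · rintro ⟨h1, h2⟩
        exact ⟨rfl, h2, h1⟩
      · rintro ⟨-, h2, h1⟩
        exact ⟨h1, h2⟩
    · intro c _ hc
      rw [if_neg]
      rintro ⟨h1, -⟩
      exact hc h1.symm
    · simp
  rw [h1]
  rcases isEmpty_or_nonempty C with hC | hC
  · simp
  · have hq : (Fintype.card C : ℤ) ≠ 0 := by
      exact_mod_cast Fintype.card_ne_zero
    apply mul_left_cancel₀ hq
    rw [Finset.mul_sum]
    simp only [NN_formula, if_true]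
    rw [Finset.sum_const, Finset.card_univ, nsmul_eq_mul]

end CycleCount

private theorem wh_adj_none {n : ℕ} (i : Fin n) : (Wh n).Adj none (some i) := by
  unfold Wh
  rw [SimpleGraph.fromRel_adj]
  exact ⟨by simp, Or.inl (Or.inl rfl)⟩

private theorem wh_adj_some {n : ℕ} (i j : Fin n) :
    (Wh n).Adj (some i) (some j) ↔ (SimpleGraph.cycleGraph n).Adj i j := by
  unfold Wh
  rw [SimpleGraph.fromRel_adj]
  constructor
  · rintro ⟨h1, (h2 | ⟨a, b, ha, hb, h2⟩) | (h2 | ⟨a, b, ha, hb, h2⟩)⟩
    · simp at h2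
    · rw [Option.some_inj.1 ha, Option.some_inj.1 hb]; exact h2
    · simp at h2
    · rw [Option.some_inj.1 ha, Option.some_inj.1 hb]; exact h2.symm
  · intro h
    exact ⟨fun h' => h.ne (Option.some_inj.1 h'), Or.inl (Or.inr ⟨i, j, rfl, rfl, h⟩)⟩

/-- colourings of the wheel, split by the colour of the hub -/
private noncomputable def wheelEquiv (n k : ℕ) : (Wh n).Coloring (Fin k) ≃
    Σ a : Fin k, {h : Fin n → {x : Fin k // x ≠ a} //
      ∀ i j : Fin n, (SimpleGraph.cycleGraph n).Adj i j → h i ≠ h j} where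
  toFun c := ⟨c none, ⟨fun i => ⟨c (some i), (c.valid (wh_adj_none i)).symm⟩, fun i j hij h =>
    c.valid ((wh_adj_some i j).2 hij) (congrArg Subtype.val h)⟩⟩
  invFun p := SimpleGraph.Coloring.mk
    (fun v => match v with
      | none => p.1
      | some i => (p.2.1 i).1)
    (by
      intro v w hvw
      match v, w, hvw with
      | none, none, h => exact absurd rfl h.ne
      | none, some i, _ => exact (p.2.1 i).2.symm
      | some i, none, _ => exact (p.2.1 i).2
      | some i, some j, h => exact fun h' => p.2.2 i j ((wh_adj_some i j).1 h) (Subtype.ext h'))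
  left_inv c := by
    apply DFunLike.ext
    intro v
    cases v <;> rfl
  right_inv p := rfl

theorem wheel_count (n : ℕ) (hn : 3 ≤ n) (k : ℕ) :
    (Nat.card ((Wh n).Coloring (Fin k)) : ℤ) =
      k * (((k : ℤ) - 2) ^ n + (-1) ^ n * ((k : ℤ) - 2)) := by
  obtain ⟨m, rfl⟩ : ∃ m, n = m + 2 := ⟨n - 2, by omega⟩
  rw [Nat.card_congr (wheelEquiv (m + 2) k), Nat.card_sigma]
  push_cast
  simp only [cycle_count]
  have h : ∀ a : Fin k, (Fintype.card {x : Fin k // x ≠ a} : ℤ) = (k : ℤ) - 1 := by
    intro a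
    have h1 : Fintype.card {x : Fin k // x ≠ a} = k - 1 := by
      rw [Fintype.card_subtype_compl]
      simp
    have h2 : 0 < k := a.pos
    rw [h1]
    omega
  simp only [h]
  rw [Finset.sum_const, Finset.card_univ, Fintype.card_fin, nsmul_eq_mul]
  ring


end Pool.Agent.Helper391.WheelChi
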