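import Mathlib
import Pool.Agent.Helper391.Wheel.Defs

set_option autoImplicit false

namespace Pool.Agent.Helper391.WheelChi

open Finset Polynomial
open scoped Classical

variable {V : Type} [DecidableEq V]


open SimpleGraph in
private theorem cyc_iso (n : ℕ) (hn : 3 ≤ n) (W : Type) [Fintype W] [DecidableEq W] (G : SimpleGraph W) [DecidableRel G.Adj]
    (hcard : Fintype.card W = n) (deg : ∀ w, (G.neighborSet w).ncard = 2) (hc : G.Preconnected) :
    ∃ f : Fin n ≃ W, ∀ i j, G.Adj (f i) (f j) ↔ (cycleGraph n).Adj i j := by
  classical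
  have hne : Nonempty W := by
    rw [← Fintype.card_pos_iff]; omega
  obtain ⟨v⟩ := hne
  have hcy : G.IsCycles := fun w _ => deg w
  have hnv : (G.neighborSet v).Nonempty := by
    rw [Set.nonempty_iff_ne_empty]
    intro h
    have := deg v
    rw [h] at this; simp at this
  obtain ⟨p, hp, hv⟩ := hcy.exists_cycle_toSubgraph_verts_eq_connectedComponentSupp
    (c := G.connectedComponentMk v) (v := v) rfl hnv
  have hall : ∀ w, w ∈ p.support := by
    intro w
    have h1 : w ∈ (G.connectedComponentMk v).supp := by
      rw [ConnectedComponent.mem_supp_iff]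
      exact ConnectedComponent.eq.2 (hc w v)
    rw [← hv] at h1
    simpa using h1
  have hlen : p.length = n := by
    have h1 : p.support.tail.Nodup := hp.support_nodup
    have h2 : ∀ w, w ∈ p.support.tail := by
      intro w
      have := hall w
      rcases eq_or_ne w v with rfl | hwv
      · exact Walk.end_mem_tail_support (Walk.not_nil_iff_lt_length.2 (by have := hp.three_le_length; omega))
      · rw [← Walk.cons_tail_support] at this
        rcases List.mem_cons.1 this with h | h
        · exact absurd h hwv
        · exact h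
    have h3 : p.support.tail.toFinset = Finset.univ := by
      ext w; simp [h2 w]
    have h4 : p.support.tail.toFinset.card = p.support.tail.length := List.toFinset_card_of_nodup h1
    rw [h3, Finset.card_univ, hcard, List.length_tail, Walk.length_support] at h4
    omega
  obtain ⟨m, rfl⟩ : ∃ m, n = m + 2 := ⟨n - 2, by omega⟩
  let f : Fin (m + 2) → W := fun i => p.getVert i
  have hinj : Function.Injective f := by
    intro i j hij
    have := hp.getVert_injOn' (by rw [Set.mem_ofPred_eq]; omega) (by rw [Set.mem_ofPred_eq]; omega) hij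
    exact Fin.ext this
  have hbij : Function.Bijective f := by
    rw [Fintype.bijective_iff_injective_and_card]
    exact ⟨hinj, by simp [hcard]⟩
  have hadj : ∀ i, G.Adj (f i) (f (i + 1)) := by
    intro i
    have h1 := p.adj_getVert_succ (i := i) (by omega)
    by_cases hi : i.val + 1 < m + 2
    · have : ((i + 1 : Fin (m + 2)) : ℕ) = i.val + 1 := by
        rw [Fin.val_add_one_of_lt]
        exact Fin.lt_def.2 (by simp [Fin.last]; omega)
      show G.Adj (p.getVert i) (p.getVert (i + 1 : Fin (m + 2)))
      rw [this]; exact h1
    · have hi' : i = Fin.last (m + 1) := by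
        apply Fin.ext; simp [Fin.last]; omega
      have : (i + 1 : Fin (m + 2)) = 0 := by rw [hi']; simp
      show G.Adj (p.getVert i) (p.getVert (i + 1 : Fin (m + 2)))
      rw [this]
      have e : i.val + 1 = p.length := by omega
      rw [e, Walk.getVert_length] at h1
      simpa using h1
  refine ⟨Equiv.ofBijective f hbij, ?_⟩
  intro i j
  show G.Adj (f i) (f j) ↔ _
  rw [cycleGraph_adj]
  have h2 : (f (i + 1)) ≠ f (i - 1) := by
    intro h
    have h3 := hinj h
    have h4 : (1 + 1 : Fin (m + 2)) = 0 := by
      have : i + 1 - (i - 1) = 0 := by rw [h3]; simp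
      have h5 : i + 1 - (i - 1) = 1 + 1 := by abel
      rw [h5] at this; exact this
    have h6 := congrArg Fin.val h4
    rw [Fin.val_zero, Fin.val_add, Fin.val_one, Nat.mod_eq_of_lt (by omega)] at h6
    omega
  have hN : G.neighborSet (f i) = {f (i + 1), f (i - 1)} := by
    symm
    apply Set.eq_of_subset_of_ncard_le
    · rintro x (rfl | rfl)
      · exact hadj i
      · have := hadj (i - 1)
        rw [sub_add_cancel] at this
        exact this.symm
    · rw [deg, Set.ncard_pair h2]
    · exact Set.toFinite _
  have : G.Adj (f i) (f j) ↔ f j ∈ G.neighborSet (f i) := Iff.rfl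
  rw [this, hN, Set.mem_insert_iff, Set.mem_singleton_iff]
  constructor
  · rintro (h | h)
    · right; rw [hinj h]; abel
    · left; rw [hinj h]; abel
  · rintro (h | h)
    · right; congr 1; rw [← h]; abel
    · left; congr 1; rw [← h]; abel

theorem wheel_iso (n : ℕ) (hn : 3 ≤ n) (V : Type) [Fintype V] [DecidableEq V]
    (H : SimpleGraph V) (hcard : Fintype.card V = n + 1) (h : V)
    (hub : ∀ y, y ≠ h → H.Adj h y) (deg : ∀ y, y ≠ h → #(nb H univ y) = 3)
    (conn : Conn H (univ \ {h})) : Nonempty (H ≃g Wh n) := by
  classical
  set W := {x : V // x ≠ h} with hW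
  let G : SimpleGraph W := H.comap (fun x : W => x.1)
  have hGadj : ∀ a b : W, G.Adj a b ↔ H.Adj a.1 b.1 := fun a b => Iff.rfl
  have hcW : Fintype.card W = n := by
    have h1 := Fintype.card_subtype_compl (fun x : V => x = h)
    rw [Fintype.card_subtype_eq, hcard] at h1
    have h2 : Fintype.card W = Fintype.card {x : V // ¬ x = h} := Fintype.card_congr (Equiv.refl _)
    rw [h2, h1]; omega
  have hdeg : ∀ w : W, (G.neighborSet w).ncard = 2 := by
    intro w
    have h1 := deg w.1 w.2
    have h2 : h ∈ nb H univ w.1 := by
      simp only [nb, Finset.mem_filter, Finset.mem_univ, true_and]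
      exact (hub w.1 w.2).symm
    have h3 : #((nb H univ w.1).erase h) = 2 := by
      rw [Finset.card_erase_of_mem h2, h1]
    have h4 : (((nb H univ w.1).erase h : Finset V) : Set V) = (fun x : W => x.1) '' (G.neighborSet w) := by
      ext x
      simp only [Finset.coe_erase, Set.mem_sdiff, Finset.mem_coe, Set.mem_singleton_iff, nb,
        Finset.mem_filter, Finset.mem_univ, true_and, Set.mem_image, SimpleGraph.mem_neighborSet]
      constructor
      · rintro ⟨hx, hxh⟩
        exact ⟨⟨x, hxh⟩, hx, rfl⟩
      · rintro ⟨y, hy, rfl⟩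
        exact ⟨hy, y.2⟩
    rw [← Set.ncard_image_of_injective _ Subtype.val_injective, ← h4, Set.ncard_coe_finset, h3]
  have hpre : G.Preconnected := by
    intro a b
    by_contra hab
    let B : Finset V := Finset.univ.filter (fun x => ∃ hx : x ≠ h, G.Reachable a ⟨x, hx⟩)
    have hBsub : B ⊆ univ \ {h} := by
      intro x hx
      simp only [B, Finset.mem_filter, Finset.mem_univ, true_and] at hx
      simp only [Finset.mem_sdiff, Finset.mem_univ, true_and, Finset.mem_singleton]
      exact hx.1
    have haB : a.1 ∈ B := by
      simp only [B, Finset.mem_filter, Finset.mem_univ, true_and]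
      exact ⟨a.2, SimpleGraph.Reachable.refl _⟩
    have hbB : b.1 ∉ B := by
      simp only [B, Finset.mem_filter, Finset.mem_univ, true_and]
      rintro ⟨_, hr⟩
      exact hab hr
    obtain ⟨x, hx, y, hy, hxy⟩ := conn B hBsub ⟨a.1, haB⟩ ⟨b.1, by
      simp only [Finset.mem_sdiff, Finset.mem_univ, true_and, Finset.mem_singleton]
      exact ⟨b.2, hbB⟩⟩
    simp only [Finset.mem_sdiff, Finset.mem_univ, true_and, Finset.mem_singleton] at hy
    simp only [B, Finset.mem_filter, Finset.mem_univ, true_and] at hx hy
    obtain ⟨hxh, hr⟩ := hx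
    apply hy.2
    refine ⟨hy.1, hr.trans ?_⟩
    have : G.Adj ⟨x, hxh⟩ ⟨y, hy.1⟩ := hxy
    exact this.reachable
  obtain ⟨f, hf⟩ := cyc_iso n hn W G hcW hdeg hpre
  let e : V ≃ Option (Fin n) :=
    { toFun := fun x => if hx : x = h then none else some (f.symm ⟨x, hx⟩)
      invFun := fun o => match o with
        | none => h
        | some i => (f i).1
      left_inv := by
        intro x
        by_cases hx : x = h
        · simp [hx]
        · simp [hx]
      right_inv := by
        intro o
        match o with
        | none => simp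
        | some i =>
          have : (f i).1 ≠ h := (f i).2
          simp [this] }
  have eh : e h = none := by simp [e]
  have ef : ∀ x (hx : x ≠ h), e x = some (f.symm ⟨x, hx⟩) := by
    intro x hx; simp [e, hx]
  refine ⟨⟨e, ?_⟩⟩
  intro x y
  unfold Wh
  rw [SimpleGraph.fromRel_adj]
  by_cases hx : x = h
  · subst hx
    by_cases hy : y = x
    · subst hy
      simp
    · constructor
      · intro _; exact hub y hy
      · intro _
        refine ⟨fun hcon => hy (e.injective hcon).symm, Or.inl (Or.inl eh)⟩
  · by_cases hy : y = h
    · subst hy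
      constructor
      · intro _; exact (hub x hx).symm
      · intro _
        refine ⟨fun hcon => hx (e.injective hcon), Or.inr (Or.inl eh)⟩
    · rw [ef x hx, ef y hy]
      have key : H.Adj x y ↔ (SimpleGraph.cycleGraph n).Adj (f.symm ⟨x, hx⟩) (f.symm ⟨y, hy⟩) := by
        rw [← hf, Equiv.apply_symm_apply, Equiv.apply_symm_apply]
        exact Iff.rfl
      rw [key]
      constructor
      · rintro ⟨_, (h1 | ⟨i, j, hi, hj, hij⟩) | (h1 | ⟨i, j, hi, hj, hij⟩)⟩
        · exact absurd h1 (by simp)
        · rw [Option.some.injEq] at hi hj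
          rw [hi, hj]; exact hij
        · exact absurd h1 (by simp)
        · rw [Option.some.injEq] at hi hj
          rw [hi, hj]; exact hij.symm
      · intro hadj
        refine ⟨fun hcon => ?_, Or.inl (Or.inr ⟨_, _, rfl, rfl, hadj⟩)⟩
        rw [Option.some.injEq] at hcon
        rw [hcon] at hadj
        exact (SimpleGraph.irrefl _) hadj


end Pool.Agent.Helper391.WheelChi
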