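import Mathlib
import Pool.Agent.Helper391.Wheel.Defs

set_option autoImplicit false

namespace Pool.Agent.Helper391.WheelChi

open Finset Polynomial
open scoped Classical

variable {V : Type} [DecidableEq V]


private theorem mem_cl {G : SimpleGraph V} {r : ℕ} {S T : Finset V} :
    T ∈ cl G r S ↔ (T ⊆ S ∧ #T = r) ∧ G.IsClique (T : Set V) := by
  simp [cl, mem_powersetCard]

private theorem cl_insert (G : SimpleGraph V) (r : ℕ) (A : Finset V) (a : V) (ha : a ∉ A) :
    cl G (r+1) (insert a A) = cl G (r+1) A ∪ (cl G r (nb G A a)).image (insert a) := by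
  ext T
  simp only [mem_union, mem_image, mem_cl]
  constructor
  · rintro ⟨⟨h1, h2⟩, h3⟩
    by_cases haT : a ∈ T
    · right
      refine ⟨T.erase a, ⟨⟨?_, ?_⟩, ?_⟩, insert_erase haT⟩
      · intro x hx
        rw [mem_erase] at hx
        simp only [nb, mem_filter]
        refine ⟨(mem_insert.1 (h1 hx.2)).resolve_left hx.1, ?_⟩
        exact h3 (by exact_mod_cast haT) (by exact_mod_cast hx.2) (Ne.symm hx.1)
      · rw [card_erase_of_mem haT, h2]; rfl
      · exact h3.subset (by exact_mod_cast erase_subset a T)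
    · left
      refine ⟨⟨?_, h2⟩, h3⟩
      intro x hx
      exact (mem_insert.1 (h1 hx)).resolve_left (fun h => haT (h ▸ hx))
  · rintro (⟨⟨h1, h2⟩, h3⟩ | ⟨U, ⟨⟨h1, h2⟩, h3⟩, rfl⟩)
    · exact ⟨⟨h1.trans (subset_insert _ _), h2⟩, h3⟩
    · have hU : U ⊆ A := h1.trans (filter_subset _ _)
      have haU : a ∉ U := fun h => ha (hU h)
      refine ⟨⟨insert_subset_insert _ hU, by rw [card_insert_of_notMem haU, h2]⟩, ?_⟩
      rw [coe_insert, SimpleGraph.isClique_insert]
      refine ⟨h3, fun b hb _ => ?_⟩
      have := h1 (by exact_mod_cast hb : b ∈ U)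
      simp only [nb, mem_filter] at this
      exact this.2

private theorem card_cl_insert (G : SimpleGraph V) (r : ℕ) (A : Finset V) (a : V) (ha : a ∉ A) :
    #(cl G (r+1) (insert a A)) = #(cl G (r+1) A) + #(cl G r (nb G A a)) := by
  rw [cl_insert G r A a ha, card_union_of_disjoint, card_image_of_injOn]
  · intro U hU W hW h
    have hU' := (mem_cl.1 (by exact_mod_cast hU)).1.1
    have hW' := (mem_cl.1 (by exact_mod_cast hW)).1.1
    have haU : a ∉ U := fun h => ha ((hU'.trans (filter_subset _ _)) h)
    have haW : a ∉ W := fun h => ha ((hW'.trans (filter_subset _ _)) h)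
    have := congrArg (fun X => X.erase a) h
    simpa [erase_insert haU, erase_insert haW] using this
  · rw [disjoint_left]
    intro T hT hT'
    simp only [mem_image] at hT'
    obtain ⟨U, _, rfl⟩ := hT'
    exact ha ((mem_cl.1 hT).1.1 (mem_insert_self a U))

private theorem card_cl_one (G : SimpleGraph V) (A : Finset V) : #(cl G 1 A) = #A := by
  have : cl G 1 A = A.image (fun x => {x}) := by
    ext T
    simp only [mem_cl, mem_image]
    constructor
    · rintro ⟨⟨h1, h2⟩, -⟩
      obtain ⟨x, rfl⟩ := card_eq_one.1 h2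
      exact ⟨x, h1 (mem_singleton_self x), rfl⟩
    · rintro ⟨x, hx, rfl⟩
      refine ⟨⟨by simpa using hx, card_singleton x⟩, ?_⟩
      intro a ha b hb hab
      simp only [coe_singleton, Set.mem_singleton_iff] at ha hb
      exact absurd (ha.trans hb.symm) hab
  rw [this, card_image_of_injective _ (fun a b h => singleton_injective h)]

theorem ec_insert (G : SimpleGraph V) (A : Finset V) (a : V) (ha : a ∉ A) :
    ec G (insert a A) = ec G A + #(nb G A a) := by
  unfold ec
  rw [card_cl_insert G 1 A a ha, card_cl_one]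

theorem tc_insert (G : SimpleGraph V) (A : Finset V) (a : V) (ha : a ∉ A) :
    tc G (insert a A) = tc G A + ec G (nb G A a) := by
  unfold tc ec
  rw [card_cl_insert G 2 A a ha]

theorem ec_le_choose (G : SimpleGraph V) (A : Finset V) : ec G A ≤ (#A).choose 2 := by
  unfold ec cl
  exact (card_filter_le _ _).trans (by rw [card_powersetCard])

theorem sum_nb (G : SimpleGraph V) (S : Finset V) : ∑ a ∈ S, #(nb G S a) = 2 * ec G S := by
  induction S using Finset.induction_on with
  | empty => simp [ec, cl, filter_eq_empty_iff]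
  | @insert a A ha ih =>
    rw [sum_insert ha, ec_insert G A a ha, mul_add, ← ih]
    have h1 : nb G (insert a A) a = nb G A a := by
      unfold nb
      rw [filter_insert, if_neg (G.loopless.irrefl a)]
    have h2 : ∀ b ∈ A, #(nb G (insert a A) b) = #(nb G A b) + (if G.Adj b a then 1 else 0) := by
      intro b hb
      unfold nb
      rw [filter_insert]
      split_ifs with h
      · rw [card_insert_of_notMem (fun h' => ha (mem_of_mem_filter _ h'))]
      · rfl
    rw [h1, sum_congr rfl h2, sum_add_distrib]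
    have h3 : ∑ b ∈ A, (if G.Adj b a then 1 else 0) = #(nb G A a) := by
      unfold nb
      rw [card_filter]
      exact sum_congr rfl (fun b _ => by simp [G.adj_comm])
    rw [h3]; ring

private theorem cl_del (G : SimpleGraph V) (r : ℕ) (S : Finset V) (u v : V) (huv : u ≠ v) :
    cl (del G u v) r S = (cl G r S).filter (fun T => ¬ (u ∈ T ∧ v ∈ T)) := by
  ext T
  simp only [mem_filter, mem_cl]
  constructor
  · rintro ⟨h1, h2⟩
    refine ⟨⟨h1, fun a ha b hb hab => (h2 ha hb hab).1⟩, ?_⟩
    rintro ⟨hu, hv⟩
    exact (h2 (by exact_mod_cast hu) (by exact_mod_cast hv) huv).2 (Or.inl ⟨rfl, rfl⟩)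
  · rintro ⟨⟨h1, h2⟩, h3⟩
    refine ⟨h1, fun a ha b hb hab => ⟨h2 ha hb hab, ?_⟩⟩
    rintro (⟨rfl, rfl⟩ | ⟨rfl, rfl⟩)
    · exact h3 ⟨by exact_mod_cast ha, by exact_mod_cast hb⟩
    · exact h3 ⟨by exact_mod_cast hb, by exact_mod_cast ha⟩

theorem ec_del (G : SimpleGraph V) (S : Finset V) (u v : V) (hu : u ∈ S) (hv : v ∈ S)
    (huv : G.Adj u v) : ec (del G u v) S + 1 = ec G S := by
  unfold ec
  rw [cl_del G 2 S u v huv.ne]
  have h : (cl G 2 S).filter (fun T => (u ∈ T ∧ v ∈ T)) = {{u, v}} := by
    ext T
    simp only [mem_filter, mem_cl, mem_singleton]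
    constructor
    · rintro ⟨⟨⟨h1, h2⟩, h3⟩, hu', hv'⟩
      refine (eq_of_subset_of_card_le ?_ ?_).symm
      · intro x hx
        simp only [mem_insert, mem_singleton] at hx
        rcases hx with rfl | rfl <;> assumption
      · rw [h2, card_pair huv.ne]
    · rintro rfl
      refine ⟨⟨⟨?_, card_pair huv.ne⟩, ?_⟩, by simp, by simp⟩
      · intro x hx
        simp only [mem_insert, mem_singleton] at hx
        rcases hx with rfl | rfl <;> assumption
      · rw [coe_insert, coe_singleton, SimpleGraph.isClique_insert]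
        refine ⟨SimpleGraph.isClique_singleton v, fun b hb _ => ?_⟩
        rw [Set.mem_singleton_iff] at hb
        rw [hb]; exact huv
  have h4 := card_filter_add_card_filter_not (s := cl G 2 S) (fun T => (u ∈ T ∧ v ∈ T))
  rw [h, card_singleton] at h4
  omega

theorem tc_del (G : SimpleGraph V) (S : Finset V) (u v : V) (hu : u ∈ S) (hv : v ∈ S)
    (huv : G.Adj u v) : tc (del G u v) S + #(nb G S u ∩ nb G S v) = tc G S := by
  unfold tc
  rw [cl_del G 3 S u v huv.ne]
  have h : (cl G 3 S).filter (fun T => (u ∈ T ∧ v ∈ T)) =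
      (nb G S u ∩ nb G S v).image (fun w => insert w {u, v}) := by
    ext T
    simp only [mem_filter, mem_cl, mem_image, mem_inter, nb]
    constructor
    · rintro ⟨⟨⟨h1, h2⟩, h3⟩, hu', hv'⟩
      have h5 : ({u, v} : Finset V) ⊆ T := by
        intro x hx
        simp only [mem_insert, mem_singleton] at hx
        rcases hx with rfl | rfl <;> assumption
      have h6 : #(T \ {u, v}) = 1 := by
        rw [card_sdiff_of_subset h5, h2, card_pair huv.ne]
      obtain ⟨w, hw⟩ := card_eq_one.1 h6
      have hwT : w ∈ T \ {u, v} := by rw [hw]; exact mem_singleton_self w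
      rw [mem_sdiff, mem_insert, mem_singleton, not_or] at hwT
      refine ⟨w, ⟨⟨h1 hwT.1, ?_⟩, h1 hwT.1, ?_⟩, ?_⟩
      · exact h3 (by exact_mod_cast hu') (by exact_mod_cast hwT.1) (Ne.symm hwT.2.1)
      · exact h3 (by exact_mod_cast hv') (by exact_mod_cast hwT.1) (Ne.symm hwT.2.2)
      · rw [insert_eq, ← hw, sdiff_union_of_subset h5]
    · rintro ⟨w, ⟨⟨hw1, hw2⟩, -, hw3⟩, rfl⟩
      have hwu : w ≠ u := hw2.ne'
      have hwv : w ≠ v := hw3.ne'
      refine ⟨⟨⟨?_, ?_⟩, ?_⟩, by simp, by simp⟩
      · intro x hx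
        simp only [mem_insert, mem_singleton] at hx
        rcases hx with rfl | rfl | rfl <;> assumption
      · rw [card_insert_of_notMem, card_pair huv.ne]
        simp [hwu, hwv]
      · rw [coe_insert, coe_insert, coe_singleton, SimpleGraph.isClique_insert,
          SimpleGraph.isClique_insert]
        refine ⟨⟨SimpleGraph.isClique_singleton v, fun b hb _ => ?_⟩, fun b hb _ => ?_⟩
        · rw [Set.mem_singleton_iff] at hb
          rw [hb]; exact huv
        · simp only [Set.mem_insert_iff, Set.mem_singleton_iff] at hb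
          rcases hb with rfl | rfl
          · exact hw2.symm
          · exact hw3.symm
  have h5 : #((nb G S u ∩ nb G S v).image (fun w => insert w ({u, v} : Finset V))) =
      #(nb G S u ∩ nb G S v) := by
    apply card_image_of_injOn
    intro w hw w' hw' hww
    simp only [coe_inter, Set.mem_inter_iff, mem_coe, nb, mem_filter] at hw hw'
    have h6 : w ∈ (insert w' ({u, v} : Finset V)) := by
      have := mem_insert_self w ({u, v} : Finset V)
      have h7 : insert w ({u, v} : Finset V) = insert w' {u, v} := hww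
      rw [h7] at this; exact this
    simp only [mem_insert, mem_singleton] at h6
    rcases h6 with h | h | h
    · exact h
    · exact absurd h hw.1.2.ne'
    · exact absurd h hw.2.2.ne'
  have h4 := card_filter_add_card_filter_not (s := cl G 3 S) (fun T => (u ∈ T ∧ v ∈ T))
  rw [h, h5] at h4
  omega


end Pool.Agent.Helper391.WheelChi
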