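import Mathlib
import Pool.Agent.Helper391.Wheel.Defs
import Pool.Agent.Helper391.Wheel.W4

set_option autoImplicit false

namespace Pool.Agent.Helper391.WheelChi

open Finset Polynomial
open scoped Classical

variable {V : Type} [DecidableEq V]


private theorem w5_erase_eq (S : Finset V) (u v : V) (hu : u ∈ S) (huv : u ≠ v) :
    S.erase v = insert u ((S.erase u).erase v) := by
  ext x
  simp only [mem_erase, mem_insert]
  constructor
  · rintro ⟨h1, h2⟩
    by_cases hx : x = u
    · exact Or.inl hx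
    · exact Or.inr ⟨h1, hx, h2⟩
  · rintro (rfl | ⟨h1, h2, h3⟩)
    · exact ⟨huv, hu⟩
    · exact ⟨h1, h3⟩

private theorem w5_S_eq (S : Finset V) (u v : V) (hu : u ∈ S) (hv : v ∈ S) (huv : u ≠ v) :
    S = insert u (insert v ((S.erase u).erase v)) := by
  rw [insert_erase (mem_erase.2 ⟨huv.symm, hv⟩), insert_erase hu]

private theorem w5_cl_contr (G : SimpleGraph V) (u v : V) (X : Finset V) (r : ℕ)
    (hu : u ∉ X) : cl (contr G u v) r X = cl G r X := by
  unfold cl
  apply filter_congr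
  intro T hT
  rw [mem_powersetCard] at hT
  have key : ∀ a ∈ (T : Set V), ∀ b ∈ (T : Set V), a ≠ b →
      ((contr G u v).Adj a b ↔ G.Adj a b) := by
    intro a ha b hb hab
    have hau : a ≠ u := by
      rintro rfl
      exact hu (hT.1 (Finset.mem_coe.1 ha))
    have hbu : b ≠ u := by
      rintro rfl
      exact hu (hT.1 (Finset.mem_coe.1 hb))
    constructor
    · rintro ⟨_, h | ⟨h, _⟩ | ⟨h, _⟩⟩
      · exact h
      · exact absurd h hau
      · exact absurd h hbu
    · intro h
      exact ⟨hab, Or.inl h⟩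
  constructor
  · intro h a ha b hb hab
    exact (key a ha b hb hab).1 (h ha hb hab)
  · intro h a ha b hb hab
    exact (key a ha b hb hab).2 (h ha hb hab)

private theorem w5_ec_contr (G : SimpleGraph V) (u v : V) (X : Finset V)
    (hu : u ∉ X) : ec (contr G u v) X = ec G X := by
  unfold ec; rw [w5_cl_contr G u v X 2 hu]

private theorem w5_tc_contr (G : SimpleGraph V) (u v : V) (X : Finset V)
    (hu : u ∉ X) : tc (contr G u v) X = tc G X := by
  unfold tc; rw [w5_cl_contr G u v X 3 hu]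

private theorem w5_nb_contr (G : SimpleGraph V) (u v : V) (R : Finset V)
    (hu : u ∉ R) : nb (contr G u v) R u = nb G R u ∪ nb G R v := by
  unfold nb
  ext x
  simp only [mem_filter, mem_union]
  constructor
  · rintro ⟨hx, _, h | ⟨_, h⟩ | ⟨h, _⟩⟩
    · exact Or.inl ⟨hx, h⟩
    · exact Or.inr ⟨hx, h⟩
    · subst h
      exact absurd hx hu
  · rintro (⟨hx, h⟩ | ⟨hx, h⟩)
    · exact ⟨hx, G.ne_of_adj h, Or.inl h⟩
    · refine ⟨hx, ?_, Or.inr (Or.inl ⟨rfl, h⟩)⟩
      rintro rfl
      exact hu hx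

private theorem w5_nb_insert (G : SimpleGraph V) (R : Finset V) (u v : V) (huv : G.Adj u v) :
    nb G (insert v R) u = insert v (nb G R u) := by
  unfold nb
  rw [filter_insert, if_pos huv]

private theorem w5_notMem_R (S : Finset V) (u v : V) :
    u ∉ (S.erase u).erase v ∧ v ∉ (S.erase u).erase v := by
  constructor
  · intro h
    exact (notMem_erase u S) (mem_of_mem_erase h)
  · exact notMem_erase v _

private theorem w5_notMem_nb (G : SimpleGraph V) (R : Finset V) (a x : V) (h : x ∉ R) :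
    x ∉ nb G R a := fun h' => h (mem_filter.1 h').1

private theorem w5_nb_u (G : SimpleGraph V) (S : Finset V) (u v : V) (hu : u ∈ S) (hv : v ∈ S)
    (huv : G.Adj u v) : nb G S u = insert v (nb G ((S.erase u).erase v) u) := by
  have hne : u ≠ v := G.ne_of_adj huv
  ext x
  simp only [nb, mem_filter, mem_insert, mem_erase]
  constructor
  · rintro ⟨h1, h2⟩
    by_cases hx : x = v
    · exact Or.inl hx
    · exact Or.inr ⟨⟨hx, (G.ne_of_adj h2).symm, h1⟩, h2⟩
  · rintro (rfl | ⟨⟨h1, h2, h3⟩, h4⟩)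
    · exact ⟨hv, huv⟩
    · exact ⟨h3, h4⟩

private theorem w5_nb_v (G : SimpleGraph V) (S : Finset V) (u v : V) (hu : u ∈ S) (hv : v ∈ S)
    (huv : G.Adj u v) : nb G S v = insert u (nb G ((S.erase u).erase v) v) := by
  have hne : u ≠ v := G.ne_of_adj huv
  ext x
  simp only [nb, mem_filter, mem_insert, mem_erase]
  constructor
  · rintro ⟨h1, h2⟩
    by_cases hx : x = u
    · exact Or.inl hx
    · exact Or.inr ⟨⟨(G.ne_of_adj h2).symm, hx, h1⟩, h2⟩
  · rintro (rfl | ⟨⟨h1, h2, h3⟩, h4⟩)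
    · exact ⟨hu, huv.symm⟩
    · exact ⟨h3, h4⟩

private theorem w5_inter (G : SimpleGraph V) (S : Finset V) (u v : V) :
    nb G S u ∩ nb G S v = nb G ((S.erase u).erase v) u ∩ nb G ((S.erase u).erase v) v := by
  ext x
  simp only [nb, mem_inter, mem_filter, mem_erase]
  constructor
  · rintro ⟨⟨h1, h2⟩, _, h3⟩
    have a1 : x ≠ v := (G.ne_of_adj h3).symm
    have a2 : x ≠ u := (G.ne_of_adj h2).symm
    exact ⟨⟨⟨a1, a2, h1⟩, h2⟩, ⟨a1, a2, h1⟩, h3⟩
  · rintro ⟨⟨⟨_, _, h1⟩, h2⟩, _, h3⟩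
    exact ⟨⟨h1, h2⟩, h1, h3⟩

private theorem w5_nb_inter (G : SimpleGraph V) (R : Finset V) (u v : V) :
    nb G (nb G R u) v = nb G R u ∩ nb G R v := by
  ext x
  simp only [nb, mem_inter, mem_filter]
  tauto

private theorem w5_ec (G : SimpleGraph V) (S : Finset V) (u v : V) (hu : u ∈ S) (hv : v ∈ S)
    (huv : G.Adj u v) :
    ec G S = ec G ((S.erase u).erase v) + #(nb G ((S.erase u).erase v) u)
      + #(nb G ((S.erase u).erase v) v) + 1 := by
  have hne : u ≠ v := G.ne_of_adj huv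
  obtain ⟨h1, h2⟩ := w5_notMem_R S u v
  have h3 : u ∉ insert v ((S.erase u).erase v) := by
    simp only [mem_insert, not_or]
    exact ⟨hne, h1⟩
  conv_lhs => rw [w5_S_eq S u v hu hv hne]
  rw [ec_insert G _ u h3, ec_insert G _ v h2, w5_nb_insert G _ u v huv,
    card_insert_of_notMem (w5_notMem_nb G _ u v h2)]
  omega

private theorem w5_tc (G : SimpleGraph V) (S : Finset V) (u v : V) (hu : u ∈ S) (hv : v ∈ S)
    (huv : G.Adj u v) :
    tc G S = tc G ((S.erase u).erase v) + ec G (nb G ((S.erase u).erase v) u)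
      + ec G (nb G ((S.erase u).erase v) v) + #(nb G S u ∩ nb G S v) := by
  have hne : u ≠ v := G.ne_of_adj huv
  obtain ⟨h1, h2⟩ := w5_notMem_R S u v
  have h3 : u ∉ insert v ((S.erase u).erase v) := by
    simp only [mem_insert, not_or]
    exact ⟨hne, h1⟩
  rw [w5_inter]
  conv_lhs => rw [w5_S_eq S u v hu hv hne]
  rw [tc_insert G _ u h3, tc_insert G _ v h2, w5_nb_insert G _ u v huv,
    ec_insert G _ v (w5_notMem_nb G _ u v h2), w5_nb_inter]
  omega

private theorem w5_cl_mono (G : SimpleGraph V) (r : ℕ) {X Y : Finset V} (h : X ⊆ Y) :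
    cl G r X ⊆ cl G r Y := by
  unfold cl
  apply filter_subset_filter
  exact powersetCard_mono h

private theorem w5_cl_inter (G : SimpleGraph V) (r : ℕ) (X Y : Finset V) :
    cl G r X ∩ cl G r Y = cl G r (X ∩ Y) := by
  ext T
  simp only [cl, mem_inter, mem_filter, mem_powersetCard, subset_inter_iff]
  tauto

private theorem w5_super (G : SimpleGraph V) (X Y : Finset V) :
    ec G X + ec G Y ≤ ec G (X ∪ Y) + ec G (X ∩ Y) := by
  unfold ec
  rw [← card_union_add_card_inter, w5_cl_inter]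
  have : #(cl G 2 X ∪ cl G 2 Y) ≤ #(cl G 2 (X ∪ Y)) :=
    card_le_card (union_subset (w5_cl_mono G 2 subset_union_left)
      (w5_cl_mono G 2 subset_union_right))
  omega

private theorem w5_super' (G : SimpleGraph V) (X Y : Finset V) (p q : V) (hpX : p ∈ X) (hpY : p ∉ Y)
    (hqY : q ∈ Y) (hqX : q ∉ X) (hpq : G.Adj p q) :
    ec G X + ec G Y + 1 ≤ ec G (X ∪ Y) + ec G (X ∩ Y) := by
  unfold ec
  rw [← card_union_add_card_inter, w5_cl_inter]
  have hlt : #(cl G 2 X ∪ cl G 2 Y) < #(cl G 2 (X ∪ Y)) := by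
    apply card_lt_card
    refine ⟨union_subset (w5_cl_mono G 2 subset_union_left)
      (w5_cl_mono G 2 subset_union_right), ?_⟩
    intro hsub
    have hmem : ({p, q} : Finset V) ∈ cl G 2 (X ∪ Y) := by
      simp only [cl, mem_filter, mem_powersetCard]
      refine ⟨⟨?_, card_pair (G.ne_of_adj hpq)⟩, ?_⟩
      · intro x hx
        simp only [mem_insert, mem_singleton] at hx
        rcases hx with rfl | rfl
        · exact mem_union_left _ hpX
        · exact mem_union_right _ hqY
      · intro a ha b hb hab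
        simp only [coe_insert, coe_singleton, Set.mem_insert_iff, Set.mem_singleton_iff] at ha hb
        rcases ha with rfl | rfl <;> rcases hb with rfl | rfl
        · exact absurd rfl hab
        · exact hpq
        · exact hpq.symm
        · exact absurd rfl hab
    have := hsub hmem
    simp only [cl, mem_union, mem_filter, mem_powersetCard] at this
    rcases this with h | h
    · exact hqX (h.1.1 (by simp))
    · exact hpY (h.1.1 (by simp))
  omega

theorem ec_split (G : SimpleGraph V) (S : Finset V) (u v : V) (hu : u ∈ S) (hv : v ∈ S)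
    (huv : G.Adj u v) :
    ec G S + 1 = #(nb G S u) + #(nb G S v) + ec G ((S.erase u).erase v) := by
  obtain ⟨h1, h2⟩ := w5_notMem_R S u v
  rw [w5_ec G S u v hu hv huv, w5_nb_u G S u v hu hv huv, w5_nb_v G S u v hu hv huv,
    card_insert_of_notMem (w5_notMem_nb G _ u v h2),
    card_insert_of_notMem (w5_notMem_nb G _ v u h1)]
  omega

theorem ec_contr (G : SimpleGraph V) (S : Finset V) (u v : V) (hu : u ∈ S) (hv : v ∈ S)
    (huv : G.Adj u v) :
    ec (contr G u v) (S.erase v) + 1 + #(nb G S u ∩ nb G S v) = ec G S := by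
  have hne : u ≠ v := G.ne_of_adj huv
  obtain ⟨h1, h2⟩ := w5_notMem_R S u v
  rw [w5_ec G S u v hu hv huv, w5_inter, w5_erase_eq S u v hu hne, ec_insert _ _ u h1,
    w5_ec_contr G u v _ h1, w5_nb_contr G u v _ h1]
  have := card_union_add_card_inter (nb G ((S.erase u).erase v) u) (nb G ((S.erase u).erase v) v)
  omega

private theorem w5_tc' (G : SimpleGraph V) (S : Finset V) (u v : V) (hu : u ∈ S) (huv : u ≠ v) :
    tc (contr G u v) (S.erase v) = tc G ((S.erase u).erase v)
      + ec G (nb G ((S.erase u).erase v) u ∪ nb G ((S.erase u).erase v) v) := by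
  obtain ⟨h1, h2⟩ := w5_notMem_R S u v
  have h3 : u ∉ nb G ((S.erase u).erase v) u ∪ nb G ((S.erase u).erase v) v := by
    rw [mem_union, not_or]
    exact ⟨w5_notMem_nb G _ u u h1, w5_notMem_nb G _ v u h1⟩
  rw [w5_erase_eq S u v hu huv, tc_insert _ _ u h1, w5_tc_contr G u v _ h1,
    w5_nb_contr G u v _ h1, w5_ec_contr G u v _ h3]

theorem tc_contr (G : SimpleGraph V) (S : Finset V) (u v : V) (hu : u ∈ S) (hv : v ∈ S)
    (huv : G.Adj u v) :
    tc G S ≤ tc (contr G u v) (S.erase v) + #(nb G S u ∩ nb G S v)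
      + ec G (nb G S u ∩ nb G S v) := by
  have hne : u ≠ v := G.ne_of_adj huv
  rw [w5_tc G S u v hu hv huv, w5_tc' G S u v hu hne]
  have h := w5_super G (nb G ((S.erase u).erase v) u) (nb G ((S.erase u).erase v) v)
  rw [← w5_inter G S u v] at h
  omega

theorem tc_contr' (G : SimpleGraph V) (S : Finset V) (u v : V) (hu : u ∈ S) (hv : v ∈ S)
    (huv : G.Adj u v) (p q : V) (hp : p ∈ S) (hq : q ∈ S) (hpv : p ≠ v) (hqu : q ≠ u)
    (hup : G.Adj u p) (hvp : ¬ G.Adj v p) (hvq : G.Adj v q) (huq : ¬ G.Adj u q)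
    (hpq : G.Adj p q) :
    tc G S + 1 ≤ tc (contr G u v) (S.erase v) + #(nb G S u ∩ nb G S v)
      + ec G (nb G S u ∩ nb G S v) := by
  have hne : u ≠ v := G.ne_of_adj huv
  rw [w5_tc G S u v hu hv huv, w5_tc' G S u v hu hne]
  have hpR : p ∈ (S.erase u).erase v :=
    mem_erase.2 ⟨hpv, mem_erase.2 ⟨(G.ne_of_adj hup).symm, hp⟩⟩
  have hqR : q ∈ (S.erase u).erase v :=
    mem_erase.2 ⟨(G.ne_of_adj hvq).symm, mem_erase.2 ⟨hqu, hq⟩⟩
  have h := w5_super' G (nb G ((S.erase u).erase v) u) (nb G ((S.erase u).erase v) v) p q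
    (mem_filter.2 ⟨hpR, hup⟩) (fun h => hvp (mem_filter.1 h).2)
    (mem_filter.2 ⟨hqR, hvq⟩) (fun h => huq (mem_filter.1 h).2) hpq
  rw [← w5_inter G S u v] at h
  omega


end Pool.Agent.Helper391.WheelChi
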