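import Mathlib
import Pool.Agent.Helper391.Wheel.Defs

set_option autoImplicit false

namespace Pool.Agent.Helper391.WheelChi

open Finset Polynomial
open scoped Classical

variable {V : Type} [DecidableEq V]


private theorem Ncol_eq_881 (G : SimpleGraph V) (S : Finset V) (k : ℕ) :
    Ncol G S k = #(univ.filter (fun c : S → Fin k => ∀ a b : S, G.Adj a b → c a ≠ c b)) := by
  unfold Ncol
  rw [Nat.card_eq_fintype_card, Fintype.card_subtype]

theorem Ncol_del (G : SimpleGraph V) (S : Finset V) (u v : V) (hu : u ∈ S) (hv : v ∈ S)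
    (huv : G.Adj u v) (k : ℕ) :
    Ncol (del G u v) S k = Ncol G S k + Ncol (contr G u v) (S.erase v) k := by
  rw [Ncol_eq_881, Ncol_eq_881, Ncol_eq_881]
  have hne : u ≠ v := huv.ne
  have huE : u ∈ S.erase v := Finset.mem_erase.2 ⟨hne, hu⟩
  rw [← Finset.card_filter_add_card_filter_not (fun c : S → Fin k => c ⟨u, hu⟩ ≠ c ⟨v, hv⟩)]
  congr 1
  · congr 1
    ext c
    simp only [Finset.mem_filter, Finset.mem_univ, true_and]
    constructor
    · rintro ⟨h1, h2⟩ a b hab
      by_cases h : (a.1 = u ∧ b.1 = v) ∨ (a.1 = v ∧ b.1 = u)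
      · rcases h with ⟨ha, hb⟩ | ⟨ha, hb⟩
        · have ea : a = ⟨u, hu⟩ := Subtype.ext ha
          have eb : b = ⟨v, hv⟩ := Subtype.ext hb
          rw [ea, eb]
          exact h2
        · have ea : a = ⟨v, hv⟩ := Subtype.ext ha
          have eb : b = ⟨u, hu⟩ := Subtype.ext hb
          rw [ea, eb]
          exact fun e => h2 e.symm
      · exact h1 a b ⟨hab, h⟩
    · intro h
      exact ⟨fun a b hab => h a b hab.1, h ⟨u, hu⟩ ⟨v, hv⟩ huv⟩
  · refine Finset.card_bij (fun c _ => fun a : (S.erase v : Finset V) =>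
      c ⟨a.1, Finset.mem_of_mem_erase a.2⟩) ?_ ?_ ?_
    · intro c hc
      simp only [Finset.mem_filter, Finset.mem_univ, true_and, not_not] at hc ⊢
      obtain ⟨h1, h2⟩ := hc
      intro a b hab
      have hav : a.1 ≠ v := Finset.ne_of_mem_erase a.2
      have hbv : b.1 ≠ v := Finset.ne_of_mem_erase b.2
      rcases hab with ⟨hne', h | ⟨ha, h⟩ | ⟨hb, h⟩⟩
      · apply h1
        refine ⟨h, ?_⟩
        rintro (⟨_, hb⟩ | ⟨ha, _⟩)
        · exact hbv hb
        · exact hav ha
      · have ea : (⟨a.1, Finset.mem_of_mem_erase a.2⟩ : S) = ⟨u, hu⟩ := Subtype.ext ha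
        rw [ea, h2]
        apply h1
        refine ⟨h, ?_⟩
        rintro (⟨h3, _⟩ | ⟨_, h3⟩)
        · exact hne h3.symm
        · apply hne'
          rw [ha]
          exact h3.symm
      · have eb : (⟨b.1, Finset.mem_of_mem_erase b.2⟩ : S) = ⟨u, hu⟩ := Subtype.ext hb
        rw [eb, h2]
        apply Ne.symm
        apply h1
        refine ⟨h, ?_⟩
        rintro (⟨h3, _⟩ | ⟨_, h3⟩)
        · exact hne h3.symm
        · apply hne'
          rw [hb]
          exact h3
    · intro c hc d hd hcd
      simp only [Finset.mem_filter, Finset.mem_univ, true_and, not_not] at hc hd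
      funext a
      by_cases ha : a.1 = v
      · have ea : a = ⟨v, hv⟩ := Subtype.ext ha
        rw [ea, ← hc.2, ← hd.2]
        exact congrFun hcd ⟨u, huE⟩
      · exact congrFun hcd ⟨a.1, Finset.mem_erase.2 ⟨ha, a.2⟩⟩
    · intro d hd
      simp only [Finset.mem_filter, Finset.mem_univ, true_and] at hd
      refine ⟨fun a => if h : a.1 = v then d ⟨u, huE⟩ else
        d ⟨a.1, Finset.mem_erase.2 ⟨h, a.2⟩⟩, ?_, ?_⟩
      · simp only [Finset.mem_filter, Finset.mem_univ, true_and, not_not]
        constructor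
        · rintro a b ⟨hab, hn⟩
          by_cases ha : a.1 = v
          · by_cases hb : b.1 = v
            · exfalso
              rw [ha, hb] at hab
              exact G.loopless.irrefl v hab
            · rw [dif_pos ha, dif_neg hb]
              apply hd
              have hbu : b.1 ≠ u := fun e => hn (Or.inr ⟨ha, e⟩)
              refine ⟨hbu.symm, Or.inr (Or.inl ⟨rfl, ?_⟩)⟩
              have h5 : G.Adj v b.1 := by rw [← ha]; exact hab
              exact h5
          · by_cases hb : b.1 = v
            · rw [dif_neg ha, dif_pos hb]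
              apply hd
              have hau : a.1 ≠ u := fun e => hn (Or.inl ⟨e, hb⟩)
              refine ⟨hau, Or.inr (Or.inr ⟨rfl, ?_⟩)⟩
              have h5 : G.Adj v a.1 := by rw [← hb]; exact hab.symm
              exact h5
            · rw [dif_neg ha, dif_neg hb]
              apply hd
              exact ⟨hab.ne, Or.inl hab⟩
        · rw [dif_neg hne]
          simp
      · funext a
        have hav : a.1 ≠ v := Finset.ne_of_mem_erase a.2
        simp only [dif_neg hav]

theorem Ncol_noedge (G : SimpleGraph V) (S : Finset V) (h : ∀ a ∈ S, ∀ b ∈ S, ¬ G.Adj a b)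
    (k : ℕ) : Ncol G S k = k ^ #S := by
  rw [Ncol_eq_881, Finset.filter_true_of_mem]
  · rw [Finset.card_univ, Fintype.card_fun, Fintype.card_fin, Fintype.card_coe]
  · intro c _ a b hab
    exact absurd hab (h a.1 a.2 b.1 b.2)

theorem Ncol_congr (G G' : SimpleGraph V) (S : Finset V)
    (h : ∀ a ∈ S, ∀ b ∈ S, (G.Adj a b ↔ G'.Adj a b)) (k : ℕ) : Ncol G S k = Ncol G' S k := by
  rw [Ncol_eq_881, Ncol_eq_881]
  congr 1
  ext c
  simp only [Finset.mem_filter, Finset.mem_univ, true_and]
  constructor
  · intro hc a b hab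
    exact hc a b ((h a.1 a.2 b.1 b.2).2 hab)
  · intro hc a b hab
    exact hc a b ((h a.1 a.2 b.1 b.2).1 hab)


end Pool.Agent.Helper391.WheelChi
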