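import Mathlib
import Pool.Agent.Helper391.Wheel.Defs
import Pool.Agent.Helper391.Wheel.W4
import Pool.Agent.Helper391.Wheel.W5
import Pool.Agent.Helper391.Wheel.W9

set_option autoImplicit false

namespace Pool.Agent.Helper391.WheelChi

open Finset Polynomial
open scoped Classical

variable {V : Type} [DecidableEq V]


private theorem mem_cl_two (G : SimpleGraph V) (S : Finset V) {a b : V} (ha : a ∈ S) (hb : b ∈ S)
    (h : G.Adj a b) : ({a, b} : Finset V) ∈ cl G 2 S := by
  unfold cl
  rw [mem_filter, mem_powersetCard]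
  refine ⟨⟨?_, card_pair h.ne⟩, ?_⟩
  · intro x hx
    rcases mem_insert.mp hx with rfl | hx
    · exact ha
    · rw [mem_singleton.mp hx]; exact hb
  · intro x hx y hy hxy
    simp only [coe_insert, coe_singleton, Set.mem_insert_iff, Set.mem_singleton_iff] at hx hy
    rcases hx with rfl | rfl <;> rcases hy with rfl | rfl
    · exact absurd rfl hxy
    · exact h
    · exact h.symm
    · exact absurd rfl hxy

private theorem noedge_of_ec (G : SimpleGraph V) (S : Finset V) (h : ec G S = 0) :
    ∀ a ∈ S, ∀ b ∈ S, ¬ G.Adj a b := by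
  intro a ha b hb hab
  have := mem_cl_two G S ha hb hab
  rw [ec, card_eq_zero] at h
  rw [h] at this
  exact absurd this (notMem_empty _)

private theorem tc_of_noedge (G : SimpleGraph V) (S : Finset V) (h : ∀ a ∈ S, ∀ b ∈ S, ¬ G.Adj a b) :
    tc G S = 0 := by
  rw [tc, card_eq_zero, eq_empty_iff_forall_notMem]
  intro T hT
  unfold cl at hT
  rw [mem_filter, mem_powersetCard] at hT
  obtain ⟨⟨hTS, hT3⟩, hcl⟩ := hT
  obtain ⟨x, hx, y, hy, hxy⟩ := one_lt_card.mp (by omega : 1 < #T)
  exact h x (hTS hx) y (hTS hy) (hcl hx hy hxy)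

private theorem exists_chrom_aux (n : ℕ) : ∀ (G : SimpleGraph V) (S : Finset V), ec G S = n →
    ∃ P : ℤ[X], (∀ k : ℕ, P.eval (k : ℤ) = Ncol G S k) ∧ P.natDegree = #S ∧ P.Monic ∧
      (∀ i, #S = i + 1 → P.coeff i = -(ec G S : ℤ)) ∧
      (∀ i, #S = i + 2 → 2 * P.coeff i = (ec G S : ℤ) * (ec G S - 1) - 2 * tc G S) := by
  induction n using Nat.strong_induction_on with
  | _ n ih =>
    intro G S hn
    by_cases hE : ∀ a ∈ S, ∀ b ∈ S, ¬ G.Adj a b
    · have hec : ec G S = 0 := by
        rw [ec, card_eq_zero, eq_empty_iff_forall_notMem]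
        intro T hT
        unfold cl at hT
        rw [mem_filter, mem_powersetCard] at hT
        obtain ⟨⟨hTS, hT3⟩, hcl⟩ := hT
        obtain ⟨x, hx, y, hy, hxy⟩ := one_lt_card.mp (by omega : 1 < #T)
        exact hE x (hTS hx) y (hTS hy) (hcl hx hy hxy)
      refine ⟨X ^ #S, ?_, natDegree_X_pow _, monic_X_pow _, ?_, ?_⟩
      · intro k
        rw [eval_pow, eval_X, Ncol_noedge G S hE k]
        push_cast
        rfl
      · intro i hi
        rw [hec, coeff_X_pow, if_neg (by omega)]
        simp
      · intro i hi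
        rw [hec, tc_of_noedge G S hE, coeff_X_pow, if_neg (by omega)]
        simp
    · push Not at hE
      obtain ⟨u, hu, v, hv, huv⟩ := hE
      have h1 := ec_del G S u v hu hv huv
      have h2 := tc_del G S u v hu hv huv
      have h3 := ec_contr G S u v hu hv huv
      obtain ⟨P1, he1, hd1, hm1, ha1, hb1⟩ := ih (ec (del G u v) S) (by omega) (del G u v) S rfl
      obtain ⟨P2, he2, hd2, hm2, ha2, hb2⟩ := ih (ec (contr G u v) (S.erase v)) (by omega)
        (contr G u v) (S.erase v) rfl
      have hcard : #(S.erase v) + 1 = #S := card_erase_add_one hv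
      have hu' : u ∈ S.erase v := mem_erase.mpr ⟨huv.ne, hu⟩
      have hpos : 0 < #(S.erase v) := card_pos.mpr ⟨u, hu'⟩
      have hlt : P2.natDegree < P1.natDegree := by rw [hd1, hd2]; omega
      refine ⟨P1 - P2, ?_, ?_, ?_, ?_, ?_⟩
      · intro k
        rw [eval_sub, he1, he2, Ncol_del G S u v hu hv huv k]
        push_cast
        ring
      · rw [natDegree_sub_eq_left_of_natDegree_lt hlt, hd1]
      · exact hm1.sub_of_left (degree_lt_degree hlt)
      · intro i hi
        have e2 : P2.coeff i = 1 := by
          have : i = P2.natDegree := by rw [hd2]; omega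
          rw [this]; exact hm2.coeff_natDegree
        rw [coeff_sub, ha1 i hi, e2]
        have : (ec (del G u v) S : ℤ) + 1 = ec G S := by exact_mod_cast h1
        linarith
      · intro i hi
        have e1 := hb1 i hi
        have e2 := ha2 i (by omega)
        rw [coeff_sub, e2]
        have g1 : (ec (del G u v) S : ℤ) = ec G S - 1 := by
          have : (ec (del G u v) S : ℤ) + 1 = ec G S := by exact_mod_cast h1
          linarith
        have g2 : (tc (del G u v) S : ℤ) = tc G S - #(nb G S u ∩ nb G S v) := by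
          have : (tc (del G u v) S : ℤ) + #(nb G S u ∩ nb G S v) = tc G S := by exact_mod_cast h2
          linarith
        have g3 : (ec (contr G u v) (S.erase v) : ℤ) =
            ec G S - 1 - #(nb G S u ∩ nb G S v) := by
          have : (ec (contr G u v) (S.erase v) : ℤ) + 1 + #(nb G S u ∩ nb G S v) = ec G S := by
            exact_mod_cast h3
          linarith
        rw [g1, g2] at e1
        rw [g3]
        linear_combination e1

theorem exists_chrom (G : SimpleGraph V) (S : Finset V) :
    ∃ P : ℤ[X], (∀ k : ℕ, P.eval (k : ℤ) = Ncol G S k) ∧ P.natDegree = #S ∧ P.Monic ∧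
      (∀ i, #S = i + 1 → P.coeff i = -(ec G S : ℤ)) ∧
      (∀ i, #S = i + 2 → 2 * P.coeff i = (ec G S : ℤ) * (ec G S - 1) - 2 * tc G S) :=
  exists_chrom_aux _ G S rfl

/-- the chromatic polynomial of `G[S]` -/
noncomputable def chrom (G : SimpleGraph V) (S : Finset V) : ℤ[X] := (exists_chrom G S).choose

/-- Crapo's beta invariant (chromatic invariant) of `G[S]` -/
noncomputable def bb (G : SimpleGraph V) (S : Finset V) : ℤ :=
  (-1) ^ #S * (derivative (chrom G S)).eval 1


end Pool.Agent.Helper391.WheelChi
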