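import Mathlib
import Pool.Agent.Helper391.Wheel.Defs
import Pool.Agent.Helper391.Wheel.W9
import Pool.Agent.Helper391.Wheel.W10
import Pool.Agent.Helper391.Wheel.W13

set_option autoImplicit false

namespace Pool.Agent.Helper391.WheelChi

open Finset Polynomial
open scoped Classical

variable {V : Type} [DecidableEq V]


theorem chrom_eval (G : SimpleGraph V) (S : Finset V) (k : ℕ) :
    (chrom G S).eval (k : ℤ) = Ncol G S k := (exists_chrom G S).choose_spec.1 k

private theorem poly_ext_nat {P Q : ℤ[X]} (h : ∀ k : ℕ, P.eval (k : ℤ) = Q.eval (k : ℤ)) : P = Q := by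
  apply Polynomial.eq_of_infinite_eval_eq
  refine Set.Infinite.mono (s := Set.range (fun k : ℕ => (k : ℤ))) ?_ ?_
  · rintro _ ⟨k, rfl⟩
    exact h k
  · exact Set.infinite_range_of_injective (fun a b hab => by exact_mod_cast hab)

theorem bb_congr (G G' : SimpleGraph V) (S : Finset V)
    (h : ∀ a ∈ S, ∀ b ∈ S, (G.Adj a b ↔ G'.Adj a b)) : bb G S = bb G' S := by
  have : chrom G S = chrom G' S := by
    apply poly_ext_nat
    intro k
    rw [chrom_eval, chrom_eval, Ncol_congr G G' S h]
  unfold bb
  rw [this]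

private theorem chrom_del (G : SimpleGraph V) (S : Finset V) (u v : V) (hu : u ∈ S) (hv : v ∈ S)
    (huv : G.Adj u v) :
    chrom (del G u v) S = chrom G S + chrom (contr G u v) (S.erase v) := by
  apply poly_ext_nat
  intro k
  rw [eval_add, chrom_eval, chrom_eval, chrom_eval, Ncol_del G S u v hu hv huv]
  push_cast
  rfl

theorem bb_del (G : SimpleGraph V) (S : Finset V) (u v : V) (hu : u ∈ S) (hv : v ∈ S)
    (huv : G.Adj u v) : bb G S = bb (del G u v) S + bb (contr G u v) (S.erase v) := by
  unfold bb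
  rw [chrom_del G S u v hu hv huv, derivative_add, eval_add]
  have hc : #S = #(S.erase v) + 1 := by
    rw [Finset.card_erase_of_mem hv]
    have : 0 < #S := Finset.card_pos.mpr ⟨v, hv⟩
    omega
  rw [hc, pow_succ]
  ring

private theorem Ncol_one_eq_zero (G : SimpleGraph V) (S : Finset V) (a b : V) (ha : a ∈ S) (hb : b ∈ S)
    (hab : G.Adj a b) : Ncol G S 1 = 0 := by
  unfold Ncol
  have : IsEmpty {c : S → Fin 1 // ∀ a b : S, G.Adj a b → c a ≠ c b} := by
    constructor
    rintro ⟨c, hc⟩
    exact hc ⟨a, ha⟩ ⟨b, hb⟩ hab (Subsingleton.elim _ _)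
  exact Nat.card_of_isEmpty

theorem bb_cut (G : SimpleGraph V) (S : Finset V) (x : V) (hx : x ∈ S) (h : Conn G S)
    (hn : ¬ Conn G (S \ {x})) : bb G S = 0 := by
  unfold Conn at hn
  push Not at hn
  obtain ⟨B, hBS, hBne, hAne, hno⟩ := hn
  set A := (S \ {x}) \ B with hA
  have xA : x ∉ A := by simp [hA]
  have xB : x ∉ B := fun hxB => by
    have := hBS hxB
    simp at this
  have dis : Disjoint A B := Finset.sdiff_disjoint
  have noE : ∀ a ∈ A, ∀ b ∈ B, ¬ G.Adj a b := fun a ha b hb hab => hno b hb a ha hab.symm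
  have hAB : A ∪ B = S \ {x} := Finset.sdiff_union_of_subset hBS
  have hS : S = insert x (A ∪ B) := by
    rw [hAB]
    ext y
    simp only [Finset.mem_insert, Finset.mem_sdiff, Finset.mem_singleton]
    constructor
    · intro hy
      by_cases hyx : y = x
      · exact Or.inl hyx
      · exact Or.inr ⟨hy, hyx⟩
    · rintro (rfl | ⟨hy, _⟩)
      · exact hx
      · exact hy
  have hAS : A ⊆ S := fun y hy => by
    rw [hS]
    exact Finset.mem_insert_of_mem (Finset.mem_union_left _ hy)
  have hBS' : B ⊆ S := fun y hy => by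
    rw [hS]
    exact Finset.mem_insert_of_mem (Finset.mem_union_right _ hy)
  obtain ⟨a, ha, a', ha', hadj⟩ := h A hAS hAne ⟨x, by simp [hx, xA]⟩
  have ha'x : a' = x := by
    rw [Finset.mem_sdiff] at ha'
    have h1 := ha'.1
    rw [hS] at h1
    rcases Finset.mem_insert.mp h1 with h2 | h2
    · exact h2
    · rcases Finset.mem_union.mp h2 with h3 | h3
      · exact absurd h3 ha'.2
      · exact absurd hadj (noE a ha a' h3)
  subst ha'x
  obtain ⟨b, hb, b', hb', hadjb⟩ := h B hBS' hBne ⟨a', by simp [hx, xB]⟩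
  have hb'x : b' = a' := by
    rw [Finset.mem_sdiff] at hb'
    have h1 := hb'.1
    rw [hS] at h1
    rcases Finset.mem_insert.mp h1 with h2 | h2
    · exact h2
    · rcases Finset.mem_union.mp h2 with h3 | h3
      · exact absurd hadjb.symm (noE b' h3 b hb)
      · exact absurd h3 hb'.2
  subst hb'x
  have e1 : chrom G S * X = chrom G (insert b' A) * chrom G (insert b' B) := by
    apply poly_ext_nat
    intro k
    rw [eval_mul, eval_mul, eval_X, chrom_eval, chrom_eval, chrom_eval]
    have := Ncol_glue1 G b' A B xA xB dis noE k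
    rw [← hS] at this
    exact_mod_cast this
  have z1 : (chrom G (insert b' A)).eval 1 = 0 := by
    have := chrom_eval G (insert b' A) 1
    rw [Ncol_one_eq_zero G _ a b' (Finset.mem_insert_of_mem ha) (Finset.mem_insert_self _ _) hadj]
      at this
    simpa using this
  have z2 : (chrom G (insert b' B)).eval 1 = 0 := by
    have := chrom_eval G (insert b' B) 1
    rw [Ncol_one_eq_zero G _ b b' (Finset.mem_insert_of_mem hb) (Finset.mem_insert_self _ _) hadjb]
      at this
    simpa using this
  have z3 : (chrom G S).eval 1 = 0 := by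
    have := congrArg (fun P => P.eval 1) e1
    simpa [z1] using this
  have e2 := congrArg (fun P => (derivative P).eval 1) e1
  simp only [derivative_mul, eval_add, eval_mul, derivative_X, eval_X, eval_one, z1, z2, z3,
    mul_zero, zero_mul, add_zero, mul_one] at e2
  unfold bb
  rw [e2, mul_zero]

private theorem chrom_noedge (G : SimpleGraph V) (S : Finset V) (h : ∀ a ∈ S, ∀ b ∈ S, ¬ G.Adj a b) :
    chrom G S = X ^ #S := by
  apply poly_ext_nat
  intro k
  rw [chrom_eval, Ncol_noedge G S h, eval_pow, eval_X]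
  push_cast
  rfl

private theorem bb_noedge (G : SimpleGraph V) (S : Finset V) (h : ∀ a ∈ S, ∀ b ∈ S, ¬ G.Adj a b) :
    bb G S = (-1) ^ #S * #S := by
  unfold bb
  rw [chrom_noedge G S h, derivative_X_pow]
  simp

theorem bb_K2 (G : SimpleGraph V) (S : Finset V) (h : Conn G S) (h2 : #S = 2) :
    bb G S = 1 := by
  obtain ⟨x, y, hxy, rfl⟩ := Finset.card_eq_two.mp h2
  have hadj : G.Adj x y := by
    obtain ⟨a, ha, b, hb, hab⟩ := h {x} (by simp) ⟨x, by simp⟩ ⟨y, by simp [hxy.symm]⟩
    simp only [Finset.mem_singleton] at ha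
    subst ha
    simp only [Finset.mem_sdiff, Finset.mem_insert, Finset.mem_singleton] at hb
    rcases hb with ⟨rfl | rfl, hb2⟩
    · exact absurd rfl hb2
    · exact hab
  rw [bb_del G _ x y (by simp) (by simp) hadj]
  have e1 : ({x, y} : Finset V).erase y = {x} := by
    ext z
    simp only [Finset.mem_erase, Finset.mem_insert, Finset.mem_singleton]
    constructor
    · rintro ⟨h1, h2 | h2⟩
      · exact h2
      · exact absurd h2 h1
    · rintro rfl
      exact ⟨hxy, Or.inl rfl⟩
  rw [e1, bb_noedge (del G x y), bb_noedge (contr G x y), h2]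
  · simp
  · intro a ha b hb hab
    simp only [Finset.mem_singleton] at ha hb
    subst ha; subst hb
    exact hab.1 rfl
  · intro a ha b hb hab
    simp only [Finset.mem_insert, Finset.mem_singleton] at ha hb
    rcases ha with rfl | rfl <;> rcases hb with rfl | rfl
    · exact G.loopless.irrefl _ hab.1
    · exact hab.2 (Or.inl ⟨rfl, rfl⟩)
    · exact hab.2 (Or.inr ⟨rfl, rfl⟩)
    · exact G.loopless.irrefl _ hab.1

private theorem two_adj (G : SimpleGraph V) (a b : V) (hab : a ≠ b) (h : Conn G {a, b}) : G.Adj a b := by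
  obtain ⟨u, hu, w, hw, huw⟩ := h {a} (by simp) ⟨a, by simp⟩ ⟨b, by simp [hab.symm]⟩
  simp only [Finset.mem_singleton] at hu
  subst hu
  simp only [Finset.mem_sdiff, Finset.mem_insert, Finset.mem_singleton] at hw
  rcases hw with ⟨rfl | rfl, hw2⟩
  · exact absurd rfl hw2
  · exact huw

theorem bb_three (G : SimpleGraph V) (S : Finset V) (h : TwoConn G S) (h3 : #S = 3) :
    bb G S = 1 := by
  obtain ⟨a, b, c, hab, hac, hbc, rfl⟩ := Finset.card_eq_three.mp h3
  have eC : ({a, b, c} : Finset V) \ {c} = {a, b} := by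
    ext z
    simp only [Finset.mem_sdiff, Finset.mem_insert, Finset.mem_singleton]
    constructor
    · rintro ⟨h1 | h1 | h1, h2⟩
      · exact Or.inl h1
      · exact Or.inr h1
      · exact absurd h1 h2
    · rintro (rfl | rfl)
      · exact ⟨Or.inl rfl, hac⟩
      · exact ⟨Or.inr (Or.inl rfl), hbc⟩
  have eB : ({a, b, c} : Finset V) \ {b} = {a, c} := by
    ext z
    simp only [Finset.mem_sdiff, Finset.mem_insert, Finset.mem_singleton]
    constructor
    · rintro ⟨h1 | h1 | h1, h2⟩
      · exact Or.inl h1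
      · exact absurd h1 h2
      · exact Or.inr h1
    · rintro (rfl | rfl)
      · exact ⟨Or.inl rfl, hab⟩
      · exact ⟨Or.inr (Or.inr rfl), hbc.symm⟩
  have eA : ({a, b, c} : Finset V) \ {a} = {b, c} := by
    ext z
    simp only [Finset.mem_sdiff, Finset.mem_insert, Finset.mem_singleton]
    constructor
    · rintro ⟨h1 | h1 | h1, h2⟩
      · exact absurd h1 h2
      · exact Or.inl h1
      · exact Or.inr h1
    · rintro (rfl | rfl)
      · exact ⟨Or.inr (Or.inl rfl), hab.symm⟩
      · exact ⟨Or.inr (Or.inr rfl), hac.symm⟩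
  have Aab : G.Adj a b := two_adj G a b hab (by rw [← eC]; exact h.2 {c} (by simp))
  have Aac : G.Adj a c := two_adj G a c hac (by rw [← eB]; exact h.2 {b} (by simp))
  have Abc : G.Adj b c := two_adj G b c hbc (by rw [← eA]; exact h.2 {a} (by simp))
  have Dac : (del G a b).Adj a c := ⟨Aac, by
    rintro (⟨_, h2⟩ | ⟨h1, _⟩)
    · exact hbc h2.symm
    · exact hab h1⟩
  have Dbc : (del G a b).Adj b c := ⟨Abc, by
    rintro (⟨h1, _⟩ | ⟨_, h2⟩)
    · exact hab h1.symm
    · exact hac h2.symm⟩
  rw [bb_del G _ a b (by simp) (by simp) Aab]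
  have z : bb (del G a b) {a, b, c} = 0 := by
    apply bb_cut _ _ c (by simp)
    · intro B hB hBne hne
      by_cases hc : c ∈ B
      · obtain ⟨y, hy⟩ := hne
        refine ⟨c, hc, y, hy, ?_⟩
        simp only [Finset.mem_sdiff, Finset.mem_insert, Finset.mem_singleton] at hy
        rcases hy with ⟨rfl | rfl | rfl, hy2⟩
        · exact Dac.symm
        · exact Dbc.symm
        · exact absurd hc hy2
      · obtain ⟨y, hy⟩ := hBne
        refine ⟨y, hy, c, by simp [hc], ?_⟩
        have hy' := hB hy
        simp only [Finset.mem_insert, Finset.mem_singleton] at hy'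
        rcases hy' with rfl | rfl | rfl
        · exact Dac
        · exact Dbc
        · exact absurd hy hc
    · rw [eC]
      intro hcon
      have := two_adj _ a b hab hcon
      exact this.2 (Or.inl ⟨rfl, rfl⟩)
  have e1 : ({a, b, c} : Finset V).erase b = {a, c} := by
    rw [← eB, Finset.erase_eq]
  rw [z, e1, zero_add]
  apply bb_K2
  · intro B hB hBne hne
    have Cac : (contr G a b).Adj a c := ⟨hac, Or.inl Aac⟩
    obtain ⟨x, hx⟩ := hBne
    obtain ⟨y, hy⟩ := hne
    refine ⟨x, hx, y, hy, ?_⟩
    have hx' := hB hx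
    rw [Finset.mem_sdiff] at hy
    have hxy : x ≠ y := fun e => hy.2 (e ▸ hx)
    have hy' := hy.1
    simp only [Finset.mem_insert, Finset.mem_singleton] at hx' hy'
    rcases hx' with rfl | rfl <;> rcases hy' with rfl | rfl
    · exact absurd rfl hxy
    · exact Cac
    · exact Cac.symm
    · exact absurd rfl hxy
  · exact Finset.card_pair hac


end Pool.Agent.Helper391.WheelChi
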