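import Mathlib
import Pool.Agent.Helper391.Wheel.Defs
import Pool.Agent.Helper391.Wheel.W4
import Pool.Agent.Helper391.Wheel.W5
import Pool.Agent.Helper391.Wheel.W13
import Pool.Agent.Helper391.Wheel.W14

set_option autoImplicit false

namespace Pool.Agent.Helper391.WheelChi

open Finset Polynomial
open scoped Classical

variable {V : Type} [DecidableEq V]


private theorem contr_conn (G : SimpleGraph V) (S : Finset V) (u v : V) (hu : u ∈ S) (hv : v ∈ S)
    (huv : u ≠ v) (h : Conn G S) : Conn (contr G u v) (S.erase v) := by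
  intro P hPS hP hPc
  obtain ⟨p, hp⟩ := hP
  obtain ⟨q, hq⟩ := hPc
  rw [mem_sdiff, mem_erase] at hq
  have hvP : v ∉ P := fun hvP => (mem_erase.1 (hPS hvP)).1 rfl
  by_cases huP : u ∈ P
  · have h1 := h (insert v P) (by
      intro x hx
      rcases mem_insert.1 hx with rfl | hx
      · exact hv
      · exact mem_of_mem_erase (hPS hx)) ⟨v, mem_insert_self v P⟩ ⟨q, by
        rw [mem_sdiff, mem_insert]
        refine ⟨hq.1.2, ?_⟩
        rintro (h1 | h1)
        · exact hq.1.1 h1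
        · exact hq.2 h1⟩
    obtain ⟨x, hx, y, hy, hxy⟩ := h1
    rw [mem_sdiff, mem_insert, not_or] at hy
    rcases mem_insert.1 hx with rfl | hx
    · refine ⟨u, huP, y, ?_, ?_, ?_⟩
      · rw [mem_sdiff, mem_erase]; exact ⟨⟨hy.2.1, hy.1⟩, hy.2.2⟩
      · rintro rfl; exact hy.2.2 huP
      · exact Or.inr (Or.inl ⟨rfl, hxy⟩)
    · refine ⟨x, hx, y, ?_, hxy.ne, Or.inl hxy⟩
      rw [mem_sdiff, mem_erase]; exact ⟨⟨hy.2.1, hy.1⟩, hy.2.2⟩
  · have h1 := h P (by
      intro x hx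
      exact mem_of_mem_erase (hPS hx)) ⟨p, hp⟩ ⟨q, by
        rw [mem_sdiff]
        exact ⟨hq.1.2, hq.2⟩⟩
    obtain ⟨x, hx, y, hy, hxy⟩ := h1
    rw [mem_sdiff] at hy
    by_cases hyv : y = v
    · subst hyv
      refine ⟨x, hx, u, ?_, ?_, ?_⟩
      · rw [mem_sdiff, mem_erase]; exact ⟨⟨huv, hu⟩, huP⟩
      · rintro rfl; exact huP hx
      · exact Or.inr (Or.inr ⟨rfl, hxy.symm⟩)
    · refine ⟨x, hx, y, ?_, hxy.ne, Or.inl hxy⟩
      rw [mem_sdiff, mem_erase]; exact ⟨⟨hyv, hy.1⟩, hy.2⟩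

private theorem del_cut_aux (G : SimpleGraph V) (S : Finset V) (u v : V) (hu : u ∈ S) (hv : v ∈ S)
    (h3 : 3 ≤ #S) (B : Finset V) (hBS : B ⊆ S)
    (huB : u ∈ B) (hvB : v ∉ B)
    (hE : ∀ x ∈ B, ∀ y ∈ S \ B, G.Adj x y → x = u ∧ y = v) : ∃ x ∈ S, ¬ Conn G (S \ {x}) := by
  have huv : u ≠ v := by rintro rfl; exact hvB huB
  obtain ⟨w, hw⟩ : (S \ {u, v}).Nonempty := by
    rw [← card_pos]
    have h1 := le_card_sdiff ({u, v} : Finset V) S
    have h2 : #({u, v} : Finset V) = 2 := card_pair huv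
    omega
  rw [mem_sdiff, mem_insert, mem_singleton, not_or] at hw
  obtain ⟨hwS, hwu, hwv⟩ := hw
  by_cases hwB : w ∈ B
  · refine ⟨u, hu, fun hC => ?_⟩
    obtain ⟨x, hx, y, hy, hxy⟩ := hC (B \ {u}) (sdiff_subset_sdiff hBS (Subset.refl _))
      ⟨w, by rw [mem_sdiff, mem_singleton]; exact ⟨hwB, hwu⟩⟩
      ⟨v, by
        rw [mem_sdiff, mem_sdiff, mem_sdiff, mem_singleton]
        exact ⟨⟨hv, huv.symm⟩, fun hh => hvB hh.1⟩⟩
    rw [mem_sdiff, mem_singleton] at hx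
    rw [mem_sdiff, mem_sdiff, mem_sdiff, mem_singleton] at hy
    have hyB : y ∉ B := fun hh => hy.2 ⟨hh, hy.1.2⟩
    exact hx.2 (hE x hx.1 y (mem_sdiff.2 ⟨hy.1.1, hyB⟩) hxy).1
  · refine ⟨v, hv, fun hC => ?_⟩
    obtain ⟨x, hx, y, hy, hxy⟩ := hC B (by
        intro x hx
        rw [mem_sdiff, mem_singleton]
        exact ⟨hBS hx, fun hh => hvB (hh ▸ hx)⟩) ⟨u, huB⟩
      ⟨w, by
        rw [mem_sdiff, mem_sdiff, mem_singleton]
        exact ⟨⟨hwS, hwv⟩, hwB⟩⟩
    rw [mem_sdiff, mem_sdiff, mem_singleton] at hy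
    exact hy.1.2 (hE x hx y (mem_sdiff.2 ⟨hy.1.1, hy.2⟩) hxy).2

private theorem del_split (G : SimpleGraph V) (T : Finset V) (u v : V)
    (h : Conn G T) (hn : ¬ Conn (del G u v) T) :
    ∃ B ⊆ T, (u ∈ B ∧ v ∈ T \ B) ∧ (∀ x ∈ B, ∀ y ∈ T \ B, G.Adj x y → x = u ∧ y = v) := by
  unfold Conn at hn
  push Not at hn
  obtain ⟨B, hBT, hB, hBc, hE⟩ := hn
  obtain ⟨x, hx, y, hy, hxy⟩ := h B hBT hB hBc
  have hE' : ∀ x ∈ B, ∀ y ∈ T \ B, G.Adj x y → (x = u ∧ y = v) ∨ (x = v ∧ y = u) := by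
    intro a ha b hb hab
    by_contra hcon
    exact hE a ha b hb ⟨hab, hcon⟩
  rcases hE' x hx y hy hxy with ⟨rfl, rfl⟩ | ⟨rfl, rfl⟩
  · refine ⟨B, hBT, ⟨hx, hy⟩, ?_⟩
    intro a ha b hb hab
    rcases hE' a ha b hb hab with h1 | ⟨rfl, rfl⟩
    · exact h1
    · exact absurd ha (mem_sdiff.1 hy).2
  · refine ⟨T \ B, sdiff_subset, ⟨hy, ?_⟩, ?_⟩
    · rw [Finset.sdiff_sdiff_eq_self hBT]; exact hx
    · intro a ha b hb hab
      rw [Finset.sdiff_sdiff_eq_self hBT] at hb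
      rcases hE' b hb a ha hab.symm with ⟨rfl, rfl⟩ | ⟨h1, h2⟩
      · exact absurd hb (mem_sdiff.1 hy).2
      · exact ⟨h2, h1⟩

private theorem del_cut (G : SimpleGraph V) (S : Finset V) (u v : V) (hu : u ∈ S) (hv : v ∈ S)
    (h3 : 3 ≤ #S) (h : Conn G S) (hn : ¬ Conn (del G u v) S) :
    ∃ x ∈ S, ¬ Conn G (S \ {x}) := by
  obtain ⟨B, hBS, ⟨huB, hvB⟩, hE⟩ := del_split G S u v h hn
  exact del_cut_aux G S u v hu hv h3 B hBS huB (mem_sdiff.1 hvB).2 hE

private theorem exists_edge (G : SimpleGraph V) (S : Finset V) (h : Conn G S) (h2 : 2 ≤ #S) :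
    ∃ u ∈ S, ∃ v ∈ S, G.Adj u v := by
  obtain ⟨a, ha, b, hb, hab⟩ := one_lt_card.1 (by omega : 1 < #S)
  obtain ⟨x, hx, y, hy, hxy⟩ := h {a} (singleton_subset_iff.2 ha) (singleton_nonempty a)
    ⟨b, by rw [mem_sdiff, mem_singleton]; exact ⟨hb, fun hh => hab hh.symm⟩⟩
  rw [mem_singleton] at hx
  subst hx
  exact ⟨x, ha, y, (mem_sdiff.1 hy).1, hxy⟩

private theorem bb_nonneg_aux (n : ℕ) : ∀ (G : SimpleGraph V) (S : Finset V), ec G S ≤ n → Conn G S →
    2 ≤ #S → 0 ≤ bb G S := by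
  induction n with
  | zero =>
    intro G S hn h h2
    exfalso
    obtain ⟨u, hu, v, hv, huv⟩ := exists_edge G S h h2
    have := ec_del G S u v hu hv huv
    omega
  | succ n ih =>
    intro G S hn h h2
    rcases Nat.lt_or_ge 2 #S with h3 | h3
    · obtain ⟨u, hu, v, hv, huv⟩ := exists_edge G S h h2
      by_cases hd : Conn (del G u v) S
      · have e1 := ec_del G S u v hu hv huv
        have e2 := ec_contr G S u v hu hv huv
        have h4 : #(S.erase v) = #S - 1 := card_erase_of_mem hv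
        have i1 := ih (del G u v) S (by omega) hd h2
        have i2 := ih (contr G u v) (S.erase v) (by omega)
          (contr_conn G S u v hu hv huv.ne h) (by omega)
        rw [bb_del G S u v hu hv huv]
        linarith
      · obtain ⟨x, hx, hc⟩ := del_cut G S u v hu hv h3 h hd
        exact (bb_cut G S x hx h hc).ge
    · rw [bb_K2 G S h (by omega)]
      norm_num

theorem bb_nonneg (G : SimpleGraph V) (S : Finset V) (h : Conn G S) (h2 : 2 ≤ #S) :
    0 ≤ bb G S := bb_nonneg_aux (ec G S) G S le_rfl h h2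

private theorem key1 (G : SimpleGraph V) (S : Finset V) (u v : V) (h2 : TwoConn G S) (hu : u ∈ S)
    (hv : v ∈ S) (huv : u ≠ v) (A B : Finset V) (hB : B.Nonempty)
    (hAB : A ∪ B = S \ {u, v}) (hE : ∀ a ∈ A, ∀ b ∈ B, ¬ G.Adj a b)
    (F P R : Finset V) (hPR : P ∪ R = S \ F) (hdis : Disjoint P R) (huP : u ∈ P) (hvR : v ∈ R)
    (hE2 : ∀ x ∈ P, ∀ y ∈ R, G.Adj x y → x = u ∧ y = v) (hFB : Disjoint F B) : False := by
  have hBS : ∀ b ∈ B, b ∈ S ∧ b ≠ u ∧ b ≠ v := by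
    intro b hb
    have : b ∈ A ∪ B := mem_union_right _ hb
    rw [hAB, mem_sdiff, mem_insert, mem_singleton, not_or] at this
    exact this
  have hcl : ∀ y ∈ S, y ≠ u → y ≠ v → y ∈ A ∨ y ∈ B := by
    intro y hy h1 h3
    rw [← mem_union, hAB, mem_sdiff, mem_insert, mem_singleton, not_or]
    exact ⟨hy, h1, h3⟩
  have hBPR : ∀ b ∈ B, b ∈ P ∨ b ∈ R := by
    intro b hb
    rw [← mem_union, hPR, mem_sdiff]
    exact ⟨(hBS b hb).1, fun hF => (disjoint_left.1 hFB hF) hb⟩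
  -- a neighbour of `u` in `B`
  obtain ⟨bu, hbu, hbuu⟩ : ∃ b ∈ B, G.Adj b u := by
    obtain ⟨x, hx, y, hy, hxy⟩ := h2.2 {v} (by simp) B (by
        intro b hb
        rw [mem_sdiff, mem_singleton]
        exact ⟨(hBS b hb).1, (hBS b hb).2.2⟩) hB
      ⟨u, by
        rw [mem_sdiff, mem_sdiff, mem_singleton]
        exact ⟨⟨hu, huv⟩, fun hh => (hBS u hh).2.1 rfl⟩⟩
    rw [mem_sdiff, mem_sdiff, mem_singleton] at hy
    by_cases hyu : y = u
    · subst hyu; exact ⟨x, hx, hxy⟩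
    · exfalso
      rcases hcl y hy.1.1 hyu hy.1.2 with h1 | h1
      · exact hE y h1 x hx hxy.symm
      · exact hy.2 h1
  have hbuP : bu ∈ P := by
    rcases hBPR bu hbu with h1 | h1
    · exact h1
    · exact absurd (hE2 u huP bu h1 hbuu.symm).2 (hBS bu hbu).2.2
  obtain ⟨x, hx, y, hy, hxy⟩ := h2.2 {u} (by simp) (B ∩ P) (by
      intro b hb
      rw [mem_inter] at hb
      rw [mem_sdiff, mem_singleton]
      exact ⟨(hBS b hb.1).1, (hBS b hb.1).2.1⟩) ⟨bu, mem_inter.2 ⟨hbu, hbuP⟩⟩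
    ⟨v, by
      rw [mem_sdiff, mem_sdiff, mem_singleton, mem_inter]
      exact ⟨⟨hv, huv.symm⟩, fun hh => (hBS v hh.1).2.2 rfl⟩⟩
  rw [mem_inter] at hx
  rw [mem_sdiff, mem_sdiff, mem_singleton, mem_inter] at hy
  have hxu : x ≠ u := (hBS x hx.1).2.1
  by_cases hyv : y = v
  · subst hyv
    exact hxu (hE2 x hx.2 y hvR hxy).1
  · rcases hcl y hy.1.1 hy.1.2 hyv with h1 | h1
    · exact hE y h1 x hx.1 hxy.symm
    · rcases hBPR y h1 with h3 | h3
      · exact hy.2 ⟨h1, h3⟩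
      · exact hxu (hE2 x hx.2 y h3 hxy).1

private theorem key2 (G : SimpleGraph V) (S : Finset V) (u v : V) (h2 : TwoConn G S) (hu : u ∈ S)
    (hv : v ∈ S) (huv : u ≠ v) (A B : Finset V) (hA : A.Nonempty) (hB : B.Nonempty)
    (hAB : A ∪ B = S \ {u, v}) (hdAB : Disjoint A B) (hE : ∀ a ∈ A, ∀ b ∈ B, ¬ G.Adj a b) :
    TwoConn (del G u v) S := by
  refine ⟨h2.1, ?_⟩
  intro F hF
  by_contra hn
  obtain ⟨P, hPT, ⟨huP, hvR⟩, hE2⟩ := del_split G (S \ F) u v (h2.2 F hF) hn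
  have hPR : P ∪ ((S \ F) \ P) = S \ F := union_sdiff_of_subset hPT
  have hdis : Disjoint P ((S \ F) \ P) := disjoint_sdiff
  by_cases hFB : Disjoint F B
  · exact key1 G S u v h2 hu hv huv A B hB hAB hE F P _ hPR hdis huP hvR hE2 hFB
  · have hFA : Disjoint F A := by
      rw [not_disjoint_iff] at hFB
      obtain ⟨q, hqF, hqB⟩ := hFB
      rw [disjoint_left]
      intro r hrF hrA
      have hqr : q = r := card_le_one.1 hF q hqF r hrF
      subst hqr
      exact (disjoint_left.1 hdAB hrA) hqB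
    exact key1 G S u v h2 hu hv huv B A hA (by rw [union_comm]; exact hAB)
      (fun a ha b hb hab => hE b hb a ha hab.symm) F P _ hPR hdis huP hvR hE2 hFA

private theorem claim (G : SimpleGraph V) (S : Finset V) (u v : V) (h2 : TwoConn G S) (hu : u ∈ S)
    (hv : v ∈ S) (huv : u ≠ v) (h3 : 3 ≤ #S) :
    TwoConn (del G u v) S ∨ TwoConn (contr G u v) (S.erase v) := by
  by_cases hc : TwoConn (contr G u v) (S.erase v)
  · exact Or.inr hc
  left
  have h4 : #(S.erase v) = #S - 1 := card_erase_of_mem hv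
  have : ∃ F : Finset V, #F ≤ 1 ∧ ¬ Conn (contr G u v) ((S.erase v) \ F) := by
    by_contra hcon
    push Not at hcon
    exact hc ⟨by omega, hcon⟩
  obtain ⟨F, hF, hn⟩ := this
  have huF : u ∈ F := by
    by_contra huF
    apply hn
    have e : (S.erase v) \ F = (S \ F.erase v).erase v := by
      ext x
      simp only [mem_sdiff, mem_erase]
      tauto
    rw [e]
    apply contr_conn G _ u v _ _ huv
    · exact h2.2 _ ((card_erase_le).trans hF)
    · rw [mem_sdiff, mem_erase]; exact ⟨hu, fun hh => huF hh.2⟩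
    · rw [mem_sdiff, mem_erase]; exact ⟨hv, fun hh => hh.1 rfl⟩
  unfold Conn at hn
  push Not at hn
  obtain ⟨A, hAS, hA, hB, hE⟩ := hn
  have hFu : F = {u} := by
    apply eq_singleton_iff_unique_mem.2 ⟨huF, fun x hx => card_le_one.1 hF x hx u huF⟩
  subst hFu
  apply key2 G S u v h2 hu hv huv A _ hA hB
  · rw [union_sdiff_of_subset hAS]
    ext x
    simp only [mem_sdiff, mem_erase, mem_insert, mem_singleton]
    tauto
  · exact disjoint_sdiff
  · intro a ha b hb hab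
    exact hE a ha b hb ⟨hab.ne, Or.inl hab⟩

private theorem bb_pos_aux (n : ℕ) : ∀ (G : SimpleGraph V) (S : Finset V), ec G S ≤ n → TwoConn G S →
    1 ≤ bb G S := by
  induction n with
  | zero =>
    intro G S hn h
    exfalso
    have hC : Conn G S := by simpa using h.2 ∅ (by simp)
    obtain ⟨u, hu, v, hv, huv⟩ := exists_edge G S hC h.1
    have := ec_del G S u v hu hv huv
    omega
  | succ n ih =>
    intro G S hn h
    have hC : Conn G S := by simpa using h.2 ∅ (by simp)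
    rcases Nat.lt_or_ge 2 #S with h3 | h3
    · obtain ⟨u, hu, v, hv, huv⟩ := exists_edge G S hC h.1
      have e1 := ec_del G S u v hu hv huv
      have e2 := ec_contr G S u v hu hv huv
      have h4 : #(S.erase v) = #S - 1 := card_erase_of_mem hv
      have hd : Conn (del G u v) S := by
        by_contra hd
        obtain ⟨x, hx, hc⟩ := del_cut G S u v hu hv h3 hC hd
        exact hc (h.2 {x} (by simp))
      rw [bb_del G S u v hu hv huv]
      rcases claim G S u v h hu hv huv.ne h3 with h1 | h1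
      · have i1 := ih _ _ (by omega) h1
        have i2 := bb_nonneg (contr G u v) (S.erase v) (contr_conn G S u v hu hv huv.ne hC)
          (by omega)
        linarith
      · have i1 := ih _ _ (by omega) h1
        have i2 := bb_nonneg (del G u v) S hd h.1
        linarith
    · rw [bb_K2 G S hC (by have := h.1; omega)]

theorem bb_pos (G : SimpleGraph V) (S : Finset V) (h : TwoConn G S) : 1 ≤ bb G S :=
  bb_pos_aux (ec G S) G S le_rfl h


end Pool.Agent.Helper391.WheelChi
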