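import Mathlib
import Pool.Agent.Helper391.Wheel.Defs
import Pool.Agent.Helper391.Wheel.W9
import Pool.Agent.Helper391.Wheel.W10
import Pool.Agent.Helper391.Wheel.W13
import Pool.Agent.Helper391.Wheel.W14

set_option autoImplicit false

namespace Pool.Agent.Helper391.WheelChi

open Finset Polynomial
open scoped Classical

variable {V : Type} [DecidableEq V]


private theorem ncol_one (G : SimpleGraph V) (S : Finset V) (x y : V) (hx : x ∈ S) (hy : y ∈ S)
    (hxy : G.Adj x y) : Ncol G S 1 = 0 := by
  unfold Ncol
  have : IsEmpty {c : S → Fin 1 // ∀ a b : S, G.Adj a b → c a ≠ c b} := by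
    refine ⟨fun c => ?_⟩
    exact c.2 ⟨x, hx⟩ ⟨y, hy⟩ hxy (Subsingleton.elim _ _)
  exact Nat.card_of_isEmpty

private theorem chrom_factor (G : SimpleGraph V) (S : Finset V) (x y : V) (hx : x ∈ S) (hy : y ∈ S)
    (hxy : G.Adj x y) : ∃ Q : ℤ[X], chrom G S = (X - C 1) * Q ∧
      bb G S = (-1) ^ #S * Q.eval 1 := by
  have h0 : (chrom G S).IsRoot 1 := by
    have h := chrom_eval G S 1
    rw [ncol_one G S x y hx hy hxy] at h
    simpa using h
  obtain ⟨Q, hQ⟩ := dvd_iff_isRoot.mpr h0
  refine ⟨Q, hQ, ?_⟩
  unfold bb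
  rw [hQ]
  simp [derivative_mul]

private theorem bb_glue (G : SimpleGraph V) (x y : V) (A B : Finset V) (hxy : G.Adj x y)
    (xA : x ∉ A) (xB : x ∉ B) (yA : y ∉ A) (yB : y ∉ B) (dis : Disjoint A B)
    (noE : ∀ a ∈ A, ∀ b ∈ B, ¬ G.Adj a b) :
    bb G (insert x (insert y (A ∪ B))) =
      bb G (insert x (insert y A)) * bb G (insert x (insert y B)) := by
  have hne : x ≠ y := hxy.ne
  obtain ⟨Q, hQ, hb⟩ := chrom_factor G (insert x (insert y (A ∪ B))) x y (by simp) (by simp) hxy
  obtain ⟨Q1, hQ1, hb1⟩ := chrom_factor G (insert x (insert y A)) x y (by simp) (by simp) hxy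
  obtain ⟨Q2, hQ2, hb2⟩ := chrom_factor G (insert x (insert y B)) x y (by simp) (by simp) hxy
  have hpoly : chrom G (insert x (insert y (A ∪ B))) * (X * (X - C 1)) =
      chrom G (insert x (insert y A)) * chrom G (insert x (insert y B)) := by
    apply Polynomial.eq_of_infinite_eval_eq
    apply Set.infinite_of_injective_forall_mem (f := fun k : ℕ => (k : ℤ)) Nat.cast_injective
    intro k
    have h := Ncol_glue2 G x y A B hxy xA xB yA yB dis noE k
    have hk : ((k * (k - 1) : ℕ) : ℤ) = (k : ℤ) * ((k : ℤ) - 1) := by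
      cases k with
      | zero => simp
      | succ n => push_cast; simp
    simp only [Set.mem_ofPred_eq, eval_mul, chrom_eval, eval_X, eval_sub, eval_C]
    rw [← hk]
    exact_mod_cast h
  have hX : (X - C (1 : ℤ)) ≠ 0 := X_sub_C_ne_zero 1
  have hcan : Q * X = Q1 * Q2 := by
    rw [hQ, hQ1, hQ2] at hpoly
    have h2 : (X - C (1 : ℤ)) * ((X - C (1 : ℤ)) * (Q * X)) =
        (X - C (1 : ℤ)) * ((X - C (1 : ℤ)) * (Q1 * Q2)) := by
      linear_combination hpoly
    exact mul_left_cancel₀ hX (mul_left_cancel₀ hX h2)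
  have hev : Q.eval 1 = Q1.eval 1 * Q2.eval 1 := by
    have := congrArg (eval (1 : ℤ)) hcan
    simpa using this
  have hcS : #(insert x (insert y (A ∪ B))) = #A + #B + 2 := by
    rw [card_insert_of_notMem (by simp [hne, xA, xB]), card_insert_of_notMem (by simp [yA, yB]),
      card_union_of_disjoint dis]
  have hcA : #(insert x (insert y A)) = #A + 2 := by
    rw [card_insert_of_notMem (by simp [hne, xA]), card_insert_of_notMem (by simp [yA])]
  have hcB : #(insert x (insert y B)) = #B + 2 := by
    rw [card_insert_of_notMem (by simp [hne, xB]), card_insert_of_notMem (by simp [yB])]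
  rw [hb, hb1, hb2, hev, hcS, hcA, hcB]
  ring

theorem bb_sep (G : SimpleGraph V) (S : Finset V) (x y : V) (A B : Finset V) (h : TwoConn G S)
    (hs : TwoSep G S x y A B) :
    bb G S = bb (addE G x y) (insert x (insert y A)) * bb (addE G x y) (insert x (insert y B)) := by
  obtain ⟨hS, hne, xA, xB, yA, yB, dis, neA, neB, noE⟩ := hs
  have hadj : (addE G x y).Adj x y := ⟨hne, Or.inr (Or.inl ⟨rfl, rfl⟩)⟩
  have key : bb G S = bb (addE G x y) S := by
    by_cases hG : G.Adj x y
    · apply bb_congr
      intro a _ b _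
      constructor
      · intro hab
        exact ⟨hab.ne, Or.inl hab⟩
      · rintro ⟨_, hab | ⟨rfl, rfl⟩ | ⟨rfl, rfl⟩⟩
        · exact hab
        · exact hG
        · exact hG.symm
    · have hx : x ∈ S := by rw [hS]; simp
      have hy : y ∈ S := by rw [hS]; simp
      have h1 := bb_del (addE G x y) S x y hx hy hadj
      have h2 : bb (del (addE G x y) x y) S = bb G S := by
        apply bb_congr
        intro a _ b _
        constructor
        · rintro ⟨⟨_, hab | hab | hab⟩, hn⟩
          · exact hab
          · exact absurd (Or.inl hab) hn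
          · exact absurd (Or.inr hab) hn
        · intro hab
          refine ⟨⟨hab.ne, Or.inl hab⟩, ?_⟩
          rintro (⟨rfl, rfl⟩ | ⟨rfl, rfl⟩)
          · exact hG hab
          · exact hG hab.symm
      have h3 : bb (contr (addE G x y) x y) (S.erase y) = 0 := by
        apply bb_cut _ _ x
        · simp [hne, hx]
        · have hc := h.2 {y} (by simp)
          intro B' hB' hne' hd'
          rw [Finset.erase_eq] at hB' hd' ⊢
          obtain ⟨a, ha, b, hb, hab⟩ := hc B' hB' hne' hd'
          exact ⟨a, ha, b, hb, hab.ne, Or.inl ⟨hab.ne, Or.inl hab⟩⟩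
        · intro hc
          have hsub : A ⊆ (S.erase y) \ {x} := by
            intro a ha
            have hax : a ≠ x := fun e => xA (e ▸ ha)
            have hay : a ≠ y := fun e => yA (e ▸ ha)
            rw [hS]
            simp [hax, hay, ha]
          have hdn : (((S.erase y) \ {x}) \ A).Nonempty := by
            obtain ⟨b, hb⟩ := neB
            have hbx : b ≠ x := fun e => xB (e ▸ hb)
            have hby : b ≠ y := fun e => yB (e ▸ hb)
            have hbA : b ∉ A := fun e => (Finset.disjoint_left.mp dis) e hb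
            refine ⟨b, ?_⟩
            rw [hS]
            simp [hbx, hby, hb, hbA]
          obtain ⟨a, ha, b, hb, hab⟩ := hc A hsub neA hdn
          have hax : a ≠ x := fun e => xA (e ▸ ha)
          have hay : a ≠ y := fun e => yA (e ▸ ha)
          have hb' : b ∈ B ∧ b ≠ x := by
            rw [hS] at hb
            simp only [mem_sdiff, mem_erase, mem_insert, mem_union, mem_singleton] at hb
            tauto
          rcases hab with ⟨_, ⟨_, h4 | h4 | h4⟩ | h4 | h4⟩
          · exact noE a ha b hb'.1 h4
          · exact hax h4.1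
          · exact hay h4.1
          · exact hax h4.1
          · exact hb'.2 h4.1
      rw [h1, h2, h3, add_zero]
  rw [key, hS]
  apply bb_glue _ _ _ _ _ hadj xA xB yA yB dis
  intro a ha b hb hab
  have hax : a ≠ x := fun e => xA (e ▸ ha)
  have hay : a ≠ y := fun e => yA (e ▸ ha)
  rcases hab with ⟨_, h4 | h4 | h4⟩
  · exact noE a ha b hb h4
  · exact hax h4.1
  · exact hay h4.1


end Pool.Agent.Helper391.WheelChi
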