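import Mathlib
import Pool.Agent.Helper391.Wheel.Defs

set_option autoImplicit false

namespace Pool.Agent.Helper391.WheelChi

open Finset Polynomial
open scoped Classical

variable {V : Type} [DecidableEq V]


theorem exists_twoSep (G : SimpleGraph V) (S : Finset V) (h : TwoConn G S) (h4 : 4 ≤ #S)
    (hn : ¬ ThreeConn G S) : ∃ x y A B, TwoSep G S x y A B := by
  have h1 : ∃ F : Finset V, #F ≤ 2 ∧ ¬ Conn G (S \ F) := by
    by_contra hc
    push Not at hc
    exact hn ⟨h4, hc⟩
  obtain ⟨F, hF, hC⟩ := h1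
  unfold Conn at hC
  push Not at hC
  obtain ⟨A, hA, hAne, hBne, hno⟩ := hC
  have hSF : S \ (F ∩ S) = S \ F := by
    ext z; simp only [mem_sdiff, mem_inter]; tauto
  have hcard : #(F ∩ S) = 2 := by
    have h2 : #(F ∩ S) ≤ 2 := le_trans (card_le_card inter_subset_left) hF
    by_contra hne
    have h3 : #(F ∩ S) ≤ 1 := by omega
    obtain ⟨x, hx, y, hy, hxy⟩ := h.2 (F ∩ S) h3 A (by rw [hSF]; exact hA) hAne
      (by rw [hSF]; exact hBne)
    rw [hSF] at hy
    exact hno x hx y hy hxy
  obtain ⟨x, y, hxy, hFxy⟩ := card_eq_two.1 hcard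
  have hx : x ∈ F ∩ S := by rw [hFxy]; simp
  have hy : y ∈ F ∩ S := by rw [hFxy]; simp
  rw [mem_inter] at hx hy
  have hmem : ∀ z, z ∈ S → z ∈ F → z = x ∨ z = y := by
    intro z hzS hzF
    have : z ∈ F ∩ S := mem_inter.2 ⟨hzF, hzS⟩
    rw [hFxy] at this
    simpa using this
  refine ⟨x, y, A, (S \ F) \ A, ?_⟩
  constructor
  · ext z
    simp only [mem_insert, mem_union, mem_sdiff]
    constructor
    · intro hz
      by_cases hzF : z ∈ F
      · rcases hmem z hz hzF with h' | h'
        · exact Or.inl h'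
        · exact Or.inr (Or.inl h')
      · by_cases hzA : z ∈ A
        · exact Or.inr (Or.inr (Or.inl hzA))
        · exact Or.inr (Or.inr (Or.inr ⟨⟨hz, hzF⟩, hzA⟩))
    · rintro (rfl | rfl | hz | hz)
      · exact hx.2
      · exact hy.2
      · exact (mem_sdiff.1 (hA hz)).1
      · exact hz.1.1
  · exact hxy
  · intro hxA
    exact (mem_sdiff.1 (hA hxA)).2 hx.1
  · intro hxB
    exact (mem_sdiff.1 (mem_sdiff.1 hxB).1).2 hx.1
  · intro hyA
    exact (mem_sdiff.1 (hA hyA)).2 hy.1
  · intro hyB
    exact (mem_sdiff.1 (mem_sdiff.1 hyB).1).2 hy.1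
  · exact disjoint_sdiff
  · exact hAne
  · exact hBne
  · exact hno

private theorem side_core (G : SimpleGraph V) (S : Finset V) (x y : V) (A B : Finset V)
    (h : TwoConn G S) (hs : TwoSep G S x y A B) (F : Finset V) (hF : #F ≤ 1)
    (Q : Finset V) (hQA : Q ⊆ A) (hQF : Disjoint Q F) (hQ : Q.Nonempty)
    (hno : ∀ q ∈ Q, ∀ z ∈ (insert x (insert y A) \ F) \ Q, ¬ G.Adj q z) : False := by
  have hxy : x ∉ F ∨ y ∉ F := by
    by_contra hc
    push Not at hc
    have : ({x, y} : Finset V) ⊆ F := by
      intro z hz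
      rw [mem_insert, mem_singleton] at hz
      rcases hz with rfl | rfl
      · exact hc.1
      · exact hc.2
    have h2 := card_le_card this
    rw [card_pair hs.hxy] at h2
    omega
  have hQS : Q ⊆ S \ F := by
    intro q hq
    rw [mem_sdiff]
    refine ⟨?_, disjoint_left.1 hQF hq⟩
    rw [hs.hS]
    simp [hQA hq]
  have hne : ((S \ F) \ Q).Nonempty := by
    rcases hxy with hx | hy
    · refine ⟨x, ?_⟩
      rw [mem_sdiff, mem_sdiff]
      refine ⟨⟨?_, hx⟩, fun hq => hs.xA (hQA hq)⟩
      rw [hs.hS]; simp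
    · refine ⟨y, ?_⟩
      rw [mem_sdiff, mem_sdiff]
      refine ⟨⟨?_, hy⟩, fun hq => hs.yA (hQA hq)⟩
      rw [hs.hS]; simp
  obtain ⟨q, hq, z, hz, hqz⟩ := h.2 F hF Q hQS hQ hne
  rw [mem_sdiff, mem_sdiff, hs.hS] at hz
  obtain ⟨⟨hzS, hzF⟩, hzQ⟩ := hz
  by_cases hzB : z ∈ B
  · exact hs.noE q (hQA hq) z hzB hqz
  · refine hno q hq z ?_ hqz
    rw [mem_sdiff, mem_sdiff]
    refine ⟨⟨?_, hzF⟩, hzQ⟩
    simp only [mem_insert, mem_union] at hzS ⊢
    tauto

theorem side_twoConn (G : SimpleGraph V) (S : Finset V) (x y : V) (A B : Finset V)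
    (h : TwoConn G S) (hs : TwoSep G S x y A B) :
    TwoConn (addE G x y) (insert x (insert y A)) := by
  have key : ∀ F : Finset V, #F ≤ 1 → ∀ P R : Finset V,
      P ⊆ insert x (insert y A) \ F → R = (insert x (insert y A) \ F) \ P →
      P.Nonempty → R.Nonempty → (x ∈ P ∨ (x ∈ F ∧ y ∈ P)) →
      ∃ p ∈ P, ∃ r ∈ R, (addE G x y).Adj p r := by
    intro F hF P R hP hR hPne hRne hx
    by_contra hc
    push Not at hc
    have hRsub : R ⊆ insert x (insert y A) \ F := by
      rw [hR]; exact sdiff_subset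
    have hxR : x ∉ R := by
      intro hxR
      rw [hR, mem_sdiff, mem_sdiff] at hxR
      rcases hx with hx | hx
      · exact hxR.2 hx
      · exact hxR.1.2 hx.1
    have hyR : y ∉ R := by
      intro hyR
      rcases hx with hx | hx
      · exact hc x hx y hyR ⟨hs.hxy, Or.inr (Or.inl ⟨rfl, rfl⟩)⟩
      · rw [hR, mem_sdiff] at hyR
        exact hyR.2 hx.2
    refine side_core G S x y A B h hs F hF R ?_ ?_ hRne ?_
    · intro r hr
      have h1 := (mem_sdiff.1 (hRsub hr)).1
      simp only [mem_insert] at h1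
      rcases h1 with rfl | rfl | h1
      · exact absurd hr hxR
      · exact absurd hr hyR
      · exact h1
    · rw [disjoint_left]
      intro r hr
      exact (mem_sdiff.1 (hRsub hr)).2
    · intro r hr z hz hrz
      have hzP : z ∈ P := by
        by_contra hzP
        rw [mem_sdiff] at hz
        apply hz.2
        rw [hR, mem_sdiff]
        exact ⟨hz.1, hzP⟩
      exact hc z hzP r hr ⟨fun h' => G.loopless.irrefl z (h' ▸ hrz.symm), Or.inl hrz.symm⟩
  constructor
  · have : ({x, y} : Finset V) ⊆ insert x (insert y A) := by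
      intro z hz
      rw [mem_insert, mem_singleton] at hz
      rcases hz with rfl | rfl <;> simp
    have h2 := card_le_card this
    rw [card_pair hs.hxy] at h2
    exact h2
  · intro F hF P hP hPne hRne
    by_cases c1 : x ∈ P ∨ (x ∈ F ∧ y ∈ P)
    · exact key F hF P _ hP rfl hPne hRne c1
    · have hback : P = (insert x (insert y A) \ F) \ ((insert x (insert y A) \ F) \ P) := by
        rw [sdiff_sdiff_right_self, inf_eq_inter, inter_eq_right.2 hP]
      have c2 : x ∈ (insert x (insert y A) \ F) \ P ∨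
          (x ∈ F ∧ y ∈ (insert x (insert y A) \ F) \ P) := by
        push Not at c1
        by_cases hxF : x ∈ F
        · right
          refine ⟨hxF, ?_⟩
          rw [mem_sdiff, mem_sdiff]
          refine ⟨⟨by simp, ?_⟩, c1.2 hxF⟩
          intro hyF
          have : ({x, y} : Finset V) ⊆ F := by
            intro z hz
            rw [mem_insert, mem_singleton] at hz
            rcases hz with rfl | rfl
            · exact hxF
            · exact hyF
          have h2 := card_le_card this
          rw [card_pair hs.hxy] at h2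
          omega
        · left
          rw [mem_sdiff, mem_sdiff]
          exact ⟨⟨by simp, hxF⟩, c1.1⟩
      obtain ⟨p, hp, r, hr, hpr⟩ := key F hF _ P sdiff_subset hback hRne hPne c2
      exact ⟨r, hr, p, hp, hpr.symm⟩

private theorem nb_core (G : SimpleGraph V) (S : Finset V) (a : V) (ha : a ∈ S)
    (hc : Conn G (S \ nb G S a)) (hcard : #(nb G S a) + 1 < #S) : False := by
  have hnot : a ∉ nb G S a := by
    unfold nb
    rw [mem_filter]
    exact fun h' => G.loopless.irrefl a h'.2
  obtain ⟨x, hx, y, hy, hxy⟩ := hc {a} (by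
      intro z hz
      rw [mem_singleton] at hz
      rw [hz, mem_sdiff]
      exact ⟨ha, hnot⟩) (singleton_nonempty a) (by
      rw [← card_pos]
      have h1 := le_card_sdiff {a} (S \ nb G S a)
      have h2 := le_card_sdiff (nb G S a) S
      rw [card_singleton] at h1
      omega)
  rw [mem_singleton] at hx
  subst hx
  rw [mem_sdiff, mem_sdiff] at hy
  apply hy.1.2
  unfold nb
  rw [mem_filter]
  exact ⟨hy.1.1, hxy⟩

theorem three_nb (G : SimpleGraph V) (S : Finset V) (h : ThreeConn G S) (a : V) (ha : a ∈ S) :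
    3 ≤ #(nb G S a) := by
  by_contra hlt
  have h1 : #(nb G S a) ≤ 2 := by omega
  have h2 := h.1
  exact nb_core G S a ha (h.2 _ h1) (by omega)

theorem two_nb (G : SimpleGraph V) (S : Finset V) (h : TwoConn G S) (h3 : 3 ≤ #S) (a : V)
    (ha : a ∈ S) : 2 ≤ #(nb G S a) := by
  by_contra hlt
  have h1 : #(nb G S a) ≤ 1 := by omega
  exact nb_core G S a ha (h.2 _ h1) (by omega)

theorem contr_rest (G : SimpleGraph V) (S : Finset V) (u v : V) (hu : u ∈ S) (hv : v ∈ S)
    (huv : G.Adj u v) (h : ThreeConn (contr G u v) (S.erase v)) :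
    TwoConn G ((S.erase u).erase v) := by
  have hne : u ≠ v := G.ne_of_adj huv
  constructor
  · have h1 := h.1
    rw [card_erase_of_mem hv] at h1
    rw [card_erase_of_mem (mem_erase.2 ⟨hne.symm, hv⟩), card_erase_of_mem hu]
    omega
  · intro F hF B hB hBne hCne
    have hset : (S.erase v) \ (insert u F) = ((S.erase u).erase v) \ F := by
      ext z
      simp only [mem_sdiff, mem_erase, mem_insert]
      tauto
    have hF2 : #(insert u F) ≤ 2 := le_trans (card_insert_le _ _) (by omega)
    obtain ⟨x, hx, y, hy, hxy⟩ := h.2 (insert u F) hF2 B (by rw [hset]; exact hB) hBne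
      (by rw [hset]; exact hCne)
    rw [hset] at hy
    refine ⟨x, hx, y, hy, ?_⟩
    have hxu : x ≠ u := by
      have := hB hx
      simp only [mem_sdiff, mem_erase] at this
      exact this.1.2.1
    have hyu : y ≠ u := by
      simp only [mem_sdiff, mem_erase] at hy
      exact hy.1.1.2.1
    rcases hxy.2 with h' | h' | h'
    · exact h'
    · exact absurd h'.1 hxu
    · exact absurd h'.1 hyu


end Pool.Agent.Helper391.WheelChi
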