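import Mathlib
import Pool.Agent.Helper391.Wheel.Defs

set_option autoImplicit false

namespace Pool.Agent.Helper391.WheelChi

open Finset Polynomial
open scoped Classical

variable {V : Type} [DecidableEq V]


/-! ### auxiliary lemmas -/

private theorem not_conn {G : SimpleGraph V} {T : Finset V} (h : ¬ Conn G T) :
    ∃ P R : Finset V, P ⊆ T ∧ R ⊆ T ∧ (∀ z ∈ T, z ∈ P ∨ z ∈ R) ∧ Disjoint P R ∧ P.Nonempty ∧
      R.Nonempty ∧ ∀ a ∈ P, ∀ b ∈ R, ¬ G.Adj a b := by
  unfold Conn at h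
  push Not at h
  obtain ⟨P, hP, hPn, hRn, hno⟩ := h
  refine ⟨P, T \ P, hP, sdiff_subset, fun z hz => ?_, disjoint_sdiff, hPn, hRn, hno⟩
  by_cases hzP : z ∈ P
  · exact Or.inl hzP
  · exact Or.inr (mem_sdiff.2 ⟨hz, hzP⟩)

private theorem conn_edge {G : SimpleGraph V} {T P R : Finset V} (h : Conn G T) (hP : P ⊆ T) (hR : R ⊆ T)
    (hc : ∀ z ∈ T, z ∈ P ∨ z ∈ R) (hd : Disjoint P R) (hPn : P.Nonempty) (hRn : R.Nonempty) :
    ∃ a ∈ P, ∃ b ∈ R, G.Adj a b := by
  have e : T \ P = R := by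
    ext z
    rw [mem_sdiff]
    constructor
    · rintro ⟨h1, h2⟩
      exact (hc z h1).resolve_left h2
    · intro hz
      exact ⟨hR hz, fun h' => (disjoint_left.1 hd h') hz⟩
  have := h P hP hPn (by rw [e]; exact hRn)
  rwa [e] at this

/-- the edge crossing a cut of `del G u v` is the only `G`-edge across; one of the sides is bigger
than one vertex, contradiction with 3-connectivity -/
private theorem del_cut_aux (G : SimpleGraph V) (S F : Finset V) (h : ThreeConn G S) (hF : #F ≤ 1)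
    {P R : Finset V} {x y : V}
    (hP : P ⊆ S \ F) (hR : R ⊆ S \ F) (hc : ∀ z ∈ S \ F, z ∈ P ∨ z ∈ R) (hd : Disjoint P R)
    (hx : x ∈ P) (hy : y ∈ R) (honly : ∀ a ∈ P, ∀ b ∈ R, G.Adj a b → a = x ∧ b = y) : False := by
  have hcard : 3 ≤ #(S \ F) := by
    have h1 := h.1
    have h2 := le_card_sdiff F S
    omega
  have hun : P ∪ R = S \ F := by
    ext z
    rw [mem_union]
    exact ⟨fun hz => hz.elim (fun h => hP h) (fun h => hR h), hc z⟩
  have hPR : #P + #R = #(S \ F) := by rw [← card_union_of_disjoint hd, hun]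
  have hcase : 2 ≤ #P ∨ 2 ≤ #R := by omega
  rcases hcase with h2 | h2
  · have hne : (P.erase x).Nonempty := by
      rw [← card_pos, card_erase_of_mem hx]; omega
    have hF' : #(insert x F) ≤ 2 := (card_insert_le x F).trans (by omega)
    obtain ⟨a, ha, b, hb, hab⟩ := conn_edge (h.2 _ hF') (P := P.erase x) (R := R)
      (fun z hz => by
        rw [mem_erase] at hz
        have := hP hz.2
        rw [mem_sdiff] at this
        rw [mem_sdiff, mem_insert]
        exact ⟨this.1, fun h' => h'.elim hz.1 this.2⟩)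
      (fun z hz => by
        have := hR hz
        rw [mem_sdiff] at this
        rw [mem_sdiff, mem_insert]
        refine ⟨this.1, fun h' => h'.elim (fun h'' => ?_) this.2⟩
        rw [h''] at hz
        exact disjoint_left.1 hd hx hz)
      (fun z hz => by
        rw [mem_sdiff, mem_insert] at hz
        push Not at hz
        rcases hc z (mem_sdiff.2 ⟨hz.1, hz.2.2⟩) with h' | h'
        · exact Or.inl (mem_erase.2 ⟨hz.2.1, h'⟩)
        · exact Or.inr h')
      (disjoint_of_subset_left (erase_subset _ _) hd) hne ⟨y, hy⟩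
    exact (mem_erase.1 ha).1 (honly a (mem_erase.1 ha).2 b hb hab).1
  · have hne : (R.erase y).Nonempty := by
      rw [← card_pos, card_erase_of_mem hy]; omega
    have hF' : #(insert y F) ≤ 2 := (card_insert_le y F).trans (by omega)
    obtain ⟨a, ha, b, hb, hab⟩ := conn_edge (h.2 _ hF') (P := P) (R := R.erase y)
      (fun z hz => by
        have := hP hz
        rw [mem_sdiff] at this
        rw [mem_sdiff, mem_insert]
        refine ⟨this.1, fun h' => h'.elim (fun h'' => ?_) this.2⟩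
        rw [h''] at hz
        exact disjoint_left.1 hd hz hy)
      (fun z hz => by
        rw [mem_erase] at hz
        have := hR hz.2
        rw [mem_sdiff] at this
        rw [mem_sdiff, mem_insert]
        exact ⟨this.1, fun h' => h'.elim hz.1 this.2⟩)
      (fun z hz => by
        rw [mem_sdiff, mem_insert] at hz
        push Not at hz
        rcases hc z (mem_sdiff.2 ⟨hz.1, hz.2.2⟩) with h' | h'
        · exact Or.inl h'
        · exact Or.inr (mem_erase.2 ⟨hz.2.1, h'⟩))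
      (disjoint_of_subset_right (erase_subset _ _) hd) ⟨x, hx⟩ hne
    exact (mem_erase.1 hb).1 (honly a ha b (mem_erase.1 hb).2 hab).2

/-- one side of the 2-separation obtained by deleting an edge -/
private theorem side_three (G H : SimpleGraph V) (S : Finset V) (u v x y : V) (A B : Finset V)
    (h : ThreeConn G S)
    (hH : ∀ a b, H.Adj a b ↔ G.Adj a b ∧ ¬ ((a = u ∧ b = v) ∨ (a = v ∧ b = u)))
    (hs : TwoSep H S x y A B) (hu : u ∈ A) (hv : v ∈ B) (hux : G.Adj u x) (huy : G.Adj u y) :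
    #A = 1 ∨ ThreeConn (addE H x y) (insert x (insert y A)) := by
  by_cases hA1 : #A = 1
  · exact Or.inl hA1
  right
  have hA2 : 2 ≤ #A := by
    have := card_pos.2 hs.neA
    omega
  refine ⟨?_, ?_⟩
  · rw [card_insert_of_notMem, card_insert_of_notMem hs.yA]
    · omega
    · rw [mem_insert]
      push Not
      exact ⟨hs.hxy, hs.xA⟩
  intro F hF
  by_contra hcon
  obtain ⟨P, R, hP, hR, hc, hd, hPn, hRn, hno⟩ := not_conn hcon
  have hvA : v ∉ A := fun h' => disjoint_left.1 hs.dis h' hv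
  have huB : u ∉ B := fun h' => disjoint_left.1 hs.dis hu h'
  have hxv : x ≠ v := fun h' => hs.xB (h' ▸ hv)
  have hyv : y ≠ v := fun h' => hs.yB (h' ▸ hv)
  have hux' : H.Adj u x := (hH _ _).2 ⟨hux, by
    rintro (⟨_, h'⟩ | ⟨h', _⟩)
    · exact hxv h'
    · exact hvA (h' ▸ hu)⟩
  have huy' : H.Adj u y := (hH _ _).2 ⟨huy, by
    rintro (⟨_, h'⟩ | ⟨h', _⟩)
    · exact hyv h'
    · exact hvA (h' ▸ hu)⟩
  have hAS : A ⊆ S := by
    intro z hz
    rw [hs.hS]
    simp [hz]
  have hxS : x ∈ S := by rw [hs.hS]; simp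
  have hyS : y ∈ S := by rw [hs.hS]; simp
  -- the key contradiction
  have key : ∀ Q Q' : Finset V, Q ⊆ insert x (insert y A) \ F → Q' ⊆ insert x (insert y A) \ F →
      (∀ z ∈ insert x (insert y A) \ F, z ∈ Q ∨ z ∈ Q') → Disjoint Q Q' → Q.Nonempty →
      Q'.Nonempty → (∀ a ∈ Q, ∀ b ∈ Q', ¬ (addE H x y).Adj a b) → x ∉ Q → y ∉ Q → u ∉ Q →
      False := by
    intro Q Q' hQ hQ' hc' hd' hn hn' hno' hxQ hyQ huQ
    have hQA : ∀ z ∈ Q, z ∈ A ∧ z ∉ F := by
      intro z hz
      have h1 := hQ hz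
      rw [mem_sdiff, mem_insert, mem_insert] at h1
      refine ⟨?_, h1.2⟩
      rcases h1.1 with h2 | h2 | h2
      · exact absurd (h2 ▸ hz) hxQ
      · exact absurd (h2 ▸ hz) hyQ
      · exact h2
    have hS1 : ∀ z ∈ insert x (insert y A), z ∈ S := by
      intro z hz
      rw [mem_insert, mem_insert] at hz
      rcases hz with rfl | rfl | hz
      · exact hxS
      · exact hyS
      · exact hAS hz
    obtain ⟨a, ha, b, hb, hab⟩ := h.2 F hF Q (fun z hz => mem_sdiff.2 ⟨hAS (hQA z hz).1, (hQA z hz).2⟩)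
      hn (by
        obtain ⟨z, hz⟩ := hn'
        refine ⟨z, ?_⟩
        have h1 := hQ' hz
        rw [mem_sdiff] at h1
        rw [mem_sdiff, mem_sdiff]
        exact ⟨⟨hS1 z h1.1, h1.2⟩, fun h' => disjoint_left.1 hd' h' hz⟩)
    rw [mem_sdiff, mem_sdiff] at hb
    obtain ⟨⟨hbS, hbF⟩, hbQ⟩ := hb
    have haA := (hQA a ha).1
    have hau : a ≠ u := fun h' => huQ (h' ▸ ha)
    have hav : a ≠ v := fun h' => hvA (h' ▸ haA)
    have hHab : H.Adj a b := (hH _ _).2 ⟨hab, by
      rintro (⟨h', _⟩ | ⟨h', _⟩)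
      · exact hau h'
      · exact hav h'⟩
    by_cases hbB : b ∈ B
    · exact hs.noE a haA b hbB hHab
    · have hb1 : b ∈ insert x (insert y A) := by
        rw [hs.hS] at hbS
        rw [mem_insert, mem_insert, mem_union] at hbS
        rw [mem_insert, mem_insert]
        rcases hbS with h1 | h1 | h1 | h1
        · exact Or.inl h1
        · exact Or.inr (Or.inl h1)
        · exact Or.inr (Or.inr h1)
        · exact absurd h1 hbB
      have hbQ' := (hc' b (mem_sdiff.2 ⟨hb1, hbF⟩)).resolve_left hbQ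
      exact hno' a ha b hbQ' ⟨hab.ne, Or.inl hHab⟩
  -- reduce to the case `Q` contains none of `x, y, u`
  have red : ∀ P R : Finset V, P ⊆ insert x (insert y A) \ F → R ⊆ insert x (insert y A) \ F →
      (∀ z ∈ insert x (insert y A) \ F, z ∈ P ∨ z ∈ R) → Disjoint P R → P.Nonempty →
      R.Nonempty → (∀ a ∈ P, ∀ b ∈ R, ¬ (addE H x y).Adj a b) →
      (x ∈ P ∨ y ∈ P ∨ (u ∈ P ∧ x ∈ F ∧ y ∈ F)) → False := by
    intro P R hP hR hc hd hPn hRn hno hcase
    have hF1 : ∀ z ∈ F, z ∉ R := fun z hz hz' => (mem_sdiff.1 (hR hz')).2 hz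
    have hd1 : ∀ z ∈ P, z ∉ R := fun z hz => disjoint_left.1 hd hz
    refine key R P hR hP (fun z hz => (hc z hz).symm) hd.symm hRn hPn
      (fun a ha b hb h' => hno b hb a ha h'.symm) ?_ ?_ ?_
    · intro hxR
      rcases hcase with h1 | h1 | ⟨h1, h2, h3⟩
      · exact hd1 _ h1 hxR
      · exact hno y h1 x hxR ⟨hs.hxy.symm, Or.inr (Or.inr ⟨rfl, rfl⟩)⟩
      · exact hF1 _ h2 hxR
    · intro hyR
      rcases hcase with h1 | h1 | ⟨h1, h2, h3⟩
      · exact hno x h1 y hyR ⟨hs.hxy, Or.inr (Or.inl ⟨rfl, rfl⟩)⟩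
      · exact hd1 _ h1 hyR
      · exact hF1 _ h3 hyR
    · intro huR
      rcases hcase with h1 | h1 | ⟨h1, h2, h3⟩
      · exact hno x h1 u huR ⟨hux.ne.symm, Or.inl hux'.symm⟩
      · exact hno y h1 u huR ⟨huy.ne.symm, Or.inl huy'.symm⟩
      · exact hd1 _ h1 huR
  have hno2 : ∀ a ∈ R, ∀ b ∈ P, ¬ (addE H x y).Adj a b := fun a ha b hb h' => hno b hb a ha h'.symm
  by_cases hxF : x ∈ F
  · by_cases hyF : y ∈ F
    · by_cases huP : u ∈ P
      · exact red P R hP hR hc hd hPn hRn hno (Or.inr (Or.inr ⟨huP, hxF, hyF⟩))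
      · exact key P R hP hR hc hd hPn hRn hno (fun h' => (mem_sdiff.1 (hP h')).2 hxF)
          (fun h' => (mem_sdiff.1 (hP h')).2 hyF) huP
    · rcases hc y (mem_sdiff.2 ⟨by simp, hyF⟩) with h' | h'
      · exact red P R hP hR hc hd hPn hRn hno (Or.inr (Or.inl h'))
      · exact red R P hR hP (fun z hz => (hc z hz).symm) hd.symm hRn hPn hno2 (Or.inr (Or.inl h'))
  · rcases hc x (mem_sdiff.2 ⟨by simp, hxF⟩) with h' | h'
    · exact red P R hP hR hc hd hPn hRn hno (Or.inl h')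
    · exact red R P hR hP (fun z hz => (hc z hz).symm) hd.symm hRn hPn hno2 (Or.inl h')

theorem del_twoConn (G : SimpleGraph V) (S : Finset V) (u v : V) (h : ThreeConn G S)
    (hu : u ∈ S) (hv : v ∈ S) (huv : G.Adj u v) : TwoConn (del G u v) S := by
  refine ⟨by have := h.1; omega, fun F hF => ?_⟩
  by_contra hcon
  obtain ⟨P, R, hP, hR, hc, hd, hPn, hRn, hno⟩ := not_conn hcon
  obtain ⟨a, ha, b, hb, hab⟩ := conn_edge (h.2 F (by omega)) hP hR hc hd hPn hRn
  have hedge : ∀ a ∈ P, ∀ b ∈ R, G.Adj a b → (a = u ∧ b = v) ∨ (a = v ∧ b = u) := by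
    intro a ha b hb hab
    by_contra h'
    exact hno a ha b hb ⟨hab, h'⟩
  have hd1 : ∀ z ∈ P, z ∉ R := fun z hz => disjoint_left.1 hd hz
  refine del_cut_aux G S F h hF hP hR hc hd ha hb fun a' ha' b' hb' hab' => ?_
  rcases hedge a ha b hb hab with ⟨h1, h2⟩ | ⟨h1, h2⟩ <;>
    rcases hedge a' ha' b' hb' hab' with ⟨h3, h4⟩ | ⟨h3, h4⟩
  · exact ⟨h3.trans h1.symm, h4.trans h2.symm⟩
  · subst h1 h2 h3
    exact absurd hb (hd1 _ ha')
  · subst h1 h2 h3
    exact absurd hb (hd1 _ ha')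
  · exact ⟨h3.trans h1.symm, h4.trans h2.symm⟩

theorem del_sep (G : SimpleGraph V) (S : Finset V) (u v : V) (h : ThreeConn G S)
    (hu : u ∈ S) (hv : v ∈ S) (huv : G.Adj u v) (hn : ¬ ThreeConn (del G u v) S) :
    ∃ x y A B, TwoSep (del G u v) S x y A B ∧ u ∈ A ∧ v ∈ B ∧
      nb G S u ∩ nb G S v ⊆ {x, y} ∧
      (#(nb G S u ∩ nb G S v) = 2 →
        (#A = 1 ∨ ThreeConn (addE (del G u v) x y) (insert x (insert y A))) ∧
        (#B = 1 ∨ ThreeConn (addE (del G u v) x y) (insert x (insert y B)))) := by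
  -- a cut
  have h1 : ∃ F : Finset V, #F ≤ 2 ∧ ¬ Conn (del G u v) (S \ F) := by
    by_contra hcon
    push Not at hcon
    exact hn ⟨h.1, hcon⟩
  obtain ⟨F, hF, hcon⟩ := h1
  -- `F` has two elements in `S`
  have hFS : ¬ #(F ∩ S) ≤ 1 := by
    intro h'
    have := (del_twoConn G S u v h hu hv huv).2 (F ∩ S) h'
    apply hcon
    convert this using 1
    ext z
    simp only [mem_sdiff, mem_inter]
    tauto
  have hle : #(F ∩ S) ≤ #F := card_le_card inter_subset_left
  have hFeq : F ∩ S = F := eq_of_subset_of_card_le inter_subset_left (by omega)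
  have hFsub : F ⊆ S := by rw [← hFeq]; exact inter_subset_right
  have hF2 : #F = 2 := by omega
  obtain ⟨x, y, hxy, rfl⟩ := card_eq_two.1 hF2
  -- orient the cut
  obtain ⟨A, B, hA, hB, hc, hd, huA, hvB, hno⟩ : ∃ A B : Finset V, A ⊆ S \ {x, y} ∧
      B ⊆ S \ {x, y} ∧ (∀ z ∈ S \ {x, y}, z ∈ A ∨ z ∈ B) ∧ Disjoint A B ∧ u ∈ A ∧ v ∈ B ∧
      ∀ a ∈ A, ∀ b ∈ B, ¬ (del G u v).Adj a b := by
    obtain ⟨P, R, hP, hR, hc, hd, hPn, hRn, hno⟩ := not_conn hcon
    obtain ⟨a, ha, b, hb, hab⟩ := conn_edge (h.2 {x, y} hF) hP hR hc hd hPn hRn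
    have hedge : (a = u ∧ b = v) ∨ (a = v ∧ b = u) := by
      by_contra h'
      exact hno a ha b hb ⟨hab, h'⟩
    rcases hedge with ⟨rfl, rfl⟩ | ⟨rfl, rfl⟩
    · exact ⟨P, R, hP, hR, hc, hd, ha, hb, hno⟩
    · exact ⟨R, P, hR, hP, fun z hz => (hc z hz).symm, hd.symm, hb, ha,
        fun a' ha' b' hb' h' => hno b' hb' a' ha' h'.symm⟩
  have hxyA : ∀ z ∈ A, z ∈ S ∧ z ≠ x ∧ z ≠ y := by
    intro z hz
    have := hA hz
    simp only [mem_sdiff, mem_insert, mem_singleton, not_or] at this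
    exact this
  have hxyB : ∀ z ∈ B, z ∈ S ∧ z ≠ x ∧ z ≠ y := by
    intro z hz
    have := hB hz
    simp only [mem_sdiff, mem_insert, mem_singleton, not_or] at this
    exact this
  have hxS : x ∈ S := hFsub (by simp)
  have hyS : y ∈ S := hFsub (by simp)
  have hsep : TwoSep (del G u v) S x y A B := by
    refine ⟨?_, hxy, fun h' => (hxyA x h').2.1 rfl, fun h' => (hxyB x h').2.1 rfl,
      fun h' => (hxyA y h').2.2 rfl, fun h' => (hxyB y h').2.2 rfl, hd, ⟨u, huA⟩, ⟨v, hvB⟩, hno⟩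
    ext z
    rw [mem_insert, mem_insert, mem_union]
    constructor
    · intro hz
      by_cases h1 : z = x
      · exact Or.inl h1
      by_cases h2 : z = y
      · exact Or.inr (Or.inl h2)
      right; right
      apply hc
      simp [hz, h1, h2]
    · rintro (rfl | rfl | hz | hz)
      · exact hxS
      · exact hyS
      · exact (hxyA z hz).1
      · exact (hxyB z hz).1
  have hvA : v ∉ A := fun h' => disjoint_left.1 hd h' hvB
  have huB : u ∉ B := fun h' => disjoint_left.1 hd huA h'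
  have hsub : nb G S u ∩ nb G S v ⊆ {x, y} := by
    intro w hw
    rw [mem_inter, nb, nb, mem_filter, mem_filter] at hw
    obtain ⟨⟨hwS, huw⟩, -, hvw⟩ := hw
    by_contra hwxy
    rcases hc w (mem_sdiff.2 ⟨hwS, hwxy⟩) with hw | hw
    · apply hno w hw v hvB
      refine ⟨hvw.symm, ?_⟩
      rintro (⟨h1, -⟩ | ⟨h1, -⟩)
      · exact huw.ne h1.symm
      · exact hvA (h1 ▸ hw)
    · apply hno u huA w hw
      refine ⟨huw, ?_⟩
      rintro (⟨-, h1⟩ | ⟨h1, h2⟩)
      · exact hvw.ne h1.symm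
      · exact huw.ne h2.symm
  refine ⟨x, y, A, B, hsep, huA, hvB, hsub, fun hcard => ?_⟩
  have heq : nb G S u ∩ nb G S v = {x, y} :=
    eq_of_subset_of_card_le hsub (by rw [hcard, card_pair hxy])
  have hx : x ∈ nb G S u ∩ nb G S v := by rw [heq]; simp
  have hy : y ∈ nb G S u ∩ nb G S v := by rw [heq]; simp
  rw [mem_inter, nb, nb, mem_filter, mem_filter] at hx hy
  refine ⟨side_three G (del G u v) S u v x y A B h (fun a b => Iff.rfl) hsep huA hvB hx.1.2 hy.1.2,
    ?_⟩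
  refine side_three G (del G u v) S v u x y B A h (fun a b => ?_) ?_ hvB huA hx.2.2 hy.2.2
  · constructor
    · rintro ⟨h1, h2⟩
      exact ⟨h1, fun h' => h2 h'.symm⟩
    · rintro ⟨h1, h2⟩
      exact ⟨h1, fun h' => h2 h'.symm⟩
  · refine ⟨?_, hxy, hsep.xB, hsep.xA, hsep.yB, hsep.yA, hd.symm, hsep.neB, hsep.neA,
      fun a ha b hb h' => hno b hb a ha h'.symm⟩
    rw [union_comm]; exact hsep.hS


end Pool.Agent.Helper391.WheelChi
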