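import Mathlib
import Pool.Agent.Helper391.Wheel.Defs

set_option autoImplicit false

namespace Pool.Agent.Helper391.WheelChi

open Finset Polynomial
open scoped Classical

variable {V : Type} [DecidableEq V]


private theorem mem_cl_aux (G : SimpleGraph V) (r : ℕ) (S T : Finset V) :
    T ∈ cl G r S ↔ T ⊆ S ∧ #T = r ∧ G.IsClique (T : Set V) := by
  unfold cl
  rw [mem_filter, mem_powersetCard, and_assoc]

private theorem clique_side {G : SimpleGraph V} {S : Finset V} {x y : V} {A B : Finset V}
    (h : TwoSep G S x y A B) {T : Finset V} (hT : T ⊆ S) (hc : G.IsClique (T : Set V)) :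
    T ⊆ insert x (insert y A) ∨ T ⊆ insert x (insert y B) := by
  by_contra hcon
  push Not at hcon
  obtain ⟨h1, h2⟩ := hcon
  rw [not_subset] at h1 h2
  obtain ⟨b, hb, hb'⟩ := h1
  obtain ⟨a, ha, ha'⟩ := h2
  have hbS := hT hb
  have haS := hT ha
  rw [h.hS] at hbS haS
  simp only [mem_insert, mem_union, not_or] at hbS haS hb' ha'
  have hbB : b ∈ B := by tauto
  have haA : a ∈ A := by tauto
  have hab : a ≠ b := by
    rintro rfl
    exact (Finset.disjoint_left.1 h.dis) haA hbB
  exact h.noE a haA b hbB (hc (mem_coe.2 ha) (mem_coe.2 hb) hab)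

private theorem le_addE (G : SimpleGraph V) (x y : V) : G ≤ addE G x y := by
  intro a b hab
  exact ⟨hab.ne, Or.inl hab⟩

private theorem cl_mono_aux (G : SimpleGraph V) (r : ℕ) {S S' : Finset V} (h : S ⊆ S') :
    cl G r S ⊆ cl G r S' := by
  intro T hT
  rw [mem_cl_aux] at hT ⊢
  exact ⟨hT.1.trans h, hT.2⟩

private theorem cl_addE (G : SimpleGraph V) (x y : V) (r : ℕ) (S : Finset V) :
    cl G r S ⊆ cl (addE G x y) r S := by
  intro T hT
  rw [mem_cl_aux] at hT ⊢
  exact ⟨hT.1, hT.2.1, hT.2.2.mono (le_addE G x y)⟩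

private theorem cl_sep {G : SimpleGraph V} {S : Finset V} {x y : V} {A B : Finset V}
    (h : TwoSep G S x y A B) (r : ℕ) :
    cl G r S = cl G r (insert x (insert y A)) ∪ cl G r (insert x (insert y B)) := by
  have hA : insert x (insert y A) ⊆ S := by
    rw [h.hS]
    intro a
    simp only [mem_insert, mem_union]
    tauto
  have hB : insert x (insert y B) ⊆ S := by
    rw [h.hS]
    intro a
    simp only [mem_insert, mem_union]
    tauto
  apply Subset.antisymm
  · intro T hT
    rw [mem_cl_aux] at hT
    rw [mem_union, mem_cl_aux, mem_cl_aux]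
    rcases clique_side h hT.1 hT.2.2 with h1 | h1
    · exact Or.inl ⟨h1, hT.2⟩
    · exact Or.inr ⟨h1, hT.2⟩
  · exact union_subset (cl_mono_aux G r hA) (cl_mono_aux G r hB)

private theorem pair_mem_cl (G : SimpleGraph V) {S : Finset V} {x y : V} (hxy : x ≠ y) (hx : x ∈ S)
    (hy : y ∈ S) : ({x, y} : Finset V) ∈ cl G 2 S ↔ G.Adj x y := by
  rw [mem_cl_aux, coe_pair, SimpleGraph.isClique_pair]
  constructor
  · intro h; exact h.2.2 hxy
  · intro h
    refine ⟨?_, card_pair hxy, fun _ => h⟩
    intro a ha
    rw [mem_insert, mem_singleton] at ha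
    rcases ha with rfl | rfl
    · exact hx
    · exact hy

private theorem cl_addE_two (G : SimpleGraph V) {S : Finset V} {x y : V} (hxy : x ≠ y) (hx : x ∈ S)
    (hy : y ∈ S) : cl (addE G x y) 2 S = insert {x, y} (cl G 2 S) := by
  apply Subset.antisymm
  · intro T hT
    have hT0 := hT
    rw [mem_cl_aux] at hT
    obtain ⟨a, b, hab, rfl⟩ := card_eq_two.1 hT.2.1
    rw [coe_pair, SimpleGraph.isClique_pair] at hT
    rw [mem_insert]
    rcases (hT.2.2 hab).2 with h | ⟨rfl, rfl⟩ | ⟨rfl, rfl⟩
    · right
      rw [mem_cl_aux, coe_pair, SimpleGraph.isClique_pair]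
      exact ⟨hT.1, hT.2.1, fun _ => h⟩
    · left; rfl
    · left; exact pair_comm _ _
  · intro T hT
    rw [mem_insert] at hT
    rcases hT with rfl | hT
    · rw [pair_mem_cl _ hxy hx hy]
      exact ⟨hxy, Or.inr (Or.inl ⟨rfl, rfl⟩)⟩
    · exact cl_addE G x y 2 S hT

private theorem ec_addE (G : SimpleGraph V) {S : Finset V} {x y : V} (hxy : x ≠ y) (hx : x ∈ S)
    (hy : y ∈ S) : ec (addE G x y) S = ec G S + (if G.Adj x y then 0 else 1) := by
  unfold ec
  rw [cl_addE_two G hxy hx hy]
  split_ifs with h
  · rw [insert_eq_of_mem ((pair_mem_cl G hxy hx hy).2 h), add_zero]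
  · rw [card_insert_of_notMem (fun h' => h ((pair_mem_cl G hxy hx hy).1 h'))]

theorem ec_sep (G : SimpleGraph V) (S : Finset V) (x y : V) (A B : Finset V)
    (h : TwoSep G S x y A B) :
    (ec G S : ℤ) = ec (addE G x y) (insert x (insert y A)) + ec (addE G x y) (insert x (insert y B))
      - 1 - (if G.Adj x y then 0 else 1) := by
  rw [ec_addE G h.hxy (mem_insert_self _ _) (mem_insert_of_mem (mem_insert_self _ _)),
    ec_addE G h.hxy (mem_insert_self _ _) (mem_insert_of_mem (mem_insert_self _ _))]
  have h1 := card_union_add_card_inter (cl G 2 (insert x (insert y A)))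
    (cl G 2 (insert x (insert y B)))
  rw [← cl_sep h] at h1
  have h2 : cl G 2 (insert x (insert y A)) ∩ cl G 2 (insert x (insert y B)) = cl G 2 {x, y} := by
    ext T
    rw [mem_inter, mem_cl_aux, mem_cl_aux, mem_cl_aux]
    constructor
    · rintro ⟨h3, h4⟩
      refine ⟨?_, h3.2⟩
      intro a ha
      have h5 := h3.1 ha
      have h6 := h4.1 ha
      simp only [mem_insert, mem_singleton] at h5 h6 ⊢
      rcases h5 with h5 | h5 | h5
      · exact Or.inl h5
      · exact Or.inr h5
      · rcases h6 with h6 | h6 | h6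
        · exact Or.inl h6
        · exact Or.inr h6
        · exact absurd h6 (Finset.disjoint_left.1 h.dis h5)
    · rintro ⟨h3, h4⟩
      refine ⟨⟨h3.trans ?_, h4⟩, ⟨h3.trans ?_, h4⟩⟩
      · intro a
        simp only [mem_insert, mem_singleton]
        tauto
      · intro a
        simp only [mem_insert, mem_singleton]
        tauto
  have h3 : #(cl G 2 {x, y}) = if G.Adj x y then 1 else 0 := by
    split_ifs with h4
    · have : cl G 2 {x, y} = {{x, y}} := by
        ext T
        rw [mem_singleton]
        constructor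
        · intro hT
          rw [mem_cl_aux] at hT
          exact eq_of_subset_of_card_le hT.1 (by rw [hT.2.1, card_pair h.hxy])
        · rintro rfl
          rw [pair_mem_cl G h.hxy (by simp) (by simp)]
          exact h4
      rw [this, card_singleton]
    · rw [card_eq_zero, eq_empty_iff_forall_notMem]
      intro T hT
      have hT' := hT
      rw [mem_cl_aux] at hT
      have e : T = {x, y} := eq_of_subset_of_card_le hT.1 (by rw [hT.2.1, card_pair h.hxy])
      rw [e, pair_mem_cl G h.hxy (by simp) (by simp)] at hT'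
      exact h4 hT'
  rw [h2, h3] at h1
  unfold ec
  split_ifs at h1 ⊢ with h4 <;> push_cast <;> omega

theorem tc_sep (G : SimpleGraph V) (S : Finset V) (x y : V) (A B : Finset V)
    (h : TwoSep G S x y A B) :
    tc G S ≤ tc (addE G x y) (insert x (insert y A)) + tc (addE G x y) (insert x (insert y B)) := by
  unfold tc
  rw [cl_sep h]
  refine (card_union_le _ _).trans ?_
  exact add_le_add (card_le_card (cl_addE G x y 3 _)) (card_le_card (cl_addE G x y 3 _))


end Pool.Agent.Helper391.WheelChi
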