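import Mathlib
import Pool.Agent.Helper391.Wheel.Defs
import Pool.Agent.Helper391.Wheel.W1
import Pool.Agent.Helper391.Wheel.W2
import Pool.Agent.Helper391.Wheel.W3
import Pool.Agent.Helper391.Wheel.W4
import Pool.Agent.Helper391.Wheel.W5
import Pool.Agent.Helper391.Wheel.W6
import Pool.Agent.Helper391.Wheel.W13
import Pool.Agent.Helper391.Wheel.W14
import Pool.Agent.Helper391.Wheel.W15
import Pool.Agent.Helper391.Wheel.W16

set_option autoImplicit false

namespace Pool.Agent.Helper391.WheelChi

open Finset Polynomial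
open scoped Classical

variable {V : Type} [DecidableEq V]


theorem del_three (G : SimpleGraph V) (S : Finset V) (h : ThreeConn G S)
    (u v : V) (hu : u ∈ S) (hv : v ∈ S) (huv : G.Adj u v)
    (ht : 3 ≤ #(nb G S u ∩ nb G S v)) : ThreeConn (del G u v) S := by
  by_contra hn
  obtain ⟨x, y, A, B, -, -, -, hsub, -⟩ := del_sep G S u v h hu hv huv hn
  have h1 := card_le_card hsub
  have h2 : #({x, y} : Finset V) ≤ 2 := card_le_two
  omega

private theorem jj_del (G : SimpleGraph V) (S : Finset V) (u v : V) (hu : u ∈ S) (hv : v ∈ S)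
    (huv : G.Adj u v) : jj (del G u v) S = jj G S - 1 := by
  have := ec_del G S u v hu hv huv
  unfold jj
  omega

private theorem jj_contr (G : SimpleGraph V) (S : Finset V) (u v : V) (hu : u ∈ S) (hv : v ∈ S)
    (huv : G.Adj u v) :
    jj (contr G u v) (S.erase v) = jj G S + 1 - #(nb G S u ∩ nb G S v) := by
  have := ec_contr G S u v hu hv huv
  have h2 : #(S.erase v) + 1 = #S := card_erase_add_one hv
  unfold jj
  omega

private theorem nb_sub_erase (G : SimpleGraph V) (S : Finset V) (a : V) : nb G S a ⊆ S.erase a := by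
  intro x hx
  simp only [nb, mem_filter] at hx
  rw [mem_erase]
  exact ⟨hx.2.ne', hx.1⟩

private theorem complete_four (G : SimpleGraph V) (S : Finset V) (h : ThreeConn G S) (h4 : #S = 4)
    (a b : V) (ha : a ∈ S) (hb : b ∈ S) (hab : a ≠ b) : G.Adj a b := by
  have h1 := three_nb G S h a ha
  have h2 : #(S.erase a) + 1 = #S := card_erase_add_one ha
  have h3 : nb G S a = S.erase a := eq_of_subset_of_card_le (nb_sub_erase G S a) (by omega)
  have h5 : b ∈ nb G S a := by rw [h3, mem_erase]; exact ⟨hab.symm, hb⟩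
  simp only [nb, mem_filter] at h5
  exact h5.2

private theorem jj_four (G : SimpleGraph V) (S : Finset V) (h : ThreeConn G S) (h4 : #S = 4) :
    jj G S = 0 := by
  have h1 := sum_nb G S
  have h2 : ∑ a ∈ S, 3 ≤ ∑ a ∈ S, #(nb G S a) := sum_le_sum (fun a ha => three_nb G S h a ha)
  rw [sum_const, h4, h1] at h2
  have h3 := ec_le_choose G S
  rw [h4] at h3
  have h5 : Nat.choose 4 2 = 6 := rfl
  rw [h5] at h3
  simp only [smul_eq_mul] at h2
  unfold jj
  rw [h4]
  omega

private theorem jj_three (G : SimpleGraph V) (S : Finset V) (h : TwoConn G S) (h3 : #S = 3) :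
    jj G S = -1 := by
  have h1 := sum_nb G S
  have h2 : ∑ a ∈ S, 2 ≤ ∑ a ∈ S, #(nb G S a) :=
    sum_le_sum (fun a ha => two_nb G S h (by omega) a ha)
  rw [sum_const, h3, h1] at h2
  have h4 := ec_le_choose G S
  rw [h3] at h4
  have h5 : Nat.choose 3 2 = 3 := rfl
  rw [h5] at h4
  simp only [smul_eq_mul] at h2
  unfold jj
  rw [h3]
  omega

theorem bb_ge_card (G : SimpleGraph V) (S : Finset V) (h : ThreeConn G S) :
    (#S : ℤ) - 2 ≤ bb G S := by
  have key : ∀ n : ℕ, ∀ (G : SimpleGraph V) (S : Finset V), #S = n + 4 → ThreeConn G S →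
      (#S : ℤ) - 2 ≤ bb G S := by
    intro n
    induction n with
    | zero =>
      intro G S hS h
      have hpos : 0 < #S := by omega
      obtain ⟨u, hu⟩ := card_pos.mp hpos
      have h1 := three_nb G S h u hu
      obtain ⟨v, hv⟩ := card_pos.mp (show 0 < #(nb G S u) by omega)
      simp only [nb, mem_filter] at hv
      obtain ⟨hv, huv⟩ := hv
      have h2 := bb_del G S u v hu hv huv
      have h3 := bb_pos _ _ (del_twoConn G S u v h hu hv huv)
      have hE : #(S.erase v) + 1 = #S := card_erase_add_one hv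
      have h4 : TwoConn (contr G u v) (S.erase v) := by
        refine ⟨by omega, ?_⟩
        intro F _ B hB hBne hABne
        obtain ⟨x, hx⟩ := hBne
        obtain ⟨y, hy⟩ := hABne
        refine ⟨x, hx, y, hy, ?_⟩
        have hx1 := hB hx
        rw [mem_sdiff, mem_erase] at hx1
        have hy1 := hy
        rw [mem_sdiff, mem_sdiff, mem_erase] at hy1
        have hxy : x ≠ y := by
          rintro rfl
          exact hy1.2 hx
        exact ⟨hxy, Or.inl (complete_four G S h hS x y hx1.1.2 hy1.1.1.2 hxy)⟩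
      have h5 := bb_pos _ _ h4
      rw [hS]
      push_cast
      linarith
    | succ n ih =>
      intro G S hS h
      obtain ⟨u, hu, v, hv, huv, h1⟩ := exists_contractible G S h (by omega)
      have hE : #(S.erase v) + 1 = #S := card_erase_add_one hv
      have h2 := bb_del G S u v hu hv huv
      have h3 := bb_pos _ _ (del_twoConn G S u v h hu hv huv)
      have h4 := ih _ _ (by omega) h1
      have hE' : ((#(S.erase v) : ℕ) : ℤ) + 1 = #S := by exact_mod_cast hE
      linarith
  obtain ⟨n, hn⟩ : ∃ n, #S = n + 4 := ⟨#S - 4, by have := h.1; omega⟩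
  exact key n G S hn h

/-- the `Q` bound for a fixed graph -/
private def QB (G : SimpleGraph V) (S : Finset V) : Prop :=
  (#S : ℤ) - 2 + (#S - 4) * jj G S ≤ bb G S

private theorem side_bound (G : SimpleGraph V) (S : Finset V) (h : ThreeConn G S) (hQ : QB G S) :
    (#S : ℤ) - 2 + jj G S ≤ bb G S := by
  have h1 := bb_ge_card G S h
  have h4 : 4 ≤ #S := h.1
  by_cases h5 : #S = 4
  · have := jj_four G S h h5
    rw [this]
    linarith
  · have h6 : (5 : ℤ) ≤ #S := by
      have : 5 ≤ #S := by omega
      exact_mod_cast this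
    unfold QB at hQ
    by_cases hj : 0 ≤ jj G S
    · nlinarith
    · push Not at hj
      linarith

private theorem TwoSep.symm {G : SimpleGraph V} {S : Finset V} {x y : V} {A B : Finset V}
    (h : TwoSep G S x y A B) : TwoSep G S x y B A where
  hS := by rw [h.hS, union_comm]
  hxy := h.hxy
  xA := h.xB
  xB := h.xA
  yA := h.yB
  yB := h.yA
  dis := h.dis.symm
  neA := h.neB
  neB := h.neA
  noE := fun a ha b hb hab => h.noE b hb a ha hab.symm

private theorem TwoSep.cardA {G : SimpleGraph V} {S : Finset V} {x y : V} {A B : Finset V}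
    (h : TwoSep G S x y A B) : #(insert x (insert y A)) = #A + 2 := by
  rw [card_insert_of_notMem, card_insert_of_notMem h.yA]
  rw [mem_insert]
  rintro (h1 | h1)
  · exact h.hxy h1
  · exact h.xA h1

private theorem TwoSep.cardS {G : SimpleGraph V} {S : Finset V} {x y : V} {A B : Finset V}
    (h : TwoSep G S x y A B) : #S = #A + #B + 2 := by
  conv_lhs => rw [h.hS]
  rw [card_insert_of_notMem, card_insert_of_notMem, card_union_of_disjoint h.dis]
  · rw [mem_union]
    rintro (h1 | h1)
    · exact h.yA h1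
    · exact h.yB h1
  · rw [mem_insert, mem_union]
    rintro (h1 | h1 | h1)
    · exact h.hxy h1
    · exact h.xA h1
    · exact h.xB h1

private theorem jj_sep {G : SimpleGraph V} {S : Finset V} {x y : V} {A B : Finset V}
    (h : TwoSep G S x y A B) :
    jj G S ≤ jj (addE G x y) (insert x (insert y A)) + jj (addE G x y) (insert x (insert y B)) + 1 := by
  have h1 := ec_sep G S x y A B h
  have h2 := h.cardA
  have h3 := h.symm.cardA
  have h4 := h.cardS
  unfold jj
  rw [h2, h3, h4, h1]
  push_cast
  split_ifs <;> linarith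

private theorem claimR (G : SimpleGraph V) (S : Finset V) (h : ThreeConn G S) (h5 : 5 ≤ #S)
    (u v : V) (hu : u ∈ S) (hv : v ∈ S) (huv : G.Adj u v)
    (ht : #(nb G S u ∩ nb G S v) = 2) (hn : ¬ ThreeConn (del G u v) S)
    (hQ : ∀ (G' : SimpleGraph V) (S' : Finset V), #S' < #S → ThreeConn G' S' → QB G' S') :
    (#S : ℤ) - 3 ≤ bb (del G u v) S ∧ (#S : ℤ) - 4 + jj G S ≤ bb (del G u v) S := by
  obtain ⟨x, y, A, B, hsep, -, -, -, h2⟩ := del_sep G S u v h hu hv huv hn
  obtain ⟨hA, hB⟩ := h2 ht
  have hN := del_twoConn G S u v h hu hv huv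
  have hb := bb_sep _ _ _ _ _ _ hN hsep
  have hj := jj_sep hsep
  have hjd := jj_del G S u v hu hv huv
  have cA := hsep.cardA
  have cB := hsep.symm.cardA
  have cS := hsep.cardS
  have pA : 0 < #A := card_pos.mpr hsep.neA
  have pB : 0 < #B := card_pos.mpr hsep.neB
  set S1 := insert x (insert y A) with hS1
  set S2 := insert x (insert y B) with hS2
  set G' := addE (del G u v) x y with hG'
  -- bounds for both sides
  have sA : (#A = 1 ∧ bb G' S1 = 1 ∧ jj G' S1 = -1) ∨
      (2 ≤ #A ∧ (#A : ℤ) ≤ bb G' S1 ∧ (#A : ℤ) + jj G' S1 ≤ bb G' S1) := by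
    rcases hA with hA | hA
    · left
      have ht1 : TwoConn G' S1 := side_twoConn _ _ _ _ _ _ hN hsep
      exact ⟨hA, bb_three _ _ ht1 (by omega), jj_three _ _ ht1 (by omega)⟩
    · right
      have h4 : 4 ≤ #S1 := hA.1
      refine ⟨by omega, ?_, ?_⟩
      · have := bb_ge_card _ _ hA
        rw [cA] at this
        push_cast at this
        linarith
      · by_cases hlt : #S1 < #S
        · have := side_bound _ _ hA (hQ _ _ hlt hA)
          rw [cA] at this
          push_cast at this
          linarith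
        · omega
  have sB : (#B = 1 ∧ bb G' S2 = 1 ∧ jj G' S2 = -1) ∨
      (2 ≤ #B ∧ (#B : ℤ) ≤ bb G' S2 ∧ (#B : ℤ) + jj G' S2 ≤ bb G' S2) := by
    rcases hB with hB | hB
    · left
      have ht1 : TwoConn G' S2 := side_twoConn _ _ _ _ _ _ hN hsep.symm
      exact ⟨hB, bb_three _ _ ht1 (by omega), jj_three _ _ ht1 (by omega)⟩
    · right
      have h4 : 4 ≤ #S2 := hB.1
      refine ⟨by omega, ?_, ?_⟩
      · have := bb_ge_card _ _ hB
        rw [cB] at this
        push_cast at this
        linarith
      · by_cases hlt : #S2 < #S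
        · have := side_bound _ _ hB (hQ _ _ hlt hB)
          rw [cB] at this
          push_cast at this
          linarith
        · omega
  have cSz : (#S : ℤ) = #A + #B + 2 := by exact_mod_cast cS
  rw [hb, cSz]
  rcases sA with ⟨a1, a2, a3⟩ | ⟨a1, a2, a3⟩
  · rcases sB with ⟨b1, b2, b3⟩ | ⟨b1, b2, b3⟩
    · omega
    · rw [a2, one_mul]
      have : (#A : ℤ) = 1 := by exact_mod_cast a1
      constructor <;> linarith
  · rcases sB with ⟨b1, b2, b3⟩ | ⟨b1, b2, b3⟩
    · rw [b2, mul_one]
      have : (#B : ℤ) = 1 := by exact_mod_cast b1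
      constructor <;> linarith
    · have a1' : (2 : ℤ) ≤ #A := by exact_mod_cast a1
      have b1' : (2 : ℤ) ≤ #B := by exact_mod_cast b1
      have hprod : bb G' S1 + bb G' S2 ≤ bb G' S1 * bb G' S2 := by nlinarith
      constructor <;> linarith

private theorem QJ (n : ℕ) : ∀ m : ℕ, ∀ (G : SimpleGraph V) (S : Finset V), #S = n → ec G S = m →
    (ThreeConn G S → QB G S) ∧ (TwoConn G S → 3 ≤ #S → jj G S + 2 ≤ bb G S) := by
  induction n using Nat.strong_induction_on with
  | _ n ihn =>
  intro m
  induction m using Nat.strong_induction_on with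
  | _ m ihm =>
  intro G S hS hm
  have hQsmall : ∀ (G' : SimpleGraph V) (S' : Finset V), #S' < #S → ThreeConn G' S' → QB G' S' :=
    fun G' S' hlt h' => (ihn #S' (by omega) (ec G' S') G' S' rfl rfl).1 h'
  have hQ : ThreeConn G S → QB G S := by
    intro h
    by_cases h4 : #S = 4
    · have := bb_ge_card G S h
      unfold QB
      rw [jj_four G S h h4]
      linarith
    have h5 : 5 ≤ #S := by have := h.1; omega
    obtain ⟨u, hu, v, hv, huv, hH⟩ := exists_contractible G S h h5
    have hE : #(S.erase v) + 1 = #S := card_erase_add_one hv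
    have hE' : (#(S.erase v) : ℤ) = #S - 1 := by
      have : ((#(S.erase v) : ℕ) : ℤ) + 1 = #S := by exact_mod_cast hE
      linarith
    have hbb := bb_del G S u v hu hv huv
    have hed := ec_del G S u v hu hv huv
    have hjd := jj_del G S u v hu hv huv
    have hjc := jj_contr G S u v hu hv huv
    have hN2 := del_twoConn G S u v h hu hv huv
    have hHcard := bb_ge_card _ _ hH
    have hHQ := hQsmall _ _ (by omega) hH
    have hIH := ihm (ec (del G u v) S) (by omega) (del G u v) S hS rfl
    have hs5 : (5 : ℤ) ≤ #S := by exact_mod_cast h5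
    unfold QB at hHQ ⊢
    rw [hbb]
    rw [hE'] at hHcard hHQ
    rw [hjc] at hHQ
    by_cases hN3 : ThreeConn (del G u v) S
    · have hQN := hIH.1 hN3
      unfold QB at hQN
      rw [hjd] at hQN
      nlinarith
    · have hJN := hIH.2 hN2 (by omega)
      rw [hjd] at hJN
      have ht : #(nb G S u ∩ nb G S v) ≤ 2 := by
        by_contra hcon
        push Not at hcon
        exact hN3 (del_three G S h u v hu hv huv (by omega))
      have ht' : #(nb G S u ∩ nb G S v) = 0 ∨ #(nb G S u ∩ nb G S v) = 1 ∨
          #(nb G S u ∩ nb G S v) = 2 := by omega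
      rcases ht' with ht | ht | ht
      · rw [ht] at hHQ
        push_cast at hHQ
        nlinarith
      · rw [ht] at hHQ
        push_cast at hHQ
        nlinarith
      · have hR := (claimR G S h h5 u v hu hv huv ht hN3 hQsmall).2
        rw [ht] at hHQ
        push_cast at hHQ
        nlinarith
  refine ⟨hQ, ?_⟩
  intro h h3
  by_cases hs3 : #S = 3
  · rw [bb_three G S h hs3, jj_three G S h hs3]
    norm_num
  have h4 : 4 ≤ #S := by omega
  by_cases hT : ThreeConn G S
  · have := side_bound G S hT (hQ hT)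
    have h4' : (4 : ℤ) ≤ #S := by exact_mod_cast h4
    linarith
  · obtain ⟨x, y, A, B, hsep⟩ := exists_twoSep G S h h4 hT
    have hb := bb_sep _ _ _ _ _ _ h hsep
    have hj := jj_sep hsep
    have cA := hsep.cardA
    have cB := hsep.symm.cardA
    have cS := hsep.cardS
    have pA : 0 < #A := card_pos.mpr hsep.neA
    have pB : 0 < #B := card_pos.mpr hsep.neB
    have tA := side_twoConn _ _ _ _ _ _ h hsep
    have tB := side_twoConn _ _ _ _ _ _ h hsep.symm
    have jA := (ihn _ (by omega) _ (addE G x y) (insert x (insert y A)) rfl rfl).2 tA (by omega)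
    have jB := (ihn _ (by omega) _ (addE G x y) (insert x (insert y B)) rfl rfl).2 tB (by omega)
    have bA := bb_pos _ _ tA
    have bB := bb_pos _ _ tB
    rw [hb]
    nlinarith

theorem bb_ge_jj (G : SimpleGraph V) (S : Finset V) (h : ThreeConn G S) :
    (#S : ℤ) - 2 + (#S - 4) * jj G S ≤ bb G S :=
  (QJ #S (ec G S) G S rfl rfl).1 h

theorem bb_two (G : SimpleGraph V) (S : Finset V) (h : TwoConn G S) (h3 : 3 ≤ #S) :
    jj G S + 2 ≤ bb G S :=
  (QJ #S (ec G S) G S rfl rfl).2 h h3

theorem bb_del_two (G : SimpleGraph V) (S : Finset V) (h : ThreeConn G S) (h5 : 5 ≤ #S)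
    (u v : V) (hu : u ∈ S) (hv : v ∈ S) (huv : G.Adj u v)
    (ht : #(nb G S u ∩ nb G S v) = 2) :
    (#S : ℤ) - 3 ≤ bb (del G u v) S ∧ (#S : ℤ) - 4 + jj G S ≤ bb (del G u v) S := by
  by_cases hN : ThreeConn (del G u v) S
  · have h1 := bb_ge_card _ _ hN
    have h2 := side_bound _ _ hN (bb_ge_jj _ _ hN)
    rw [jj_del G S u v hu hv huv] at h2
    constructor <;> linarith
  · exact claimR G S h h5 u v hu hv huv ht hN (fun G' S' _ h' => bb_ge_jj G' S' h')


end Pool.Agent.Helper391.WheelChi
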