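import Mathlib
import Pool.Agent.Helper391.Wheel.Defs
import Pool.Agent.Helper391.Wheel.W2
import Pool.Agent.Helper391.Wheel.W6
import Pool.Agent.Helper391.Wheel.W13
import Pool.Agent.Helper391.Wheel.W14
import Pool.Agent.Helper391.Wheel.W15
import Pool.Agent.Helper391.Wheel.W16
import Pool.Agent.Helper391.Wheel.W17

set_option autoImplicit false

namespace Pool.Agent.Helper391.WheelChi

open Finset Polynomial
open scoped Classical

variable {V : Type} [DecidableEq V]


private theorem TwoSep.symm' {G : SimpleGraph V} {S : Finset V} {x y : V} {A B : Finset V}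
    (h : TwoSep G S x y A B) : TwoSep G S x y B A where
  hS := by rw [Finset.union_comm]; exact h.hS
  hxy := h.hxy
  xA := h.xB
  xB := h.xA
  yA := h.yB
  yB := h.yA
  dis := h.dis.symm
  neA := h.neB
  neB := h.neA
  noE := fun a ha b hb hab => h.noE b hb a ha hab.symm

private theorem TwoSep.card {G : SimpleGraph V} {S : Finset V} {x y : V} {A B : Finset V}
    (h : TwoSep G S x y A B) : #S = #A + #B + 2 := by
  rw [h.hS, Finset.card_insert_of_notMem, Finset.card_insert_of_notMem,
    Finset.card_union_of_disjoint h.dis]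
  · simp [h.yA, h.yB]
  · simp [h.xA, h.xB, h.hxy]

private theorem TwoSep.card1 {G : SimpleGraph V} {S : Finset V} {x y : V} {A B : Finset V}
    (h : TwoSep G S x y A B) : #(insert x (insert y A)) = #A + 2 := by
  rw [Finset.card_insert_of_notMem, Finset.card_insert_of_notMem]
  · exact h.yA
  · simp [h.xA, h.hxy]

private theorem split (G : SimpleGraph V) (S : Finset V) (h : TwoConn G S) (h4 : 4 ≤ #S)
    (hb : bb G S = 1) : ∃ x y A B, TwoSep G S x y A B ∧
      TwoConn (addE G x y) (insert x (insert y A)) ∧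
      TwoConn (addE G x y) (insert x (insert y B)) ∧
      bb (addE G x y) (insert x (insert y A)) = 1 ∧
      bb (addE G x y) (insert x (insert y B)) = 1 := by
  have hn : ¬ ThreeConn G S := by
    intro h3
    have := bb_ge_card G S h3
    omega
  obtain ⟨x, y, A, B, hs⟩ := exists_twoSep G S h h4 hn
  have t1 := side_twoConn G S x y A B h hs
  have t2 := side_twoConn G S x y B A h hs.symm'
  have p1 := bb_pos _ _ t1
  have p2 := bb_pos _ _ t2
  have p3 := bb_sep G S x y A B h hs
  rw [hb] at p3
  refine ⟨x, y, A, B, hs, t1, t2, ?_, ?_⟩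
  · nlinarith
  · nlinarith

private theorem nb_side {G : SimpleGraph V} {S : Finset V} {x y : V} {A B : Finset V}
    (h : TwoSep G S x y A B) {z : V} (hz : z ∈ A) :
    nb G S z = nb (addE G x y) (insert x (insert y A)) z := by
  ext a
  simp only [nb, Finset.mem_filter]
  constructor
  · rintro ⟨h1, h2⟩
    refine ⟨?_, G.ne_of_adj h2, Or.inl h2⟩
    rw [h.hS] at h1
    simp only [Finset.mem_insert, Finset.mem_union] at h1 ⊢
    rcases h1 with h1 | h1 | h1 | h1
    · exact Or.inl h1
    · exact Or.inr (Or.inl h1)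
    · exact Or.inr (Or.inr h1)
    · exact absurd h2 (h.noE z hz a h1)
  · rintro ⟨h1, h2⟩
    constructor
    · rw [h.hS]
      simp only [Finset.mem_insert, Finset.mem_union] at h1 ⊢
      rcases h1 with h1 | h1 | h1
      · exact Or.inl h1
      · exact Or.inr (Or.inl h1)
      · exact Or.inr (Or.inr (Or.inl h1))
    · rcases h2.2 with h3 | h3 | h3
      · exact h3
      · exact absurd (h3.1 ▸ hz) h.xA
      · exact absurd (h3.1 ▸ hz) h.yA

private theorem side_deg {G : SimpleGraph V} {S : Finset V} {x y : V} {A B : Finset V}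
    (hc : TwoConn G S) (h3 : 3 ≤ #S) (h : TwoSep G S x y A B)
    (ih : 4 ≤ #(insert x (insert y A)) → ∃ z ∈ insert x (insert y A), ∃ w ∈ insert x (insert y A),
      z ≠ w ∧ ¬ (addE G x y).Adj z w ∧ #(nb (addE G x y) (insert x (insert y A)) z) = 2 ∧
      #(nb (addE G x y) (insert x (insert y A)) w) = 2) :
    ∃ z ∈ A, #(nb G S z) = 2 := by
  by_cases h4 : 4 ≤ #(insert x (insert y A))
  · obtain ⟨z, hz, w, hw, hzw, hadj, dz, dw⟩ := ih h4
    by_cases hzA : z ∈ A
    · exact ⟨z, hzA, by rw [nb_side h hzA, dz]⟩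
    by_cases hwA : w ∈ A
    · exact ⟨w, hwA, by rw [nb_side h hwA, dw]⟩
    exfalso
    simp only [Finset.mem_insert, hzA, hwA, or_false] at hz hw
    apply hadj
    rcases hz with rfl | rfl <;> rcases hw with rfl | rfl
    · exact absurd rfl hzw
    · exact ⟨hzw, Or.inr (Or.inl ⟨rfl, rfl⟩)⟩
    · exact ⟨hzw, Or.inr (Or.inr ⟨rfl, rfl⟩)⟩
    · exact absurd rfl hzw
  · rw [h.card1] at h4
    have hA1 : #A = 1 := by
      have := h.neA.card_pos
      omega
    obtain ⟨z, rfl⟩ := Finset.card_eq_one.1 hA1
    have hzS : z ∈ S := by rw [h.hS]; simp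
    refine ⟨z, Finset.mem_singleton_self z, le_antisymm ?_ (two_nb G S hc h3 z hzS)⟩
    have hsub : nb G S z ⊆ {x, y} := by
      intro a ha
      rw [nb_side h (Finset.mem_singleton_self z)] at ha
      simp only [nb, Finset.mem_filter, Finset.mem_insert, Finset.mem_singleton] at ha ⊢
      rcases ha with ⟨h1 | h1 | h1, h2⟩
      · exact Or.inl h1
      · exact Or.inr h1
      · exact absurd h1.symm h2.1
    exact (Finset.card_le_card hsub).trans Finset.card_le_two

theorem sp_deg (G : SimpleGraph V) (S : Finset V) (h : TwoConn G S) (h4 : 4 ≤ #S)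
    (hb : bb G S = 1) :
    ∃ z ∈ S, ∃ w ∈ S, z ≠ w ∧ ¬ G.Adj z w ∧ #(nb G S z) = 2 ∧ #(nb G S w) = 2 := by
  induction hn : #S using Nat.strong_induction_on generalizing G S with
  | _ n ih =>
    obtain ⟨x, y, A, B, hs, t1, t2, b1, b2⟩ := split G S h h4 hb
    have c0 := hs.card
    have c1 := hs.card1
    have c2 := hs.symm'.card1
    have n1 := hs.neA.card_pos
    have n2 := hs.neB.card_pos
    obtain ⟨z, hz, dz⟩ := side_deg h (by omega) hs (fun h5 => ih _ (by omega) _ _ t1 h5 b1 rfl)
    obtain ⟨w, hw, dw⟩ := side_deg h (by omega) hs.symm'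
      (fun h5 => ih _ (by omega) _ _ t2 h5 b2 rfl)
    refine ⟨z, ?_, w, ?_, ?_, hs.noE z hz w hw, dz, dw⟩
    · rw [hs.hS]; simp [hz]
    · rw [hs.hS]; simp [hw]
    · rintro rfl
      exact Finset.disjoint_left.1 hs.dis hz hw

theorem sp_tc (G : SimpleGraph V) (S : Finset V) (h : TwoConn G S) (h3 : 3 ≤ #S)
    (hb : bb G S = 1) : tc G S + 2 ≤ #S := by
  induction hn : #S using Nat.strong_induction_on generalizing G S with
  | _ n ih =>
    by_cases h4 : 4 ≤ #S
    · obtain ⟨x, y, A, B, hs, t1, t2, b1, b2⟩ := split G S h h4 hb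
      have c0 := hs.card
      have c1 := hs.card1
      have c2 := hs.symm'.card1
      have n1 := hs.neA.card_pos
      have n2 := hs.neB.card_pos
      have i1 := ih _ (by omega) _ _ t1 (by omega) b1 rfl
      have i2 := ih _ (by omega) _ _ t2 (by omega) b2 rfl
      have := tc_sep G S x y A B hs
      omega
    · have h5 : #S = 3 := by omega
      have h6 : cl G 3 S ⊆ {S} := by
        intro T hT
        simp only [cl, Finset.mem_filter, Finset.mem_powersetCard] at hT
        rw [Finset.mem_singleton]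
        exact Finset.eq_of_subset_of_card_le hT.1.1 (by omega)
      have h7 := Finset.card_le_card h6
      rw [Finset.card_singleton] at h7
      have : tc G S ≤ 1 := h7
      omega


end Pool.Agent.Helper391.WheelChi
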