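import Mathlib
import Pool.Agent.Helper391.Wheel.Defs
import Pool.Agent.Helper391.Wheel.W1
import Pool.Agent.Helper391.Wheel.W2
import Pool.Agent.Helper391.Wheel.W3
import Pool.Agent.Helper391.Wheel.W4
import Pool.Agent.Helper391.Wheel.W5
import Pool.Agent.Helper391.Wheel.W13
import Pool.Agent.Helper391.Wheel.W14
import Pool.Agent.Helper391.Wheel.W15
import Pool.Agent.Helper391.Wheel.W16
import Pool.Agent.Helper391.Wheel.W17
import Pool.Agent.Helper391.Wheel.W18

set_option autoImplicit false

namespace Pool.Agent.Helper391.WheelChi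

open Finset Polynomial
open scoped Classical

variable {V : Type} [DecidableEq V]


private theorem nb_sub (G : SimpleGraph V) (S : Finset V) (a : V) : nb G S a ⊆ S.erase a := by
  intro x hx
  rw [nb, Finset.mem_filter] at hx
  rw [Finset.mem_erase]
  refine ⟨?_, hx.1⟩
  rintro rfl
  exact G.loopless.irrefl _ hx.2

theorem F4 (G : SimpleGraph V) (S : Finset V) (h : ThreeConn G S) (hs : #S = 4) :
    jj G S = 0 ∧ tc G S ≤ 4 ∧ 2 ≤ bb G S ∧ (∀ a ∈ S, ∀ b ∈ S, a ≠ b → G.Adj a b) := by
  have hnb : ∀ a ∈ S, nb G S a = S.erase a := by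
    intro a ha
    apply Finset.eq_of_subset_of_card_le (nb_sub G S a)
    rw [Finset.card_erase_of_mem ha, hs]
    exact three_nb G S h a ha
  have hadj : ∀ a ∈ S, ∀ b ∈ S, a ≠ b → G.Adj a b := by
    intro a ha b hb hab
    have : b ∈ nb G S a := by rw [hnb a ha, Finset.mem_erase]; exact ⟨hab.symm, hb⟩
    exact (Finset.mem_filter.1 this).2
  have hec : ec G S = 6 := by
    have h1 := sum_nb G S
    have h2 : ∑ a ∈ S, #(nb G S a) = ∑ a ∈ S, 3 := by
      apply Finset.sum_congr rfl
      intro a ha
      rw [hnb a ha, Finset.card_erase_of_mem ha, hs]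
    rw [h2, Finset.sum_const, hs, smul_eq_mul] at h1
    omega
  refine ⟨by unfold jj; rw [hec, hs]; norm_num, ?_, ?_, hadj⟩
  · unfold tc cl
    refine (Finset.card_filter_le _ _).trans ?_
    rw [Finset.card_powersetCard, hs]
    decide
  · have := bb_ge_card G S h
    rw [hs] at this
    push_cast at this
    linarith

private theorem complete_conn (G : SimpleGraph V) (A : Finset V)
    (hadj : ∀ a ∈ A, ∀ b ∈ A, a ≠ b → G.Adj a b) : Conn G A := by
  intro B hBA hB hAB
  obtain ⟨x, hx⟩ := hB
  obtain ⟨y, hy⟩ := hAB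
  refine ⟨x, hx, y, hy, hadj x (hBA hx) y (Finset.mem_sdiff.1 hy).1 ?_⟩
  rintro rfl
  exact (Finset.mem_sdiff.1 hy).2 hx

private theorem complete_two (G : SimpleGraph V) (S : Finset V) (h2 : 2 ≤ #S)
    (hadj : ∀ a ∈ S, ∀ b ∈ S, a ≠ b → G.Adj a b) : TwoConn G S :=
  ⟨h2, fun F _ => complete_conn G (S \ F) fun a ha b hb =>
    hadj a (Finset.mem_sdiff.1 ha).1 b (Finset.mem_sdiff.1 hb).1⟩

private theorem complete_three (G : SimpleGraph V) (S : Finset V) (h2 : 4 ≤ #S)
    (hadj : ∀ a ∈ S, ∀ b ∈ S, a ≠ b → G.Adj a b) : ThreeConn G S :=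
  ⟨h2, fun F _ => complete_conn G (S \ F) fun a ha b hb =>
    hadj a (Finset.mem_sdiff.1 ha).1 b (Finset.mem_sdiff.1 hb).1⟩

private theorem bb_K4 (G : SimpleGraph V) (S : Finset V) (hs : #S = 4)
    (hadj : ∀ a ∈ S, ∀ b ∈ S, a ≠ b → G.Adj a b) : bb G S = 2 := by
  obtain ⟨u, v, x, y, huv, hux, huy, hvx, hvy, hxy, hS⟩ := Finset.card_eq_four.1 hs
  have hu : u ∈ S := by rw [hS]; simp
  have hv : v ∈ S := by rw [hS]; simp
  have hx : x ∈ S := by rw [hS]; simp
  have hy : y ∈ S := by rw [hS]; simp
  have h3 := complete_three G S (by omega) hadj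
  have hGuv := hadj u hu v hv huv
  rw [bb_del G S u v hu hv hGuv]
  have hN := del_twoConn G S u v h3 hu hv hGuv
  have hsep : TwoSep (del G u v) S x y {u} {v} :=
    { hS := by
        rw [hS]; ext a; simp only [Finset.mem_insert, Finset.mem_singleton, Finset.mem_union]; tauto
      hxy := hxy
      xA := by simpa using hux.symm
      xB := by simpa using hvx.symm
      yA := by simpa using huy.symm
      yB := by simpa using hvy.symm
      dis := by simpa using huv
      neA := by simp
      neB := by simp
      noE := by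
        intro a ha b hb hab
        rw [Finset.mem_singleton] at ha hb
        subst ha hb
        exact hab.2 (Or.inl ⟨rfl, rfl⟩) }
  have hmem : ∀ a b, a ∈ S → b ∈ S → a ≠ b → ¬ ((a = u ∧ b = v) ∨ (a = v ∧ b = u)) →
      (addE (del G u v) x y).Adj a b := by
    intro a b ha hb hab hn
    exact ⟨hab, Or.inl ⟨hadj a ha b hb hab, hn⟩⟩
  have h1 : bb (contr G u v) (S.erase v) = 1 := by
    apply bb_three
    · apply complete_two
      · rw [Finset.card_erase_of_mem hv]; omega
      · intro a ha b hb hab
        exact ⟨hab, Or.inl (hadj a (Finset.mem_of_mem_erase ha) b (Finset.mem_of_mem_erase hb) hab)⟩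
    · rw [Finset.card_erase_of_mem hv, hs]
  have h2 : ∀ w, (w = u ∨ w = v) → bb (addE (del G u v) x y) (insert x (insert y {w})) = 1 := by
    intro w hw
    have hxw : x ≠ w := by rcases hw with rfl | rfl <;> [exact hux.symm; exact hvx.symm]
    have hyw : y ≠ w := by rcases hw with rfl | rfl <;> [exact huy.symm; exact hvy.symm]
    have hwS : w ∈ S := by rcases hw with rfl | rfl <;> assumption
    have hc : #(insert x (insert y ({w} : Finset V))) = 3 := Finset.card_eq_three.2
      ⟨x, y, w, hxy, hxw, hyw, rfl⟩
    apply bb_three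
    · apply complete_two
      · omega
      · intro a ha b hb hab
        simp only [Finset.mem_insert, Finset.mem_singleton] at ha hb
        apply hmem a b _ _ hab
        · rintro (⟨h4, h5⟩ | ⟨h4, h5⟩)
          · subst h4 h5
            rcases ha with h6 | h6 | h6
            · exact hux h6
            · exact huy h6
            · rcases hb with h7 | h7 | h7
              · exact hvx h7
              · exact hvy h7
              · exact huv (h6.trans h7.symm)
          · subst h4 h5
            rcases ha with h6 | h6 | h6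
            · exact hvx h6
            · exact hvy h6
            · rcases hb with h7 | h7 | h7
              · exact hux h7
              · exact huy h7
              · exact huv (h7.trans h6.symm)
        · rcases ha with rfl | rfl | rfl <;> assumption
        · rcases hb with rfl | rfl | rfl <;> assumption
    · exact hc
  rw [h1, bb_sep _ _ x y {u} {v} hN hsep, h2 u (Or.inl rfl), h2 v (Or.inr rfl)]
  norm_num

private theorem bb_K5e (G : SimpleGraph V) (S : Finset V) (h3 : ThreeConn G S) (hs : #S = 5)
    (u v x y p : V) (hS : ∀ a, a ∈ S ↔ a = u ∨ a = v ∨ a = x ∨ a = y ∨ a = p)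
    (huv : u ≠ v) (hux : u ≠ x) (huy : u ≠ y) (hup : u ≠ p) (hvx : v ≠ x) (hvy : v ≠ y)
    (hvp : v ≠ p) (hxy : x ≠ y) (hxp : x ≠ p) (hyp : y ≠ p)
    (hadj : ∀ a ∈ S, ∀ b ∈ S, a ≠ b → ¬ ((a = v ∧ b = p) ∨ (a = p ∧ b = v)) → G.Adj a b)
    (hn : ¬ G.Adj v p) : bb G S = 4 := by
  have hu : u ∈ S := by rw [hS]; simp
  have hv : v ∈ S := by rw [hS]; simp
  have hx : x ∈ S := by rw [hS]; simp
  have hy : y ∈ S := by rw [hS]; simp
  have hp : p ∈ S := by rw [hS]; simp
  have hGuv : G.Adj u v := hadj u hu v hv huv (by
    rintro (⟨h4, h5⟩ | ⟨h4, h5⟩)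
    · exact huv h4
    · exact hup h4)
  rw [bb_del G S u v hu hv hGuv]
  have hN := del_twoConn G S u v h3 hu hv hGuv
  have hsep : TwoSep (del G u v) S x y {v} {u, p} :=
    { hS := by
        ext a
        rw [hS]
        simp only [Finset.mem_insert, Finset.mem_singleton, Finset.mem_union]
        tauto
      hxy := hxy
      xA := by simpa using hvx.symm
      xB := by simp only [Finset.mem_insert, Finset.mem_singleton]; tauto
      yA := by simpa using hvy.symm
      yB := by simp only [Finset.mem_insert, Finset.mem_singleton]; tauto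
      dis := by
        rw [Finset.disjoint_singleton_left]
        simp only [Finset.mem_insert, Finset.mem_singleton]; tauto
      neA := by simp
      neB := by simp
      noE := by
        intro a ha b hb hab
        rw [Finset.mem_singleton] at ha
        rw [Finset.mem_insert, Finset.mem_singleton] at hb
        subst ha
        rcases hb with rfl | rfl
        · exact hab.2 (Or.inr ⟨rfl, rfl⟩)
        · exact hn hab.1 }
  have h1 : bb (contr G u v) (S.erase v) = 2 := by
    apply bb_K4
    · rw [Finset.card_erase_of_mem hv, hs]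
    · intro a ha b hb hab
      rw [Finset.mem_erase] at ha hb
      refine ⟨hab, Or.inl (hadj a ha.2 b hb.2 hab ?_)⟩
      rintro (⟨h4, h5⟩ | ⟨h4, h5⟩)
      · exact ha.1 h4
      · exact hb.1 h5
  have h2 : bb (addE (del G u v) x y) (insert x (insert y {v})) = 1 := by
    have hc : #(insert x (insert y ({v} : Finset V))) = 3 := Finset.card_eq_three.2
      ⟨x, y, v, hxy, hvx.symm, hvy.symm, rfl⟩
    apply bb_three _ _ _ hc
    apply complete_two _ _ (by omega)
    intro a ha b hb hab
    simp only [Finset.mem_insert, Finset.mem_singleton] at ha hb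
    have haS : a ∈ S := by rw [hS]; tauto
    have hbS : b ∈ S := by rw [hS]; tauto
    refine ⟨hab, Or.inl ⟨hadj a haS b hbS hab ?_, ?_⟩⟩
    · rintro (⟨h4, h5⟩ | ⟨h4, h5⟩)
      · subst h5
        rcases hb with h | h | h
        · exact hxp h.symm
        · exact hyp h.symm
        · exact hvp h.symm
      · subst h4
        rcases ha with h | h | h
        · exact hxp h.symm
        · exact hyp h.symm
        · exact hvp h.symm
    · rintro (⟨h4, h5⟩ | ⟨h4, h5⟩)
      · subst h4
        rcases ha with h | h | h
        · exact hux h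
        · exact huy h
        · exact huv h
      · subst h5
        rcases hb with h | h | h
        · exact hux h
        · exact huy h
        · exact huv h
  have h4 : bb (addE (del G u v) x y) (insert x (insert y {u, p})) = 2 := by
    have hc : #(insert x (insert y ({u, p} : Finset V))) = 4 := Finset.card_eq_four.2
      ⟨x, y, u, p, hxy, hux.symm, hxp, huy.symm, hyp, hup, rfl⟩
    apply bb_K4 _ _ hc
    intro a ha b hb hab
    simp only [Finset.mem_insert, Finset.mem_singleton] at ha hb
    have haS : a ∈ S := by rw [hS]; tauto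
    have hbS : b ∈ S := by rw [hS]; tauto
    have hav : a ≠ v := by
      rintro rfl
      rcases ha with h | h | h | h
      · exact hvx h
      · exact hvy h
      · exact huv h.symm
      · exact hvp h
    have hbv : b ≠ v := by
      rintro rfl
      rcases hb with h | h | h | h
      · exact hvx h
      · exact hvy h
      · exact huv h.symm
      · exact hvp h
    refine ⟨hab, Or.inl ⟨hadj a haS b hbS hab ?_, ?_⟩⟩
    · rintro (⟨h4, h5⟩ | ⟨h4, h5⟩)
      · exact hav h4
      · exact hbv h5
    · rintro (⟨h4, h5⟩ | ⟨h4, h5⟩)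
      · exact hbv h5
      · exact hav h4
  rw [h1, bb_sep _ _ x y {v} {u, p} hN hsep, h2, h4]
  norm_num

theorem F5 (G : SimpleGraph V) (S : Finset V) (h : ThreeConn G S) (hs : #S = 5) :
    0 ≤ jj G S ∧ jj G S ≤ 2 ∧ (tc G S : ℤ) ≤ 4 + 3 * jj G S ∧ 3 + jj G S ≤ bb G S ∧
      (jj G S = 1 → bb G S ≤ 4) ∧ (jj G S = 2 → 6 ≤ bb G S) ∧
      (jj G S = 2 → ∀ a ∈ S, ∀ b ∈ S, a ≠ b → G.Adj a b) := by
  obtain ⟨u, hu, v, hv, huv, hH⟩ := exists_contractible G S h (by omega)
  have huvne : u ≠ v := by rintro rfl; exact G.loopless.irrefl _ huv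
  have hcard : #(S.erase v) = 4 := by rw [Finset.card_erase_of_mem hv, hs]
  obtain ⟨hj4, ht4, hb4, hadj4⟩ := F4 (contr G u v) (S.erase v) hH hcard
  set X := nb G S u ∩ nb G S v with hX
  set R := (S.erase u).erase v with hR
  have hRc : #R = 3 := by
    rw [hR, Finset.card_erase_of_mem (Finset.mem_erase.2 ⟨huvne.symm, hv⟩),
      Finset.card_erase_of_mem hu, hs]
  have hmR : ∀ a, a ∈ R ↔ a ≠ v ∧ a ≠ u ∧ a ∈ S := by
    intro a
    rw [hR, Finset.mem_erase, Finset.mem_erase]
  have hmX : ∀ a, a ∈ X ↔ a ∈ S ∧ G.Adj u a ∧ G.Adj v a := by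
    intro a
    rw [hX, Finset.mem_inter, nb, nb, Finset.mem_filter, Finset.mem_filter]
    tauto
  have hXR : X ⊆ R := by
    intro a ha
    rw [hmX] at ha
    rw [hmR]
    refine ⟨?_, ?_, ha.1⟩
    · rintro rfl
      exact G.loopless.irrefl _ ha.2.2
    · rintro rfl
      exact G.loopless.irrefl _ ha.2.1
  have hRadj : ∀ a ∈ R, ∀ b ∈ R, a ≠ b → G.Adj a b := by
    intro a ha b hb hab
    rw [hmR] at ha hb
    have h1 := (hadj4 a (Finset.mem_erase.2 ⟨ha.1, ha.2.2⟩) b
      (Finset.mem_erase.2 ⟨hb.1, hb.2.2⟩) hab).2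
    rcases h1 with h1 | h1 | h1
    · exact h1
    · exact (ha.2.1 h1.1).elim
    · exact (hb.2.1 h1.1).elim
  have hec := ec_contr G S u v hu hv huv
  rw [← hX] at hec
  have hecH : (ec (contr G u v) (S.erase v) : ℤ) = 6 := by
    unfold jj at hj4
    rw [hcard] at hj4
    push_cast at hj4
    linarith
  have hj : jj G S = #X - 1 := by
    unfold jj
    rw [← hec, hs]
    push_cast
    linarith
  have hXle : #X ≤ 3 := by
    have := Finset.card_le_card hXR
    omega
  have hXge : 1 ≤ #X := by
    have h1 := sum_nb G S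
    have h2 : ∑ a ∈ S, 3 ≤ ∑ a ∈ S, #(nb G S a) :=
      Finset.sum_le_sum fun a ha => three_nb G S h a ha
    rw [h1, Finset.sum_const, hs, smul_eq_mul] at h2
    omega
  have hbj := bb_ge_jj G S h
  rw [hs] at hbj
  push_cast at hbj
  have htc := tc_contr G S u v hu hv huv
  rw [← hX] at htc
  have hecX := ec_le_choose G X
  refine ⟨by rw [hj]; omega, by rw [hj]; omega, ?_, by linarith, ?_, ?_, ?_⟩
  · -- triangles
    rw [hj]
    rcases (by omega : #X = 1 ∨ #X = 2 ∨ #X = 3) with hc | hc | hc
    · rw [hc] at hecX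
      have h1 : Nat.choose 1 2 = 0 := by decide
      rw [h1] at hecX
      have hex : ∀ a b : V, a ∈ S → (∀ z, z ∈ X ↔ z ∈ S ∧ G.Adj a z ∧ G.Adj b z) →
          ∃ p ∈ S, p ≠ b ∧ G.Adj a p ∧ ¬ G.Adj b p := by
        intro a b ha hab
        by_contra hcon
        push Not at hcon
        have h2 : nb G S a ⊆ insert b X := by
          intro z hz
          rw [nb, Finset.mem_filter] at hz
          by_cases hzb : z = b
          · rw [hzb]; exact Finset.mem_insert_self _ _
          · apply Finset.mem_insert_of_mem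
            rw [hab]
            exact ⟨hz.1, hz.2, hcon z hz.1 hzb hz.2⟩
        have h3 := Finset.card_le_card h2
        have h4 := Finset.card_insert_le b X
        have h5 := three_nb G S h a ha
        omega
      obtain ⟨p, hpS, hpv, hup, hvp⟩ := hex u v hu hmX
      obtain ⟨q, hqS, hqu, hvq, huq⟩ := hex v u hv (fun z => by rw [hmX]; tauto)
      have hpq : p ≠ q := by
        rintro rfl
        exact huq hup
      have hpu : p ≠ u := by
        rintro rfl
        exact G.loopless.irrefl _ hup
      have hqv : q ≠ v := by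
        rintro rfl
        exact G.loopless.irrefl _ hvq
      have hGpq : G.Adj p q := hRadj p ((hmR p).2 ⟨hpv, hpu, hpS⟩) q ((hmR q).2 ⟨hqv, hqu, hqS⟩) hpq
      have h6 := tc_contr' G S u v hu hv huv p q hpS hqS hpv hqu hup hvp hvq huq hGpq
      rw [← hX] at h6
      have h7 : tc G S ≤ 4 := by omega
      rw [hc]
      push_cast
      have : (tc G S : ℤ) ≤ 4 := by exact_mod_cast h7
      linarith
    · rw [hc] at hecX
      have h1 : Nat.choose 2 2 = 1 := by decide
      rw [h1] at hecX
      have h7 : tc G S ≤ 7 := by omega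
      rw [hc]
      push_cast
      have : (tc G S : ℤ) ≤ 7 := by exact_mod_cast h7
      linarith
    · rw [hc] at hecX
      have h1 : Nat.choose 3 2 = 3 := by decide
      rw [h1] at hecX
      have h7 : tc G S ≤ 10 := by omega
      rw [hc]
      push_cast
      have : (tc G S : ℤ) ≤ 10 := by exact_mod_cast h7
      linarith
  · -- jj = 1
    intro hj1
    have hX2 : #X = 2 := by
      rw [hj] at hj1
      have : (#X : ℤ) = 2 := by linarith
      exact_mod_cast this
    obtain ⟨x, y, hxy, hXe⟩ := Finset.card_eq_two.1 hX2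
    have hRX : #(R \ X) = 1 := by
      rw [Finset.card_sdiff_of_subset hXR, hRc, hX2]
    obtain ⟨p, hpe⟩ := Finset.card_eq_one.1 hRX
    have hp : p ∈ R ∧ p ∉ X := by
      rw [← Finset.mem_sdiff, hpe]; exact Finset.mem_singleton_self p
    have hxX : x ∈ X := by rw [hXe]; simp
    have hyX : y ∈ X := by rw [hXe]; simp
    have hmR' : ∀ a, a ∈ R ↔ a = x ∨ a = y ∨ a = p := by
      intro a
      constructor
      · intro ha
        by_cases haX : a ∈ X
        · rw [hXe, Finset.mem_insert, Finset.mem_singleton] at haX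
          tauto
        · have : a ∈ R \ X := Finset.mem_sdiff.2 ⟨ha, haX⟩
          rw [hpe, Finset.mem_singleton] at this
          tauto
      · rintro (rfl | rfl | rfl)
        · exact hXR hxX
        · exact hXR hyX
        · exact hp.1
    have hmS : ∀ a, a ∈ S ↔ a = u ∨ a = v ∨ a = x ∨ a = y ∨ a = p := by
      intro a
      constructor
      · intro ha
        by_cases h1 : a = u
        · exact Or.inl h1
        · by_cases h2 : a = v
          · exact Or.inr (Or.inl h2)
          · right; right
            exact (hmR' a).1 ((hmR a).2 ⟨h2, h1, ha⟩)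
      · rintro (rfl | rfl | h1)
        · exact hu
        · exact hv
        · exact ((hmR a).1 ((hmR' a).2 h1)).2.2
    have hx1 := (hmX x).1 hxX
    have hy1 := (hmX y).1 hyX
    have hxR := (hmR x).1 (hXR hxX)
    have hyR := (hmR y).1 (hXR hyX)
    have hpR := (hmR p).1 hp.1
    have hxp : x ≠ p := by rintro rfl; exact hp.2 hxX
    have hyp : y ≠ p := by rintro rfl; exact hp.2 hyX
    have hGxy := hRadj x (hXR hxX) y (hXR hyX) hxy
    have hGxp := hRadj x (hXR hxX) p hp.1 hxp
    have hGyp := hRadj y (hXR hyX) p hp.1 hyp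
    have hone : G.Adj u p ∨ G.Adj v p := by
      by_contra hcon
      push Not at hcon
      have h1 : nb G S p ⊆ {x, y} := by
        intro z hz
        rw [nb, Finset.mem_filter] at hz
        have h2 := (hmS z).1 hz.1
        rw [Finset.mem_insert, Finset.mem_singleton]
        rcases h2 with rfl | rfl | h2 | h2 | rfl
        · exact (hcon.1 hz.2.symm).elim
        · exact (hcon.2 hz.2.symm).elim
        · exact Or.inl h2
        · exact Or.inr h2
        · exact (G.loopless.irrefl _ hz.2).elim
      have h2 := Finset.card_le_card h1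
      have h3 := three_nb G S h p hpR.2.2
      have h4 : #({x, y} : Finset V) ≤ 2 := Finset.card_le_two
      omega
    apply le_of_eq
    by_cases hup : G.Adj u p
    · have hvp : ¬ G.Adj v p := fun h1 => hp.2 ((hmX p).2 ⟨hpR.2.2, hup, h1⟩)
      apply bb_K5e G S h hs u v x y p hmS huvne hxR.2.1.symm hyR.2.1.symm hpR.2.1.symm
        hxR.1.symm hyR.1.symm hpR.1.symm hxy hxp hyp _ hvp
      intro a ha b hb hab hn
      rw [hmS] at ha hb
      rcases ha with rfl | rfl | rfl | rfl | rfl <;> rcases hb with rfl | rfl | rfl | rfl | rfl <;>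
        first
        | exact (hab rfl).elim
        | exact huv
        | exact huv.symm
        | exact hx1.2.1
        | exact hx1.2.1.symm
        | exact hx1.2.2
        | exact hx1.2.2.symm
        | exact hy1.2.1
        | exact hy1.2.1.symm
        | exact hy1.2.2
        | exact hy1.2.2.symm
        | exact hGxy
        | exact hGxy.symm
        | exact hGxp
        | exact hGxp.symm
        | exact hGyp
        | exact hGyp.symm
        | exact hup
        | exact hup.symm
        | exact (hn (Or.inl ⟨rfl, rfl⟩)).elim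
        | exact (hn (Or.inr ⟨rfl, rfl⟩)).elim
    · have hvp : G.Adj v p := hone.resolve_left hup
      apply bb_K5e G S h hs v u x y p (fun a => by rw [hmS]; tauto) huvne.symm hxR.1.symm
        hyR.1.symm hpR.1.symm hxR.2.1.symm hyR.2.1.symm hpR.2.1.symm hxy hxp hyp _ hup
      intro a ha b hb hab hn
      rw [hmS] at ha hb
      rcases ha with rfl | rfl | rfl | rfl | rfl <;> rcases hb with rfl | rfl | rfl | rfl | rfl <;>
        first
        | exact (hab rfl).elim
        | exact huv
        | exact huv.symm
        | exact hx1.2.1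
        | exact hx1.2.1.symm
        | exact hx1.2.2
        | exact hx1.2.2.symm
        | exact hy1.2.1
        | exact hy1.2.1.symm
        | exact hy1.2.2
        | exact hy1.2.2.symm
        | exact hGxy
        | exact hGxy.symm
        | exact hGxp
        | exact hGxp.symm
        | exact hGyp
        | exact hGyp.symm
        | exact hvp
        | exact hvp.symm
        | exact (hn (Or.inl ⟨rfl, rfl⟩)).elim
        | exact (hn (Or.inr ⟨rfl, rfl⟩)).elim
  · -- jj = 2, bb
    intro hj2
    have hX3 : 3 ≤ #X := by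
      rw [hj] at hj2
      have : (#X : ℤ) = 3 := by linarith
      omega
    have hN := del_three G S h u v hu hv huv hX3
    have h1 := bb_ge_jj _ _ hN
    rw [hs] at h1
    push_cast at h1
    have h2 := ec_del G S u v hu hv huv
    have h3 : jj (del G u v) S = 1 := by
      unfold jj at hj2 ⊢
      rw [← h2] at hj2
      push_cast at hj2
      linarith
    rw [bb_del G S u v hu hv huv]
    linarith
  · intro hj2
    have hXR' : X = R := by
      apply Finset.eq_of_subset_of_card_le hXR
      rw [hj] at hj2
      have : (#X : ℤ) = 3 := by linarith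
      omega
    have hnb : ∀ a ∈ S, a ≠ u → a ≠ v → G.Adj u a ∧ G.Adj v a := by
      intro a ha h1 h2
      have : a ∈ X := by rw [hXR', hmR]; exact ⟨h2, h1, ha⟩
      exact ((hmX a).1 this).2
    intro a ha b hb hab
    by_cases h1 : a = u
    · subst h1
      by_cases h2 : b = v
      · subst h2; exact huv
      · exact (hnb b hb hab.symm h2).1
    · by_cases h2 : a = v
      · subst h2
        by_cases h3 : b = u
        · subst h3; exact huv.symm
        · exact (hnb b hb h3 hab.symm).2
      · by_cases h3 : b = u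
        · subst h3; exact (hnb a ha h1 h2).1.symm
        · by_cases h4 : b = v
          · subst h4; exact (hnb a ha h1 h2).2.symm
          · exact hRadj a ((hmR a).2 ⟨h2, h1, ha⟩) b ((hmR b).2 ⟨h4, h3, hb⟩) hab


end Pool.Agent.Helper391.WheelChi
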