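import Mathlib
import Pool.Agent.Helper391.Wheel.Defs
import Pool.Agent.Helper391.Wheel.W1
import Pool.Agent.Helper391.Wheel.W2
import Pool.Agent.Helper391.Wheel.W3
import Pool.Agent.Helper391.Wheel.W4
import Pool.Agent.Helper391.Wheel.W5
import Pool.Agent.Helper391.Wheel.W13
import Pool.Agent.Helper391.Wheel.W14
import Pool.Agent.Helper391.Wheel.W15
import Pool.Agent.Helper391.Wheel.W16
import Pool.Agent.Helper391.Wheel.W17
import Pool.Agent.Helper391.Wheel.W18
import Pool.Agent.Helper391.Wheel.W19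

set_option autoImplicit false

namespace Pool.Agent.Helper391.WheelChi

open Finset Polynomial
open scoped Classical

variable {V : Type} [DecidableEq V]


private theorem F6_priv (G : SimpleGraph V) (S : Finset V) (h : ThreeConn G S) (u v : V) (hu : u ∈ S)
    (huv : G.Adj u v) (ht : #(nb G S u ∩ nb G S v) ≤ 1) :
    ∃ p ∈ S, p ≠ v ∧ p ≠ u ∧ G.Adj u p ∧ ¬ G.Adj v p := by
  have h3 := three_nb G S h u hu
  have h4 : 2 ≤ #((nb G S u).erase v) := by
    have := Finset.pred_card_le_card_erase (s := nb G S u) (a := v)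
    omega
  have h5 : ¬ ((nb G S u).erase v ⊆ nb G S u ∩ nb G S v) := by
    intro hsub
    have := Finset.card_le_card hsub
    omega
  rw [Finset.not_subset] at h5
  obtain ⟨p, hp, hpn⟩ := h5
  rw [Finset.mem_erase] at hp
  have hpu : p ∈ S ∧ G.Adj u p := by
    have := hp.2
    rwa [nb, Finset.mem_filter] at this
  refine ⟨p, hpu.1, hp.1, fun he => G.loopless.irrefl u (he ▸ hpu.2), hpu.2, ?_⟩
  intro hvp
  apply hpn
  rw [Finset.mem_inter]
  refine ⟨hp.2, ?_⟩
  rw [nb, Finset.mem_filter]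
  exact ⟨hpu.1, hvp⟩

private theorem F6_strict (G : SimpleGraph V) (S : Finset V) (h : ThreeConn G S) (u v : V) (hu : u ∈ S)
    (hv : v ∈ S) (huv : G.Adj u v) (ht : #(nb G S u ∩ nb G S v) ≤ 1)
    (hcomp : ∀ a ∈ S.erase v, ∀ b ∈ S.erase v, a ≠ b → (contr G u v).Adj a b) :
    tc G S + 1 ≤ tc (contr G u v) (S.erase v) + #(nb G S u ∩ nb G S v)
      + ec G (nb G S u ∩ nb G S v) := by
  obtain ⟨p, hpS, hpv, hpu, hup, hvp⟩ := F6_priv G S h u v hu huv ht
  obtain ⟨q, hqS, hqu, hqv, hvq, huq⟩ := F6_priv G S h v u hv huv.symm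
    (by rw [Finset.inter_comm]; exact ht)
  have hpq : p ≠ q := by
    rintro rfl
    exact hvp hvq
  have hadj := hcomp p (Finset.mem_erase.2 ⟨hpv, hpS⟩) q (Finset.mem_erase.2 ⟨hqv, hqS⟩) hpq
  have hadj' : G.Adj p q := by
    rcases hadj.2 with h1 | h1 | h1
    · exact h1
    · exact absurd h1.1 hpu
    · exact absurd h1.1 hqu
  exact tc_contr' G S u v hu hv huv p q hpS hqS hpv hqu hup hvp hvq huq hadj'

theorem F6 (G : SimpleGraph V) (S : Finset V) (h : ThreeConn G S) (hs : #S = 6) :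
    (tc G S : ℤ) ≤ bb G S + 2 ∧ (jj G S ≤ 0 → (tc G S : ℤ) ≤ bb G S + 1) ∧
      (3 ≤ jj G S → 11 ≤ bb G S) ∧ -1 ≤ jj G S ∧ (jj G S = -1 → tc G S ≤ 4) ∧
      (jj G S = 0 → tc G S ≤ 7) ∧ (jj G S = 1 → tc G S ≤ 9) ∧ (jj G S = 2 → tc G S ≤ 10) := by
  obtain ⟨u, hu, v, hv, huv, hH3⟩ := exists_contractible G S h (by omega)
  have huv' : u ≠ v := G.ne_of_adj huv
  have hcardH : #(S.erase v) = 5 := by rw [Finset.card_erase_of_mem hv, hs]
  have hcardR : #((S.erase u).erase v) = 4 := by
    rw [Finset.card_erase_of_mem (Finset.mem_erase.2 ⟨huv'.symm, hv⟩),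
      Finset.card_erase_of_mem hu, hs]
  -- X ⊆ R
  have hXR : nb G S u ∩ nb G S v ⊆ (S.erase u).erase v := by
    intro x hx
    rw [Finset.mem_inter, nb, nb, Finset.mem_filter, Finset.mem_filter] at hx
    rw [Finset.mem_erase, Finset.mem_erase]
    refine ⟨?_, ?_, hx.1.1⟩
    · rintro rfl; exact G.loopless.irrefl _ hx.2.2
    · rintro rfl; exact G.loopless.irrefl _ hx.1.2
  have ht4 : #(nb G S u ∩ nb G S v) ≤ 4 := by
    rw [← hcardR]; exact Finset.card_le_card hXR
  obtain ⟨f1, f2, f3, f4, f5, f6, f7⟩ := F5 (contr G u v) (S.erase v) hH3 hcardH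
  have e1 := ec_del G S u v hu hv huv
  have e2 := ec_contr G S u v hu hv huv
  have hcc := ec_le_choose G (nb G S u ∩ nb G S v)
  have t1 := tc_contr G S u v hu hv huv
  have hNT := del_twoConn G S u v h hu hv huv
  have b0 := bb_del G S u v hu hv huv
  have b1 := bb_pos (del G u v) S hNT
  have b2 := bb_two (del G u v) S hNT (by omega)
  have b3 := bb_ge_card G S h
  have b4 := bb_ge_jj G S h
  have hjjN : jj (del G u v) S = jj G S - 1 := by
    simp only [jj, hs]; omega
  have hjjH : jj (contr G u v) (S.erase v) = jj G S + 1 - #(nb G S u ∩ nb G S v) := by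
    simp only [jj, hs, hcardH]; omega
  have hec : (ec G S : ℤ) = jj G S + 10 := by
    simp only [jj, hs]; omega
  have hj : -1 ≤ jj G S := by
    have h1 := sum_nb G S
    have h2 : ∑ a ∈ S, 3 ≤ ∑ a ∈ S, #(nb G S a) := Finset.sum_le_sum fun a ha => three_nb G S h a ha
    rw [Finset.sum_const, hs, h1] at h2
    simp only [smul_eq_mul] at h2
    omega
  rw [hs] at b3 b4
  rw [hjjN] at b2
  rw [hjjH] at f1 f2 f3 f4 f5 f6 f7
  have hsplit := ec_split G S u v hu hv huv
  have hdelt := tc_del G S u v hu hv huv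
  have hdel2 := bb_del_two G S h (by omega) u v hu hv huv
  have hdel3 : 3 ≤ #(nb G S u ∩ nb G S v) → 4 + 2 * (jj G S - 1) ≤ bb (del G u v) S ∧
      4 ≤ bb (del G u v) S := by
    intro ht
    have hN3 := del_three G S h u v hu hv huv ht
    have c1 := bb_ge_jj (del G u v) S hN3
    have c2 := bb_ge_card (del G u v) S hN3
    rw [hs, hjjN] at c1
    rw [hs] at c2
    push_cast at c1 c2
    constructor <;> linarith
  have hstrict : #(nb G S u ∩ nb G S v) ≤ 1 → jj G S + 1 - #(nb G S u ∩ nb G S v) = 2 →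
      tc G S + 1 ≤ tc (contr G u v) (S.erase v) + #(nb G S u ∩ nb G S v)
      + ec G (nb G S u ∩ nb G S v) := fun ht h2 => F6_strict G S h u v hu hv huv ht (f7 h2)
  have hsp : bb (del G u v) S = 1 → tc (del G u v) S + 2 ≤ 6 := by
    intro hb
    have := sp_tc (del G u v) S hNT (by omega) hb
    rwa [hs] at this
  have hfour : #(nb G S u ∩ nb G S v) = 4 → (ec G (nb G S u ∩ nb G S v) : ℤ) ≤ jj G S + 1 := by
    intro ht
    have hXR' : nb G S u ∩ nb G S v = (S.erase u).erase v :=
      Finset.eq_of_subset_of_card_le hXR (by rw [hcardR, ht])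
    rw [← hXR'] at hsplit
    have hu5 : 5 ≤ #(nb G S u) := by
      have hsub : insert v (nb G S u ∩ nb G S v) ⊆ nb G S u := by
        intro x hx
        rw [Finset.mem_insert] at hx
        rcases hx with rfl | hx
        · rw [nb, Finset.mem_filter]; exact ⟨hv, huv⟩
        · exact (Finset.mem_inter.1 hx).1
      have hvn : v ∉ nb G S u ∩ nb G S v := by
        intro hx
        have := (Finset.mem_inter.1 hx).2
        rw [nb, Finset.mem_filter] at this
        exact G.loopless.irrefl _ this.2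
      have := Finset.card_le_card hsub
      rw [Finset.card_insert_of_notMem hvn, ht] at this
      exact this
    have hv5 : 5 ≤ #(nb G S v) := by
      have hsub : insert u (nb G S u ∩ nb G S v) ⊆ nb G S v := by
        intro x hx
        rw [Finset.mem_insert] at hx
        rcases hx with rfl | hx
        · rw [nb, Finset.mem_filter]; exact ⟨hu, huv.symm⟩
        · exact (Finset.mem_inter.1 hx).2
      have hvn : u ∉ nb G S u ∩ nb G S v := by
        intro hx
        have := (Finset.mem_inter.1 hx).1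
        rw [nb, Finset.mem_filter] at this
        exact G.loopless.irrefl _ this.2
      have := Finset.card_le_card hsub
      rw [Finset.card_insert_of_notMem hvn, ht] at this
      exact this
    omega
  clear e1 e2 hH3 hXR hNT hcardH hcardR hsplit f7
  generalize #(nb G S u ∩ nb G S v) = t at *
  generalize ec G (nb G S u ∩ nb G S v) = c at *
  generalize tc (contr G u v) (S.erase v) = tH at *
  generalize tc (del G u v) S = tN at *
  generalize bb (del G u v) S = bN at *
  generalize bb (contr G u v) (S.erase v) = bH at *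
  generalize tc G S = tG at *
  generalize bb G S = bG at *
  generalize jj G S = j at *
  have ht : t = 0 ∨ t = 1 ∨ t = 2 ∨ t = 3 ∨ t = 4 := by omega
  rcases ht with rfl | rfl | rfl | rfl | rfl
  · norm_num at hcc
    norm_num at b4 b3 hstrict
    refine ⟨?_, ?_, ?_, ?_, ?_, ?_, ?_, ?_⟩ <;> omega
  · norm_num at hcc
    norm_num at b4 b3 hstrict
    refine ⟨?_, ?_, ?_, ?_, ?_, ?_, ?_, ?_⟩ <;> omega
  · norm_num at hcc
    norm_num at b4 b3 hdel2
    refine ⟨?_, ?_, ?_, ?_, ?_, ?_, ?_, ?_⟩ <;> omega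
  · have hcc' : c ≤ 3 := hcc
    norm_num at b4 b3 hdel3
    refine ⟨?_, ?_, ?_, ?_, ?_, ?_, ?_, ?_⟩ <;> omega
  · norm_num at b4 b3 hdel3 hfour
    refine ⟨?_, ?_, ?_, ?_, ?_, ?_, ?_, ?_⟩ <;> omega


end Pool.Agent.Helper391.WheelChi
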