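import Mathlib
import Pool.Agent.Helper391.Wheel.Defs
import Pool.Agent.Helper391.Wheel.W1
import Pool.Agent.Helper391.Wheel.W2
import Pool.Agent.Helper391.Wheel.W3
import Pool.Agent.Helper391.Wheel.W4
import Pool.Agent.Helper391.Wheel.W5
import Pool.Agent.Helper391.Wheel.W13
import Pool.Agent.Helper391.Wheel.W14
import Pool.Agent.Helper391.Wheel.W15
import Pool.Agent.Helper391.Wheel.W16
import Pool.Agent.Helper391.Wheel.W17
import Pool.Agent.Helper391.Wheel.W18
import Pool.Agent.Helper391.Wheel.W20

set_option autoImplicit false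

namespace Pool.Agent.Helper391.WheelChi

open Finset Polynomial
open scoped Classical

variable {V : Type} [DecidableEq V]


private theorem mem_nb (G : SimpleGraph V) (S : Finset V) (a x : V) :
    x ∈ nb G S a ↔ x ∈ S ∧ G.Adj a x := by
  unfold nb
  rw [Finset.mem_filter]

private theorem X_sub_R (G : SimpleGraph V) (S : Finset V) (u v : V) :
    nb G S u ∩ nb G S v ⊆ (S.erase u).erase v := by
  intro x hx
  rw [Finset.mem_inter, mem_nb, mem_nb] at hx
  rw [Finset.mem_erase, Finset.mem_erase]
  exact ⟨hx.2.2.ne', hx.1.2.ne', hx.1.1⟩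

private theorem card_R (S : Finset V) (u v : V) (hu : u ∈ S) (hv : v ∈ S) (huv : u ≠ v) :
    #((S.erase u).erase v) + 2 = #S := by
  have h1 : v ∈ S.erase u := Finset.mem_erase.mpr ⟨huv.symm, hv⟩
  have h2 := Finset.card_erase_add_one h1
  have h3 := Finset.card_erase_add_one hu
  omega

private theorem nb_split (G : SimpleGraph V) (S : Finset V) (u v : V) (hv : v ∈ S)
    (huv : G.Adj u v) :
    #(nb G S u) = #(nb G ((S.erase u).erase v) u) + 1 := by
  have h1 : nb G S u = insert v (nb G ((S.erase u).erase v) u) := by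
    ext x
    rw [Finset.mem_insert, mem_nb, mem_nb, Finset.mem_erase, Finset.mem_erase]
    constructor
    · rintro ⟨hx, hux⟩
      by_cases hxv : x = v
      · left; exact hxv
      · right; exact ⟨⟨hxv, hux.ne', hx⟩, hux⟩
    · rintro (h | h)
      · subst h; exact ⟨hv, huv⟩
      · exact ⟨h.1.2.2, h.2⟩
  have h2 : v ∉ nb G ((S.erase u).erase v) u := by
    rw [mem_nb, Finset.mem_erase]
    rintro ⟨⟨h, _⟩, _⟩
    exact h rfl
  rw [h1, Finset.card_insert_of_notMem h2]

private theorem erase_swap (S : Finset V) (u v : V) : (S.erase u).erase v = (S.erase v).erase u := by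
  ext x
  simp only [Finset.mem_erase]
  tauto

/-- the edge count of `G[S]` in terms of the rest -/
private theorem ec_formula (G : SimpleGraph V) (S : Finset V) (u v : V) (hu : u ∈ S) (hv : v ∈ S)
    (huv : G.Adj u v) :
    ec G S = 1 + #(nb G S u ∩ nb G S v) +
      #(nb G ((S.erase u).erase v) u ∪ nb G ((S.erase u).erase v) v) +
      ec G ((S.erase u).erase v) := by
  have h1 := ec_split G S u v hu hv huv
  have h2 := nb_split G S u v hv huv
  have h3 := nb_split G S v u hu huv.symm
  rw [← erase_swap S u v] at h3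
  have h4 := Finset.card_union_add_card_inter (nb G ((S.erase u).erase v) u)
    (nb G ((S.erase u).erase v) v)
  have h5 : nb G ((S.erase u).erase v) u ∩ nb G ((S.erase u).erase v) v =
      nb G S u ∩ nb G S v := by
    ext x
    simp only [Finset.mem_inter, mem_nb, Finset.mem_erase]
    constructor
    · rintro ⟨⟨⟨_, _, hx⟩, h⟩, ⟨_, h'⟩⟩
      exact ⟨⟨hx, h⟩, hx, h'⟩
    · rintro ⟨⟨hx, h⟩, _, h'⟩
      exact ⟨⟨⟨h'.ne', h.ne', hx⟩, h⟩, ⟨h'.ne', h.ne', hx⟩, h'⟩
  rw [h5] at h4
  omega

private theorem ec_R_ge (G : SimpleGraph V) (R : Finset V) (h : TwoConn G R) (h3 : 3 ≤ #R) :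
    #R ≤ ec G R := by
  have h1 := sum_nb G R
  have h2 : ∑ a ∈ R, 2 ≤ ∑ a ∈ R, #(nb G R a) :=
    Finset.sum_le_sum (fun a ha => two_nb G R h h3 a ha)
  rw [Finset.sum_const, smul_eq_mul] at h2
  omega

private theorem ec_small (G : SimpleGraph V) (X : Finset V) (h : #X ≤ 1) : ec G X = 0 := by
  have h1 := ec_le_choose G X
  have h2 : (#X).choose 2 = 0 := Nat.choose_eq_zero_of_lt (by omega)
  omega

/-- basic package for a contractible edge -/
private structure Pack (G : SimpleGraph V) (S : Finset V) (u v : V) : Prop where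
  hu : u ∈ S
  hv : v ∈ S
  huv : G.Adj u v
  h3 : ThreeConn G S
  hH : ThreeConn (contr G u v) (S.erase v)

/-- case `t = s - 3` -/
private theorem case_s3 (G : SimpleGraph V) (S : Finset V) (u v : V) (P : Pack G S u v) (h7 : 7 ≤ #S)
    (ht : #(nb G S u ∩ nb G S v) + 3 = #S) :
    (ec G (nb G S u ∩ nb G S v) : ℤ) ≤ jj G S ∧ (#S : ℤ) - 5 ≤ jj G S := by
  obtain ⟨hu, hv, huv, h3, hH⟩ := P
  have hR := card_R S u v hu hv huv.ne
  have hsub := X_sub_R G S u v
  have hRtwo := contr_rest G S u v hu hv huv hH
  have hecR := ec_R_ge G _ hRtwo (by omega)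
  have hform := ec_formula G S u v hu hv huv
  set X := nb G S u ∩ nb G S v with hX
  set R := (S.erase u).erase v with hRdef
  -- the extra vertex
  obtain ⟨y, hyR, hyX⟩ : ∃ y ∈ R, y ∉ X := by
    by_contra hcon
    push Not at hcon
    have := Finset.card_le_card (show R ⊆ X from hcon)
    omega
  have hRins : R = insert y X := by
    symm
    apply Finset.eq_of_subset_of_card_le
    · intro x hx
      rcases Finset.mem_insert.mp hx with h | h
      · subst h; exact hyR
      · exact hsub h
    · rw [Finset.card_insert_of_notMem hyX]; omega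
  have hecR2 : ec G R = ec G X + #(nb G X y) := by
    rw [hRins]; exact ec_insert G X y hyX
  have hyS : y ∈ S := by
    rw [hRdef, Finset.mem_erase, Finset.mem_erase] at hyR
    exact hyR.2.2
  have hyu : y ≠ u := by
    rw [hRdef, Finset.mem_erase, Finset.mem_erase] at hyR
    exact hyR.2.1
  have hyv : y ≠ v := by
    rw [hRdef, Finset.mem_erase, Finset.mem_erase] at hyR
    exact hyR.1
  have hdeg := three_nb G S h3 y hyS
  have hXun : X ⊆ nb G R u ∪ nb G R v := by
    intro x hx
    apply Finset.mem_union_left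
    rw [mem_nb]
    refine ⟨hsub hx, ?_⟩
    rw [hX, Finset.mem_inter, mem_nb] at hx
    exact hx.1.2
  have hSsub : ∀ x ∈ S, x = u ∨ x = v ∨ x ∈ R := by
    intro x hx
    by_cases h1 : x = u
    · left; exact h1
    · by_cases h2 : x = v
      · right; left; exact h2
      · right; right
        rw [hRdef, Finset.mem_erase, Finset.mem_erase]
        exact ⟨h2, h1, hx⟩
  have hnbRy : ∀ x ∈ R, G.Adj y x → x ∈ nb G X y := by
    intro x hx hyx
    rw [mem_nb]
    refine ⟨?_, hyx⟩
    rw [hRins, Finset.mem_insert] at hx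
    rcases hx with h | h
    · subst h; exact absurd hyx (G.loopless.irrefl _)
    · exact h
  -- `#(A ∪ B) + d ≥ s`
  have hkey : #S ≤ #(nb G R u ∪ nb G R v) + #(nb G X y) := by
    by_cases hk : y ∈ nb G R u ∪ nb G R v
    · have h1 : #R ≤ #(nb G R u ∪ nb G R v) := by
        apply Finset.card_le_card
        rw [hRins]
        intro x hx
        rcases Finset.mem_insert.mp hx with h | h
        · subst h; rw [← hRins]; exact hk
        · rw [← hRins]; exact hXun h
      have h2 : #(nb G S y) ≤ #(nb G X y) + 1 := by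
        have hnot : ¬ (G.Adj y u ∧ G.Adj y v) := by
          rintro ⟨h1, h2⟩
          apply hyX
          rw [hX, Finset.mem_inter, mem_nb, mem_nb]
          exact ⟨⟨hyS, h1.symm⟩, hyS, h2.symm⟩
        by_cases hyuA : G.Adj y u
        · have hsub2 : nb G S y ⊆ insert u (nb G X y) := by
            intro x hx
            rw [mem_nb] at hx
            rcases hSsub x hx.1 with h | h | h
            · rw [h]; exact Finset.mem_insert_self _ _
            · subst h; exact absurd ⟨hyuA, hx.2⟩ hnot
            · exact Finset.mem_insert_of_mem (hnbRy x h hx.2)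
          exact (Finset.card_le_card hsub2).trans (Finset.card_insert_le _ _)
        · have hsub2 : nb G S y ⊆ insert v (nb G X y) := by
            intro x hx
            rw [mem_nb] at hx
            rcases hSsub x hx.1 with h | h | h
            · subst h; exact absurd hx.2 hyuA
            · rw [h]; exact Finset.mem_insert_self _ _
            · exact Finset.mem_insert_of_mem (hnbRy x h hx.2)
          exact (Finset.card_le_card hsub2).trans (Finset.card_insert_le _ _)
      omega
    · have h1 := Finset.card_le_card hXun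
      have h2 : #(nb G S y) ≤ #(nb G X y) := by
        apply Finset.card_le_card
        intro x hx
        rw [mem_nb] at hx
        rcases hSsub x hx.1 with h | h | h
        · exfalso; apply hk; apply Finset.mem_union_left
          rw [mem_nb]; subst h; exact ⟨hyR, hx.2.symm⟩
        · exfalso; apply hk; apply Finset.mem_union_right
          rw [mem_nb]; subst h; exact ⟨hyR, hx.2.symm⟩
        · exact hnbRy x h hx.2
      omega
  have hXun' := Finset.card_le_card hXun
  unfold jj
  constructor <;> omega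

/-- case `t = s - 2` -/
private theorem case_s2 (G : SimpleGraph V) (S : Finset V) (u v : V) (P : Pack G S u v) (h7 : 7 ≤ #S)
    (ht : #(nb G S u ∩ nb G S v) + 2 = #S) :
    jj G S = (ec G (nb G S u ∩ nb G S v) : ℤ) - 1 ∧
      (#S : ℤ) - 2 ≤ ec G (nb G S u ∩ nb G S v) := by
  obtain ⟨hu, hv, huv, h3, hH⟩ := P
  have hR := card_R S u v hu hv huv.ne
  have hsub := X_sub_R G S u v
  have hRtwo := contr_rest G S u v hu hv huv hH
  have hecR := ec_R_ge G _ hRtwo (by omega)
  have hform := ec_formula G S u v hu hv huv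
  have hXR : nb G S u ∩ nb G S v = (S.erase u).erase v :=
    Finset.eq_of_subset_of_card_le hsub (by omega)
  have hun : nb G ((S.erase u).erase v) u ∪ nb G ((S.erase u).erase v) v =
      (S.erase u).erase v := by
    apply Finset.Subset.antisymm
    · intro x hx
      rcases Finset.mem_union.mp hx with h | h
      · exact ((mem_nb _ _ _ _).mp h).1
      · exact ((mem_nb _ _ _ _).mp h).1
    · intro x hx
      apply Finset.mem_union_left
      rw [mem_nb]
      refine ⟨hx, ?_⟩
      rw [← hXR, Finset.mem_inter, mem_nb] at hx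
      exact hx.1.2
  rw [hun] at hform
  rw [hXR] at hform ht ⊢
  unfold jj
  constructor <;> omega

/-- all the numerical facts for a contractible edge -/
private theorem facts (G : SimpleGraph V) (S : Finset V) (u v : V) (P : Pack G S u v) (h7 : 7 ≤ #S) :
    bb G S = bb (del G u v) S + bb (contr G u v) (S.erase v) ∧
    (tc G S : ℤ) ≤ tc (contr G u v) (S.erase v) + #(nb G S u ∩ nb G S v)
      + ec G (nb G S u ∩ nb G S v) ∧
    (tc (del G u v) S : ℤ) + #(nb G S u ∩ nb G S v) = tc G S ∧
    jj (del G u v) S = jj G S - 1 ∧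
    jj (contr G u v) (S.erase v) = jj G S + 1 - #(nb G S u ∩ nb G S v) ∧
    1 ≤ bb (del G u v) S ∧
    jj G S + 1 ≤ bb (del G u v) S ∧
    (#S : ℤ) - 2 ≤ bb G S ∧
    (#S : ℤ) - 3 ≤ bb (contr G u v) (S.erase v) ∧
    #(nb G S u ∩ nb G S v) + 2 ≤ #S ∧
    (#(S.erase v)) + 1 = #S := by
  obtain ⟨hu, hv, huv, h3, hH⟩ := P
  have h1 := bb_del G S u v hu hv huv
  have h2 := tc_contr G S u v hu hv huv
  have h3' := tc_del G S u v hu hv huv
  have h4 := ec_del G S u v hu hv huv
  have h5 := ec_contr G S u v hu hv huv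
  have h6 := del_twoConn G S u v h3 hu hv huv
  have h8 := bb_pos _ _ h6
  have h9 := bb_two _ _ h6 (by omega)
  have h10 := bb_ge_card G S h3
  have h11 := bb_ge_card _ _ hH
  have h12 := Finset.card_le_card (X_sub_R G S u v)
  have h13 := card_R S u v hu hv huv.ne
  have h14 := Finset.card_erase_add_one hv
  unfold jj at *
  refine ⟨h1, ?_, ?_, ?_, ?_, h8, ?_, h10, ?_, ?_, h14⟩ <;> omega

/-- the main step -/
private theorem step (G : SimpleGraph V) (S : Finset V) (u v : V) (P : Pack G S u v) (h7 : 7 ≤ #S)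
    (hN : ThreeConn (del G u v) S → (tc (del G u v) S : ℤ) ≤ bb (del G u v) S + 1) :
    (tc G S : ℤ) - bb G S + 1 ≤ tc (contr G u v) (S.erase v) - bb (contr G u v) (S.erase v) ∨
    (jj G S ≤ 0 ∧ (tc G S : ℤ) ≤ bb G S + 1) ∨
    (tc G S : ℤ) ≤ bb G S := by
  have hP := P
  obtain ⟨hu, hv, huv, h3, hH⟩ := P
  obtain ⟨f1, f2, f3, f4, f5, f6, f7, f8, f9, f10, f11⟩ := facts G S u v hP h7
  rcases Nat.lt_or_ge (#(nb G S u ∩ nb G S v)) 2 with ht | ht
  · have hc := ec_small G (nb G S u ∩ nb G S v) (by omega)
    rcases Nat.lt_or_ge (#(nb G S u ∩ nb G S v)) 1 with ht' | ht'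
    · left; omega
    · by_cases hb : bb (del G u v) S = 1
      · have h6 := del_twoConn G S u v h3 hu hv huv
        have := sp_tc _ _ h6 (by omega) hb
        right; left
        constructor <;> omega
      · left; omega
  · rcases Nat.lt_or_ge (#(nb G S u ∩ nb G S v)) 3 with ht3 | ht3
    · have ht2 : #(nb G S u ∩ nb G S v) = 2 := by omega
      have hc := ec_le_choose G (nb G S u ∩ nb G S v)
      rw [ht2] at hc
      have hc' : ec G (nb G S u ∩ nb G S v) ≤ 1 := hc
      have h2 := bb_del_two G S h3 (by omega) u v hu hv huv ht2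
      left; omega
    · have hNt := del_three G S h3 u v hu hv huv ht3
      rcases Nat.lt_or_ge (#(nb G S u ∩ nb G S v) + 3) (#S) with h4 | h4
      · have := hN hNt
        right; right; omega
      · have hbN := bb_ge_jj _ _ hNt
        rw [f4] at hbN
        have hs7 : (7 : ℤ) ≤ #S := by exact_mod_cast h7
        rcases Nat.lt_or_ge (#(nb G S u ∩ nb G S v) + 2) (#S) with h5 | h5
        · have ht' : #(nb G S u ∩ nb G S v) + 3 = #S := by omega
          obtain ⟨g1, g2⟩ := case_s3 G S u v hP h7 ht'
          have ht'' : (#(nb G S u ∩ nb G S v) : ℤ) = #S - 3 := by omega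
          left
          have hj : (2 : ℤ) ≤ jj G S := by linarith
          have hprod : 0 ≤ ((#S : ℤ) - 7) * (jj G S - 1) :=
            mul_nonneg (by linarith) (by linarith)
          nlinarith
        · have ht' : #(nb G S u ∩ nb G S v) + 2 = #S := by omega
          obtain ⟨g1, g2⟩ := case_s2 G S u v hP h7 ht'
          have ht'' : (#(nb G S u ∩ nb G S v) : ℤ) = #S - 2 := by omega
          left
          rw [g1] at hbN
          have hprod : 0 ≤ ((#S : ℤ) - 5) * ((ec G (nb G S u ∩ nb G S v) : ℤ) - (#S - 2)) :=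
            mul_nonneg (by linarith) (by linarith)
          have hprod2 : 0 ≤ ((#S : ℤ) - 7) * ((#S : ℤ) - 2) :=
            mul_nonneg (by linarith) (by linarith)
          nlinarith

private theorem F8a (n : ℕ) : ∀ (G : SimpleGraph V) (S : Finset V), ThreeConn G S → #S = n + 7 →
    (tc G S : ℤ) ≤ bb G S + 1 := by
  induction n with
  | zero =>
    suffices h : ∀ (k : ℕ) (G : SimpleGraph V) (S : Finset V), ThreeConn G S → #S = 0 + 7 →
        ec G S = k → (tc G S : ℤ) ≤ bb G S + 1 from fun G S h3 hs => h (ec G S) G S h3 hs rfl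
    intro k
    induction k with
    | zero =>
      intro G S h3 hs hk
      obtain ⟨u, hu, v, hv, huv, hH⟩ := exists_contractible G S h3 (by omega)
      have := ec_del G S u v hu hv huv
      omega
    | succ k ih =>
      intro G S h3 hs hk
      obtain ⟨u, hu, v, hv, huv, hH⟩ := exists_contractible G S h3 (by omega)
      have hP : Pack G S u v := ⟨hu, hv, huv, h3, hH⟩
      have h11 := Finset.card_erase_add_one hv
      have hed := ec_del G S u v hu hv huv
      have h6 := (F6 _ _ hH (by omega)).1
      rcases step G S u v hP (by omega) (fun hNt => ih _ _ hNt hs (by omega)) with h | h | h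
      · linarith
      · exact h.2
      · linarith
  | succ n ihn =>
    suffices h : ∀ (k : ℕ) (G : SimpleGraph V) (S : Finset V), ThreeConn G S →
        #S = (n + 1) + 7 → ec G S = k → (tc G S : ℤ) ≤ bb G S + 1 from
      fun G S h3 hs => h (ec G S) G S h3 hs rfl
    intro k
    induction k with
    | zero =>
      intro G S h3 hs hk
      obtain ⟨u, hu, v, hv, huv, hH⟩ := exists_contractible G S h3 (by omega)
      have := ec_del G S u v hu hv huv
      omega
    | succ k ih =>
      intro G S h3 hs hk
      obtain ⟨u, hu, v, hv, huv, hH⟩ := exists_contractible G S h3 (by omega)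
      have hP : Pack G S u v := ⟨hu, hv, huv, h3, hH⟩
      have h11 := Finset.card_erase_add_one hv
      have hed := ec_del G S u v hu hv huv
      have h6 := ihn _ _ hH (by omega)
      rcases step G S u v hP (by omega) (fun hNt => ih _ _ hNt hs (by omega)) with h | h | h
      · linarith
      · exact h.2
      · linarith

theorem F8 (G : SimpleGraph V) (S : Finset V) (h : ThreeConn G S) (hs : 7 ≤ #S) :
    (tc G S : ℤ) ≤ bb G S + 1 ∧ (8 ≤ #S → 1 ≤ jj G S → (tc G S : ℤ) ≤ bb G S) := by
  refine ⟨F8a (#S - 7) G S h (by omega), ?_⟩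
  intro h8 hj
  obtain ⟨u, hu, v, hv, huv, hH⟩ := exists_contractible G S h (by omega)
  have hP : Pack G S u v := ⟨hu, hv, huv, h, hH⟩
  have h11 := Finset.card_erase_add_one hv
  have h6 := F8a (#(S.erase v) - 7) _ _ hH (by omega)
  rcases step G S u v hP (by omega) (fun hNt => F8a (#S - 7) _ _ hNt (by omega)) with h | h | h
  · linarith
  · linarith [h.1]
  · exact h

theorem F7 (G : SimpleGraph V) (S : Finset V) (h : ThreeConn G S) (hs : #S = 7) :
    (tc G S : ℤ) ≤ bb G S + 1 ∧ (2 ≤ jj G S → (tc G S : ℤ) ≤ bb G S) ∧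
      (jj G S = 1 → tc G S ≤ 10) := by
  refine ⟨F8a 0 G S h (by omega), ?_, ?_⟩
  · intro hj
    obtain ⟨u, hu, v, hv, huv, hH⟩ := exists_contractible G S h (by omega)
    have hP : Pack G S u v := ⟨hu, hv, huv, h, hH⟩
    obtain ⟨f1, f2, f3, f4, f5, f6, f7, f8, f9, f10, f11⟩ := facts G S u v hP (by omega)
    have h6 := (F6 _ _ hH (by omega)).1
    have hsz : (#S : ℤ) = 7 := by exact_mod_cast hs
    have hc := ec_le_choose G (nb G S u ∩ nb G S v)
    rcases Nat.lt_or_ge (#(nb G S u ∩ nb G S v)) 2 with ht | ht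
    · have hc := ec_small G (nb G S u ∩ nb G S v) (by omega)
      omega
    · rcases Nat.lt_or_ge (#(nb G S u ∩ nb G S v)) 3 with ht3 | ht3
      · have ht2 : #(nb G S u ∩ nb G S v) = 2 := by omega
        rw [ht2] at hc
        have hc' : ec G (nb G S u ∩ nb G S v) ≤ 1 := hc
        have h2 := bb_del_two G S h (by omega) u v hu hv huv ht2
        omega
      · have hNt := del_three G S h u v hu hv huv ht3
        rcases Nat.lt_or_ge (#(nb G S u ∩ nb G S v)) 4 with h4 | h4
        · have := F8a 0 _ _ hNt (by omega)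
          omega
        · have hbN := bb_ge_jj _ _ hNt
          rw [f4, hsz] at hbN
          rcases Nat.lt_or_ge (#(nb G S u ∩ nb G S v)) 5 with h5 | h5
          · obtain ⟨g1, g2⟩ := case_s3 G S u v hP (by omega) (by omega)
            omega
          · obtain ⟨g1, g2⟩ := case_s2 G S u v hP (by omega) (by omega)
            omega
  · intro hj
    obtain ⟨u, hu, v, hv, huv, hH⟩ := exists_contractible G S h (by omega)
    have hP : Pack G S u v := ⟨hu, hv, huv, h, hH⟩
    obtain ⟨f1, f2, f3, f4, f5, f6, f7, f8, f9, f10, f11⟩ := facts G S u v hP (by omega)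
    obtain ⟨_, _, _, k1, k2, k3, k4, k5⟩ := F6 _ _ hH (by omega)
    have hc := ec_le_choose G (nb G S u ∩ nb G S v)
    have hcases : #(nb G S u ∩ nb G S v) = 0 ∨ #(nb G S u ∩ nb G S v) = 1 ∨
        #(nb G S u ∩ nb G S v) = 2 ∨ #(nb G S u ∩ nb G S v) = 3 ∨
        4 ≤ #(nb G S u ∩ nb G S v) := by omega
    rcases hcases with ht | ht | ht | ht | ht
    · rw [ht] at hc
      have hc' : ec G (nb G S u ∩ nb G S v) ≤ 0 := hc
      have := k5 (by omega)
      omega
    · rw [ht] at hc
      have hc' : ec G (nb G S u ∩ nb G S v) ≤ 0 := hc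
      have := k4 (by omega)
      omega
    · rw [ht] at hc
      have hc' : ec G (nb G S u ∩ nb G S v) ≤ 1 := hc
      have := k3 (by omega)
      omega
    · rw [ht] at hc
      have hc' : ec G (nb G S u ∩ nb G S v) ≤ 3 := hc
      have := k2 (by omega)
      omega
    · exfalso
      omega


end Pool.Agent.Helper391.WheelChi
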