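import Mathlib
import Pool.Agent.Helper391.Wheel.Defs

set_option autoImplicit false

namespace Pool.Agent.Helper391.WheelChi

open Finset Polynomial
open scoped Classical

variable {V : Type} [DecidableEq V]


private theorem gg_big (b : ℤ) (h : 9 ≤ b) : gg b = b + 2 := by
  unfold gg
  rw [if_neg (by omega), if_neg (by omega), if_neg (by omega), if_neg (by omega),
    if_neg (by omega), if_neg (by omega), if_neg (by omega)]

private theorem gg_le (b : ℤ) (h : 1 ≤ b) : gg b ≤ b + 4 := by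
  unfold gg
  split_ifs <;> omega

private theorem gg_one : gg 1 = 0 := by
  unfold gg
  rw [if_pos (by omega)]

private theorem gg_small (a b : ℤ) (ha : 1 ≤ a) (hb : 1 ≤ b) (ha8 : a ≤ 8) (hb8 : b ≤ 8) :
    gg a + gg b ≤ gg (a * b) := by
  interval_cases a <;> interval_cases b <;> decide

private theorem gg_small' (a b : ℤ) (ha : 2 ≤ a) (hb : 2 ≤ b) (ha8 : a ≤ 8) (hb8 : b ≤ 8)
    (h : 10 ≤ a * b) : gg a + gg b ≤ a * b := by
  interval_cases a <;> interval_cases b <;> revert h <;> decide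

private theorem gg_mul_aux (a b : ℤ) (ha : 9 ≤ a) (hb : 1 ≤ b) : gg a + gg b ≤ gg (a * b) := by
  rcases eq_or_lt_of_le hb with h | h
  · rw [← h, gg_one, mul_one, add_zero]
  · have h1 : 9 ≤ a * b := by nlinarith
    rw [gg_big a ha, gg_big _ h1]
    have h2 := gg_le b hb
    nlinarith

theorem gg_mul (a b : ℤ) (ha : 1 ≤ a) (hb : 1 ≤ b) : gg a + gg b ≤ gg (a * b) := by
  by_cases h1 : a ≤ 8
  · by_cases h2 : b ≤ 8
    · exact gg_small a b ha hb h1 h2
    · rw [add_comm, mul_comm]
      exact gg_mul_aux b a (by omega) ha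
  · exact gg_mul_aux a b (by omega) hb

private theorem gg_ten_aux (a b : ℤ) (ha : 9 ≤ a) (hb : 2 ≤ b) : gg a + gg b ≤ a * b := by
  rw [gg_big a ha]
  have h2 := gg_le b (by omega)
  nlinarith

theorem gg_ten (a b : ℤ) (ha : 2 ≤ a) (hb : 2 ≤ b) (h : 10 ≤ a * b) : gg a + gg b ≤ a * b := by
  by_cases h1 : a ≤ 8
  · by_cases h2 : b ≤ 8
    · exact gg_small' a b ha hb h1 h2 h
    · rw [add_comm, mul_comm]
      exact gg_ten_aux b a (by omega) ha
  · exact gg_ten_aux a b (by omega) hb


end Pool.Agent.Helper391.WheelChi
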