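import Mathlib
import Pool.Agent.Helper391.Wheel.Defs

set_option autoImplicit false

namespace Pool.Agent.Helper391.WheelChi

open Finset Polynomial
open scoped Classical

variable {V : Type} [DecidableEq V]


/-! ### auxiliary lemmas -/

private theorem TwoSep.swap {G : SimpleGraph V} {S : Finset V} {x y : V} {A B : Finset V}
    (h : TwoSep G S x y A B) : TwoSep G S x y B A where
  hS := by rw [union_comm]; exact h.hS
  hxy := h.hxy
  xA := h.xB
  xB := h.xA
  yA := h.yB
  yB := h.yA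
  dis := h.dis.symm
  neA := h.neB
  neB := h.neA
  noE := fun a ha b hb hab => h.noE b hb a ha hab.symm

private theorem addE_of_adj {G : SimpleGraph V} {x y a b : V} (h : G.Adj a b) : (addE G x y).Adj a b :=
  ⟨h.ne, Or.inl h⟩

private theorem TwoSep.mem_cases {G : SimpleGraph V} {S : Finset V} {x y : V} {A B : Finset V}
    (h : TwoSep G S x y A B) {v : V} (hv : v ∈ S) : v ∈ insert x (insert y A) ∨ v ∈ B := by
  rw [h.hS] at hv
  simp only [mem_insert, mem_union] at hv ⊢
  tauto

private theorem TwoSep.notMem_B {G : SimpleGraph V} {S : Finset V} {x y : V} {A B : Finset V}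
    (h : TwoSep G S x y A B) {v : V} (hv : v ∈ insert x (insert y A)) : v ∉ B := by
  simp only [mem_insert] at hv
  rcases hv with rfl | rfl | hv
  · exact h.xB
  · exact h.yB
  · exact disjoint_left.1 h.dis hv

private theorem TwoSep.thick {G : SimpleGraph V} {S : Finset V} {x y : V} {A B : Finset V}
    (h : TwoSep G S x y A B) {T : Finset V} (hT3 : #T = 3)
    (hT1 : T ⊆ insert x (insert y A)) (hth : Thick G S T) :
    Thick (addE G x y) (insert x (insert y A)) T := by
  obtain ⟨K, hKS, hKne, hKc, hKa⟩ := hth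
  set S1 := insert x (insert y A) with hS1
  have hKmem : ∀ k ∈ K, k ∈ S ∧ k ∉ T := fun k hk => mem_sdiff.1 (hKS hk)
  -- a vertex of S1 adjacent to a vertex of B is x or y
  have hxy : ∀ a ∈ S1, ∀ b ∈ B, G.Adj a b → a = x ∨ a = y := by
    intro a ha b hb hab
    rw [hS1] at ha
    simp only [mem_insert] at ha
    rcases ha with ha | ha | ha
    · exact Or.inl ha
    · exact Or.inr ha
    · exact absurd hab (h.noE a ha b hb)
  have hK'ne : (K ∩ S1).Nonempty := by
    by_contra hne
    rw [not_nonempty_iff_eq_empty] at hne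
    have hKB : ∀ k ∈ K, k ∈ B := by
      intro k hk
      rcases h.mem_cases (hKmem k hk).1 with h1 | h1
      · have : k ∈ K ∩ S1 := mem_inter.2 ⟨hk, h1⟩
        rw [hne] at this
        exact absurd this (notMem_empty _)
      · exact h1
    have hsub : T ⊆ {x, y} := by
      intro a ha
      obtain ⟨k, hk, hak⟩ := hKa a ha
      rw [mem_insert, mem_singleton]
      exact hxy a (hT1 ha) k (hKB k hk) hak
    have h1 := card_le_card hsub
    have h2 : #({x, y} : Finset V) ≤ 2 := card_le_two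
    omega
  refine ⟨K ∩ S1, ?_, hK'ne, ?_, ?_⟩
  · intro k hk
    rw [mem_inter] at hk
    exact mem_sdiff.2 ⟨hk.2, (hKmem k hk.1).2⟩
  · intro P hP hPne hRne
    by_cases c1 : x ∈ P ∧ y ∈ (K ∩ S1) \ P
    · exact ⟨x, c1.1, y, c1.2, h.hxy, Or.inr (Or.inl ⟨rfl, rfl⟩)⟩
    by_cases c2 : y ∈ P ∧ x ∈ (K ∩ S1) \ P
    · exact ⟨y, c2.1, x, c2.2, h.hxy.symm, Or.inr (Or.inr ⟨rfl, rfl⟩)⟩
    -- a general step
    have step : ∀ Q ⊆ K ∩ S1, x ∉ Q → y ∉ Q → Q.Nonempty → ((K ∩ S1) \ Q).Nonempty →
        ∃ b ∈ Q, ∃ c ∈ (K ∩ S1) \ Q, G.Adj b c := by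
      intro Q hQ hxQ hyQ hQne hQ'
      have hQA : ∀ b ∈ Q, b ∈ A := by
        intro b hb
        have h1 := (mem_inter.1 (hQ hb)).2
        rw [hS1] at h1
        simp only [mem_insert] at h1
        rcases h1 with h1 | h1 | h1
        · exact absurd (h1 ▸ hb) hxQ
        · exact absurd (h1 ▸ hb) hyQ
        · exact h1
      have hQK : Q ⊆ K := fun b hb => (mem_inter.1 (hQ hb)).1
      have hKQ : (K \ Q).Nonempty := by
        obtain ⟨c, hc⟩ := hQ'
        rw [mem_sdiff, mem_inter] at hc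
        exact ⟨c, mem_sdiff.2 ⟨hc.1.1, hc.2⟩⟩
      obtain ⟨b, hb, c, hc, hbc⟩ := hKc Q hQK hQne hKQ
      rw [mem_sdiff] at hc
      refine ⟨b, hb, c, ?_, hbc⟩
      have hcB : c ∉ B := fun hcB => h.noE b (hQA b hb) c hcB hbc
      rcases h.mem_cases (hKmem c hc.1).1 with h1 | h1
      · exact mem_sdiff.2 ⟨mem_inter.2 ⟨hc.1, h1⟩, hc.2⟩
      · exact absurd h1 hcB
    by_cases hP2 : x ∉ P ∧ y ∉ P
    · obtain ⟨b, hb, c, hc, hbc⟩ := step P hP hP2.1 hP2.2 hPne hRne
      exact ⟨b, hb, c, hc, addE_of_adj hbc⟩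
    · have hxR : x ∉ (K ∩ S1) \ P := by
        intro hx
        have hxP : x ∉ P := (mem_sdiff.1 hx).2
        have hyP : y ∈ P := by
          by_contra hyP
          exact hP2 ⟨hxP, hyP⟩
        exact c2 ⟨hyP, hx⟩
      have hyR : y ∉ (K ∩ S1) \ P := by
        intro hy
        have hyP : y ∉ P := (mem_sdiff.1 hy).2
        have hxP : x ∈ P := by
          by_contra hxP
          exact hP2 ⟨hxP, hyP⟩
        exact c1 ⟨hxP, hy⟩
      have hPR : (K ∩ S1) \ ((K ∩ S1) \ P) = P := by
        ext v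
        simp only [mem_sdiff]
        constructor
        · rintro ⟨h1, h2⟩
          by_contra h3
          exact h2 ⟨h1, h3⟩
        · intro hv
          exact ⟨hP hv, fun h2 => h2.2 hv⟩
      obtain ⟨b, hb, c, hc, hbc⟩ := step ((K ∩ S1) \ P) sdiff_subset hxR hyR hRne
        (by rw [hPR]; exact hPne)
      rw [hPR] at hc
      exact ⟨c, hc, b, hb, addE_of_adj hbc.symm⟩
  · intro a ha
    obtain ⟨k, hk, hak⟩ := hKa a ha
    rcases h.mem_cases (hKmem k hk).1 with h1 | h1
    · exact ⟨k, mem_inter.2 ⟨hk, h1⟩, addE_of_adj hak⟩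
    · have haxy := hxy a (hT1 ha) k h1 hak
      have hne1 : (K ∩ B).Nonempty := ⟨k, mem_inter.2 ⟨hk, h1⟩⟩
      have hne2 : (K \ (K ∩ B)).Nonempty := by
        obtain ⟨c, hc⟩ := hK'ne
        rw [mem_inter] at hc
        refine ⟨c, mem_sdiff.2 ⟨hc.1, fun hcB => ?_⟩⟩
        exact h.notMem_B hc.2 (mem_inter.1 hcB).2
      obtain ⟨c, hc, d, hd, hcd⟩ := hKc (K ∩ B) inter_subset_left hne1 hne2
      rw [mem_inter] at hc
      rw [mem_sdiff, mem_inter] at hd
      have hdB : d ∉ B := fun hdB => hd.2 ⟨hd.1, hdB⟩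
      have hdS1 : d ∈ S1 := by
        rcases h.mem_cases (hKmem d hd.1).1 with h2 | h2
        · exact h2
        · exact absurd h2 hdB
      have hdxy := hxy d hdS1 c hc.2 hcd.symm
      have hda : d ≠ a := by
        intro hda
        exact (hKmem d hd.1).2 (hda ▸ ha)
      refine ⟨d, mem_inter.2 ⟨hd.1, hdS1⟩, ?_⟩
      rcases haxy with rfl | rfl
      · rcases hdxy with hd2 | rfl
        · exact absurd hd2 hda
        · exact ⟨h.hxy, Or.inr (Or.inl ⟨rfl, rfl⟩)⟩
      · rcases hdxy with rfl | hd2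
        · exact ⟨h.hxy.symm, Or.inr (Or.inr ⟨rfl, rfl⟩)⟩
        · exact absurd hd2 hda

private theorem TwoSep.side {G : SimpleGraph V} {S : Finset V} {x y : V} {A B : Finset V}
    (h : TwoSep G S x y A B) {T : Finset V} (hT : T ∈ cl G 3 S) :
    T ⊆ insert x (insert y A) ∨ T ⊆ insert x (insert y B) := by
  rw [cl, mem_filter, mem_powersetCard] at hT
  obtain ⟨⟨hTS, _⟩, hcl⟩ := hT
  by_cases hB : ∃ b ∈ T, b ∈ B
  · right
    obtain ⟨b, hbT, hb⟩ := hB
    intro v hv
    rcases h.swap.mem_cases (hTS hv) with h1 | h1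
    · exact h1
    · exfalso
      have hne : v ≠ b := fun hvb => disjoint_left.1 h.dis h1 (hvb ▸ hb)
      exact h.noE v h1 b hb (hcl hv hbT hne)
  · left
    intro v hv
    rcases h.mem_cases (hTS hv) with h1 | h1
    · exact h1
    · exact absurd ⟨v, hv, h1⟩ hB

private theorem TwoSep.mem_filter_side {G : SimpleGraph V} {S : Finset V} {x y : V} {A B : Finset V}
    (h : TwoSep G S x y A B) (C : V → Fin 4) {T : Finset V}
    (hT : T ∈ (cl G 3 S).filter (fun T => Thick G S T ∧ Set.InjOn C (T : Set V)))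
    (hT1 : T ⊆ insert x (insert y A)) :
    T ∈ (cl (addE G x y) 3 (insert x (insert y A))).filter
      (fun T => Thick (addE G x y) (insert x (insert y A)) T ∧ Set.InjOn C (T : Set V)) := by
  rw [mem_filter] at hT
  obtain ⟨hcl, hth, hC⟩ := hT
  rw [cl, mem_filter, mem_powersetCard] at hcl
  obtain ⟨⟨_, h3⟩, hclq⟩ := hcl
  rw [mem_filter, cl, mem_filter, mem_powersetCard]
  refine ⟨⟨⟨hT1, h3⟩, ?_⟩, h.thick h3 hT1 hth, hC⟩
  intro a ha b hb hab
  exact addE_of_adj (hclq ha hb hab)

theorem th_sep (G : SimpleGraph V) (S : Finset V) (x y : V) (A B : Finset V)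
    (h : TwoSep G S x y A B) (C : V → Fin 4) :
    th G S C ≤ th (addE G x y) (insert x (insert y A)) C
      + th (addE G x y) (insert x (insert y B)) C := by
  unfold th
  refine le_trans (card_le_card (t := (cl (addE G x y) 3 (insert x (insert y A))).filter
      (fun T => Thick (addE G x y) (insert x (insert y A)) T ∧ Set.InjOn C (T : Set V)) ∪
      (cl (addE G x y) 3 (insert x (insert y B))).filter
      (fun T => Thick (addE G x y) (insert x (insert y B)) T ∧ Set.InjOn C (T : Set V))) ?_)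
    (card_union_le _ _)
  intro T hT
  rw [mem_union]
  rcases h.side (mem_filter.1 hT).1 with h1 | h1
  · left
    exact h.mem_filter_side C hT h1
  · right
    exact h.swap.mem_filter_side C hT h1

theorem th_le_tc (G : SimpleGraph V) (S : Finset V) (C : V → Fin 4) : th G S C ≤ tc G S := by
  unfold th tc
  exact card_filter_le _ _


end Pool.Agent.Helper391.WheelChi
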