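import Mathlib
import Pool.Agent.Helper391.Wheel.Defs

set_option autoImplicit false

namespace Pool.Agent.Helper391.WheelChi

open Finset Polynomial
open scoped Classical

variable {V : Type} [DecidableEq V]


/-- indicator of a rainbow triple -/
private def rb (x y z : Fin 4) : ℕ := bif (x == y) || (x == z) || (y == z) then 0 else 1

private theorem six_num : ∀ x0 x1 x2 x3 x4 x5 : Fin 4,
    rb x0 x1 x2 + rb x0 x1 x3 + rb x0 x1 x4 + rb x0 x1 x5 + rb x0 x2 x3 + rb x0 x2 x4 + rb x0 x2 x5
    + rb x0 x3 x4 + rb x0 x3 x5 + rb x0 x4 x5 + rb x1 x2 x3 + rb x1 x2 x4 + rb x1 x2 x5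
    + rb x1 x3 x4 + rb x1 x3 x5 + rb x1 x4 x5 + rb x2 x3 x4 + rb x2 x3 x5 + rb x2 x4 x5
    + rb x3 x4 x5 ≤ 12 := by
  decide +kernel

private theorem five_num : ∀ x0 x1 x2 x3 x4 : Fin 4,
    rb x0 x1 x2 + rb x0 x1 x3 + rb x0 x1 x4 + rb x0 x2 x3 + rb x0 x2 x4
    + rb x0 x3 x4 + rb x1 x2 x3 + rb x1 x2 x4
    + rb x1 x3 x4 + rb x2 x3 x4 ≤ 7 := by
  decide +kernel

private theorem rb_eq (x y z : Fin 4) : rb x y z = if (x ≠ y ∧ x ≠ z ∧ y ≠ z) then 1 else 0 := by
  revert x y z; decide

private theorem th_le (G : SimpleGraph V) (n : ℕ) (S : Finset V) (hS : #S = n) (C : V → Fin 4)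
    (l : List (Fin n × Fin n × Fin n))
    (hl : ∀ T : Finset (Fin n), #T = 3 → ∃ t ∈ l, T = {t.1, t.2.1, t.2.2}) :
    ∃ f : Fin n → V, th G S C ≤
      (l.map (fun t => rb (C (f t.1)) (C (f t.2.1)) (C (f t.2.2)))).sum := by
  have e := (S.equivFinOfCardEq hS).symm
  refine ⟨fun i => (e i : V), ?_⟩
  have hinj : Function.Injective (fun i => (e i : V)) :=
    Subtype.val_injective.comp e.injective
  obtain ⟨p, hp⟩ : ∃ p : Fin n × Fin n × Fin n → Prop, p = fun t =>
    (C (e t.1 : V) ≠ C (e t.2.1 : V) ∧ C (e t.1 : V) ≠ C (e t.2.2 : V) ∧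
      C (e t.2.1 : V) ≠ C (e t.2.2 : V)) := ⟨_, rfl⟩
  obtain ⟨g, hg⟩ : ∃ g : Fin n × Fin n × Fin n → Finset V, g = fun t =>
    {(e t.1 : V), (e t.2.1 : V), (e t.2.2 : V)} := ⟨_, rfl⟩
  have hsub : (cl G 3 S).filter (fun T => Thick G S T ∧ Set.InjOn C (T : Set V)) ⊆
      ((l.filter (fun t => decide (p t))).toFinset).image g := by
    intro T hT
    rw [mem_filter] at hT
    obtain ⟨hT1, -, hT3⟩ := hT
    rw [cl, mem_filter, mem_powersetCard] at hT1
    obtain ⟨⟨hT4, hT5⟩, -⟩ := hT1
    obtain ⟨T', hT'⟩ : ∃ T' : Finset (Fin n), T'.image (fun i => (e i : V)) = T := by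
      refine ⟨univ.filter (fun i => (e i : V) ∈ T), ?_⟩
      ext x
      simp only [mem_image, mem_filter, mem_univ, true_and]
      constructor
      · rintro ⟨i, hi, rfl⟩
        exact hi
      · intro hx
        refine ⟨e.symm ⟨x, hT4 hx⟩, ?_, ?_⟩
        · simpa using hx
        · simp
    have hcard : #T' = 3 := by
      rw [← hT5, ← hT', card_image_of_injective _ hinj]
    obtain ⟨t, ht, hTt⟩ := hl T' hcard
    rw [mem_image]
    refine ⟨t, ?_, ?_⟩
    · rw [List.mem_toFinset, List.mem_filter]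
      refine ⟨ht, ?_⟩
      rw [decide_eq_true_iff, hp]
      have h3 := hcard
      rw [hTt, card_eq_three] at h3
      have hd : t.1 ≠ t.2.1 ∧ t.1 ≠ t.2.2 ∧ t.2.1 ≠ t.2.2 := by
        have h4 : #({t.1, t.2.1, t.2.2} : Finset (Fin n)) = 3 := by rw [← hTt]; exact hcard
        refine ⟨?_, ?_, ?_⟩
        · intro h
          rw [h] at h4
          have : #({t.2.1, t.2.1, t.2.2} : Finset (Fin n)) ≤ 2 := by
            rw [insert_eq_of_mem (mem_insert_self _ _)]
            exact card_le_two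
          omega
        · intro h
          rw [h] at h4
          have : #({t.2.2, t.2.1, t.2.2} : Finset (Fin n)) ≤ 2 := by
            rw [insert_eq_of_mem (by simp)]
            exact card_le_two
          omega
        · intro h
          rw [h] at h4
          have : #({t.1, t.2.2, t.2.2} : Finset (Fin n)) ≤ 2 := by
            rw [insert_eq_of_mem (mem_singleton_self t.2.2)]
            exact card_le_two
          omega
      have hm : ∀ i ∈ T', (e i : V) ∈ (T : Set V) := by
        intro i hi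
        rw [mem_coe, ← hT']
        exact mem_image_of_mem (fun i => (e i : V)) hi
      have hm1 : t.1 ∈ T' := by rw [hTt]; simp
      have hm2 : t.2.1 ∈ T' := by rw [hTt]; simp
      have hm3 : t.2.2 ∈ T' := by rw [hTt]; simp
      refine ⟨?_, ?_, ?_⟩
      · intro h
        exact hd.1 (hinj (hT3 (hm _ hm1) (hm _ hm2) h))
      · intro h
        exact hd.2.1 (hinj (hT3 (hm _ hm1) (hm _ hm3) h))
      · intro h
        exact hd.2.2 (hinj (hT3 (hm _ hm2) (hm _ hm3) h))
    · rw [hg, ← hT', hTt]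
      simp [image_insert]
  rw [th]
  refine (card_le_card hsub).trans (card_image_le.trans ((List.toFinset_card_le _).trans ?_))
  have : ∀ l : List (Fin n × Fin n × Fin n), (l.filter (fun t => decide (p t))).length =
      (l.map (fun t => rb (C (e t.1)) (C (e t.2.1)) (C (e t.2.2)))).sum := by
    intro l
    induction l with
    | nil => simp
    | cons a l ih =>
      rw [List.map_cons, List.sum_cons, List.filter_cons, ← ih, rb_eq]
      by_cases h : p a
      · rw [if_pos (by simpa using h), List.length_cons]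
        rw [hp] at h
        rw [if_pos h, hp]
        omega
      · rw [if_neg (by simpa using h)]
        rw [hp] at h
        rw [if_neg h, hp]
        omega
  exact (this l).le

theorem th_five (G : SimpleGraph V) (S : Finset V) (hS : #S = 5) (C : V → Fin 4) :
    th G S C ≤ 7 := by
  obtain ⟨f, hf⟩ := th_le G 5 S hS C [(0,1,2), (0,1,3), (0,1,4), (0,2,3), (0,2,4), (0,3,4),
    (1,2,3), (1,2,4), (1,3,4), (2,3,4)] (by decide +kernel)
  have h := five_num (C (f 0)) (C (f 1)) (C (f 2)) (C (f 3)) (C (f 4))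
  simp only [List.map_cons, List.map_nil, List.sum_cons, List.sum_nil] at hf
  refine hf.trans (le_trans (le_of_eq ?_) h)
  ring

theorem th_six (G : SimpleGraph V) (S : Finset V) (hS : #S = 6) (C : V → Fin 4) :
    th G S C ≤ 12 := by
  obtain ⟨f, hf⟩ := th_le G 6 S hS C [(0,1,2), (0,1,3), (0,1,4), (0,1,5), (0,2,3), (0,2,4), (0,2,5),
    (0,3,4), (0,3,5), (0,4,5), (1,2,3), (1,2,4), (1,2,5), (1,3,4), (1,3,5), (1,4,5),
    (2,3,4), (2,3,5), (2,4,5), (3,4,5)] (by decide +kernel)
  have h := six_num (C (f 0)) (C (f 1)) (C (f 2)) (C (f 3)) (C (f 4)) (C (f 5))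
  simp only [List.map_cons, List.map_nil, List.sum_cons, List.sum_nil] at hf
  refine hf.trans (le_trans (le_of_eq ?_) h)
  ring


end Pool.Agent.Helper391.WheelChi
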