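import Mathlib
import Pool.Agent.Helper391.Wheel.Defs
import Pool.Agent.Helper391.Wheel.W2
import Pool.Agent.Helper391.Wheel.W6
import Pool.Agent.Helper391.Wheel.W7
import Pool.Agent.Helper391.Wheel.W8
import Pool.Agent.Helper391.Wheel.W13
import Pool.Agent.Helper391.Wheel.W14
import Pool.Agent.Helper391.Wheel.W15
import Pool.Agent.Helper391.Wheel.W16
import Pool.Agent.Helper391.Wheel.W17
import Pool.Agent.Helper391.Wheel.W19
import Pool.Agent.Helper391.Wheel.W20
import Pool.Agent.Helper391.Wheel.W21

set_option autoImplicit false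

namespace Pool.Agent.Helper391.WheelChi

open Finset Polynomial
open scoped Classical

variable {V : Type} [DecidableEq V]


private theorem gg_le_add_four (a : ℤ) (ha : 1 ≤ a) : gg a ≤ a + 4 := by
  unfold gg
  split_ifs <;> omega

private theorem gg_ten (a b : ℤ) (ha : 2 ≤ a) (hb : 2 ≤ b) (h : 10 ≤ a * b) : gg a + gg b ≤ a * b := by
  by_cases h1 : 9 ≤ a
  · have e1 : gg a = a + 2 := by
      unfold gg
      split_ifs <;> omega
    have e2 := gg_le_add_four b (by omega)
    nlinarith
  by_cases h2 : 9 ≤ b
  · have e1 : gg b = b + 2 := by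
      unfold gg
      split_ifs <;> omega
    have e2 := gg_le_add_four a (by omega)
    nlinarith
  have h3 : a ≤ 8 := by omega
  have h4 : b ≤ 8 := by omega
  interval_cases a <;> interval_cases b <;> simp [gg] at h ⊢

private theorem gg_mul (a b : ℤ) (ha : 1 ≤ a) (hb : 1 ≤ b) : gg a + gg b ≤ gg (a * b) := by
  rcases eq_or_lt_of_le ha with h1 | h1
  · subst h1
    simp [gg]
  rcases eq_or_lt_of_le hb with h2 | h2
  · subst h2
    simp [gg]
  by_cases h3 : 10 ≤ a * b
  · have h4 := gg_ten a b (by omega) (by omega) h3
    have h5 : gg (a * b) = a * b + 2 := by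
      have : ∀ z : ℤ, 10 ≤ z → gg z = z + 2 := by
        intro z hz
        unfold gg
        split_ifs <;> omega
      exact this _ h3
    omega
  · have h4 : a ≤ 4 := by nlinarith
    have h5 : b ≤ 4 := by nlinarith
    interval_cases a <;> interval_cases b <;> simp [gg] at h3 ⊢

private theorem th_three (G : SimpleGraph V) (S : Finset V) (h3 : #S = 3) (C : V → Fin 4) :
    th G S C = 0 := by
  unfold th
  rw [Finset.card_eq_zero, Finset.filter_eq_empty_iff]
  rintro T hT ⟨⟨K, hK, hK1, -⟩, -⟩
  unfold cl at hT
  rw [Finset.mem_filter, Finset.mem_powersetCard] at hT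
  have hTS : T = S := Finset.eq_of_subset_of_card_le hT.1.1 (by rw [hT.1.2, h3])
  subst hTS
  rw [Finset.sdiff_self, Finset.subset_empty] at hK
  subst hK
  exact Finset.not_nonempty_empty hK1

private theorem TwoSep.symm' {G : SimpleGraph V} {S : Finset V} {x y : V} {A B : Finset V}
    (h : TwoSep G S x y A B) : TwoSep G S x y B A where
  hS := by rw [h.hS, Finset.union_comm]
  hxy := h.hxy
  xA := h.xB
  xB := h.xA
  yA := h.yB
  yB := h.yA
  dis := h.dis.symm
  neA := h.neB
  neB := h.neA
  noE := fun a ha b hb hab => h.noE b hb a ha hab.symm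

private theorem TwoSep.card_left {G : SimpleGraph V} {S : Finset V} {x y : V} {A B : Finset V}
    (h : TwoSep G S x y A B) : #(insert x (insert y A)) = #A + 2 := by
  rw [Finset.card_insert_of_notMem, Finset.card_insert_of_notMem h.yA]
  rw [Finset.mem_insert, not_or]
  exact ⟨h.hxy, h.xA⟩

private theorem TwoSep.card_all {G : SimpleGraph V} {S : Finset V} {x y : V} {A B : Finset V}
    (h : TwoSep G S x y A B) : #S = #A + #B + 2 := by
  rw [h.hS, Finset.card_insert_of_notMem, Finset.card_insert_of_notMem,
    Finset.card_union_of_disjoint h.dis]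
  · rw [Finset.mem_union, not_or]
    exact ⟨h.yA, h.yB⟩
  · rw [Finset.mem_insert, Finset.mem_union, not_or, not_or]
    exact ⟨h.hxy, h.xA, h.xB⟩

private theorem gg_three_conn (G : SimpleGraph V) (S : Finset V) (h : ThreeConn G S) (C : V → Fin 4) :
    (th G S C : ℤ) ≤ gg (bb G S) := by
  have h4 : 4 ≤ #S := h.1
  have htc : (th G S C : ℤ) ≤ tc G S := by exact_mod_cast th_le_tc G S C
  have hcard := bb_ge_card G S h
  have hjj := bb_ge_jj G S h
  rcases eq_or_lt_of_le h4 with h5 | h5
  · obtain ⟨a1, a2, a3, -⟩ := F4 G S h h5.symm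
    have a2' : (tc G S : ℤ) ≤ 4 := by exact_mod_cast a2
    unfold gg
    split_ifs <;> omega
  rcases eq_or_lt_of_le (Nat.succ_le_of_lt h5) with h6 | h6
  · have h6' : #S = 5 := by omega
    obtain ⟨a1, a2, a3, a4, a5, a6, -⟩ := F5 G S h h6'
    have h7 : (th G S C : ℤ) ≤ 7 := by exact_mod_cast th_five G S h6' C
    have : jj G S = 0 ∨ jj G S = 1 ∨ jj G S = 2 := by omega
    rcases this with hj | hj | hj
    · rw [hj] at a3 a4
      unfold gg
      split_ifs <;> omega
    · have := a5 hj
      rw [hj] at a3 a4
      unfold gg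
      split_ifs <;> omega
    · have := a6 hj
      unfold gg
      split_ifs <;> omega
  rcases eq_or_lt_of_le (Nat.succ_le_of_lt h6) with h7 | h7
  · have h7' : #S = 6 := by omega
    obtain ⟨a1, a2, -⟩ := F6 G S h h7'
    rw [h7'] at hcard hjj
    push_cast at hcard hjj
    by_cases hj : jj G S ≤ 0
    · have := a2 hj
      unfold gg
      split_ifs <;> omega
    · unfold gg
      split_ifs <;> omega
  · have h7' : 7 ≤ #S := by omega
    obtain ⟨a1, -⟩ := F8 G S h h7'
    have : (5 : ℤ) ≤ bb G S := by
      have : (7 : ℤ) ≤ #S := by exact_mod_cast h7'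
      omega
    unfold gg
    split_ifs <;> omega

theorem th_le_gg (G : SimpleGraph V) (S : Finset V) (h : TwoConn G S) (h3 : 3 ≤ #S)
    (C : V → Fin 4) : (th G S C : ℤ) ≤ gg (bb G S) := by
  induction hn : #S using Nat.strong_induction_on generalizing G S with
  | _ n ih =>
    rcases eq_or_lt_of_le h3 with h4 | h4
    · rw [th_three G S h4.symm C, bb_three G S h h4.symm]
      simp [gg]
    by_cases hT : ThreeConn G S
    · exact gg_three_conn G S hT C
    obtain ⟨x, y, A, B, hs⟩ := exists_twoSep G S h h4 hT
    have hA := hs.card_left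
    have hB := hs.symm'.card_left
    have hall := hs.card_all
    have hA1 : 1 ≤ #A := hs.neA.card_pos
    have hB1 : 1 ≤ #B := hs.neB.card_pos
    have cA := side_twoConn G S x y A B h hs
    have cB := side_twoConn G S x y B A h hs.symm'
    have iA := ih (#A + 2) (by omega) (addE G x y) (insert x (insert y A)) cA (by omega) hA
    have iB := ih (#B + 2) (by omega) (addE G x y) (insert x (insert y B)) cB (by omega) hB
    have hth : (th G S C : ℤ) ≤ th (addE G x y) (insert x (insert y A)) C
      + th (addE G x y) (insert x (insert y B)) C := by exact_mod_cast th_sep G S x y A B hs C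
    rw [bb_sep G S x y A B h hs]
    have := gg_mul _ _ (bb_pos _ _ cA) (bb_pos _ _ cB)
    omega

theorem th_le_bb (G : SimpleGraph V) (S : Finset V) (h : TwoConn G S) (h3 : 3 ≤ #S)
    (hb : 10 ≤ bb G S) (he : Even (bb G S)) (hj : 1 ≤ jj G S) (C : V → Fin 4) :
    (th G S C : ℤ) ≤ bb G S := by
  induction hn : #S using Nat.strong_induction_on generalizing G S with
  | _ n ih =>
    rcases eq_or_lt_of_le h3 with h4 | h4
    · rw [bb_three G S h h4.symm] at hb
      omega
    by_cases hT : ThreeConn G S
    · have htc : (th G S C : ℤ) ≤ tc G S := by exact_mod_cast th_le_tc G S C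
      rcases eq_or_lt_of_le (Nat.succ_le_of_lt h4) with h5 | h5
      · obtain ⟨a1, a2, a3, -⟩ := F4 G S hT h5.symm
        have a2' : (tc G S : ℤ) ≤ 4 := by exact_mod_cast a2
        omega
      rcases eq_or_lt_of_le (Nat.succ_le_of_lt h5) with h6 | h6
      · have h6' : #S = 5 := by omega
        obtain ⟨a1, a2, a3, a4, a5, a6, -⟩ := F5 G S hT h6'
        omega
      rcases eq_or_lt_of_le (Nat.succ_le_of_lt h6) with h7 | h7
      · have h7' : #S = 6 := by omega
        obtain ⟨a1, a2, a3, a4, a5, a6, a7, a8⟩ := F6 G S hT h7'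
        have h12 : (th G S C : ℤ) ≤ 12 := by exact_mod_cast th_six G S h7' C
        by_cases hj3 : 3 ≤ jj G S
        · have := a3 hj3
          obtain ⟨r, hr⟩ := he
          omega
        · have : jj G S = 1 ∨ jj G S = 2 := by omega
          rcases this with hj' | hj'
          · have := a7 hj'
            omega
          · have := a8 hj'
            omega
      rcases eq_or_lt_of_le (Nat.succ_le_of_lt h7) with h8 | h8
      · have h8' : #S = 7 := by omega
        obtain ⟨a1, a2, a3⟩ := F7 G S hT h8'
        by_cases hj3 : 2 ≤ jj G S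
        · have := a2 hj3
          omega
        · have := a3 (by omega)
          omega
      · obtain ⟨a1, a2⟩ := F8 G S hT (by omega)
        have := a2 (by omega) hj
        omega
    obtain ⟨x, y, A, B, hs⟩ := exists_twoSep G S h h4 hT
    have hA := hs.card_left
    have hB := hs.symm'.card_left
    have hall := hs.card_all
    have hA1 : 1 ≤ #A := hs.neA.card_pos
    have hB1 : 1 ≤ #B := hs.neB.card_pos
    have cA := side_twoConn G S x y A B h hs
    have cB := side_twoConn G S x y B A h hs.symm'
    have hth : (th G S C : ℤ) ≤ th (addE G x y) (insert x (insert y A)) C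
      + th (addE G x y) (insert x (insert y B)) C := by exact_mod_cast th_sep G S x y A B hs C
    have gA := th_le_gg _ _ cA (by omega) C
    have gB := th_le_gg _ _ cB (by omega) C
    have pA := bb_pos _ _ cA
    have pB := bb_pos _ _ cB
    have hbb := bb_sep G S x y A B h hs
    have hec := ec_sep G S x y A B hs
    have hjjA : jj (addE G x y) (insert x (insert y A))
        = (ec (addE G x y) (insert x (insert y A)) : ℤ) - 2 * ((#A : ℤ) + 2) + 2 := by
      unfold jj
      rw [hA]
      push_cast
      ring
    have hjjB : jj (addE G x y) (insert x (insert y B))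
        = (ec (addE G x y) (insert x (insert y B)) : ℤ) - 2 * ((#B : ℤ) + 2) + 2 := by
      unfold jj
      rw [hB]
      push_cast
      ring
    have hjjS : jj G S = (ec G S : ℤ) - 2 * ((#A : ℤ) + #B + 2) + 2 := by
      unfold jj
      rw [hall]
      push_cast
      ring
    have hjle : jj G S ≤ jj (addE G x y) (insert x (insert y A))
        + jj (addE G x y) (insert x (insert y B)) + 1 := by
      rw [hjjA, hjjB, hjjS, hec]
      split_ifs <;> omega
    by_cases b1 : bb (addE G x y) (insert x (insert y A)) = 1
    · -- the other side carries everything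
      rw [b1, one_mul] at hbb
      have t1 : (th (addE G x y) (insert x (insert y A)) C : ℤ) ≤ 0 := by
        rw [b1] at gA
        simpa [gg] using gA
      have j1 := bb_two _ _ cA (by omega)
      rw [b1] at j1
      have := ih (#B + 2) (by omega) (addE G x y) (insert x (insert y B)) cB (by omega)
        (by rw [← hbb]; exact hb) (by rw [← hbb]; exact he) (by omega) hB
      omega
    by_cases b2 : bb (addE G x y) (insert x (insert y B)) = 1
    · rw [b2, mul_one] at hbb
      have t1 : (th (addE G x y) (insert x (insert y B)) C : ℤ) ≤ 0 := by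
        rw [b2] at gB
        simpa [gg] using gB
      have j1 := bb_two _ _ cB (by omega)
      rw [b2] at j1
      have := ih (#A + 2) (by omega) (addE G x y) (insert x (insert y A)) cA (by omega)
        (by rw [← hbb]; exact hb) (by rw [← hbb]; exact he) (by omega) hA
      omega
    have := gg_ten _ _ (by omega : 2 ≤ bb (addE G x y) (insert x (insert y A)))
      (by omega : 2 ≤ bb (addE G x y) (insert x (insert y B))) (by rw [← hbb]; exact hb)
    rw [← hbb] at this
    omega


end Pool.Agent.Helper391.WheelChi
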