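import Mathlib
import Pool.Agent.Helper391.Wheel.Defs
import Pool.Agent.Helper391.Wheel.W1
import Pool.Agent.Helper391.Wheel.W2
import Pool.Agent.Helper391.Wheel.W3
import Pool.Agent.Helper391.Wheel.W4
import Pool.Agent.Helper391.Wheel.W5
import Pool.Agent.Helper391.Wheel.W13
import Pool.Agent.Helper391.Wheel.W14
import Pool.Agent.Helper391.Wheel.W15
import Pool.Agent.Helper391.Wheel.W16
import Pool.Agent.Helper391.Wheel.W17
import Pool.Agent.Helper391.Wheel.W18
import Pool.Agent.Helper391.Wheel.W19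
import Pool.Agent.Helper391.Wheel.W20
import Pool.Agent.Helper391.Wheel.W21

set_option autoImplicit false

namespace Pool.Agent.Helper391.WheelChi

open Finset Polynomial
open scoped Classical

variable {V : Type} [DecidableEq V]


private theorem mem_nb919 (G : SimpleGraph V) (S : Finset V) (a y : V) :
    y ∈ nb G S a ↔ y ∈ S ∧ G.Adj a y := by
  unfold nb; rw [Finset.mem_filter]

private theorem wheel_rec_aux919 : ∀ n : ℕ, ∀ (G : SimpleGraph V) (S : Finset V), #S = n → ThreeConn G S →
    jj G S = 0 → bb G S = #S - 2 → #S ≤ tc G S + 1 →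
    ∃ r ∈ S, ∀ y ∈ S, y ≠ r → G.Adj r y ∧ #(nb G S y) = 3 := by
  intro n
  induction n using Nat.strong_induction_on with
  | _ n ih =>
  intro G S hn h hj hb ht
  have h4 : 4 ≤ #S := h.1
  rcases Nat.eq_or_lt_of_le h4 with h4' | h5
  · -- four vertices
    have h4'' : #S = 4 := h4'.symm
    obtain ⟨-, -, -, hK⟩ := F4 G S h h4''
    obtain ⟨r, hr⟩ : S.Nonempty := Finset.card_pos.mp (by omega)
    refine ⟨r, hr, fun y hy hyr => ⟨hK r hr y hy hyr.symm, ?_⟩⟩
    have : nb G S y = S.erase y := by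
      ext w
      rw [mem_nb919, Finset.mem_erase]
      constructor
      · rintro ⟨h1, h2⟩; exact ⟨h2.ne', h1⟩
      · rintro ⟨h1, h2⟩; exact ⟨h2, hK y hy w h2 h1.symm⟩
    rw [this, Finset.card_erase_of_mem hy, h4'']
  have h5' : 5 ≤ #S := h5
  obtain ⟨u, hu, v, hv, huv, hH⟩ := exists_contractible G S h h5'
  have huv' : u ≠ v := huv.ne
  set H := contr G u v with hHdef
  set N := del G u v with hNdef
  set X := nb G S u ∩ nb G S v with hX
  have hScard : #(S.erase v) = #S - 1 := Finset.card_erase_of_mem hv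
  have hScardZ : (#(S.erase v) : ℤ) = #S - 1 := by rw [hScard]; push_cast [show 1 ≤ #S by omega]; ring
  have hbd := bb_del G S u v hu hv huv
  rw [← hHdef, ← hNdef] at hbd
  have hbH := bb_ge_card H (S.erase v) hH
  have hN2 : TwoConn N S := del_twoConn G S u v h hu hv huv
  have hbN := bb_pos N S hN2
  have hbH' : bb H (S.erase v) = #S - 3 := by omega
  have hbN' : bb N S = 1 := by omega
  have ht1 : #X ≤ 1 := by
    by_contra hcon
    push Not at hcon
    rcases Nat.eq_or_lt_of_le (show 2 ≤ #X from hcon) with h2 | h3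
    · have := (bb_del_two G S h h5' u v hu hv huv h2.symm).1
      rw [← hNdef] at this
      omega
    · have := bb_ge_card N S (del_three G S h u v hu hv huv h3)
      omega
  have hec := ec_contr G S u v hu hv huv
  rw [← hHdef, ← hX] at hec
  have hjG : (ec G S : ℤ) - 2 * #S + 2 = 0 := hj
  have hjH : jj H (S.erase v) = 1 - (#X : ℤ) := by
    unfold jj
    rw [hScardZ]
    have : (ec H (S.erase v) : ℤ) + 1 + #X = ec G S := by exact_mod_cast hec
    linarith
  have ht1' : #X = 1 := by
    by_contra hcon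
    have h0 : #X = 0 := by omega
    rw [h0] at hjH
    have hj1 : jj H (S.erase v) = 1 := by rw [hjH]; norm_num
    have hbj := bb_ge_jj H (S.erase v) hH
    rw [hj1, hbH', hScardZ] at hbj
    have h5'' : #S = 5 := by omega
    have := (F4 H (S.erase v) hH (by omega)).1
    omega
  have hjH0 : jj H (S.erase v) = 0 := by rw [hjH, ht1']; norm_num
  have hecX : ec G X = 0 := by
    have := ec_le_choose G X
    rw [ht1'] at this
    simpa using this
  have htc := tc_contr G S u v hu hv huv
  rw [← hHdef, ← hX, ht1', hecX] at htc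
  -- degrees of u and v
  have hNb : ∀ y, y ≠ u → y ≠ v → nb N S y = nb G S y := by
    intro y h1 h2
    ext w
    rw [mem_nb919, mem_nb919]
    constructor
    · rintro ⟨h3, h4⟩; exact ⟨h3, h4.1⟩
    · rintro ⟨h3, h4⟩
      refine ⟨h3, h4, ?_⟩
      rintro (⟨h5, -⟩ | ⟨h5, -⟩)
      · exact h1 h5
      · exact h2 h5
  obtain ⟨z, hz, w, hw, hzw, -, hzd, hwd⟩ := sp_deg N S hN2 h4 hbN'
  have hzuv : z = u ∨ z = v := by
    by_contra hcon
    push Not at hcon
    have := three_nb G S h z hz
    rw [← hNb z hcon.1 hcon.2] at this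
    omega
  have hwuv : w = u ∨ w = v := by
    by_contra hcon
    push Not at hcon
    have := three_nb G S h w hw
    rw [← hNb w hcon.1 hcon.2] at this
    omega
  have hduN : #(nb N S u) = 2 ∧ #(nb N S v) = 2 := by
    rcases hzuv with rfl | rfl <;> rcases hwuv with rfl | rfl
    · exact absurd rfl hzw
    · exact ⟨hzd, hwd⟩
    · exact ⟨hwd, hzd⟩
    · exact absurd rfl hzw
  have hvu : v ∈ nb G S u := (mem_nb919 _ _ _ _).mpr ⟨hv, huv⟩
  have huv2 : u ∈ nb G S v := (mem_nb919 _ _ _ _).mpr ⟨hu, huv.symm⟩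
  have hdu : #(nb G S u) = 3 := by
    have h1 : nb N S u = (nb G S u).erase v := by
      ext y
      rw [Finset.mem_erase, mem_nb919, mem_nb919]
      constructor
      · rintro ⟨h3, h4⟩
        exact ⟨fun hyv => h4.2 (Or.inl ⟨rfl, hyv⟩), h3, h4.1⟩
      · rintro ⟨h3, h4, h5⟩
        refine ⟨h4, h5, ?_⟩
        rintro (⟨-, h6⟩ | ⟨h6, -⟩)
        · exact h3 h6
        · exact huv' h6
    have h2 := hduN.1
    rw [h1, Finset.card_erase_of_mem hvu] at h2
    omega
  have hdv : #(nb G S v) = 3 := by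
    have h1 : nb N S v = (nb G S v).erase u := by
      ext y
      rw [Finset.mem_erase, mem_nb919, mem_nb919]
      constructor
      · rintro ⟨h3, h4⟩
        exact ⟨fun hyv => h4.2 (Or.inr ⟨rfl, hyv⟩), h3, h4.1⟩
      · rintro ⟨h3, h4, h5⟩
        refine ⟨h4, h5, ?_⟩
        rintro (⟨h6, -⟩ | ⟨-, h6⟩)
        · exact huv' h6.symm
        · exact h3 h6
    have h2 := hduN.2
    rw [h1, Finset.card_erase_of_mem huv2] at h2
    omega
  obtain ⟨x, hx⟩ := Finset.card_eq_one.mp ht1'
  have hxX : x ∈ nb G S u ∩ nb G S v := by rw [← hX, hx]; simp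
  have hxu := (Finset.mem_inter.mp hxX).1
  have hxv := (Finset.mem_inter.mp hxX).2
  rw [mem_nb919] at hxu hxv
  have hXiff : ∀ y, G.Adj u y → G.Adj v y → y ∈ S → y = x := by
    intro y h1 h2 h3
    have : y ∈ nb G S u ∩ nb G S v := by
      rw [Finset.mem_inter, mem_nb919, mem_nb919]; exact ⟨⟨h3, h1⟩, ⟨h3, h2⟩⟩
    rw [← hX, hx] at this
    simpa using this
  have hxS : x ∈ S := hxu.1
  have hxneu : x ≠ u := hxu.2.ne'
  have hxnev : x ≠ v := hxv.2.ne'
  have hxS' : x ∈ S.erase v := Finset.mem_erase.mpr ⟨hxnev, hxS⟩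
  have huS' : u ∈ S.erase v := Finset.mem_erase.mpr ⟨huv', hu⟩
  -- H-adjacency
  have hHadj : ∀ y w, y ≠ u → w ≠ u → (H.Adj y w ↔ G.Adj y w) := by
    intro y w h1 h2
    constructor
    · rintro ⟨h3, h4 | h4 | h4⟩
      · exact h4
      · exact absurd h4.1 h1
      · exact absurd h4.1 h2
    · intro h3; exact ⟨h3.ne, Or.inl h3⟩
  have hHu : ∀ y, H.Adj u y ↔ y ≠ u ∧ (G.Adj u y ∨ G.Adj v y) := by
    intro y
    constructor
    · rintro ⟨h3, h4 | h4 | h4⟩
      · exact ⟨h3.symm, Or.inl h4⟩
      · exact ⟨h3.symm, Or.inr h4.2⟩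
      · exact absurd h4.1 h3.symm
    · rintro ⟨h3, h4 | h4⟩
      · exact ⟨h3.symm, Or.inl h4⟩
      · exact ⟨h3.symm, Or.inr (Or.inl ⟨rfl, h4⟩)⟩
  -- final step
  have hfinal : (∀ y ∈ S.erase v, y ≠ x → H.Adj x y ∧ #(nb H (S.erase v) y) = 3) →
      ∃ r ∈ S, ∀ y ∈ S, y ≠ r → G.Adj r y ∧ #(nb G S y) = 3 := by
    intro hr
    refine ⟨x, hxS, fun y hy hyx => ?_⟩
    by_cases hyv : y = v
    · rw [hyv]; exact ⟨hxv.2.symm, hdv⟩
    by_cases hyu : y = u
    · rw [hyu]; exact ⟨hxu.2.symm, hdu⟩
    obtain ⟨h1, h2⟩ := hr y (Finset.mem_erase.mpr ⟨hyv, hy⟩) hyx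
    refine ⟨(hHadj x y hxneu hyu).mp h1, ?_⟩
    rw [← h2]
    -- compare degrees
    by_cases huy : G.Adj u y
    · have hvy : ¬ G.Adj v y := fun h => hyx (hXiff y huy h hy)
      congr 1
      ext w
      rw [mem_nb919, mem_nb919, Finset.mem_erase]
      constructor
      · rintro ⟨h3, h4⟩
        refine ⟨⟨?_, h3⟩, ?_⟩
        · rintro rfl; exact hvy h4.symm
        · exact ⟨h4.ne, Or.inl h4⟩
      · rintro ⟨⟨h3, h4⟩, h5⟩
        refine ⟨h4, ?_⟩
        by_cases hwu : w = u
        · rw [hwu]; exact huy.symm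
        · exact (hHadj y w hyu hwu).mp h5
    · by_cases hvy : G.Adj v y
      · -- replace v by u
        have hcard : #(nb G S y) = #(nb H (S.erase v) y) := by
          have e1 : nb H (S.erase v) y = insert u ((nb G S y).erase v) := by
            ext w
            rw [mem_nb919, Finset.mem_erase, Finset.mem_insert, Finset.mem_erase, mem_nb919]
            constructor
            · rintro ⟨⟨h3, h4⟩, h5⟩
              by_cases hwu : w = u
              · exact Or.inl hwu
              · exact Or.inr ⟨h3, h4, (hHadj y w hyu hwu).mp h5⟩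
            · rintro (h3 | ⟨h3, h4, h5⟩)
              · rw [h3]
                exact ⟨⟨huv', hu⟩, ((hHu y).mpr ⟨hyu, Or.inr hvy⟩).symm⟩
              · exact ⟨⟨h3, h4⟩, h5.ne, Or.inl h5⟩
          have e2 : u ∉ (nb G S y).erase v := by
            rw [Finset.mem_erase, mem_nb919]
            rintro ⟨-, -, h3⟩
            exact huy h3.symm
          have e3 : v ∈ nb G S y := (mem_nb919 _ _ _ _).mpr ⟨hv, hvy.symm⟩
          rw [e1, Finset.card_insert_of_notMem e2, Finset.card_erase_of_mem e3]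
          have : 0 < #(nb G S y) := Finset.card_pos.mpr ⟨v, e3⟩
          omega
        exact hcard
      · congr 1
        ext w
        rw [mem_nb919, mem_nb919, Finset.mem_erase]
        constructor
        · rintro ⟨h3, h4⟩
          refine ⟨⟨?_, h3⟩, ?_⟩
          · rintro rfl; exact hvy h4.symm
          · exact ⟨h4.ne, Or.inl h4⟩
        · rintro ⟨⟨h3, h4⟩, h5⟩
          refine ⟨h4, ?_⟩
          by_cases hwu : w = u
          · exfalso
            rw [hwu] at h5
            rcases ((hHu y).mp h5.symm).2 with h6 | h6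
            · exact huy h6
            · exact hvy h6
          · exact (hHadj y w hyu hwu).mp h5
  rcases Nat.eq_or_lt_of_le h5' with h5'' | h6
  · -- five vertices: H is complete
    obtain ⟨-, -, -, hK⟩ := F4 H (S.erase v) hH (by omega)
    apply hfinal
    intro y hy hyx
    refine ⟨hK x hxS' y hy hyx.symm, ?_⟩
    have : nb H (S.erase v) y = (S.erase v).erase y := by
      ext w
      rw [mem_nb919]
      constructor
      · rintro ⟨h1, h2⟩; exact Finset.mem_erase.mpr ⟨h2.ne', h1⟩
      · intro h3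
        obtain ⟨h1, h2⟩ := Finset.mem_erase.mp h3
        exact ⟨h2, hK y hy w h2 h1.symm⟩
    rw [this, Finset.card_erase_of_mem hy]
    omega
  have h6' : 6 ≤ #S := h6
  obtain ⟨r, hr, hrh⟩ := ih (#(S.erase v)) (by omega) H (S.erase v) rfl hH hjH0
    (by rw [hbH', hScardZ]; ring) (by omega)
  -- the H-neighbours of u
  obtain ⟨a, ha⟩ : ∃ a, ((nb G S u).erase v).erase x = {a} := by
    apply Finset.card_eq_one.mp
    rw [Finset.card_erase_of_mem, Finset.card_erase_of_mem hvu, hdu]
    rw [Finset.mem_erase, mem_nb919]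
    exact ⟨hxnev, hxu⟩
  obtain ⟨b, hb'⟩ : ∃ b, ((nb G S v).erase u).erase x = {b} := by
    apply Finset.card_eq_one.mp
    rw [Finset.card_erase_of_mem, Finset.card_erase_of_mem huv2, hdv]
    rw [Finset.mem_erase, mem_nb919]
    exact ⟨hxneu, hxv⟩
  have haa : a ∈ ((nb G S u).erase v).erase x := by rw [ha]; simp
  have hbb : b ∈ ((nb G S v).erase u).erase x := by rw [hb']; simp
  rw [Finset.mem_erase, Finset.mem_erase, mem_nb919] at haa hbb
  obtain ⟨hax, hav, haS, hua⟩ := haa
  obtain ⟨hbx, hbu, hbS, hvb⟩ := hbb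
  have hau : a ≠ u := hua.ne'
  have hbv : b ≠ v := hvb.ne'
  have hva : ¬ G.Adj v a := fun h => hax (hXiff a hua h haS)
  have hub : ¬ G.Adj u b := fun h => hbx (hXiff b h hvb hbS)
  have hab : a ≠ b := by rintro rfl; exact hva hvb
  have hNu : ∀ y ∈ S, G.Adj u y → y ≠ v → y = x ∨ y = a := by
    intro y h1 h2 h3
    by_cases h4 : y = x
    · exact Or.inl h4
    · right
      have : y ∈ ((nb G S u).erase v).erase x := by
        rw [Finset.mem_erase, Finset.mem_erase, mem_nb919]; exact ⟨h4, h3, h1, h2⟩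
      rw [ha] at this
      simpa using this
  have hNv : ∀ y ∈ S, G.Adj v y → y ≠ u → y = x ∨ y = b := by
    intro y h1 h2 h3
    by_cases h4 : y = x
    · exact Or.inl h4
    · right
      have : y ∈ ((nb G S v).erase u).erase x := by
        rw [Finset.mem_erase, Finset.mem_erase, mem_nb919]; exact ⟨h4, h3, h1, h2⟩
      rw [hb'] at this
      simpa using this
  have hru : r ≠ u := by
    rintro rfl
    have h1 : (S.erase v).erase r ⊆ {x, a, b} := by
      intro y hy
      rw [Finset.mem_erase] at hy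
      have h2 := (hrh y hy.2 hy.1).1
      have hyS : y ∈ S := Finset.mem_of_mem_erase hy.2
      have hyv : y ≠ v := (Finset.mem_erase.mp hy.2).1
      rcases ((hHu y).mp h2).2 with h3 | h3
      · rcases hNu y hyS h3 hyv with h4 | h4 <;> simp [h4]
      · rcases hNv y hyS h3 hy.1 with h4 | h4 <;> simp [h4]
    have h2 := Finset.card_le_card h1
    rw [Finset.card_erase_of_mem hr] at h2
    have h3 : #({x, a, b} : Finset V) ≤ 3 := Finset.card_le_three
    omega
  have hrS : r ∈ S := Finset.mem_of_mem_erase hr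
  have hrv : r ≠ v := (Finset.mem_erase.mp hr).1
  have hHru := (hrh u huS' hru.symm).1
  have hr3 : r = x ∨ r = a ∨ r = b := by
    rcases ((hHu r).mp hHru.symm).2 with h3 | h3
    · rcases hNu r hrS h3 hrv with h4 | h4
      · exact Or.inl h4
      · exact Or.inr (Or.inl h4)
    · rcases hNv r hrS h3 hru with h4 | h4
      · exact Or.inl h4
      · exact Or.inr (Or.inr h4)
  have hnab : ¬ G.Adj a b := by
    intro hGab
    have h1 := tc_contr' G S u v hu hv huv a b haS hbS hav hbu hua hva hvb hub hGab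
    rw [← hHdef, ← hX, ht1', hecX] at h1
    have h2 : (tc H (S.erase v) : ℤ) ≤ #S - 2 := by
      rcases Nat.eq_or_lt_of_le h6' with h7 | h7
      · have := (F5 H (S.erase v) hH (by omega)).2.2.1
        rw [hjH0] at this
        omega
      · rcases Nat.eq_or_lt_of_le (show 7 ≤ #S from h7) with h8 | h8
        · have := (F6 H (S.erase v) hH (by omega)).2.1 (by rw [hjH0])
          omega
        · have := (F8 H (S.erase v) hH (by omega)).1
          omega
    omega
  rcases hr3 with rfl | rfl | rfl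
  · exact hfinal hrh
  · exfalso
    apply hnab
    have := (hrh b (Finset.mem_erase.mpr ⟨hbv, hbS⟩) hab.symm).1
    exact (hHadj _ _ hau hbu).mp this
  · exfalso
    apply hnab
    have := (hrh a (Finset.mem_erase.mpr ⟨hav, haS⟩) hab).1
    exact ((hHadj _ _ hbu hau).mp this).symm

theorem wheel_rec (G : SimpleGraph V) (S : Finset V) (h : ThreeConn G S) (hj : jj G S = 0)
    (hb : bb G S = #S - 2) (ht : #S ≤ tc G S + 1) :
    ∃ r ∈ S, ∀ y ∈ S, y ≠ r → G.Adj r y ∧ #(nb G S y) = 3 := by
  exact wheel_rec_aux919 _ G S rfl h hj hb ht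


end Pool.Agent.Helper391.WheelChi
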