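import Mathlib
import Pool.Agent.Helper391.Wheel.Defs
import Pool.Agent.Helper391.Wheel.W9
import Pool.Agent.Helper391.Wheel.W10
import Pool.Agent.Helper391.Wheel.W13
import Pool.Agent.Helper391.Wheel.W14

set_option autoImplicit false

namespace Pool.Agent.Helper391.WheelChi

open Finset Polynomial
open scoped Classical

variable {V : Type} [DecidableEq V]


private theorem part_aux (G : SimpleGraph V) (a b c : V) : ∀ R : Finset V,
    (∀ K ⊆ R, K.Nonempty → Conn G K →
      (∀ x ∈ K, ¬ G.Adj a x) ∨ (∀ x ∈ K, ¬ G.Adj b x) ∨ (∀ x ∈ K, ¬ G.Adj c x)) →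
    ∃ Va Vb Vc : Finset V, R = Va ∪ Vb ∪ Vc ∧ Disjoint Va Vb ∧ Disjoint Va Vc ∧ Disjoint Vb Vc ∧
      (∀ x ∈ Va, ∀ y ∈ Vb, ¬ G.Adj x y) ∧ (∀ x ∈ Va, ∀ y ∈ Vc, ¬ G.Adj x y) ∧
      (∀ x ∈ Vb, ∀ y ∈ Vc, ¬ G.Adj x y) ∧
      (∀ x ∈ Va, ¬ G.Adj a x) ∧ (∀ x ∈ Vb, ¬ G.Adj b x) ∧ (∀ x ∈ Vc, ¬ G.Adj c x) := by
  intro R
  induction R using Finset.strongInduction with
  | H R ih =>
    intro hK
    by_cases hne : R.Nonempty
    · by_cases hc : Conn G R
      · rcases hK R (Finset.Subset.refl R) hne hc with h | h | h
        · exact ⟨R, ∅, ∅, by simp, by simp, by simp, by simp, by simp, by simp, by simp, h, by simp,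
            by simp⟩
        · exact ⟨∅, R, ∅, by simp, by simp, by simp, by simp, by simp, by simp, by simp, by simp, h,
            by simp⟩
        · exact ⟨∅, ∅, R, by simp, by simp, by simp, by simp, by simp, by simp, by simp, by simp,
            by simp, h⟩
      · unfold Conn at hc
        push Not at hc
        obtain ⟨B, hBR, hB, hRB, hno⟩ := hc
        have hlt1 : B ⊂ R := by
          refine Finset.ssubset_iff_subset_ne.2 ⟨hBR, ?_⟩
          rintro rfl
          simp at hRB
        have hlt2 : R \ B ⊂ R := by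
          refine Finset.ssubset_iff_subset_ne.2 ⟨Finset.sdiff_subset, ?_⟩
          intro h
          obtain ⟨x, hx⟩ := hB
          have : x ∈ R \ B := by rw [h]; exact hBR hx
          exact (Finset.mem_sdiff.1 this).2 hx
        obtain ⟨A1, A2, A3, e1, d12, d13, d23, n12, n13, n23, na, nb', nc⟩ :=
          ih B hlt1 (fun K hKB => hK K (hKB.trans hBR))
        obtain ⟨B1, B2, B3, e2, f12, f13, f23, m12, m13, m23, ma, mb, mc⟩ :=
          ih (R \ B) hlt2 (fun K hKB => hK K (hKB.trans Finset.sdiff_subset))
        have sA1 : A1 ⊆ B := by rw [e1]; intro x hx; simp [hx]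
        have sA2 : A2 ⊆ B := by rw [e1]; intro x hx; simp [hx]
        have sA3 : A3 ⊆ B := by rw [e1]; intro x hx; simp [hx]
        have sB1 : B1 ⊆ R \ B := by rw [e2]; intro x hx; simp [hx]
        have sB2 : B2 ⊆ R \ B := by rw [e2]; intro x hx; simp [hx]
        have sB3 : B3 ⊆ R \ B := by rw [e2]; intro x hx; simp [hx]
        have dd : Disjoint B (R \ B) := Finset.disjoint_sdiff
        have dis : ∀ X Y : Finset V, X ⊆ B → Y ⊆ R \ B → Disjoint X Y :=
          fun X Y hX hY => Finset.disjoint_of_subset_left hX (Finset.disjoint_of_subset_right hY dd)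
        have nn : ∀ x ∈ B, ∀ y ∈ R \ B, ¬ G.Adj x y := hno
        have nn' : ∀ x ∈ R \ B, ∀ y ∈ B, ¬ G.Adj x y := fun x hx y hy h => hno y hy x hx h.symm
        refine ⟨A1 ∪ B1, A2 ∪ B2, A3 ∪ B3, ?_, ?_, ?_, ?_, ?_, ?_, ?_, ?_, ?_, ?_⟩
        · have : R = B ∪ (R \ B) := (Finset.union_sdiff_of_subset hBR).symm
          rw [this, e2]
          nth_rewrite 1 [e1]
          ext x
          simp only [Finset.mem_union]
          tauto
        · rw [Finset.disjoint_union_left, Finset.disjoint_union_right, Finset.disjoint_union_right]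
          exact ⟨⟨d12, dis _ _ sA1 sB2⟩, ⟨(dis _ _ sA2 sB1).symm, f12⟩⟩
        · rw [Finset.disjoint_union_left, Finset.disjoint_union_right, Finset.disjoint_union_right]
          exact ⟨⟨d13, dis _ _ sA1 sB3⟩, ⟨(dis _ _ sA3 sB1).symm, f13⟩⟩
        · rw [Finset.disjoint_union_left, Finset.disjoint_union_right, Finset.disjoint_union_right]
          exact ⟨⟨d23, dis _ _ sA2 sB3⟩, ⟨(dis _ _ sA3 sB2).symm, f23⟩⟩
        · intro x hx y hy
          rcases Finset.mem_union.1 hx with hx | hx <;> rcases Finset.mem_union.1 hy with hy | hy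
          · exact n12 x hx y hy
          · exact nn x (sA1 hx) y (sB2 hy)
          · exact nn' x (sB1 hx) y (sA2 hy)
          · exact m12 x hx y hy
        · intro x hx y hy
          rcases Finset.mem_union.1 hx with hx | hx <;> rcases Finset.mem_union.1 hy with hy | hy
          · exact n13 x hx y hy
          · exact nn x (sA1 hx) y (sB3 hy)
          · exact nn' x (sB1 hx) y (sA3 hy)
          · exact m13 x hx y hy
        · intro x hx y hy
          rcases Finset.mem_union.1 hx with hx | hx <;> rcases Finset.mem_union.1 hy with hy | hy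
          · exact n23 x hx y hy
          · exact nn x (sA2 hx) y (sB3 hy)
          · exact nn' x (sB2 hx) y (sA3 hy)
          · exact m23 x hx y hy
        · intro x hx
          rcases Finset.mem_union.1 hx with hx | hx
          · exact na x hx
          · exact ma x hx
        · intro x hx
          rcases Finset.mem_union.1 hx with hx | hx
          · exact nb' x hx
          · exact mb x hx
        · intro x hx
          rcases Finset.mem_union.1 hx with hx | hx
          · exact nc x hx
          · exact mc x hx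
    · rw [Finset.not_nonempty_iff_eq_empty] at hne
      subst hne
      exact ⟨∅, ∅, ∅, by simp, by simp, by simp, by simp, by simp, by simp, by simp, by simp,
        by simp, by simp⟩

private theorem Ncol_clique (G : SimpleGraph V) (S : Finset V) (h : G.IsClique (S : Set V)) (k : ℕ) :
    Ncol G S k = k.descFactorial #S := by
  have e : {c : S → Fin k // ∀ a b : S, G.Adj a b → c a ≠ c b} ≃ (S ↪ Fin k) := by
    refine
      { toFun := fun c => ⟨c.1, ?_⟩
        invFun := fun f => ⟨f, ?_⟩
        left_inv := ?_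
        right_inv := ?_ }
    · intro x y hxy
      by_contra hne
      exact c.2 x y (h x.2 y.2 (fun hh => hne (Subtype.ext hh))) hxy
    · intro x y hxy hc
      have := f.injective hc
      exact hxy.ne (congrArg Subtype.val this)
    · intro c; rfl
    · intro f; rfl
  unfold Ncol
  rw [Nat.card_congr e, Nat.card_eq_fintype_card, Fintype.card_embedding_eq]
  simp

private theorem Ncol_mono3 (G : SimpleGraph V) (S : Finset V) (h : Ncol G S 2 ≠ 0) : Ncol G S 3 ≠ 0 := by
  unfold Ncol at h ⊢
  rw [Nat.card_ne_zero] at h ⊢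
  refine ⟨?_, inferInstance⟩
  obtain ⟨⟨c, hc⟩⟩ := h.1
  refine ⟨⟨fun x => (c x).castSucc, ?_⟩⟩
  intro a b hab hh
  exact hc a b hab (Fin.castSucc_injective _ hh)

set_option maxHeartbeats 4000000 in
theorem all_thick (G : SimpleGraph V) (S : Finset V)
    (h2 : (derivative (chrom G S)).eval 2 ≠ 0) (h3 : (chrom G S).eval 3 = 0)
    (T : Finset V) (hT : T ∈ cl G 3 S) : Thick G S T := by
  by_contra hnt
  unfold cl at hT
  rw [Finset.mem_filter, Finset.mem_powersetCard] at hT
  obtain ⟨⟨hTS, hTc⟩, hcl⟩ := hT
  obtain ⟨a, b, c, hab', hac', hbc', rfl⟩ := Finset.card_eq_three.1 hTc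
  have hab : G.Adj a b := hcl (by simp) (by simp) hab'
  have hac : G.Adj a c := hcl (by simp) (by simp) hac'
  have hbc : G.Adj b c := hcl (by simp) (by simp) hbc'
  obtain ⟨Va, Vb, Vc, hR, dab, dac, dbc, nab, nac, nbc, na, nb', nc⟩ :=
    part_aux G a b c (S \ {a, b, c}) (by
      intro K hK hKne hKc
      by_contra hcon
      push Not at hcon
      obtain ⟨h1, h2, h3⟩ := hcon
      apply hnt
      refine ⟨K, hK, hKne, hKc, ?_⟩
      intro v hv
      simp only [Finset.mem_insert, Finset.mem_singleton] at hv
      rcases hv with rfl | rfl | rfl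
      · exact h1
      · exact h2
      · exact h3)
  have hVa : Va ⊆ S \ {a, b, c} := by rw [hR]; intro x hx; simp [hx]
  have hVb : Vb ⊆ S \ {a, b, c} := by rw [hR]; intro x hx; simp [hx]
  have hVc : Vc ⊆ S \ {a, b, c} := by rw [hR]; intro x hx; simp [hx]
  have out : ∀ W : Finset V, W ⊆ S \ {a, b, c} → a ∉ W ∧ b ∉ W ∧ c ∉ W := by
    intro W hW
    refine ⟨fun h => ?_, fun h => ?_, fun h => ?_⟩
    · have := hW h; simp at this
    · have := hW h; simp at this
    · have := hW h; simp at this
  obtain ⟨aVa, bVa, cVa⟩ := out Va hVa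
  obtain ⟨aVb, bVb, cVb⟩ := out Vb hVb
  obtain ⟨aVc, bVc, cVc⟩ := out Vc hVc
  have hS : S = insert a (insert b (Vc ∪ insert c (Va ∪ Vb))) := by
    have h1 : S = {a, b, c} ∪ (S \ {a, b, c}) := (Finset.union_sdiff_of_subset hTS).symm
    rw [h1, hR]
    ext x
    simp only [Finset.mem_union, Finset.mem_insert, Finset.mem_singleton]
    tauto
  -- the three gluings
  have g1 : ∀ k, Ncol G S k * (k * (k - 1)) = Ncol G (insert a (insert b Vc)) k *
      Ncol G (insert a (insert b (insert c (Va ∪ Vb)))) k := by
    intro k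
    rw [hS]
    apply Ncol_glue2 G a b Vc (insert c (Va ∪ Vb)) hab aVc _ bVc _ _ _ k
    · simp [hac', aVa, aVb]
    · simp [hbc', bVa, bVb]
    · rw [Finset.disjoint_insert_right, Finset.disjoint_union_right]
      exact ⟨cVc, dac.symm, dbc.symm⟩
    · intro x hx y hy
      rcases Finset.mem_insert.1 hy with rfl | hy
      · intro h; exact nc x hx h.symm
      · rcases Finset.mem_union.1 hy with hy | hy
        · intro h; exact nac y hy x hx h.symm
        · intro h; exact nbc y hy x hx h.symm
  have g2 : ∀ k, Ncol G (insert a (insert b (insert c (Va ∪ Vb)))) k * (k * (k - 1)) =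
      Ncol G (insert b (insert c Va)) k * Ncol G (insert b (insert c (insert a Vb))) k := by
    intro k
    have : insert a (insert b (insert c (Va ∪ Vb))) = insert b (insert c (Va ∪ insert a Vb)) := by
      ext x
      simp only [Finset.mem_union, Finset.mem_insert]
      tauto
    rw [this]
    apply Ncol_glue2 G b c Va (insert a Vb) hbc bVa _ cVa _ _ _ k
    · simp [hab'.symm, bVb]
    · simp [hac'.symm, cVb]
    · rw [Finset.disjoint_insert_right]
      exact ⟨aVa, dab⟩
    · intro x hx y hy
      rcases Finset.mem_insert.1 hy with rfl | hy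
      · intro h; exact na x hx h.symm
      · exact nab x hx y hy
  have g3 : ∀ k, Ncol G (insert b (insert c (insert a Vb))) k * (k * (k - 1)) =
      Ncol G (insert c (insert a Vb)) k * Ncol G (insert c (insert a {b})) k := by
    intro k
    have : insert b (insert c (insert a Vb)) = insert c (insert a (Vb ∪ {b})) := by
      ext x
      simp only [Finset.mem_union, Finset.mem_insert, Finset.mem_singleton]
      tauto
    rw [this]
    apply Ncol_glue2 G c a Vb {b} hac.symm cVb _ aVb _ _ _ k
    · simp [hbc'.symm]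
    · simp [hab']
    · simpa using bVb
    · intro x hx y hy
      rw [Finset.mem_singleton] at hy
      subst hy
      intro h; exact nb' x hx h.symm
  have g4 : ∀ k, Ncol G (insert c (insert a {b})) k = k * (k - 1) * (k - 2) := by
    intro k
    have e : (insert c (insert a {b}) : Finset V) = {a, b, c} := by
      ext x
      simp only [Finset.mem_insert, Finset.mem_singleton]
      tauto
    rw [e, Ncol_clique G _ hcl k, hTc]
    simp only [Nat.descFactorial_succ, Nat.descFactorial_zero]
    simp only [Nat.sub_zero, mul_one]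
    ring
  set Sa := insert b (insert c Va) with hSa
  set Sb := insert c (insert a Vb) with hSb
  set Sc := insert a (insert b Vc) with hSc
  have key : ∀ k, 2 ≤ k → Ncol G S k * (k * (k - 1)) ^ 2 =
      (k - 2) * (Ncol G Sa k * Ncol G Sb k * Ncol G Sc k) := by
    intro k hk
    have h0 : 0 < k * (k - 1) := Nat.mul_pos (by omega) (by omega)
    have e1 := g1 k
    have e2 := g2 k
    have e3 := g3 k
    rw [g4 k] at e3
    set q := k * (k - 1) with hq
    apply Nat.eq_of_mul_eq_mul_right h0
    calc Ncol G S k * q ^ 2 * q = (Ncol G S k * q) * q * q := by ring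
      _ = Ncol G Sc k * (Ncol G (insert a (insert b (insert c (Va ∪ Vb)))) k * q) * q := by
          rw [e1]; ring
      _ = Ncol G Sc k * Ncol G Sa k * (Ncol G (insert b (insert c (insert a Vb))) k * q) := by
          rw [e2]; ring
      _ = (k - 2) * (Ncol G Sa k * Ncol G Sb k * Ncol G Sc k) * q := by
          rw [e3]; ring
  have hpoly : chrom G S * (X * (X - 1)) ^ 2 = (X - 2) * (chrom G Sa * chrom G Sb * chrom G Sc) := by
    apply Polynomial.eq_of_infinite_eval_eq
    apply Set.Infinite.mono (s := (fun k : ℕ => (k : ℤ)) '' {k : ℕ | 2 ≤ k})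
    · rintro _ ⟨k, hk, rfl⟩
      simp only [Set.mem_setOf_eq] at hk ⊢
      simp only [eval_mul, eval_pow, eval_sub, eval_X, eval_one, eval_ofNat, chrom_eval]
      have := key k hk
      have hz : ((Ncol G S k * (k * (k - 1)) ^ 2 : ℕ) : ℤ) =
        (((k - 2) * (Ncol G Sa k * Ncol G Sb k * Ncol G Sc k) : ℕ) : ℤ) := by rw [this]
      push_cast [Nat.cast_sub hk, Nat.cast_sub (by omega : 1 ≤ k)] at hz
      exact hz
    · apply Set.Infinite.image
      · intro x _ y _ h
        exact Int.ofNat.inj h
      · exact Set.infinite_of_not_bddAbove (by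
          rintro ⟨N, hN⟩
          have := hN (show N + 2 ∈ {k : ℕ | 2 ≤ k} by simp)
          omega)
  have hS2 : (chrom G S).eval 2 = 0 := by
    have := congrArg (eval 2) hpoly
    simp only [eval_mul, eval_pow, eval_sub, eval_X, eval_one, eval_ofNat] at this
    norm_num at this
    exact this
  have hd : (derivative (chrom G S)).eval 2 * 4 =
      (chrom G Sa).eval 2 * (chrom G Sb).eval 2 * (chrom G Sc).eval 2 := by
    have := congrArg (fun p => eval 2 (derivative p)) hpoly
    simp only [derivative_mul, derivative_sub, derivative_X, derivative_one, eval_add, eval_mul,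
      eval_pow, eval_sub, eval_X, eval_one, eval_ofNat, hS2, derivative_ofNat, eval_zero] at this
    norm_num at this
    linarith
  have hprod : (chrom G Sa).eval 2 * (chrom G Sb).eval 2 * (chrom G Sc).eval 2 ≠ 0 := by
    rw [← hd]
    exact mul_ne_zero h2 (by norm_num)
  have hc : ∀ W : Finset V, (chrom G W).eval 2 ≠ 0 → (chrom G W).eval 3 ≠ 0 := by
    intro W hW
    have h1 := chrom_eval G W 2
    have h2 := chrom_eval G W 3
    push_cast at h1 h2
    rw [h1] at hW
    rw [h2]
    have := Ncol_mono3 G W (by exact_mod_cast hW)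
    exact_mod_cast this
  have hSa3 := hc Sa (fun h => hprod (by rw [h]; ring))
  have hSb3 := hc Sb (fun h => hprod (by rw [h]; ring))
  have hSc3 := hc Sc (fun h => hprod (by rw [h]; ring))
  have h33 := congrArg (eval 3) hpoly
  simp only [eval_mul, eval_pow, eval_sub, eval_X, eval_one, eval_ofNat, h3] at h33
  norm_num at h33
  rcases h33 with (h | h) | h
  · exact hSa3 h
  · exact hSb3 h
  · exact hSc3 h


end Pool.Agent.Helper391.WheelChi
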