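import Mathlib
import Pool.Agent.Helper391.Wheel.Defs
import Pool.Agent.Helper391.Wheel.W10
import Pool.Agent.Helper391.Wheel.W13
import Pool.Agent.Helper391.Wheel.W14

set_option autoImplicit false

namespace Pool.Agent.Helper391.WheelChi

open Finset Polynomial
open scoped Classical

variable {V : Type} [DecidableEq V]


private theorem Ncol_zero (G : SimpleGraph V) (A : Finset V) (hA : A.Nonempty) : Ncol G A 0 = 0 := by
  unfold Ncol
  obtain ⟨a, ha⟩ := hA
  have : IsEmpty {c : A → Fin 0 // ∀ a b : A, G.Adj a b → c a ≠ c b} :=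
    ⟨fun c => Fin.elim0 (c.1 ⟨a, ha⟩)⟩
  exact Nat.card_of_isEmpty

private theorem chrom_eval_zero (G : SimpleGraph V) (A : Finset V) (hA : A.Nonempty) :
    (chrom G A).eval 0 = 0 := by
  have := chrom_eval G A 0
  rw [Ncol_zero G A hA] at this
  simpa using this

private theorem chrom_mul (G : SimpleGraph V) (A B : Finset V) (dis : Disjoint A B)
    (noE : ∀ a ∈ A, ∀ b ∈ B, ¬ G.Adj a b) : chrom G (A ∪ B) = chrom G A * chrom G B := by
  apply Polynomial.eq_of_infinite_eval_eq
  refine Set.Infinite.mono (s := Set.range (Nat.cast : ℕ → ℤ)) ?_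
    (Set.infinite_range_of_injective Nat.cast_injective)
  rintro _ ⟨k, rfl⟩
  show (chrom G (A ∪ B)).eval (k : ℤ) = (chrom G A * chrom G B).eval (k : ℤ)
  rw [eval_mul, chrom_eval, chrom_eval, chrom_eval, Ncol_glue0 G A B dis noE]
  push_cast
  rfl

theorem twoConn_of_chrom (G : SimpleGraph V) (S : Finset V) (h3 : 3 ≤ #S)
    (h0 : (derivative (chrom G S)).eval 0 ≠ 0) (hb : bb G S ≠ 0) : TwoConn G S := by
  have hC : Conn G S := by
    by_contra hn
    unfold Conn at hn
    push Not at hn
    obtain ⟨B, hBS, hB, hSB, hno⟩ := hn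
    apply h0
    have hS : S = B ∪ (S \ B) := (union_sdiff_of_subset hBS).symm
    have hmul := chrom_mul G B (S \ B) disjoint_sdiff hno
    rw [← hS] at hmul
    rw [hmul, derivative_mul, eval_add, eval_mul, eval_mul, chrom_eval_zero G B hB,
      chrom_eval_zero G (S \ B) hSB]
    ring
  refine ⟨by omega, ?_⟩
  intro F hF
  by_cases hFe : ∃ x ∈ S, S \ F = S \ {x}
  · obtain ⟨x, hx, hxF⟩ := hFe
    rw [hxF]
    by_contra hn
    exact hb (bb_cut G S x hx hC hn)
  · have : S \ F = S := by
      rw [Finset.sdiff_eq_self_iff_disjoint, Finset.disjoint_left]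
      intro x hxS hxF
      apply hFe
      refine ⟨x, hxS, ?_⟩
      have : F = {x} := by
        apply eq_singleton_iff_unique_mem.mpr
        exact ⟨hxF, fun y hy => card_le_one.mp hF y hy x hxF⟩
      rw [this]
    rw [this]
    exact hC


end Pool.Agent.Helper391.WheelChi
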