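import Mathlib
import Pool.Agent.Helper391.Wheel.Defs
import Pool.Agent.Helper391.Wheel.W1
import Pool.Agent.Helper391.Wheel.W2
import Pool.Agent.Helper391.Wheel.W3
import Pool.Agent.Helper391.Wheel.W4
import Pool.Agent.Helper391.Wheel.W5
import Pool.Agent.Helper391.Wheel.W6
import Pool.Agent.Helper391.Wheel.W7
import Pool.Agent.Helper391.Wheel.W8
import Pool.Agent.Helper391.Wheel.W9
import Pool.Agent.Helper391.Wheel.W10
import Pool.Agent.Helper391.Wheel.W11
import Pool.Agent.Helper391.Wheel.W12
import Pool.Agent.Helper391.Wheel.W13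
import Pool.Agent.Helper391.Wheel.W14
import Pool.Agent.Helper391.Wheel.W15
import Pool.Agent.Helper391.Wheel.W16
import Pool.Agent.Helper391.Wheel.W17
import Pool.Agent.Helper391.Wheel.W18
import Pool.Agent.Helper391.Wheel.W19
import Pool.Agent.Helper391.Wheel.W20
import Pool.Agent.Helper391.Wheel.W21
import Pool.Agent.Helper391.Wheel.W22
import Pool.Agent.Helper391.Wheel.W23
import Pool.Agent.Helper391.Wheel.W24
import Pool.Agent.Helper391.Wheel.W25
import Pool.Agent.Helper391.Wheel.W26

set_option autoImplicit false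

namespace Pool.Agent.Helper391.WheelChi

open Finset Polynomial
open scoped Classical

variable {V : Type} [DecidableEq V]

theorem side_deg (G : SimpleGraph V) (S : Finset V) (x y : V) (A B : Finset V)
    (h : TwoConn G S) (h3 : 3 ≤ #S) (hs : TwoSep G S x y A B)
    (hb : bb (addE G x y) (insert x (insert y A)) = 1) :
    ∃ z ∈ A, #(nb G S z) = 2 := by
  have hAS : A ⊆ S := by
    rw [hs.hS]; intro a ha; simp [ha]
  have hnbA : ∀ z ∈ A, nb G S z ⊆ insert x (insert y A) := by
    intro z hz w hw
    simp only [nb, mem_filter] at hw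
    obtain ⟨hwS, hzw⟩ := hw
    rw [hs.hS] at hwS
    simp only [mem_insert, mem_union] at hwS ⊢
    rcases hwS with h | h | h | h
    · exact Or.inl h
    · exact Or.inr (Or.inl h)
    · exact Or.inr (Or.inr h)
    · exact absurd hzw (hs.noE z hz w h)
  have hyA : y ∉ A := hs.yA
  have hxyA : x ∉ insert y A := by
    simp only [mem_insert, not_or]; exact ⟨hs.hxy, hs.xA⟩
  have hcard : #(insert x (insert y A)) = #A + 2 := by
    rw [card_insert_of_notMem hxyA, card_insert_of_notMem hyA]
  by_cases h1 : #A = 1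
  · obtain ⟨z, rfl⟩ := card_eq_one.1 h1
    refine ⟨z, mem_singleton_self z, ?_⟩
    have hz : z ∈ S := hAS (mem_singleton_self z)
    have h2 := two_nb G S h h3 z hz
    have hsub : nb G S z ⊆ {x, y} := by
      intro w hw
      have hw1 := hnbA z (mem_singleton_self z) hw
      simp only [mem_insert, mem_singleton] at hw1 ⊢
      rcases hw1 with h | h | h
      · exact Or.inl h
      · exact Or.inr h
      · subst h
        simp [nb] at hw
    have := card_le_card hsub
    have h4 : #({x, y} : Finset V) ≤ 2 := card_le_two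
    omega
  · have hA1 : 1 ≤ #A := hs.neA.card_pos
    have hT := side_twoConn G S x y A B h hs
    obtain ⟨z, hz, w, hw, hzw, hna, hdz, hdw⟩ := sp_deg _ _ hT (by omega) hb
    have key : ∀ t ∈ insert x (insert y A), t ∈ A →
        nb G S t = nb (addE G x y) (insert x (insert y A)) t := by
      intro t _ htA
      have htx : t ≠ x := fun h => hs.xA (h ▸ htA)
      have hty : t ≠ y := fun h => hs.yA (h ▸ htA)
      ext r
      constructor
      · intro hr
        have h1 := hnbA t htA hr
        simp only [nb, mem_filter] at hr ⊢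
        exact ⟨h1, hr.2.ne, Or.inl hr.2⟩
      · intro hr
        rw [nb, mem_filter] at hr
        obtain ⟨hr1, hr2, hr3⟩ := hr
        rw [nb, mem_filter]
        refine ⟨?_, ?_⟩
        · rw [hs.hS]
          simp only [mem_insert, mem_union] at hr1 ⊢
          tauto
        · rcases hr3 with h | ⟨h, _⟩ | ⟨h, _⟩
          · exact h
          · exact absurd h htx
          · exact absurd h hty
    have hor : z ∈ A ∨ w ∈ A := by
      by_contra hc
      push Not at hc
      simp only [mem_insert] at hz hw
      have hz' : z = x ∨ z = y := by tauto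
      have hw' : w = x ∨ w = y := by tauto
      apply hna
      rcases hz' with rfl | rfl <;> rcases hw' with rfl | rfl
      · exact absurd rfl hzw
      · exact ⟨hzw, Or.inr (Or.inl ⟨rfl, rfl⟩)⟩
      · exact ⟨hzw, Or.inr (Or.inr ⟨rfl, rfl⟩)⟩
      · exact absurd rfl hzw
    rcases hor with hA | hA
    · exact ⟨z, hA, by rw [key z hz hA]; exact hdz⟩
    · exact ⟨w, hA, by rw [key w hw hA]; exact hdw⟩

theorem TwoSep.swap {G : SimpleGraph V} {S : Finset V} {x y : V} {A B : Finset V}
    (h : TwoSep G S x y A B) : TwoSep G S x y B A where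
  hS := by rw [h.hS, union_comm]
  hxy := h.hxy
  xA := h.xB
  xB := h.xA
  yA := h.yB
  yB := h.yA
  dis := h.dis.symm
  neA := h.neB
  neB := h.neA
  noE := fun a ha b hb hab => h.noE b hb a ha hab.symm

/-- a degree two vertex with nonadjacent neighbours is impossible in the critical situation -/
theorem no_deg_two (G : SimpleGraph V) (S : Finset V) (h : TwoConn G S) (h4 : 4 ≤ #S)
    (hb : 10 ≤ bb G S) (he : Even (bb G S)) (hj : 0 ≤ jj G S) (C : V → Fin 4)
    (hth : bb G S < th G S C) (hall : ∀ T ∈ cl G 3 S, Thick G S T)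
    (z : V) (hz : z ∈ S) (hd : #(nb G S z) = 2) : False := by
  obtain ⟨p, q, hpq, hnb⟩ := card_eq_two.1 hd
  have hp : p ∈ nb G S z := by rw [hnb]; simp
  have hq : q ∈ nb G S z := by rw [hnb]; simp
  simp only [nb, mem_filter] at hp hq
  obtain ⟨hpS, hzp⟩ := hp
  obtain ⟨hqS, hzq⟩ := hq
  have honly : ∀ w ∈ S, G.Adj z w → w = p ∨ w = q := by
    intro w hw hzw
    have : w ∈ nb G S z := by simp only [nb, mem_filter]; exact ⟨hw, hzw⟩
    rw [hnb] at this
    simpa using this
  have hnpq : ¬ G.Adj p q := by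
    intro hadj
    have hT : ({z, p, q} : Finset V) ∈ cl G 3 S := by
      simp only [cl, mem_filter, mem_powersetCard]
      refine ⟨⟨?_, ?_⟩, ?_⟩
      · intro w hw
        simp only [mem_insert, mem_singleton] at hw
        rcases hw with rfl | rfl | rfl <;> assumption
      · rw [card_eq_three]
        exact ⟨z, p, q, hzp.ne, hzq.ne, hpq, rfl⟩
      · intro a ha b hb hab
        simp only [coe_insert, coe_singleton, Set.mem_insert_iff, Set.mem_singleton_iff] at ha hb
        rcases ha with rfl | rfl | rfl <;> rcases hb with rfl | rfl | rfl <;>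
          first
            | exact absurd rfl hab
            | assumption
            | (apply SimpleGraph.Adj.symm; assumption)
    obtain ⟨K, hK, _, _, hKa⟩ := hall _ hT
    obtain ⟨w, hw, hzw⟩ := hKa z (by simp)
    have hwS := hK hw
    simp only [mem_sdiff, mem_insert, mem_singleton] at hwS
    rcases honly w hwS.1 hzw with rfl | rfl
    · exact hwS.2 (by tauto)
    · exact hwS.2 (by tauto)
  have hsep : TwoSep G S p q ((S.erase z).erase p |>.erase q) {z} := by
    refine ⟨?_, hpq, ?_, ?_, ?_, ?_, ?_, ?_, ?_, ?_⟩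
    · ext w
      simp only [mem_insert, mem_union, mem_erase, mem_singleton]
      constructor
      · intro hw
        by_cases h1 : w = p
        · exact Or.inl h1
        by_cases h2 : w = q
        · exact Or.inr (Or.inl h2)
        by_cases h3 : w = z
        · exact Or.inr (Or.inr (Or.inr h3))
        exact Or.inr (Or.inr (Or.inl ⟨h2, h1, h3, hw⟩))
      · rintro (rfl | rfl | h | rfl)
        · exact hpS
        · exact hqS
        · exact h.2.2.2
        · exact hz
    · simp
    · simp only [mem_singleton]; exact hzp.ne.symm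
    · simp
    · simp only [mem_singleton]; exact hzq.ne.symm
    · rw [disjoint_singleton_right]; simp
    · rw [← card_pos, card_erase_of_mem, card_erase_of_mem, card_erase_of_mem hz]
      · omega
      · exact mem_erase.2 ⟨hzp.ne.symm, hpS⟩
      · exact mem_erase.2 ⟨hpq.symm, mem_erase.2 ⟨hzq.ne.symm, hqS⟩⟩
    · exact singleton_nonempty z
    · intro a ha b hb hab
      simp only [mem_erase, mem_singleton] at ha hb
      subst hb
      rcases honly a ha.2.2.2 hab.symm with h | h
      · exact ha.2.1 h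
      · exact ha.1 h
  set A := ((S.erase z).erase p |>.erase q) with hA
  have hbs := bb_sep G S p q A {z} h hsep
  have hT1 := side_twoConn G S p q A {z} h hsep
  have hT2 := side_twoConn G S p q {z} A h hsep.swap
  have hc2 : #(insert p (insert q ({z} : Finset V))) = 3 := by
    rw [card_eq_three]
    exact ⟨p, q, z, hpq, hzp.ne.symm, hzq.ne.symm, rfl⟩
  have hb2 := bb_three _ _ hT2 hc2
  rw [hb2, mul_one] at hbs
  have hjj2 := bb_two _ _ hT2 (by omega)
  rw [hb2] at hjj2
  have hec := ec_sep G S p q A {z} hsep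
  rw [if_neg hnpq] at hec
  have hcA : #(insert p (insert q A)) = #S - 1 := by
    have h1 : p ∉ insert q A := by
      simp only [mem_insert, not_or]; exact ⟨hpq, hsep.xA⟩
    rw [card_insert_of_notMem h1, card_insert_of_notMem hsep.yA]
    have h2 : #S = #(insert p (insert q (A ∪ {z}))) := by rw [← hsep.hS]
    have h3 : q ∉ A ∪ {z} := by
      simp only [mem_union, not_or]; exact ⟨hsep.yA, hsep.yB⟩
    have h4 : p ∉ insert q (A ∪ {z}) := by
      simp only [mem_insert, mem_union, not_or]; exact ⟨hpq, hsep.xA, hsep.xB⟩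
    rw [card_insert_of_notMem h4, card_insert_of_notMem h3, card_union_of_disjoint hsep.dis,
      card_singleton] at h2
    omega
  have hjj1 : 1 ≤ jj (addE G p q) (insert p (insert q A)) := by
    unfold jj at hj hjj2 ⊢
    rw [hc2] at hjj2
    rw [hcA]
    have : ((#S - 1 : ℕ) : ℤ) = (#S : ℤ) - 1 := by
      rw [Nat.cast_sub (by omega)]; simp
    rw [this]
    push_cast at hjj2
    linarith
  have h3A : 3 ≤ #(insert p (insert q A)) := by omega
  have hth1 := th_le_bb _ _ hT1 h3A (by rw [← hbs]; exact hb) (by rw [← hbs]; exact he) hjj1 C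
  have hth2 := th_le_gg _ _ hT2 (by omega) C
  rw [hb2] at hth2
  have hth0 := th_sep G S p q A {z} hsep C
  have hgg : gg 1 = 0 := by simp [gg]
  rw [hgg] at hth2
  rw [← hbs] at hth1
  have : (th G S C : ℤ) ≤ th (addE G p q) (insert p (insert q A)) C
      + th (addE G p q) (insert p (insert q {z})) C := by exact_mod_cast hth0
  linarith

theorem threeConn_of (G : SimpleGraph V) (S : Finset V) (h : TwoConn G S) (h4 : 4 ≤ #S)
    (hb : 10 ≤ bb G S) (he : Even (bb G S)) (hj : 0 ≤ jj G S) (C : V → Fin 4)
    (hth : bb G S < th G S C) (hall : ∀ T ∈ cl G 3 S, Thick G S T) : ThreeConn G S := by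
  by_contra hn
  obtain ⟨x, y, A, B, hs⟩ := exists_twoSep G S h h4 hn
  have hT1 := side_twoConn G S x y A B h hs
  have hT2 := side_twoConn G S x y B A h hs.swap
  have hb1 := bb_pos _ _ hT1
  have hb2 := bb_pos _ _ hT2
  have hbs := bb_sep G S x y A B h hs
  have hAS : A ⊆ S := by rw [hs.hS]; intro a ha; simp [ha]
  have hBS : B ⊆ S := by rw [hs.hS]; intro a ha; simp [ha]
  by_cases h1 : bb (addE G x y) (insert x (insert y A)) = 1
  · obtain ⟨z, hz, hd⟩ := side_deg G S x y A B h (by omega) hs h1
    exact no_deg_two G S h h4 hb he hj C hth hall z (hAS hz) hd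
  by_cases h2 : bb (addE G x y) (insert x (insert y B)) = 1
  · obtain ⟨z, hz, hd⟩ := side_deg G S x y B A h (by omega) hs.swap h2
    exact no_deg_two G S h h4 hb he hj C hth hall z (hBS hz) hd
  have h3A : 3 ≤ #(insert x (insert y A)) := by
    have h1 : x ∉ insert y A := by
      simp only [mem_insert, not_or]; exact ⟨hs.hxy, hs.xA⟩
    rw [card_insert_of_notMem h1, card_insert_of_notMem hs.yA]
    have := hs.neA.card_pos
    omega
  have h3B : 3 ≤ #(insert x (insert y B)) := by
    have h1 : x ∉ insert y B := by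
      simp only [mem_insert, not_or]; exact ⟨hs.hxy, hs.xB⟩
    rw [card_insert_of_notMem h1, card_insert_of_notMem hs.yB]
    have := hs.neB.card_pos
    omega
  have g1 := th_le_gg _ _ hT1 h3A C
  have g2 := th_le_gg _ _ hT2 h3B C
  have hten := gg_ten _ _ (show 2 ≤ bb (addE G x y) (insert x (insert y A)) by omega)
    (show 2 ≤ bb (addE G x y) (insert x (insert y B)) by omega) (by rw [← hbs]; exact hb)
  have hth0 := th_sep G S x y A B hs C
  have : (th G S C : ℤ) ≤ th (addE G x y) (insert x (insert y A)) C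
      + th (addE G x y) (insert x (insert y B)) C := by exact_mod_cast hth0
  rw [← hbs] at hten
  linarith

/-- abstract main theorem -/
theorem main_abs (G : SimpleGraph V) (S : Finset V) (n : ℕ) (hn : 11 ≤ n) (hodd : Odd n)
    (hP : chrom G S = X * ((X - 2) ^ n - (X - 2))) :
    ThreeConn G S ∧ #S = n + 1 ∧ ∃ r ∈ S, ∀ y ∈ S, y ≠ r → G.Adj r y ∧ #(nb G S y) = 3 := by
  obtain ⟨hev, hdeg, hmon, hc1, hc2⟩ := (exists_chrom G S).choose_spec
  change (∀ k : ℕ, (chrom G S).eval (k : ℤ) = Ncol G S k) at hev
  change (chrom G S).natDegree = #S at hdeg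
  change (∀ i, #S = i + 1 → (chrom G S).coeff i = -(ec G S : ℤ)) at hc1
  change (∀ i, #S = i + 2 → 2 * (chrom G S).coeff i = (ec G S : ℤ) * (ec G S - 1) - 2 * tc G S)
    at hc2
  have h2C : (2 : ℤ[X]) = C 2 := by simp
  have h2C' : (X - 2 : ℤ[X]) = X + C (-2) := by rw [h2C, C_neg]; ring
  have hd1 : ((X - 2 : ℤ[X]) ^ n - (X - 2)).natDegree = n := by
    have h1 : ((X - 2 : ℤ[X]) ^ n).natDegree = n := by
      rw [h2C', natDegree_pow_X_add_C]
    rw [natDegree_sub_eq_left_of_natDegree_lt, h1]
    rw [h1, h2C, natDegree_X_sub_C]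
    omega
  have hne : ((X - 2 : ℤ[X]) ^ n - (X - 2)) ≠ 0 := by
    intro h0; rw [h0] at hd1; simp at hd1; omega
  have hS : #S = n + 1 := by
    rw [← hdeg, hP, natDegree_X_mul hne, hd1]
  have hcoef : ∀ i, 2 ≤ i → (chrom G S).coeff (i + 1) = (-2) ^ (n - i) * (n.choose i : ℤ) := by
    intro i hi
    rw [hP, coeff_X_mul, coeff_sub, h2C', coeff_X_add_C_pow]
    have : ((X : ℤ[X]) + C (-2)).coeff i = 0 := by
      apply coeff_eq_zero_of_natDegree_lt
      rw [natDegree_X_add_C]; omega
    rw [this]; ring
  have hec : ec G S = 2 * n := by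
    have h1 := hc1 n hS
    have h2 := hcoef (n - 1) (by omega)
    rw [show n - 1 + 1 = n by omega] at h2
    rw [h2, show n - (n - 1) = 1 by omega] at h1
    have h3 : n.choose (n - 1) = n := by
      rw [Nat.choose_symm (by omega : 1 ≤ n)]; simp
    rw [h3] at h1
    have : (ec G S : ℤ) = 2 * n := by linarith
    exact_mod_cast this
  have htc : tc G S = n := by
    have h1 := hc2 (n - 1) (by omega)
    have h2 := hcoef (n - 2) (by omega)
    rw [show n - 2 + 1 = n - 1 by omega] at h2
    rw [h2, show n - (n - 2) = 2 by omega, hec] at h1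
    have h3 : n.choose (n - 2) = n.choose 2 := Nat.choose_symm (by omega : 2 ≤ n)
    rw [h3] at h1
    have h4 : (n.choose 2 : ℤ) * 2 = n * (n - 1) := by
      have := Nat.choose_two_right n
      have h5 : n.choose 2 * 2 = n * (n - 1) := by
        rw [this]; exact Nat.div_mul_cancel (Nat.even_mul_pred_self n).two_dvd
      have h6 : ((n - 1 : ℕ) : ℤ) = (n : ℤ) - 1 := by rw [Nat.cast_sub (by omega)]; simp
      rw [← h6]; exact_mod_cast h5
    have : (tc G S : ℤ) = n := by
      push_cast at h1
      nlinarith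
    exact_mod_cast this
  have hder : ∀ a : ℤ, (derivative (chrom G S)).eval a =
      ((a - 2) ^ n - (a - 2)) + a * (n * (a - 2) ^ (n - 1) - 1) := by
    intro a
    rw [hP, h2C]
    simp only [derivative_mul, derivative_X, one_mul, derivative_sub, derivative_X_sub_C_pow,
      derivative_C, sub_zero, eval_add, eval_sub, eval_mul, eval_pow, eval_X, eval_C,
      eval_one]
  have hodd1 : ((-1 : ℤ)) ^ n = -1 := hodd.neg_one_pow
  have heven1 : Even (n - 1) := by
    obtain ⟨m, hm⟩ := hodd; exact ⟨m, by omega⟩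
  have hev1 : ((-1 : ℤ)) ^ (n - 1) = 1 := heven1.neg_one_pow
  have hbb : bb G S = n - 1 := by
    unfold bb
    rw [hder 1, hS]
    rw [show (1 : ℤ) - 2 = -1 by norm_num, hodd1, hev1, pow_succ, hodd1]
    ring
  have hd0 : (derivative (chrom G S)).eval 0 ≠ 0 := by
    rw [hder 0]
    have h1 : ((0 : ℤ) - 2) ^ n = - 2 ^ n := by
      rw [zero_sub, hodd.neg_pow]
    rw [h1]
    have h2 : (2 : ℤ) ^ n ≥ 2 ^ 2 := by
      apply pow_le_pow_right₀ (by norm_num) (by omega)
    intro h
    norm_num at h
    linarith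
  have hd2 : (derivative (chrom G S)).eval 2 ≠ 0 := by
    rw [hder 2]
    rw [show (2 : ℤ) - 2 = 0 by norm_num, zero_pow (by omega), zero_pow (by omega)]
    norm_num
  have h30 : (chrom G S).eval 3 = 0 := by
    rw [hP]; simp
  have hTwo : TwoConn G S := twoConn_of_chrom G S (by omega) hd0 (by
    rw [hbb]
    have : (11 : ℤ) ≤ n := by exact_mod_cast hn
    omega)
  have hall : ∀ T ∈ cl G 3 S, Thick G S T := fun T hT => all_thick G S hd2 h30 T hT
  have h4 : Ncol G S 4 ≠ 0 := by
    intro h0
    have := hev 4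
    rw [h0, hP] at this
    have h2 : (2 : ℤ) ^ n ≥ 2 ^ 2 := by
      apply pow_le_pow_right₀ (by norm_num) (by omega)
    simp at this
    linarith
  have hcol : Nonempty {c : S → Fin 4 // ∀ a b : S, G.Adj a b → c a ≠ c b} := by
    unfold Ncol at h4
    exact (Nat.card_ne_zero.1 h4).1
  obtain ⟨c, hc⟩ := hcol
  let D : V → Fin 4 := fun x => if h : x ∈ S then c ⟨x, h⟩ else 0
  have hth : th G S D = n := by
    rw [← htc]
    unfold th tc
    congr 1
    rw [filter_eq_self]
    intro T hT
    refine ⟨hall T hT, ?_⟩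
    simp only [cl, mem_filter, mem_powersetCard] at hT
    obtain ⟨⟨hTS, _⟩, hTc⟩ := hT
    intro a ha b hb hab
    by_contra hne
    have haS := hTS ha
    have hbS := hTS hb
    have hadj := hTc ha hb hne
    simp only [D, dif_pos haS, dif_pos hbS] at hab
    exact hc ⟨a, haS⟩ ⟨b, hbS⟩ hadj hab
  have hjj : jj G S = 0 := by
    unfold jj
    rw [hec, hS]
    push_cast
    ring
  have hn' : (11 : ℤ) ≤ n := by exact_mod_cast hn
  have hevb : Even (bb G S) := by
    rw [hbb]
    obtain ⟨m, hm⟩ := hodd
    exact ⟨m, by rw [hm]; push_cast; ring⟩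
  have h3c : ThreeConn G S := by
    apply threeConn_of G S hTwo (by omega) (by rw [hbb]; linarith) hevb (by rw [hjj]) D _ hall
    rw [hbb, hth]
    linarith
  refine ⟨h3c, hS, ?_⟩
  apply wheel_rec G S h3c hjj
  · rw [hbb, hS]; push_cast; ring
  · rw [htc, hS]

theorem Ncol_univ [Fintype V] (H : SimpleGraph V) (k : ℕ) :
    Ncol H univ k = Nat.card (H.Coloring (Fin k)) := by
  unfold Ncol
  apply Nat.card_congr
  exact
    { toFun := fun c => SimpleGraph.Coloring.mk (fun x => c.1 ⟨x, mem_univ x⟩)
        (fun {a b} hab => c.2 ⟨a, mem_univ a⟩ ⟨b, mem_univ b⟩ hab)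
      invFun := fun c => ⟨fun x => c x.1, fun a b hab => c.valid hab⟩
      left_inv := fun c => by
        apply Subtype.ext
        funext x
        rfl
      right_inv := fun c => by
        apply RelHom.ext
        intro x
        rfl }

theorem final (n : ℕ) (hn : 11 ≤ n) (hodd : Odd n) (V : Type) [Fintype V] (H : SimpleGraph V)
    (hH : ∀ k : ℕ, Nat.card (H.Coloring (Fin k)) = Nat.card ((Wh n).Coloring (Fin k))) :
    Nonempty (H ≃g Wh n) := by
  classical
  have hP : chrom H univ = X * ((X - 2) ^ n - (X - 2)) := by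
    apply Polynomial.eq_of_infinite_eval_eq
    apply Set.Infinite.mono (s := Set.range (fun k : ℕ => (k : ℤ)))
    · rintro _ ⟨k, rfl⟩
      change (chrom H univ).eval (k : ℤ) = _
      rw [chrom_eval, Ncol_univ, hH k, wheel_count n (by omega) k, hodd.neg_one_pow]
      simp only [eval_mul, eval_X, eval_sub, eval_pow, eval_ofNat]
      ring
    · exact Set.infinite_range_of_injective Nat.cast_injective
  obtain ⟨h3, hcard, r, hr, hrr⟩ := main_abs H univ n hn hodd hP
  apply wheel_iso n (by omega) V H (by rw [← hcard, card_univ]) r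
  · intro y hy
    exact (hrr y (mem_univ y) hy).1
  · intro y hy
    exact (hrr y (mem_univ y) hy).2
  · exact h3.2 {r} (by simp)

end Pool.Agent.Helper391.WheelChi
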